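import Pool.Agent.Lib_helper31.LG.Defs

/-! ## Block GA: bounds for the weights `V i` -/

set_option autoImplicit false

namespace Pool.Agent.LG

open Complex MeasureTheory Set ProbabilityTheory
open Pool.Agent.LSP (tau GG CC CB Gs sg1 QN sh OD)
open Pool.Agent.LSPO (KK cl GOK)
open Pool.Agent.LK (KerC PQ V MT OM SH HH Qe hm)
open Pool.Agent.LE (xv HP SuppIn H2)
open Pool.Agent.LVB (IsST)

/-- the assertion on a weight -/
def GaOk (i : ℕ) (C : ℝ) (v : ℝ → ℝ) : Prop :=
  (∀ y : ℝ, 0 < y → 0 ≤ v y ∧ v y ≤ C * (1 + |Real.log y|) ^ i * Real.exp (-y)) ∧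
    (∀ y : ℝ, 1 ≤ y → v y ≤ Real.exp (-(2 * Real.pi * y))) ∧
    ∀ m y y' : ℝ, 0 < m → m ≤ 1 → m ≤ y → m ≤ y' → |v y - v y'| ≤ C / m ^ 2 * |y - y'|

theorem ga_two_pi : (1 : ℝ) ≤ 2 * Real.pi := by
  have := Real.pi_gt_three
  linarith

/-- the constant of the pointwise bound -/
theorem ga_pt {i : ℕ} {C : ℝ} {v : ℝ → ℝ} (hC : 1 ≤ C) (h : GaOk i C v) {m t : ℝ} (hm : 0 < m)
    (hm1 : m ≤ 1) (ht : m ≤ t) :
    v t / t ≤ C * i.factorial * Real.exp 2 / m ^ 2 * Real.exp (-t) := by
  obtain ⟨h1, h2, -⟩ := h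
  have ht0 : 0 < t := lt_of_lt_of_le hm ht
  have hfac : (1 : ℝ) ≤ i.factorial := by exact_mod_cast Nat.one_le_iff_ne_zero.2 i.factorial_ne_zero
  have hm2 : 0 < m ^ 2 := by positivity
  have hm21 : m ^ 2 ≤ 1 := by nlinarith
  have hexp2 : (1 : ℝ) ≤ Real.exp 2 := Real.one_le_exp (by norm_num)
  rcases le_or_gt 1 t with h | h
  · have hb : v t / t ≤ Real.exp (-t) := by
      rw [div_le_iff₀ ht0]
      have h3 := h2 t h
      have h4 : Real.exp (-(2 * Real.pi * t)) ≤ Real.exp (-t) := by
        apply Real.exp_le_exp.2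
        have := ga_two_pi
        nlinarith
      have h5 : 0 < Real.exp (-t) := Real.exp_pos _
      nlinarith
    refine hb.trans ?_
    have h6 : 1 ≤ C * i.factorial * Real.exp 2 / m ^ 2 := by
      rw [le_div_iff₀ hm2]
      have : (1 : ℝ) ≤ C * i.factorial := by nlinarith
      nlinarith
    have h5 : 0 < Real.exp (-t) := Real.exp_pos _
    nlinarith
  · have hlog : |Real.log t| = -Real.log t := abs_of_nonpos (Real.log_nonpos ht0.le h.le)
    have hp : (1 + |Real.log t|) ^ i ≤ i.factorial * (Real.exp 1 / t) := by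
      have h3 := Real.pow_div_factorial_le_exp (1 + |Real.log t|) (by positivity) i
      rw [div_le_iff₀ (by positivity)] at h3
      have h4 : Real.exp (1 + |Real.log t|) = Real.exp 1 / t := by
        rw [hlog, Real.exp_add, Real.exp_neg, Real.exp_log ht0]
        rfl
      rw [h4] at h3
      linarith
    have hv := (h1 t ht0).2
    have he : Real.exp (-t) ≤ 1 := Real.exp_le_one_iff.2 (by linarith)
    have he1 : 1 ≤ Real.exp 1 * Real.exp (-t) := by
      rw [← Real.exp_add]
      exact Real.one_le_exp (by linarith)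
    have hv2 : v t ≤ C * (i.factorial * (Real.exp 1 / t)) := by
      refine hv.trans ?_
      have h5 : 0 ≤ C * (1 + |Real.log t|) ^ i := by positivity
      calc C * (1 + |Real.log t|) ^ i * Real.exp (-t) ≤ C * (1 + |Real.log t|) ^ i * 1 :=
            mul_le_mul_of_nonneg_left he h5
        _ = C * (1 + |Real.log t|) ^ i := mul_one _
        _ ≤ _ := mul_le_mul_of_nonneg_left hp (by linarith)
    have h7 : v t / t ≤ C * i.factorial * Real.exp 1 / t ^ 2 := by
      rw [div_le_iff₀ ht0]
      have : C * i.factorial * Real.exp 1 / t ^ 2 * t = C * (i.factorial * (Real.exp 1 / t)) := by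
        field_simp
      rw [this]
      exact hv2
    have h8 : C * i.factorial * Real.exp 1 / t ^ 2 ≤ C * i.factorial * Real.exp 1 / m ^ 2 := by
      apply div_le_div_of_nonneg_left (by positivity) hm2
      exact pow_le_pow_left₀ hm.le ht 2
    have h9 : C * i.factorial * Real.exp 1 / m ^ 2 ≤
        C * i.factorial * Real.exp 2 / m ^ 2 * Real.exp (-t) := by
      have h10 : C * i.factorial * Real.exp 2 / m ^ 2 * Real.exp (-t) =
          C * i.factorial * Real.exp 1 / m ^ 2 * (Real.exp 1 * Real.exp (-t)) := by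
        have : Real.exp 2 = Real.exp 1 * Real.exp 1 := by
          rw [← Real.exp_add]
          norm_num
        rw [this]
        ring
      rw [h10]
      have h11 : 0 ≤ C * i.factorial * Real.exp 1 / m ^ 2 := by positivity
      exact le_mul_of_one_le_right h11 he1
    exact h7.trans (h8.trans h9)

theorem ga_cont {i : ℕ} {C : ℝ} {v : ℝ → ℝ} (hC : 1 ≤ C) (h : GaOk i C v) :
    ContinuousOn v (Ioi 0) := by
  obtain ⟨-, -, h3⟩ := h
  intro y hy
  rw [mem_Ioi] at hy
  apply ContinuousAt.continuousWithinAt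
  rw [Metric.continuousAt_iff]
  intro ε hε
  set m : ℝ := min (y / 2) 1 with hm
  have hm0 : 0 < m := lt_min (by linarith) one_pos
  have hm1 : m ≤ 1 := min_le_right _ _
  have hmy : m ≤ y / 2 := min_le_left _ _
  set L : ℝ := C / m ^ 2 with hL
  have hL0 : 0 < L := by positivity
  refine ⟨min (y / 2) (ε / (2 * L)), lt_min (by linarith) (by positivity), ?_⟩
  intro x hx
  rw [Real.dist_eq] at hx ⊢
  have hx1 := lt_of_lt_of_le hx (min_le_left _ _)
  have hx2 := lt_of_lt_of_le hx (min_le_right _ _)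
  have hxm : m ≤ x := by
    have := abs_lt.1 hx1
    linarith [this.1]
  have h4 := h3 m x y hm0 hm1 hxm (by linarith)
  have h5 : L * |x - y| ≤ L * (ε / (2 * L)) := mul_le_mul_of_nonneg_left hx2.le hL0.le
  have h6 : L * (ε / (2 * L)) = ε / 2 := by field_simp
  linarith

theorem ga_int {i : ℕ} {C : ℝ} {v : ℝ → ℝ} (hC : 1 ≤ C) (h : GaOk i C v) {y : ℝ} (hy : 0 < y) :
    IntegrableOn (fun t => v t / t) (Ioi y) := by
  have hsub : Ioi y ⊆ Ioi (0 : ℝ) := Ioi_subset_Ioi hy.le
  have hcont : ContinuousOn (fun t => v t / t) (Ioi y) :=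
    ((ga_cont hC h).mono hsub).div continuousOn_id (fun t ht => ne_of_gt (hsub ht))
  set m : ℝ := min y 1 with hm
  have hm0 : 0 < m := lt_min hy one_pos
  have hg : IntegrableOn (fun t : ℝ => C * i.factorial * Real.exp 2 / m ^ 2 * Real.exp (-t))
      (Ioi y) := (integrableOn_exp_neg_Ioi y).const_mul _
  refine Integrable.mono' hg (hcont.aestronglyMeasurable measurableSet_Ioi) ?_
  refine (ae_restrict_iff' measurableSet_Ioi).2 (Filter.Eventually.of_forall fun t ht => ?_)
  rw [mem_Ioi] at ht
  have ht0 : 0 < t := hy.trans ht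
  rw [Real.norm_eq_abs, abs_of_nonneg (div_nonneg (h.1 t ht0).1 ht0.le)]
  exact ga_pt hC h hm0 (min_le_right _ _) ((min_le_left _ _).trans ht.le)

theorem ga_split {i : ℕ} {C : ℝ} {v : ℝ → ℝ} (hC : 1 ≤ C) (h : GaOk i C v) {y y' : ℝ}
    (hy : 0 < y) (hyy : y ≤ y') :
    ∫ t in Ioi y, v t / t = (∫ t in Ioc y y', v t / t) + ∫ t in Ioi y', v t / t := by
  have h1 := ga_int hC h hy
  rw [← Ioc_union_Ioi_eq_Ioi hyy] at h1 ⊢
  exact setIntegral_union (Ioc_disjoint_Ioi le_rfl) measurableSet_Ioi h1.left_of_union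
    h1.right_of_union

theorem ga_succ {i : ℕ} {C : ℝ} {v : ℝ → ℝ} (hC : 1 ≤ C) (h : GaOk i C v) :
    GaOk (i + 1) (C * i.factorial * Real.exp 2) (fun y => ∫ t in Ioi y, v t / t) := by
  have hfac : (1 : ℝ) ≤ i.factorial := by exact_mod_cast Nat.one_le_iff_ne_zero.2 i.factorial_ne_zero
  have hexp2 : (1 : ℝ) ≤ Real.exp 2 := Real.one_le_exp (by norm_num)
  have hD1 : C * Real.exp 1 ≤ C * i.factorial * Real.exp 2 := by
    have e1 : Real.exp 1 ≤ Real.exp 2 := Real.exp_le_exp.2 (by norm_num)
    have : C ≤ C * i.factorial := le_mul_of_one_le_right (by linarith) hfac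
    have h0 : 0 ≤ Real.exp 1 := (Real.exp_pos _).le
    nlinarith
  have hnn : ∀ y : ℝ, 0 < y → 0 ≤ ∫ t in Ioi y, v t / t := by
    intro y hy
    refine setIntegral_nonneg measurableSet_Ioi fun t ht => ?_
    have ht0 : 0 < t := hy.trans ht
    exact div_nonneg (h.1 t ht0).1 ht0.le
  have h2 : ∀ y : ℝ, 1 ≤ y → ∫ t in Ioi y, v t / t ≤ Real.exp (-(2 * Real.pi * y)) := by
    intro y hy
    have hneg : -(2 * Real.pi) < 0 := by have := ga_two_pi; linarith
    have hi : IntegrableOn (fun t : ℝ => Real.exp (-(2 * Real.pi) * t)) (Ioi y) :=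
      integrableOn_exp_mul_Ioi hneg y
    have hle : ∫ t in Ioi y, v t / t ≤ ∫ t in Ioi y, Real.exp (-(2 * Real.pi) * t) := by
      refine setIntegral_mono_on (ga_int hC h (by linarith)) hi measurableSet_Ioi ?_
      intro t ht
      rw [mem_Ioi] at ht
      have ht1 : 1 ≤ t := by linarith
      have ht0 : 0 < t := by linarith
      rw [div_le_iff₀ ht0]
      have h3 := h.2.1 t ht1
      have h4 : Real.exp (-(2 * Real.pi * t)) = Real.exp (-(2 * Real.pi) * t) := by ring_nf
      rw [h4] at h3
      have h5 : 0 < Real.exp (-(2 * Real.pi) * t) := Real.exp_pos _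
      nlinarith
    refine hle.trans ?_
    rw [integral_exp_mul_Ioi hneg y]
    have h6 : -Real.exp (-(2 * Real.pi) * y) / -(2 * Real.pi) =
        Real.exp (-(2 * Real.pi * y)) / (2 * Real.pi) := by
      rw [neg_div_neg_eq]
      ring_nf
    rw [h6]
    exact div_le_self (Real.exp_pos _).le ga_two_pi
  refine ⟨fun y hy => ⟨hnn y hy, ?_⟩, h2, ?_⟩
  · have hL : 0 ≤ |Real.log y| := abs_nonneg _
    rcases le_or_gt 1 y with h1 | h1
    · refine (h2 y h1).trans ?_
      have h4 : Real.exp (-(2 * Real.pi * y)) ≤ Real.exp (-y) := by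
        apply Real.exp_le_exp.2
        have := ga_two_pi
        nlinarith
      refine h4.trans ?_
      have h5 : (1 : ℝ) ≤ (1 + |Real.log y|) ^ (i + 1) := one_le_pow₀ (by linarith)
      have h6 : 1 ≤ C * i.factorial * Real.exp 2 := by
        have : (1 : ℝ) ≤ C * i.factorial := by nlinarith
        nlinarith
      have h7 : 1 ≤ C * i.factorial * Real.exp 2 * (1 + |Real.log y|) ^ (i + 1) := by nlinarith
      exact le_mul_of_one_le_left (Real.exp_pos _).le h7
    · have hlog : |Real.log y| = -Real.log y := abs_of_nonpos (Real.log_nonpos hy.le h1.le)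
      show (∫ t in Ioi y, v t / t) ≤ _
      rw [ga_split hC h hy h1.le]
      have hw1 : ∫ t in Ioi (1 : ℝ), v t / t ≤ 1 := by
        refine (h2 1 le_rfl).trans ?_
        rw [Real.exp_le_one_iff]
        have := ga_two_pi
        linarith
      have hmid : ∫ t in Ioc y 1, v t / t ≤ C * (1 + |Real.log y|) ^ i * |Real.log y| := by
        have hconst : IntegrableOn (fun t : ℝ => C * (1 + |Real.log y|) ^ i * t⁻¹) (Ioc y 1) := by
          have : ContinuousOn (fun t : ℝ => C * (1 + |Real.log y|) ^ i * t⁻¹) (Icc y 1) := by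
            refine continuousOn_const.mul (continuousOn_inv₀.mono ?_)
            intro t ht
            have : 0 < t := lt_of_lt_of_le hy ht.1
            exact ne_of_gt this
          exact (this.integrableOn_compact isCompact_Icc).mono_set Ioc_subset_Icc_self
        have hle : ∫ t in Ioc y 1, v t / t ≤
            ∫ t in Ioc y 1, C * (1 + |Real.log y|) ^ i * t⁻¹ := by
          refine setIntegral_mono_on ((ga_int hC h hy).mono_set Ioc_subset_Ioi_self) hconst
            measurableSet_Ioc ?_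
          intro t ht
          have ht0 : 0 < t := hy.trans ht.1
          have hv := (h.1 t ht0).2
          have he : Real.exp (-t) ≤ 1 := Real.exp_le_one_iff.2 (by linarith)
          have hlt : |Real.log t| ≤ |Real.log y| := by
            rw [hlog, abs_of_nonpos (Real.log_nonpos ht0.le ht.2)]
            have := Real.log_le_log hy ht.1.le
            linarith
          have h5 : (1 + |Real.log t|) ^ i ≤ (1 + |Real.log y|) ^ i :=
            pow_le_pow_left₀ (by positivity) (by linarith) i
          rw [div_eq_mul_inv]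
          refine mul_le_mul_of_nonneg_right (hv.trans ?_) (inv_nonneg.2 ht0.le)
          calc C * (1 + |Real.log t|) ^ i * Real.exp (-t)
              ≤ C * (1 + |Real.log t|) ^ i * 1 := mul_le_mul_of_nonneg_left he (by positivity)
            _ = C * (1 + |Real.log t|) ^ i := mul_one _
            _ ≤ _ := mul_le_mul_of_nonneg_left h5 (by linarith)
        refine hle.trans (le_of_eq ?_)
        rw [← intervalIntegral.integral_of_le h1.le, intervalIntegral.integral_const_mul,
          integral_inv_of_pos hy one_pos, hlog, Real.log_div one_ne_zero hy.ne', Real.log_one]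
        ring
      have he1 : 1 ≤ Real.exp 1 * Real.exp (-y) := by
        rw [← Real.exp_add]
        exact Real.one_le_exp (by linarith)
      have hB : (1 : ℝ) ≤ (1 + |Real.log y|) ^ i := one_le_pow₀ (by linarith)
      have hsum : (∫ t in Ioc y 1, v t / t) + ∫ t in Ioi (1 : ℝ), v t / t ≤
          C * (1 + |Real.log y|) ^ (i + 1) := by
        have h7 : C * (1 + |Real.log y|) ^ (i + 1) =
            C * (1 + |Real.log y|) ^ i * |Real.log y| + C * (1 + |Real.log y|) ^ i := by
          rw [pow_succ]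
          ring
        rw [h7]
        have h8 : 1 ≤ C * (1 + |Real.log y|) ^ i := by nlinarith
        linarith
      refine hsum.trans ?_
      have h9 : 0 ≤ C * (1 + |Real.log y|) ^ (i + 1) := by positivity
      calc C * (1 + |Real.log y|) ^ (i + 1)
          ≤ C * (1 + |Real.log y|) ^ (i + 1) * (Real.exp 1 * Real.exp (-y)) :=
            le_mul_of_one_le_right h9 he1
        _ = C * Real.exp 1 * (1 + |Real.log y|) ^ (i + 1) * Real.exp (-y) := by ring
        _ ≤ C * i.factorial * Real.exp 2 * (1 + |Real.log y|) ^ (i + 1) * Real.exp (-y) := by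
            refine mul_le_mul_of_nonneg_right ?_ (Real.exp_pos _).le
            exact mul_le_mul_of_nonneg_right hD1 (by positivity)
  · have key : ∀ m y y' : ℝ, 0 < m → m ≤ 1 → m ≤ y → y ≤ y' →
        |(∫ t in Ioi y, v t / t) - ∫ t in Ioi y', v t / t| ≤
          C * i.factorial * Real.exp 2 / m ^ 2 * |y - y'| := by
      intro m y y' hm hm1 hy hyy
      have hy0 : 0 < y := lt_of_lt_of_le hm hy
      rw [ga_split hC h hy0 hyy, add_sub_cancel_right, ← intervalIntegral.integral_of_le hyy,
        ← Real.norm_eq_abs, abs_sub_comm y y']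
      refine intervalIntegral.norm_integral_le_of_norm_le_const fun t ht => ?_
      rw [uIoc_of_le hyy] at ht
      have ht0 : 0 < t := hy0.trans ht.1
      rw [Real.norm_eq_abs, abs_of_nonneg (div_nonneg (h.1 t ht0).1 ht0.le)]
      refine (ga_pt hC h hm hm1 (hy.trans ht.1.le)).trans ?_
      have he : Real.exp (-t) ≤ 1 := Real.exp_le_one_iff.2 (by linarith)
      exact mul_le_of_le_one_right (by positivity) he
    intro m y y' hm hm1 hy hy'
    rcases le_total y y' with hyy | hyy
    · exact key m y y' hm hm1 hy hyy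
    · have := key m y' y hm hm1 hy' hyy
      rw [abs_sub_comm, abs_sub_comm y y']
      exact this

theorem ga_zero : GaOk 0 (2 * Real.pi) (fun y => Real.exp (-(2 * Real.pi * y))) := by
  have hpi := ga_two_pi
  refine ⟨fun y hy => ⟨(Real.exp_pos _).le, ?_⟩, fun y hy => le_rfl, ?_⟩
  · rw [pow_zero, mul_one]
    have h4 : Real.exp (-(2 * Real.pi * y)) ≤ Real.exp (-y) := by
      apply Real.exp_le_exp.2
      nlinarith
    refine h4.trans ?_
    exact le_mul_of_one_le_left (Real.exp_pos _).le hpi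
  · have key : ∀ m y y' : ℝ, 0 < m → m ≤ 1 → m ≤ y → y ≤ y' →
        |Real.exp (-(2 * Real.pi * y)) - Real.exp (-(2 * Real.pi * y'))| ≤
          2 * Real.pi / m ^ 2 * |y - y'| := by
      intro m y y' hm hm1 hy hyy
      have hy0 : 0 < y := lt_of_lt_of_le hm hy
      have h1 : Real.exp (-(2 * Real.pi * y')) ≤ Real.exp (-(2 * Real.pi * y)) :=
        Real.exp_le_exp.2 (by nlinarith)
      rw [abs_of_nonneg (by linarith), abs_sub_comm, abs_of_nonneg (by linarith : 0 ≤ y' - y)]
      have h2 : Real.exp (-(2 * Real.pi * y')) =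
          Real.exp (-(2 * Real.pi * y)) * Real.exp (-(2 * Real.pi * (y' - y))) := by
        rw [← Real.exp_add]
        ring_nf
      have h3 : 1 - 2 * Real.pi * (y' - y) ≤ Real.exp (-(2 * Real.pi * (y' - y))) := by
        have := Real.add_one_le_exp (-(2 * Real.pi * (y' - y)))
        linarith
      have h4 : Real.exp (-(2 * Real.pi * y)) ≤ 1 := Real.exp_le_one_iff.2 (by nlinarith)
      have h5 : 0 < Real.exp (-(2 * Real.pi * y)) := Real.exp_pos _
      have h6 : Real.exp (-(2 * Real.pi * y)) - Real.exp (-(2 * Real.pi * y')) ≤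
          2 * Real.pi * (y' - y) := by
        rw [h2]
        have h7 : 0 ≤ 2 * Real.pi * (y' - y) := by
          have : 0 ≤ y' - y := by linarith
          positivity
        nlinarith
      refine h6.trans ?_
      have h8 : 2 * Real.pi ≤ 2 * Real.pi / m ^ 2 := by
        rw [le_div_iff₀ (by positivity)]
        have : m ^ 2 ≤ 1 := by nlinarith
        nlinarith
      exact mul_le_mul_of_nonneg_right h8 (by linarith)
    intro m y y' hm hm1 hy hy'
    rcases le_total y y' with hyy | hyy
    · exact key m y y' hm hm1 hy hyy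
    · have := key m y' y hm hm1 hy' hyy
      rw [abs_sub_comm, abs_sub_comm y y']
      exact this

theorem ga_all (i : ℕ) : ∃ C : ℝ, 1 ≤ C ∧ GaOk i C (V i) := by
  induction i with
  | zero => exact ⟨2 * Real.pi, ga_two_pi, ga_zero⟩
  | succ i ih =>
    obtain ⟨C, hC, h⟩ := ih
    refine ⟨C * i.factorial * Real.exp 2, ?_, ga_succ hC h⟩
    have hfac : (1 : ℝ) ≤ i.factorial := by
      exact_mod_cast Nat.one_le_iff_ne_zero.2 i.factorial_ne_zero
    have hexp2 : (1 : ℝ) ≤ Real.exp 2 := Real.one_le_exp (by norm_num)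
    have : (1 : ℝ) ≤ C * i.factorial := by nlinarith
    nlinarith

/-- block GA -/
theorem v_facts_pr (i : ℕ) : ∃ C : ℝ, 1 ≤ C ∧
    (∀ y : ℝ, 0 < y → 0 ≤ V i y ∧ V i y ≤ C * (1 + |Real.log y|) ^ i * Real.exp (-y)) ∧
    (∀ y : ℝ, 1 ≤ y → V i y ≤ Real.exp (-(2 * Real.pi * y))) ∧
    ∀ m y y' : ℝ, 0 < m → m ≤ 1 → m ≤ y → m ≤ y' → |V i y - V i y'| ≤ C / m ^ 2 * |y - y'| := by
  obtain ⟨C, hC, h⟩ := ga_all i
  exact ⟨C, hC, h.1, h.2.1, h.2.2⟩


end Pool.Agent.LG
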