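import Pool.Agent.Lib_helper31.LG.Defs
import Pool.Agent.Lib_helper19.EXB.FIN

/-! LSP3, part G: the theorem on the divisor function in progressions, in the words of part G. -/

set_option autoImplicit false

namespace Pool.Agent.LG

open Complex MeasureTheory Set
open Pool.Agent.LSP (tau)

theorem od_one : ∃ N₀ : ℕ, ∀ N : ℕ, N₀ ≤ N → N.Prime → ∀ κ : ℝ, 0 < κ → κ ≤ 1 / 2000 →
    ∀ (q : ℕ) [NeZero q] (χ : DirichletCharacter ℂ q), χ.IsPrimitive → 2 ≤ q →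
    (q : ℝ) ≤ (N : ℝ) ^ κ → ∀ b : ℕ, (N : ℝ) ^ (1 / 2 - κ) ≤ b → (b : ℝ) ≤ (N : ℝ) ^ (1 / 2 + κ) →
    ∀ g : ℤ, g ≠ 0 → |(g : ℝ)| ≤ (N : ℝ) ^ κ → ∀ f : ℝ → ℝ,
    (∀ a, f a ≠ 0 → (N : ℝ) ^ (1 / 2 - κ) ≤ a ∧ a ≤ (N : ℝ) ^ (1 / 2 + κ)) →
    (∀ a, |f a| ≤ (N : ℝ) ^ (-(1 / 2) + κ)) →
    (∀ a a', |f a - f a'| ≤ (N : ℝ) ^ (-1 + κ) * |a - a'|) →
    ‖∑ a ∈ Finset.Icc 1 ⌊(N : ℝ) ^ (1 / 2 + κ)⌋₊, χ a * (f a : ℂ) *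
        (tau (((a * b : ℕ) : ℤ) - g * N).natAbs : ℂ) -
      ∫ a : ℝ, (f a : ℂ) * MD χ N b g (Real.log |a * b - g * N|)‖ ≤ (N : ℝ) ^ (-(1 / 80) : ℝ) :=
  Pool.Agent.EXB.od_one

end Pool.Agent.LG
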