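import Pool.Agent.Lib_helper31.LG.Defs
import Pool.Agent.Lib_helper31.LGF.GA

/-! LSP3, part G, block GB: the truncated diagonal sum (helper16). -/

set_option autoImplicit false

namespace Pool.Agent.LG

open Complex MeasureTheory Set ProbabilityTheory
open Pool.Agent.LSP (tau GG CC CB Gs sg1 QN sh OD)
open Pool.Agent.LSPO (KK cl GOK)
open Pool.Agent.LK (KerC PQ V MT OM SH HH Qe hm)
open Pool.Agent.LE (xv HP SuppIn H2)
open Pool.Agent.LVB (IsST)

/-- the term of `SH` -/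
noncomputable def gb_t {q : ℕ} [NeZero q] (χ : DirichletCharacter ℂ q) (i N : ℕ) (Y : ℝ) (b c a : ℕ) : ℂ :=
  χ b * χ a * ((V i ((b : ℝ) * a / Y) / (b * a * c) * tau (a * c) *
      Real.log (N / (4 * Real.pi ^ 2 * (a * c))) : ℝ) : ℂ)

theorem gb_tau (n : ℕ) : 0 ≤ tau n ∧ tau n ≤ n := by
  unfold tau
  refine ⟨by positivity, ?_⟩
  exact_mod_cast Nat.card_divisors_le_self n

theorem gb_log {N m : ℕ} (hN : 1 ≤ N) (hm : 1 ≤ m) :
    |Real.log (N / (4 * Real.pi ^ 2 * m))| ≤ (N + 41) * m := by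
  have hN' : (1 : ℝ) ≤ N := by exact_mod_cast hN
  have hm' : (1 : ℝ) ≤ m := by exact_mod_cast hm
  have hpi : Real.pi ^ 2 ≤ 10 := by
    have := Real.pi_lt_d2
    nlinarith [Real.pi_pos]
  have hpi0 : (1 : ℝ) ≤ 4 * Real.pi ^ 2 := by
    have := Real.pi_gt_three
    nlinarith
  have h0 : (0 : ℝ) < 4 * Real.pi ^ 2 := by positivity
  rw [Real.log_div (by positivity) (by positivity), Real.log_mul h0.ne' (by positivity)]
  have h1 : 0 ≤ Real.log N := Real.log_nonneg hN'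
  have h2 : 0 ≤ Real.log m := Real.log_nonneg hm'
  have h3 : 0 ≤ Real.log (4 * Real.pi ^ 2) := Real.log_nonneg hpi0
  have h4 := Real.log_le_self (by positivity : (0 : ℝ) ≤ N)
  have h5 := Real.log_le_self (by positivity : (0 : ℝ) ≤ m)
  have h6 := Real.log_le_self h0.le
  rw [abs_le]
  constructor
  · nlinarith
  · nlinarith

/-- the bound of the tail terms -/
theorem gb_bd (i : ℕ) {q : ℕ} [NeZero q] (χ : DirichletCharacter ℂ q) {N : ℕ} (hN : 1 ≤ N) {Y : ℝ}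
    (hY : 1 ≤ Y) {R : ℝ} (hR : 1 ≤ R) {b c a : ℕ} (hb : 1 ≤ b) (hc : 1 ≤ c)
    (ha : Y * R ≤ (b : ℝ) * a) :
    ‖gb_t χ i N Y b c a‖ ≤ Real.exp (-(Real.pi * R)) * ((N + 41) * c * Y ^ 3) * (1 / (a : ℝ) ^ 2) := by
  obtain ⟨C, hC, -, hV, -⟩ := v_facts_pr i
  have hb' : (1 : ℝ) ≤ b := by exact_mod_cast hb
  have hc' : (1 : ℝ) ≤ c := by exact_mod_cast hc
  have hY0 : 0 < Y := by linarith
  have ha0 : a ≠ 0 := by
    rintro rfl
    simp only [Nat.cast_zero, mul_zero] at ha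
    nlinarith
  have ha1 : 1 ≤ a := Nat.one_le_iff_ne_zero.2 ha0
  have ha' : (1 : ℝ) ≤ a := by exact_mod_cast ha1
  set y : ℝ := (b : ℝ) * a / Y with hy
  have hyR : R ≤ y := by
    rw [hy, le_div_iff₀ hY0]
    linarith
  have hy1 : 1 ≤ y := hR.trans hyR
  have hV0 : 0 ≤ V i y := by
    obtain ⟨C', _, h, _⟩ := v_facts_pr i
    exact (h y (by linarith)).1
  have hV1 := hV y hy1
  have hpi := Real.pi_gt_three
  have h1 : V i y ≤ Real.exp (-(Real.pi * R)) * (Y ^ 3 / (a : ℝ) ^ 3) := by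
    refine hV1.trans ?_
    have e1 : -(2 * Real.pi * y) = -(Real.pi * y) + -(Real.pi * y) := by ring
    rw [e1, Real.exp_add]
    have e2 : Real.exp (-(Real.pi * y)) ≤ Real.exp (-(Real.pi * R)) := by
      apply Real.exp_le_exp.2
      nlinarith
    have e3 : Real.exp (-(Real.pi * y)) ≤ Y ^ 3 / (a : ℝ) ^ 3 := by
      have h2 : 0 < Real.pi * y := by positivity
      have h3 := Real.pow_div_factorial_le_exp (Real.pi * y) h2.le 3
      have h4 : (a : ℝ) / Y ≤ y := by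
        rw [hy]
        gcongr
        nlinarith
      have h5 : ((a : ℝ) / Y) ^ 3 ≤ (Real.pi * y) ^ 3 / (Nat.factorial 3 : ℕ) := by
        have h6 : (Nat.factorial 3 : ℕ) = 6 := rfl
        rw [h6]
        have h7 : ((a : ℝ) / Y) ^ 3 ≤ y ^ 3 := by gcongr
        have h8 : y ^ 3 ≤ (Real.pi * y) ^ 3 / 6 := by
          rw [mul_pow, le_div_iff₀ (by norm_num)]
          have h9 : (6 : ℝ) ≤ Real.pi ^ 3 := by nlinarith [sq_nonneg Real.pi]
          have h10 : 0 < y ^ 3 := by positivity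
          nlinarith
        exact_mod_cast h7.trans h8
      have h6 : ((a : ℝ) / Y) ^ 3 ≤ Real.exp (Real.pi * y) := h5.trans h3
      rw [Real.exp_neg, inv_le_comm₀ (Real.exp_pos _) (by positivity)]
      refine le_trans (le_of_eq ?_) h6
      rw [div_pow, inv_div]
    have e4 : 0 < Real.exp (-(Real.pi * y)) := Real.exp_pos _
    have e5 : 0 < Real.exp (-(Real.pi * R)) := Real.exp_pos _
    exact mul_le_mul e2 e3 e4.le e5.le
  have hlog := gb_log hN (Nat.one_le_iff_ne_zero.2 (Nat.mul_ne_zero ha0 (by omega) :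
    a * c ≠ 0))
  push_cast at hlog
  obtain ⟨ht0, ht1⟩ := gb_tau (a * c)
  push_cast at ht1
  have hχ1 : ‖χ b‖ ≤ 1 := DirichletCharacter.norm_le_one χ _
  have hχ2 : ‖χ a‖ ≤ 1 := DirichletCharacter.norm_le_one χ _
  unfold gb_t
  rw [norm_mul, norm_mul, Complex.norm_real, Real.norm_eq_abs, abs_mul, abs_mul, abs_div,
    abs_of_nonneg hV0, abs_of_nonneg ht0, abs_of_nonneg (by positivity : (0 : ℝ) ≤ b * a * c)]
  have h2 : ‖χ b‖ * ‖χ a‖ ≤ 1 := by
    have := mul_le_mul hχ1 hχ2 (norm_nonneg _) zero_le_one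
    simpa using this
  have h3 : V i y / (b * a * c) * tau (a * c) * |Real.log (N / (4 * Real.pi ^ 2 * (a * c)))| ≤
      Real.exp (-(Real.pi * R)) * ((N + 41) * c * Y ^ 3) * (1 / (a : ℝ) ^ 2) := by
    have h4 : V i y / (b * a * c) ≤ Real.exp (-(Real.pi * R)) * (Y ^ 3 / (a : ℝ) ^ 3) / (a * c) := by
      apply div_le_div₀ (by positivity) h1 (by positivity)
      have : (a : ℝ) * c ≤ b * (a * c) := le_mul_of_one_le_left (by positivity) hb'
      linarith
    calc V i y / (b * a * c) * tau (a * c) * |Real.log (N / (4 * Real.pi ^ 2 * (a * c)))|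
        ≤ Real.exp (-(Real.pi * R)) * (Y ^ 3 / (a : ℝ) ^ 3) / (a * c) * (a * c) *
          ((N + 41) * (a * c)) := by gcongr
      _ = _ := by field_simp
  calc ‖χ b‖ * ‖χ a‖ * (V i y / (b * a * c) * tau (a * c) *
        |Real.log (N / (4 * Real.pi ^ 2 * (a * c)))|)
      ≤ 1 * (V i y / (b * a * c) * tau (a * c) *
        |Real.log (N / (4 * Real.pi ^ 2 * (a * c)))|) := by gcongr
    _ ≤ _ := by rw [one_mul]; exact h3

/-- the tail of the series of one pair -/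
theorem gb_tail (i : ℕ) {q : ℕ} [NeZero q] (χ : DirichletCharacter ℂ q) {N : ℕ} (hN : 1 ≤ N) {Y : ℝ}
    (hY : 1 ≤ Y) {R : ℝ} (hR : 1 ≤ R) {b c A E : ℕ} (hb : 1 ≤ b) (hc : 1 ≤ c)
    (hA : Y * R ≤ A) (hAE : A ≤ E) :
    |∑ a ∈ Finset.Icc 1 E, xv χ i Y A (b * a) / (b * a * c) *
        (tau (a * c) * Real.log (N / (4 * Real.pi ^ 2 * ((a * c : ℕ) : ℝ)))) -
      (∑' a : ℕ, gb_t χ i N Y b c a).re| ≤
      Real.exp (-(Real.pi * R)) * ((N + 41) * c * Y ^ 3) * ∑' a : ℕ, 1 / (a : ℝ) ^ 2 := by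
  classical
  set B : ℝ := Real.exp (-(Real.pi * R)) * ((N + 41) * c * Y ^ 3) with hB
  have hB0 : 0 ≤ B := by rw [hB]; positivity
  have hs2 : Summable (fun a : ℕ => 1 / (a : ℝ) ^ 2) := Real.summable_one_div_nat_pow.2 (by norm_num)
  set g1 : ℕ → ℂ := fun a => if b * a ≤ A then gb_t χ i N Y b c a else 0 with hg1
  set g2 : ℕ → ℂ := fun a => if b * a ≤ A then 0 else gb_t χ i N Y b c a with hg2
  have hz : gb_t χ i N Y b c 0 = 0 := by
    unfold gb_t
    simp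
  have hsum1 : Summable g1 := by
    refine summable_of_ne_finset_zero (s := Finset.Icc 1 E) fun a ha => ?_
    rw [hg1]
    simp only
    split_ifs with h
    · rcases Nat.eq_zero_or_pos a with rfl | h0
      · exact hz
      · exfalso
        apply ha
        rw [Finset.mem_Icc]
        refine ⟨h0, le_trans ?_ (h.trans hAE)⟩
        exact Nat.le_mul_of_pos_left a (by omega)
    · rfl
  have hbd2 : ∀ a, ‖g2 a‖ ≤ B * (1 / (a : ℝ) ^ 2) := by
    intro a
    rw [hg2]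
    simp only
    split_ifs with h
    · rw [norm_zero]; positivity
    · push Not at h
      apply gb_bd i χ hN hY hR hb hc
      refine hA.trans ?_
      exact_mod_cast h.le
  have hsum2 : Summable g2 := Summable.of_norm_bounded (hs2.mul_left B) hbd2
  have hsplit : ∀ a, gb_t χ i N Y b c a = g1 a + g2 a := by
    intro a
    rw [hg1, hg2]
    simp only
    split_ifs <;> simp
  have h1 : ∑' a : ℕ, gb_t χ i N Y b c a = ∑' a, g1 a + ∑' a, g2 a := by
    rw [← hsum1.tsum_add hsum2]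
    exact tsum_congr hsplit
  have h2 : ∑' a, g1 a = ∑ a ∈ Finset.Icc 1 E, g1 a := by
    refine tsum_eq_sum fun a ha => ?_
    rw [hg1]
    simp only
    split_ifs with h
    · rcases Nat.eq_zero_or_pos a with rfl | h0
      · exact hz
      · exfalso
        apply ha
        rw [Finset.mem_Icc]
        refine ⟨h0, le_trans ?_ (h.trans hAE)⟩
        exact Nat.le_mul_of_pos_left a (by omega)
    · rfl
  have h3 : (∑ a ∈ Finset.Icc 1 E, g1 a).re =
      ∑ a ∈ Finset.Icc 1 E, xv χ i Y A (b * a) / (b * a * c) *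
        (tau (a * c) * Real.log (N / (4 * Real.pi ^ 2 * ((a * c : ℕ) : ℝ)))) := by
    rw [Complex.re_sum]
    refine Finset.sum_congr rfl fun a ha => ?_
    rw [Finset.mem_Icc] at ha
    rw [hg1]
    simp only
    have hba : 1 ≤ b * a := Nat.one_le_iff_ne_zero.2 (Nat.mul_ne_zero (by omega) (by omega))
    unfold xv
    split_ifs with h h' h'
    · unfold gb_t
      rw [Complex.re_mul_ofReal]
      have e1 : χ (b : ZMod q) * χ (a : ZMod q) = χ ((b * a : ℕ) : ZMod q) := by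
        rw [← map_mul]
        push_cast
        rfl
      rw [e1]
      push_cast
      ring
    · exact absurd ⟨hba, h⟩ h'
    · exact absurd h'.2 h
    · simp
  rw [h1, h2, Complex.add_re, h3]
  have h4 : ∀ x y : ℝ, |x - (x + y)| = |y| := fun x y => by
    rw [show x - (x + y) = -y by ring, abs_neg]
  rw [h4]
  refine (Complex.abs_re_le_norm _).trans ?_
  refine (norm_tsum_le_tsum_norm hsum2.norm).trans ?_
  rw [← tsum_mul_left]
  exact hsum2.norm.tsum_le_tsum hbd2 (hs2.mul_left B)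

theorem g_diag_pr (i : ℕ) {ν : ℝ} (h0 : 0 < ν) (h1 : ν ≤ 1 / 10 ^ 6) : ∃ N₀ : ℕ, ∀ N : ℕ, N₀ ≤ N →
    ∀ (q : ℕ) [NeZero q] (χ : DirichletCharacter ℂ q), PQ χ → ∀ (Y : ℝ) (A : ℕ), Par ν N q Y A →
    ∀ E : ℕ, A ≤ E → ∀ e : ℕ, 1 ≤ e → e ≤ N →
    |∑ p ∈ e.divisorsAntidiagonal, ∑ a ∈ Finset.Icc 1 E, xv χ i Y A (p.1 * a) / (p.1 * a * p.2) *
        (tau (a * p.2) * Real.log (N / (4 * Real.pi ^ 2 * ((a * p.2 : ℕ) : ℝ)))) -
      (SH χ N (fun y => V i (y / Y)) e).re| ≤ (N : ℝ) ^ (-(1 : ℝ)) := by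
  set S : ℝ := ∑' a : ℕ, 1 / (a : ℝ) ^ 2 with hS
  have hS0 : 0 ≤ S := tsum_nonneg fun a => by positivity
  -- the choice of `N₀`
  have hlim : Filter.Tendsto (fun N : ℕ => 42 * (S + 1) * ((N : ℝ) ^ 7 *
      Real.exp (-(Real.pi * (N : ℝ) ^ (ν / 100))))) Filter.atTop (nhds 0) := by
    have h2 := tendsto_rpow_mul_exp_neg_mul_atTop_nhds_zero (7 * (100 / ν)) Real.pi Real.pi_pos
    have h3 : Filter.Tendsto (fun N : ℕ => (N : ℝ) ^ (ν / 100)) Filter.atTop Filter.atTop :=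
      (tendsto_rpow_atTop (by positivity)).comp tendsto_natCast_atTop_atTop
    have h4 := (h2.comp h3).const_mul (42 * (S + 1))
    rw [mul_zero] at h4
    refine h4.congr fun N => ?_
    simp only [Function.comp_apply]
    have hN0 : (0 : ℝ) ≤ N := by positivity
    rw [← Real.rpow_mul hN0]
    have e1 : ν / 100 * (7 * (100 / ν)) = ((7 : ℕ) : ℝ) := by
      field_simp
      norm_num
    rw [e1, Real.rpow_natCast, neg_mul]
  have hev := hlim.eventually_lt_const (zero_lt_one)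
  obtain ⟨N₁, hN₁⟩ := Filter.eventually_atTop.1 hev
  refine ⟨max N₁ 1, fun N hN q _ χ _ Y A hp E hAE e he heN => ?_⟩
  have hN1 : N₁ ≤ N := (le_max_left _ _).trans hN
  have hN2 : 1 ≤ N := (le_max_right _ _).trans hN
  have hNr : (1 : ℝ) ≤ N := by exact_mod_cast hN2
  have hN0 : (0 : ℝ) < N := by linarith
  have hq1 : (1 : ℝ) ≤ q := by exact_mod_cast Nat.one_le_iff_ne_zero.2 (NeZero.ne q)
  have hsq : 1 ≤ Real.sqrt N := Real.one_le_sqrt.2 hNr
  have hY1 : 1 ≤ Y := by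
    rw [hp.Y_eq]
    nlinarith
  set R : ℝ := (N : ℝ) ^ (ν / 100) with hR
  have hR1 : 1 ≤ R := Real.one_le_rpow hNr (by positivity)
  have hYN : Y ≤ N := by
    rw [hp.Y_eq]
    have h3 : (q : ℝ) ≤ (N : ℝ) ^ (1 / 2 : ℝ) := hp.q_le.trans
      (Real.rpow_le_rpow_of_exponent_le hNr (by linarith))
    rw [← Real.sqrt_eq_rpow] at h3
    calc (q : ℝ) * Real.sqrt N ≤ Real.sqrt N * Real.sqrt N := by gcongr
      _ = N := Real.mul_self_sqrt hN0.le
  have hSH : (SH χ N (fun y => V i (y / Y)) e).re =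
      ∑ p ∈ e.divisorsAntidiagonal, (∑' a : ℕ, gb_t χ i N Y p.1 p.2 a).re := by
    unfold SH gb_t
    rw [Complex.re_sum]
  rw [hSH, ← Finset.sum_sub_distrib]
  have hterm : ∀ p ∈ e.divisorsAntidiagonal,
      |∑ a ∈ Finset.Icc 1 E, xv χ i Y A (p.1 * a) / (p.1 * a * p.2) *
        (tau (a * p.2) * Real.log (N / (4 * Real.pi ^ 2 * ((a * p.2 : ℕ) : ℝ)))) -
      (∑' a : ℕ, gb_t χ i N Y p.1 p.2 a).re| ≤
        Real.exp (-(Real.pi * R)) * (42 * (N : ℝ) ^ 5) * S := by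
    intro p hp'
    rw [Nat.mem_divisorsAntidiagonal] at hp'
    have hp1 : 1 ≤ p.1 := Nat.one_le_iff_ne_zero.2 (fun h => by rw [h] at hp'; omega)
    have hp2 : 1 ≤ p.2 := Nat.one_le_iff_ne_zero.2 (fun h => by rw [h] at hp'; omega)
    refine (gb_tail i χ hN2 hY1 hR1 hp1 hp2 hp.A_ge hAE).trans ?_
    have h3 : (p.2 : ℝ) ≤ N := by
      have : p.2 ≤ e := by
        rw [← hp'.1]
        exact Nat.le_mul_of_pos_left _ (by omega)
      exact_mod_cast this.trans heN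
    have h4 : ((N : ℝ) + 41) * p.2 * Y ^ 3 ≤ 42 * (N : ℝ) ^ 5 := by
      have h5 : (N : ℝ) + 41 ≤ 42 * N := by linarith
      calc ((N : ℝ) + 41) * p.2 * Y ^ 3 ≤ (42 * N) * N * N ^ 3 := by gcongr
        _ = 42 * (N : ℝ) ^ 5 := by ring
    gcongr
  refine (Finset.abs_sum_le_sum_abs _ _).trans ((Finset.sum_le_sum hterm).trans ?_)
  rw [Finset.sum_const, nsmul_eq_mul]
  have hcard : ((e.divisorsAntidiagonal.card : ℕ) : ℝ) ≤ N := by
    have h3 : e.divisorsAntidiagonal.card ≤ e := by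
      rw [← Nat.map_div_right_divisors, Finset.card_map]
      exact Nat.card_divisors_le_self e
    exact_mod_cast h3.trans heN
  have hfin := hN₁ N hN1
  have h5 : (N : ℝ) ^ (-(1 : ℝ)) = (N : ℝ)⁻¹ := by rw [Real.rpow_neg hN0.le, Real.rpow_one]
  rw [h5, ← one_div, le_div_iff₀ hN0]
  have hx : 0 < Real.exp (-(Real.pi * R)) := Real.exp_pos _
  calc (e.divisorsAntidiagonal.card : ℝ) * (Real.exp (-(Real.pi * R)) * (42 * (N : ℝ) ^ 5) * S) * N
      ≤ N * (Real.exp (-(Real.pi * R)) * (42 * (N : ℝ) ^ 5) * (S + 1)) * N := by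
        gcongr
        linarith
    _ = 42 * (S + 1) * ((N : ℝ) ^ 7 * Real.exp (-(Real.pi * R))) := by ring
    _ ≤ 1 := hfin.le

end Pool.Agent.LG
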