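import Pool.Agent.Lib_helper31.LG.Defs
import Pool.Agent.Lib_helper31.LKF.KG1
import Pool.Agent.Lib_helper15.LSPF.TAU
import Pool.Agent.Lib_helper31.LGF.GA

/-! LSP3, part G, block GC1: the cuts in the sum. -/

set_option autoImplicit false

namespace Pool.Agent.LG

open Complex MeasureTheory Set ProbabilityTheory
open Pool.Agent.LSP (tau GG CC CB Gs sg1 QN sh OD)
open Pool.Agent.LSPO (KK cl GOK)
open Pool.Agent.LK (KerC PQ V MT OM SH HH Qe hm)
open Pool.Agent.LE (xv HP SuppIn H2)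
open Pool.Agent.LVB (IsST)

/-! ### Characters -/

theorem gc1_im {q : ℕ} [NeZero q] {χ : DirichletCharacter ℂ q} (h : PQ χ) (x : ZMod q) :
    (χ x).im = 0 := by
  by_cases hx : IsUnit x
  · have h1 : (χ x) ^ 2 = 1 := by
      have h2 := congrArg (fun ψ : DirichletCharacter ℂ q => ψ x) h.sq
      simp only [MulChar.pow_apply' χ two_ne_zero, MulChar.one_apply hx] at h2
      exact h2
    have h2 : (χ x - 1) * (χ x + 1) = 0 := by linear_combination h1
    rcases mul_eq_zero.1 h2 with h3 | h3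
    · rw [sub_eq_zero.1 h3, one_im]
    · rw [eq_neg_of_add_eq_zero_left h3, neg_im, one_im, neg_zero]
  · rw [MulChar.map_nonunit χ hx, zero_im]

theorem gc1_re_mul {q : ℕ} [NeZero q] {χ : DirichletCharacter ℂ q} (h : PQ χ) (a b : ℕ) :
    (χ ((a * b : ℕ) : ZMod q)).re = (χ a).re * (χ b).re := by
  rw [Nat.cast_mul, map_mul, mul_re, gc1_im h, zero_mul, sub_zero]

theorem gc1_re_le {q : ℕ} [NeZero q] (χ : DirichletCharacter ℂ q) (x : ZMod q) :
    |(χ x).re| ≤ 1 :=
  (abs_re_le_norm _).trans (DirichletCharacter.norm_le_one χ x)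

/-! ### The number of integers in an interval -/

theorem gc1_card (S : Finset ℕ) {l r : ℝ} (hlr : l ≤ r) (h : ∀ a ∈ S, l ≤ (a : ℝ) ∧ (a : ℝ) ≤ r) :
    (S.card : ℝ) ≤ r - l + 1 := by
  rcases S.eq_empty_or_nonempty with rfl | hne
  · simp only [Finset.card_empty, Nat.cast_zero]
    linarith
  · have h1 : S ⊆ Finset.Icc (S.min' hne) (S.max' hne) := by
      intro a ha
      exact Finset.mem_Icc.2 ⟨S.min'_le a ha, S.le_max' a ha⟩
    have h2 := Finset.card_le_card h1
    rw [Nat.card_Icc] at h2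
    have h3 := h _ (S.min'_mem hne)
    have h4 := h _ (S.max'_mem hne)
    have h5 : S.min' hne ≤ S.max' hne := S.min'_le _ (S.max'_mem hne)
    have h6 : ((S.max' hne + 1 - S.min' hne : ℕ) : ℝ) = (S.max' hne : ℝ) + 1 - (S.min' hne : ℝ) := by
      rw [Nat.cast_sub (by omega)]
      push_cast
      ring
    have h7 : (S.card : ℝ) ≤ ((S.max' hne + 1 - S.min' hne : ℕ) : ℝ) := by exact_mod_cast h2
    rw [h6] at h7
    linarith [h3.1, h4.2]

/-- the sum of `1/a` over the integers with `|1 - w/(a b)| < 2 om`, `w ≠ 0` -/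
theorem gc1_near (S : Finset ℕ) {w b om P : ℝ} (hb : 0 < b) (ho : 0 < om) (ho1 : om ≤ 1 / 100)
    (hP : 0 < P) (hw : P * b ≤ |w|) (h : ∀ a ∈ S, 1 ≤ a ∧ |1 - w / (a * b)| < 2 * om) :
    ∑ a ∈ S, (1 : ℝ) / a ≤ 10 * om + 2 / P := by
  rcases S.eq_empty_or_nonempty with rfl | ⟨a1, ha1⟩
  · simp only [Finset.sum_empty]
    positivity
  · have hwpos : 0 < w := by
      obtain ⟨h1, h2⟩ := h a1 ha1
      have ha : (0 : ℝ) < a1 := by exact_mod_cast h1
      have h3 : 0 < w / (a1 * b) := by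
        have := (abs_lt.1 h2).2
        linarith
      have h4 : 0 < (a1 : ℝ) * b := by positivity
      have := mul_pos h3 h4
      rwa [div_mul_cancel₀ _ h4.ne'] at this
    rw [abs_of_pos hwpos] at hw
    set a0 := w / b with ha0
    have ha0P : P ≤ a0 := by rw [ha0, le_div_iff₀ hb]; exact hw
    have ha0pos : 0 < a0 := hP.trans_le ha0P
    have hint : ∀ a ∈ S, a0 / (1 + 2 * om) ≤ (a : ℝ) ∧ (a : ℝ) ≤ a0 / (1 - 2 * om) := by
      intro a ha
      obtain ⟨h1, h2⟩ := h a ha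
      have hapos : (0 : ℝ) < a := by exact_mod_cast h1
      have h3 : w / (a * b) = a0 / a := by rw [ha0]; field_simp
      rw [h3] at h2
      have h4 := abs_lt.1 h2
      constructor
      · rw [div_le_iff₀ (by linarith)]
        have h5 : a0 / a < 1 + 2 * om := by linarith [h4.1]
        rw [div_lt_iff₀ hapos] at h5
        linarith
      · rw [le_div_iff₀ (by linarith)]
        have h5 : 1 - 2 * om < a0 / a := by linarith [h4.2]
        rw [lt_div_iff₀ hapos] at h5
        linarith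
    have hlr : a0 / (1 + 2 * om) ≤ a0 / (1 - 2 * om) := by
      obtain ⟨h1, h2⟩ := hint a1 ha1
      linarith
    have hcard := gc1_card S hlr hint
    have hlen : a0 / (1 - 2 * om) - a0 / (1 + 2 * om) ≤ 5 * om * a0 := by
      rw [div_sub_div _ _ (by linarith) (by linarith), div_le_iff₀ (by nlinarith)]
      have : 0 ≤ om * a0 := by positivity
      nlinarith [mul_nonneg this (sq_nonneg om), mul_nonneg this ho.le, sq_nonneg om]
    have hterm : ∀ a ∈ S, (1 : ℝ) / a ≤ 2 / a0 := by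
      intro a ha
      obtain ⟨h1, _⟩ := hint a ha
      have hapos : (0 : ℝ) < a := by exact_mod_cast (h a ha).1
      rw [div_le_div_iff₀ hapos ha0pos]
      rw [div_le_iff₀ (by linarith)] at h1
      nlinarith
    calc ∑ a ∈ S, (1 : ℝ) / a ≤ ∑ _a ∈ S, 2 / a0 := Finset.sum_le_sum hterm
      _ = S.card * (2 / a0) := by rw [Finset.sum_const, nsmul_eq_mul]
      _ ≤ (5 * om * a0 + 1) * (2 / a0) := by
          apply mul_le_mul_of_nonneg_right _ (by positivity)
          linarith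
      _ = 10 * om + 2 / a0 := by field_simp; ring
      _ ≤ 10 * om + 2 / P := by
          have : 2 / a0 ≤ 2 / P := div_le_div_of_nonneg_left (by norm_num) hP ha0P
          linarith

/-! ### Asymptotics -/

theorem gc1_asy (i : ℕ) {ν : ℝ} (h0 : 0 < ν) (h1 : ν ≤ 1 / 10 ^ 6) (C : ℝ) :
    ∀ᶠ x : ℝ in Filter.atTop, 4 ≤ x ∧ 4 ≤ x ^ ν ∧ 24 ≤ x ^ (3 * ν) ∧ 100 ≤ x ^ (60 * ν) ∧
      C * (1 + Real.log x) ^ i * (1 + 5 * Real.log x) ≤ x ^ ν ∧
      x ^ (3 : ℝ) * Real.exp (-(2 * Real.pi * x ^ (ν / 100))) ≤ 1 / 2 ∧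
      4 * x ^ (1 + 3 * ν) ≤ x ^ (2 : ℝ) := by
  have e1 : ∀ᶠ x : ℝ in Filter.atTop, 4 ≤ x := Filter.eventually_ge_atTop 4
  have e2 : ∀ᶠ x : ℝ in Filter.atTop, 4 ≤ x ^ ν :=
    (tendsto_rpow_atTop h0).eventually_ge_atTop 4
  have e3 : ∀ᶠ x : ℝ in Filter.atTop, 24 ≤ x ^ (3 * ν) :=
    (tendsto_rpow_atTop (by positivity)).eventually_ge_atTop 24
  have e4 : ∀ᶠ x : ℝ in Filter.atTop, 100 ≤ x ^ (60 * ν) :=
    (tendsto_rpow_atTop (by positivity)).eventually_ge_atTop 100
  have e5 : ∀ᶠ x : ℝ in Filter.atTop,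
      C * (1 + Real.log x) ^ i * (1 + 5 * Real.log x) ≤ x ^ ν := by
    have hδ : 0 < ν / (2 * (i + 1)) := by positivity
    have f1 : ∀ᶠ x : ℝ in Filter.atTop, Real.log x ≤ 1 * x ^ (ν / (2 * (i + 1))) := by
      filter_upwards [(isLittleO_log_rpow_atTop hδ).def one_pos, e1] with x hx hx4
      rw [Real.norm_of_nonneg (Real.log_nonneg (by linarith)),
        Real.norm_of_nonneg (Real.rpow_nonneg (by linarith) _)] at hx
      exact hx
    have f2 : ∀ᶠ x : ℝ in Filter.atTop, |C| * 6 ^ (i + 1) ≤ x ^ (ν / 2) :=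
      (tendsto_rpow_atTop (by positivity)).eventually_ge_atTop _
    filter_upwards [f1, f2, e1] with x g1 g2 hx4
    have hx0 : 0 < x := by linarith
    have hl : 0 ≤ Real.log x := Real.log_nonneg (by linarith)
    have hy1 : 1 ≤ x ^ (ν / (2 * (i + 1))) := Real.one_le_rpow (by linarith) hδ.le
    set y := x ^ (ν / (2 * (i + 1))) with hy
    have hyp : y ^ (i + 1) = x ^ (ν / 2) := by
      rw [hy, ← Real.rpow_natCast, ← Real.rpow_mul hx0.le]
      congr 1
      push_cast
      field_simp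
    have k1 : (1 + Real.log x) ≤ 6 * y := by linarith
    have k2 : (1 + 5 * Real.log x) ≤ 6 * y := by linarith
    have k3 : (1 + Real.log x) ^ i ≤ (6 * y) ^ i := pow_le_pow_left₀ (by linarith) k1 i
    calc C * (1 + Real.log x) ^ i * (1 + 5 * Real.log x)
        ≤ |C| * (1 + Real.log x) ^ i * (1 + 5 * Real.log x) := by
          apply mul_le_mul_of_nonneg_right _ (by linarith)
          exact mul_le_mul_of_nonneg_right (le_abs_self C) (by positivity)
      _ ≤ |C| * (6 * y) ^ i * (6 * y) := by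
          apply mul_le_mul _ k2 (by linarith) (by positivity)
          exact mul_le_mul_of_nonneg_left k3 (abs_nonneg C)
      _ = (|C| * 6 ^ (i + 1)) * y ^ (i + 1) := by ring
      _ ≤ x ^ (ν / 2) * x ^ (ν / 2) := by
          rw [hyp]
          exact mul_le_mul_of_nonneg_right g2 (Real.rpow_nonneg hx0.le _)
      _ = x ^ ν := by rw [← Real.rpow_add hx0]; congr 1; ring
  have e6 : ∀ᶠ x : ℝ in Filter.atTop,
      x ^ (3 : ℝ) * Real.exp (-(2 * Real.pi * x ^ (ν / 100))) ≤ 1 / 2 := by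
    have hν : 0 < ν / 100 := by positivity
    have f1 := tendsto_rpow_mul_exp_neg_mul_atTop_nhds_zero (3 * (100 / ν)) (2 * Real.pi)
      (by positivity)
    have f2 := f1.comp (tendsto_rpow_atTop hν)
    filter_upwards [f2.eventually_le_const (show (0 : ℝ) < 1 / 2 by norm_num), e1] with x hx hx4
    have hx0 : 0 < x := by linarith
    simp only [Function.comp_apply] at hx
    rw [← Real.rpow_mul hx0.le] at hx
    have h3 : ν / 100 * (3 * (100 / ν)) = 3 := by field_simp
    rw [h3] at hx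
    rwa [show -(2 * Real.pi * x ^ (ν / 100)) = -(2 * Real.pi) * x ^ (ν / 100) by ring]
  have e7 : ∀ᶠ x : ℝ in Filter.atTop, 4 * x ^ (1 + 3 * ν) ≤ x ^ (2 : ℝ) := by
    have f1 : ∀ᶠ x : ℝ in Filter.atTop, 4 ≤ x ^ (1 - 3 * ν) :=
      (tendsto_rpow_atTop (by linarith)).eventually_ge_atTop 4
    filter_upwards [f1, e1] with x hx hx4
    have hx0 : 0 < x := by linarith
    calc 4 * x ^ (1 + 3 * ν) ≤ x ^ (1 - 3 * ν) * x ^ (1 + 3 * ν) :=
          mul_le_mul_of_nonneg_right hx (Real.rpow_nonneg hx0.le _)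
      _ = x ^ (2 : ℝ) := by rw [← Real.rpow_add hx0]; congr 1; ring
  filter_upwards [e1, e2, e3, e4, e5, e6, e7] with x a1 a2 a3 a4 a5 a6 a7
  exact ⟨a1, a2, a3, a4, a5, a6, a7⟩

/-! ### Elementary bounds -/

theorem gc1_cl {om u : ℝ} (ho : 0 < om) : 0 ≤ cl om u ∧ cl om u ≤ 1 ∧
    (2 * om ≤ |1 - u| → cl om u = 1) := by
  unfold cl
  refine ⟨le_max_left _ _, max_le zero_le_one (min_le_left _ _), fun h => ?_⟩
  have h1 : 1 ≤ |1 - u| / om - 1 := by
    have : 2 ≤ |1 - u| / om := by rw [le_div_iff₀ ho]; exact h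
    linarith
  rw [min_eq_left h1, max_eq_right zero_le_one]

theorem gc1_up {R y : ℝ} (hR : 0 < R) : 0 ≤ up R y ∧ up R y ≤ 1 ∧ (y ≤ R → up R y = 1) := by
  unfold up
  refine ⟨le_max_left _ _, max_le zero_le_one (min_le_left _ _), fun h => ?_⟩
  have h1 : y / R ≤ 1 := by rw [div_le_one hR]; exact h
  rw [min_eq_left (by linarith), max_eq_right zero_le_one]

theorem gc1_log {x y : ℝ} {k : ℝ} (hx : 1 ≤ x) (h1 : x ^ (-k) ≤ y) (h2 : y ≤ x ^ k) :
    |Real.log y| ≤ k * Real.log x := by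
  have hx0 : 0 < x := by linarith
  have hy : 0 < y := (Real.rpow_pos_of_pos hx0 _).trans_le h1
  rw [abs_le]
  constructor
  · have := Real.log_le_log (Real.rpow_pos_of_pos hx0 _) h1
    rw [Real.log_rpow hx0] at this
    linarith
  · have := Real.log_le_log hy h2
    rwa [Real.log_rpow hx0] at this

theorem gc1_m1 {a b : ℝ} (ha : 1 ≤ a) (hb : 1 ≤ b) : 1 ≤ a * b := by nlinarith

theorem gc1_m2 {x : ℝ} (hx : 4 ≤ x) : x * x + x ^ 2 ≤ x ^ 3 := by nlinarith [sq_nonneg x]

theorem gc1_m3 {x y : ℝ} (hx : 4 ≤ x) (h : y ≤ x ^ 2) : y ≤ x ^ 3 := by nlinarith [sq_nonneg x]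

theorem gc1_m4 {x y : ℝ} (h : x ≤ y) : -(2 * Real.pi * y) ≤ -(2 * Real.pi * x) := by
  have := mul_le_mul_of_nonneg_left h Real.two_pi_pos.le
  linarith

theorem gc1_m5 {v a e : ℝ} (he : 0 ≤ e) (hv : v ≤ e) (ha : 1 ≤ a) : v ≤ e * a := by nlinarith

theorem gc1_m6 {p r o : ℝ} (hp : 24 ≤ p) (hr : 0 ≤ r) (h : o = r) :
    12 * o ≤ 1 / 2 * (p * r) := by
  rw [h]
  nlinarith

/-! ### The theorem -/

theorem g_cut_sum_pr (i : ℕ) {ν : ℝ} (h0 : 0 < ν) (h1 : ν ≤ 1 / 10 ^ 6) : ∃ N₀ : ℕ, ∀ N : ℕ,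
    N₀ ≤ N → ∀ (q : ℕ) [NeZero q] (χ : DirichletCharacter ℂ q), PQ χ → ∀ (Y : ℝ) (A : ℕ),
    Par ν N q Y A → ∀ ρ : ℝ → ℝ, KerC ((N : ℝ) ^ ν) ρ → ∀ E : ℕ, A ≤ E → ∀ j b : ℕ, 1 ≤ j →
    1 ≤ b → (j : ℝ) * b ≤ (N : ℝ) ^ (1 / 2 + ν / 10) → ∀ g : ℤ, g ≠ 0 → Sm ν N Y j b g →
    |Sa χ i ρ N Y A E j b g - (χ j).re * ∑ a ∈ Finset.Icc 1 ⌊(N : ℝ) ^ (1 / 2 + 250 * ν)⌋₊,
      (χ a).re * fa i ρ ν N Y j b g a * tau (((a * b : ℕ) : ℤ) - g * N).natAbs| ≤
      (N : ℝ) ^ (-(25 * ν)) := by
  obtain ⟨CV, hCV1, hV, hVe, -⟩ := v_facts_pr i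
  obtain ⟨CG, hCG⟩ := Pool.Agent.LK.gok_unif_pr
  obtain ⟨Cτ, hCτ1, hτ⟩ := Pool.Agent.LSPP.tau_le_pr (ε := ν / 3) (by positivity)
  have hev := (tendsto_natCast_atTop_atTop (R := ℝ)).eventually
    (gc1_asy i h0 h1 (CV * |CG| * Cτ))
  obtain ⟨N₀, hN₀⟩ := Filter.eventually_atTop.1 hev
  refine ⟨N₀, fun N hN q _ χ hχ Y A hP ρ hρ E hAE j b hj hb hjb g hg hSm => ?_⟩
  obtain ⟨hx4, hxν, hx3ν, hx60, hlog, hexp, hx2⟩ := hN₀ N hN
  set x : ℝ := (N : ℝ) with hx
  have hx0 : 0 < x := by linarith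
  have hx1 : 1 ≤ x := by linarith
  have hL0 : 0 ≤ Real.log x := Real.log_nonneg hx1
  obtain ⟨hGm, hGOK⟩ := hCG (x ^ ν) hxν ρ hρ
  -- powers of `x`
  have hpos : ∀ t : ℝ, 0 < x ^ t := fun t => Real.rpow_pos_of_pos hx0 t
  have hmono : ∀ {s t : ℝ}, s ≤ t → x ^ s ≤ x ^ t := fun h => Real.rpow_le_rpow_of_exponent_le hx1 h
  have hadd : ∀ s t : ℝ, x ^ s * x ^ t = x ^ (s + t) := fun s t => (Real.rpow_add hx0 s t).symm
  have hx_one : x ^ (1 : ℝ) = x := Real.rpow_one x
  -- the parameters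
  have hq1 : (1 : ℝ) ≤ q := by exact_mod_cast NeZero.one_le
  have hsq : Real.sqrt x = x ^ (1 / 2 : ℝ) := Real.sqrt_eq_rpow x
  have hY : Y = q * x ^ (1 / 2 : ℝ) := by rw [← hsq]; exact hP.Y_eq
  have hYlo : 1 ≤ Y := by
    rw [hY]
    have := hmono (s := 0) (t := 1 / 2) (by norm_num)
    rw [Real.rpow_zero] at this
    exact gc1_m1 hq1 this
  have hY0 : 0 < Y := by linarith
  have hYhi : Y ≤ x ^ (1 / 2 + ν / 100) := by
    rw [hY, ← hadd, mul_comm]
    exact mul_le_mul_of_nonneg_left hP.q_le (hpos _).le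
  have hj1 : (1 : ℝ) ≤ j := by exact_mod_cast hj
  have hb1 : (1 : ℝ) ≤ b := by exact_mod_cast hb
  have hbj : (b : ℝ) ≤ x ^ (1 / 2 + ν / 10) :=
    (le_mul_of_one_le_left (by linarith) hj1).trans hjb
  have hAx : (A : ℝ) ≤ x ^ (1 / 2 + 250 * ν) := by
    calc (A : ℝ) ≤ Y * x ^ (ν / 50) := hP.A_le
      _ ≤ x ^ (1 / 2 + ν / 100) * x ^ (ν / 50) := mul_le_mul_of_nonneg_right hYhi (hpos _).le
      _ = x ^ (1 / 2 + ν / 100 + ν / 50) := hadd _ _
      _ ≤ x ^ (1 / 2 + 250 * ν) := hmono (by linarith)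
  set M := ⌊x ^ (1 / 2 + 250 * ν)⌋₊ with hM
  have hMx : (M : ℝ) ≤ x := by
    calc (M : ℝ) ≤ x ^ (1 / 2 + 250 * ν) := Nat.floor_le (hpos _).le
      _ ≤ x ^ (1 : ℝ) := hmono (by linarith)
      _ = x := hx_one
  have hAM : A ≤ M := Nat.le_floor hAx
  set R := x ^ (ν / 50) with hR
  have hR0 : 0 < R := hpos _
  set om := x ^ (-(60 * ν)) with hom
  have hom0 : 0 < om := hpos _
  have hom1 : om ≤ 1 / 100 := by
    rw [hom, Real.rpow_neg hx0.le, ← one_div]
    exact one_div_le_one_div_of_le (by norm_num) hx60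
  -- the size of `g`
  have hg1 : (1 : ℝ) ≤ |(g : ℝ)| := by
    have : 1 ≤ |g| := Int.one_le_abs hg
    exact_mod_cast this
  have hgN : |(g : ℝ)| * x ≤ x ^ (2 : ℝ) := by
    have k1 : (x ^ ν) ^ 2 = x ^ (2 * ν) := by
      rw [← Real.rpow_natCast, ← Real.rpow_mul hx0.le]
      congr 1
      push_cast
      ring
    have k2 : |(g : ℝ)| * x ≤ j * |(g : ℝ)| * x :=
      mul_le_mul_of_nonneg_right (le_mul_of_one_le_left (abs_nonneg _) hj1) hx0.le
    have k3 : (1 : ℝ) ≤ x ^ (2 * ν) := by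
      have := hmono (s := 0) (t := 2 * ν) (by linarith)
      rwa [Real.rpow_zero] at this
    calc |(g : ℝ)| * x ≤ j * |(g : ℝ)| * x := k2
      _ ≤ 2 * R * (b * Y * (1 + (x ^ ν) ^ 2)) := hSm.le
      _ ≤ 2 * R * (x ^ (1 / 2 + ν / 10) * x ^ (1 / 2 + ν / 100) * (2 * x ^ (2 * ν))) := by
          apply mul_le_mul_of_nonneg_left _ (by positivity)
          apply mul_le_mul _ _ (by positivity) (by positivity)
          · exact mul_le_mul hbj hYhi hY0.le (hpos _).le
          · rw [k1]; linarith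
      _ = 4 * (x ^ (ν / 50) * (x ^ (1 / 2 + ν / 10) * x ^ (1 / 2 + ν / 100) * x ^ (2 * ν))) := by
          rw [hR]; ring
      _ = 4 * x ^ (ν / 50 + (1 / 2 + ν / 10 + (1 / 2 + ν / 100) + 2 * ν)) := by
          rw [hadd, hadd, hadd]
      _ ≤ 4 * x ^ (1 + 3 * ν) := by
          apply mul_le_mul_of_nonneg_left _ (by norm_num)
          exact hmono (by linarith)
      _ ≤ x ^ (2 : ℝ) := hx2
  have hx2' : x ^ (2 : ℝ) = x ^ 2 := by
    rw [show (2 : ℝ) = ((2 : ℕ) : ℝ) by norm_num, Real.rpow_natCast]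
  have hx3' : x ^ (3 : ℝ) = x ^ 3 := by
    rw [show (3 : ℝ) = ((3 : ℕ) : ℝ) by norm_num, Real.rpow_natCast]
  -- bounds for the terms
  set τ : ℕ → ℝ := fun a => tau (((a * b : ℕ) : ℤ) - g * N).natAbs with hτdef
  have hτ0 : ∀ a, 0 ≤ τ a := fun a => Nat.cast_nonneg _
  have hdist : ∀ a ∈ Finset.Icc 1 M, |(a : ℝ) * b - g * x| ≤ x ^ (3 : ℝ) := by
    intro a ha
    have ha2 : (a : ℝ) ≤ x := le_trans (by exact_mod_cast (Finset.mem_Icc.1 ha).2) hMx
    have hbx : (b : ℝ) ≤ x := by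
      calc (b : ℝ) ≤ x ^ (1 / 2 + ν / 10) := hbj
        _ ≤ x ^ (1 : ℝ) := hmono (by linarith)
        _ = x := hx_one
    have k1 : (a : ℝ) * b ≤ x * x := mul_le_mul ha2 hbx (by positivity) hx0.le
    have k2 : |(g : ℝ) * x| ≤ x ^ 2 := by
      rw [abs_mul, abs_of_pos hx0, ← hx2']
      exact hgN
    calc |(a : ℝ) * b - g * x| ≤ |(a : ℝ) * b| + |(g : ℝ) * x| := abs_sub _ _
      _ ≤ x * x + x ^ 2 := by
          rw [abs_of_nonneg (show (0 : ℝ) ≤ (a : ℝ) * b by positivity)]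
          exact add_le_add k1 k2
      _ ≤ x ^ (3 : ℝ) := by rw [hx3']; exact gc1_m2 hx4
  have hτb : ∀ a ∈ Finset.Icc 1 M, τ a ≤ Cτ * x ^ ν := by
    intro a ha
    refine (hτ _).trans (mul_le_mul_of_nonneg_left ?_ (by linarith))
    have k1 : ((((a * b : ℕ) : ℤ) - g * N).natAbs : ℝ) = |(a : ℝ) * b - g * x| := by
      rw [Nat.cast_natAbs, Int.cast_abs]
      push_cast
      rfl
    rw [k1]
    calc |(a : ℝ) * b - g * x| ^ (ν / 3) ≤ (x ^ (3 : ℝ)) ^ (ν / 3) :=
          Real.rpow_le_rpow (abs_nonneg _) (hdist a ha) (by positivity)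
      _ = x ^ ν := by rw [← Real.rpow_mul hx0.le]; congr 1; ring
  set U : ℕ → ℝ := fun a => (g : ℝ) * x / (a * b) with hU
  set Gb := |CG| * x ^ (30 * ν) * (1 + 5 * Real.log x) with hGb
  have hGb0 : 0 ≤ Gb := by positivity
  have hGτ : ∀ a ∈ Finset.Icc 1 M, |GG ρ (U a)| * τ a ≤ Gb * (Cτ * x ^ ν) := by
    intro a ha
    have ha1 : (1 : ℝ) ≤ a := by exact_mod_cast (Finset.mem_Icc.1 ha).1
    have hab : 0 < (a : ℝ) * b := by positivity
    by_cases hz : (a : ℝ) * b - g * x = 0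
    · have k0 : (((a * b : ℕ) : ℤ) - g * N) = 0 := by
        have : (((((a * b : ℕ) : ℤ) - g * N : ℤ)) : ℝ) = 0 := by
          push_cast
          exact hz
        exact_mod_cast this
      have k1 : τ a = 0 := by
        rw [hτdef]
        simp only
        rw [k0]
        simp [Pool.Agent.LSP.tau]
      rw [k1, mul_zero]
      positivity
    · have ha2 : (a : ℝ) ≤ x := le_trans (by exact_mod_cast (Finset.mem_Icc.1 ha).2) hMx
      have hbx : (b : ℝ) ≤ x := by
        calc (b : ℝ) ≤ x ^ (1 / 2 + ν / 10) := hbj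
          _ ≤ x ^ (1 : ℝ) := hmono (by linarith)
          _ = x := hx_one
      have hab2 : (a : ℝ) * b ≤ x ^ 2 := by
        rw [sq]; exact mul_le_mul ha2 hbx (by positivity) hx0.le
      have hab1 : 1 ≤ (a : ℝ) * b := gc1_m1 ha1 hb1
      have hUabs : |U a| = |(g : ℝ)| * x / (a * b) := by
        rw [hU]
        simp only
        rw [abs_div, abs_mul, abs_of_pos hx0, abs_of_pos hab]
      have hU1 : 1 - U a = (a * b - g * x) / (a * b) := by
        rw [hU]
        simp only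
        field_simp
      have hg0 : (g : ℝ) ≠ 0 := by exact_mod_cast hg
      have hUne : U a ≠ 0 := by
        rw [hU]
        simp only
        positivity
      have hUne1 : U a ≠ 1 := by
        intro h
        have : 1 - U a = 0 := by rw [h]; ring
        rw [hU1, div_eq_zero_iff] at this
        rcases this with h5 | h5
        · exact hz h5
        · exact hab.ne' h5
      have b1 : |Real.log (|U a|)| ≤ 2 * Real.log x := by
        apply gc1_log hx1
        · rw [hUabs, Real.rpow_neg hx0.le, hx2', le_div_iff₀ hab]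
          calc (x ^ 2)⁻¹ * (a * b) ≤ (x ^ 2)⁻¹ * x ^ 2 :=
                mul_le_mul_of_nonneg_left hab2 (by positivity)
            _ = 1 := inv_mul_cancel₀ (by positivity)
            _ ≤ |(g : ℝ)| * x := gc1_m1 hg1 hx1
        · rw [hUabs, div_le_iff₀ hab]
          calc |(g : ℝ)| * x ≤ x ^ (2 : ℝ) := hgN
            _ ≤ x ^ (2 : ℝ) * (a * b) := le_mul_of_one_le_right (hpos _).le hab1
      have b2 : |Real.log (|1 - U a|)| ≤ 3 * Real.log x := by
        rw [hU1, abs_div, abs_of_pos hab]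
        have hint : 1 ≤ |(a : ℝ) * b - g * x| := by
          have k1 : (1 : ℤ) ≤ |((a * b : ℕ) : ℤ) - g * N| := by
            apply Int.one_le_abs
            intro h
            apply hz
            have := congrArg (fun z : ℤ => (z : ℝ)) h
            push_cast at this
            exact this
          have k2 : ((|((a * b : ℕ) : ℤ) - g * N| : ℤ) : ℝ) = |(a : ℝ) * b - g * x| := by
            push_cast
            rfl
          rw [← k2]
          exact_mod_cast k1
        apply gc1_log hx1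
        · rw [Real.rpow_neg hx0.le, hx3', le_div_iff₀ hab]
          calc (x ^ 3)⁻¹ * (a * b) ≤ (x ^ 3)⁻¹ * x ^ 3 := by
                apply mul_le_mul_of_nonneg_left _ (by positivity)
                exact gc1_m3 hx4 hab2
            _ = 1 := inv_mul_cancel₀ (by positivity)
            _ ≤ _ := hint
        · rw [div_le_iff₀ hab]
          calc |(a : ℝ) * b - g * x| ≤ x ^ (3 : ℝ) := hdist a ha
            _ ≤ x ^ (3 : ℝ) * (a * b) := le_mul_of_one_le_right (hpos _).le hab1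
      have hG := hGOK.bd (U a) hUne hUne1
      have k30 : (x ^ ν) ^ 30 = x ^ (30 * ν) := by
        rw [← Real.rpow_natCast, ← Real.rpow_mul hx0.le]
        congr 1
        push_cast
        ring
      rw [k30] at hG
      have hG2 : |GG ρ (U a)| ≤ Gb := by
        calc |GG ρ (U a)| ≤ CG * x ^ (30 * ν) *
              (1 + |Real.log (|U a|)| + |Real.log (|1 - U a|)|) := hG
          _ ≤ |CG| * x ^ (30 * ν) * (1 + |Real.log (|U a|)| + |Real.log (|1 - U a|)|) := by
              apply mul_le_mul_of_nonneg_right _ (by positivity)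
              exact mul_le_mul_of_nonneg_right (le_abs_self _) (hpos _).le
          _ ≤ |CG| * x ^ (30 * ν) * (1 + 5 * Real.log x) := by
              apply mul_le_mul_of_nonneg_left _ (by positivity)
              linarith
      exact mul_le_mul hG2 (hτb a ha) (hτ0 a) hGb0
  -- the two sums
  set T1 : ℕ → ℝ := fun a => xv χ i Y A (j * a) / a * (τ a * GG ρ (U a)) with hT1
  set T2 : ℕ → ℝ := fun a => (χ j).re * ((χ a).re * fa i ρ ν N Y j b g a * τ a) with hT2
  have hS1 : Sa χ i ρ N Y A E j b g = ∑ a ∈ Finset.Icc 1 M, T1 a := by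
    have k1 : ∀ a, A < a → T1 a = 0 := by
      intro a ha
      rw [hT1]
      simp only
      have : ¬ (1 ≤ j * a ∧ j * a ≤ A) := by
        rintro ⟨_, h⟩
        have : a ≤ j * a := Nat.le_mul_of_pos_left a hj
        omega
      rw [xv, if_neg this, zero_div, zero_mul]
    have k2 : ∑ a ∈ Finset.Icc 1 A, T1 a = ∑ a ∈ Finset.Icc 1 M, T1 a := by
      apply Finset.sum_subset (Finset.Icc_subset_Icc_right hAM)
      intro a ha hna
      apply k1
      rw [Finset.mem_Icc] at ha hna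
      omega
    have k3 : ∑ a ∈ Finset.Icc 1 A, T1 a = ∑ a ∈ Finset.Icc 1 E, T1 a := by
      apply Finset.sum_subset (Finset.Icc_subset_Icc_right hAE)
      intro a ha hna
      apply k1
      rw [Finset.mem_Icc] at ha hna
      omega
    rw [← k2, k3]
    unfold Sa
    apply Finset.sum_congr rfl
    intro a _
    rw [hT1, hU]
    simp only
    push_cast
    rfl
  have hS2 : (χ j).re * ∑ a ∈ Finset.Icc 1 M,
      (χ a).re * fa i ρ ν N Y j b g a * tau (((a * b : ℕ) : ℤ) - g * N).natAbs =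
      ∑ a ∈ Finset.Icc 1 M, T2 a := by
    rw [Finset.mul_sum]
  rw [hS1, hS2, ← Finset.sum_sub_distrib]
  -- the weights
  set Vb := CV * (1 + Real.log x) ^ i with hVb
  have hVb0 : 0 ≤ Vb := by positivity
  set eb := Real.exp (-(2 * Real.pi * x ^ (ν / 100))) with heb
  have heb0 : 0 < eb := Real.exp_pos _
  have hterm : ∀ a ∈ Finset.Icc 1 M, |T1 a - T2 a| ≤
      (if |1 - (g : ℝ) * x / (a * b)| < 2 * om then (1 : ℝ) / a * (Vb * (Gb * (Cτ * x ^ ν))) else 0) +
        eb * (Gb * (Cτ * x ^ ν)) := by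
    intro a ha
    have ha1n : 1 ≤ a := (Finset.mem_Icc.1 ha).1
    have ha1 : (1 : ℝ) ≤ a := by exact_mod_cast ha1n
    have ha0 : (0 : ℝ) < a := by linarith
    have hGτa := hGτ a ha
    have hB0 : 0 ≤ Gb * (Cτ * x ^ ν) := by positivity
    have hy0 : 0 < (j : ℝ) * a / Y := by positivity
    obtain ⟨hV0, hV1⟩ := hV _ hy0
    obtain ⟨hc0, hc1, hc2⟩ := gc1_cl (u := U a) hom0
    obtain ⟨hu0, hu1, hu2⟩ := gc1_up (R := R) (y := (j : ℝ) * a / Y) hR0
    have hT2a : T2 a = (χ j).re * (χ a).re * (V i (j * a / Y) / a * (τ a * GG ρ (U a))) *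
        (up R (j * a / Y) * cl om (U a)) := by
      rw [hT2]
      simp only
      unfold fa KK
      rw [if_pos ha0, ← hx, ← hR, ← hom]
      show (χ j).re * ((χ a).re * (V i (j * a / Y) * up R (j * a / Y) / a *
        (GG ρ (U a) * cl om (U a))) * τ a) = _
      ring
    have hχ1 : |(χ j).re * (χ a).re| ≤ 1 := by
      rw [abs_mul]
      exact mul_le_one₀ (gc1_re_le χ _) (abs_nonneg _) (gc1_re_le χ _)
    have hcore : |V i (j * a / Y) / a * (τ a * GG ρ (U a))| ≤
        V i (j * a / Y) / a * (Gb * (Cτ * x ^ ν)) := by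
      rw [abs_mul, abs_of_nonneg (show 0 ≤ V i (j * a / Y) / a by positivity), abs_mul,
        abs_of_nonneg (hτ0 a), mul_comm (τ a)]
      exact mul_le_mul_of_nonneg_left hGτa (by positivity)
    by_cases hja : j * a ≤ A
    · have hjaR : (j : ℝ) * a / Y ≤ R := by
        rw [div_le_iff₀ hY0, mul_comm R]
        refine le_trans ?_ hP.A_le
        exact_mod_cast hja
      have hT1a : T1 a = (χ j).re * (χ a).re * (V i (j * a / Y) / a * (τ a * GG ρ (U a))) := by
        rw [hT1]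
        simp only
        have : 1 ≤ j * a ∧ j * a ≤ A := ⟨Nat.mul_pos hj ha1n, hja⟩
        rw [xv, if_pos this, gc1_re_mul hχ]
        push_cast
        ring
      rw [hT2a, hT1a, hu2 hjaR, one_mul]
      have hfac : (χ j).re * (χ a).re * (V i (j * a / Y) / a * (τ a * GG ρ (U a))) -
          (χ j).re * (χ a).re * (V i (j * a / Y) / a * (τ a * GG ρ (U a))) * cl om (U a) =
          (χ j).re * (χ a).re * (V i (j * a / Y) / a * (τ a * GG ρ (U a))) *
            (1 - cl om (U a)) := by ring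
      rw [hfac]
      have hrest : 0 ≤ eb * (Gb * (Cτ * x ^ ν)) := by positivity
      by_cases hnear : |1 - (g : ℝ) * x / (a * b)| < 2 * om
      · rw [if_pos hnear]
        have hVle : V i (j * a / Y) ≤ Vb := by
          have hlogy : |Real.log ((j : ℝ) * a / Y)| ≤ 1 * Real.log x := by
            apply gc1_log hx1
            · rw [Real.rpow_neg hx0.le, hx_one, le_div_iff₀ hY0]
              have hYx : Y ≤ x := by
                calc Y ≤ x ^ (1 / 2 + ν / 100) := hYhi
                  _ ≤ x ^ (1 : ℝ) := hmono (by linarith)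
                  _ = x := hx_one
              calc x⁻¹ * Y ≤ x⁻¹ * x := mul_le_mul_of_nonneg_left hYx (by positivity)
                _ = 1 := inv_mul_cancel₀ hx0.ne'
                _ ≤ (j : ℝ) * a := gc1_m1 hj1 ha1
            · exact hjaR.trans (hmono (by linarith))
          rw [one_mul] at hlogy
          calc V i (j * a / Y) ≤ CV * (1 + |Real.log ((j : ℝ) * a / Y)|) ^ i *
                Real.exp (-((j : ℝ) * a / Y)) := hV1
            _ ≤ CV * (1 + |Real.log ((j : ℝ) * a / Y)|) ^ i * 1 := by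
                apply mul_le_mul_of_nonneg_left _ (by positivity)
                rw [Real.exp_le_one_iff]
                linarith
            _ ≤ CV * (1 + Real.log x) ^ i := by
                rw [mul_one]
                apply mul_le_mul_of_nonneg_left _ (by linarith)
                exact pow_le_pow_left₀ (by positivity) (by linarith) i
        have k1 : |(χ j).re * (χ a).re * (V i (j * a / Y) / a * (τ a * GG ρ (U a))) *
            (1 - cl om (U a))| ≤ V i (j * a / Y) / a * (Gb * (Cτ * x ^ ν)) := by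
          rw [abs_mul, abs_mul]
          have k2 : |1 - cl om (U a)| ≤ 1 := by
            rw [abs_le]; constructor <;> linarith
          calc |(χ j).re * (χ a).re| * |V i (j * a / Y) / a * (τ a * GG ρ (U a))| *
                |1 - cl om (U a)|
              ≤ 1 * |V i (j * a / Y) / a * (τ a * GG ρ (U a))| * 1 := by
                apply mul_le_mul _ k2 (abs_nonneg _) (by positivity)
                exact mul_le_mul_of_nonneg_right hχ1 (abs_nonneg _)
            _ ≤ _ := by rw [one_mul, mul_one]; exact hcore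
        have k3 : V i (j * a / Y) / a * (Gb * (Cτ * x ^ ν)) ≤
            (1 : ℝ) / a * (Vb * (Gb * (Cτ * x ^ ν))) := by
          have : V i (j * a / Y) / a * (Gb * (Cτ * x ^ ν)) =
              (1 : ℝ) / a * (V i (j * a / Y) * (Gb * (Cτ * x ^ ν))) := by ring
          rw [this]
          apply mul_le_mul_of_nonneg_left _ (by positivity)
          exact mul_le_mul_of_nonneg_right hVle hB0
        linarith
      · rw [if_neg hnear]
        have : cl om (U a) = 1 := hc2 (not_lt.1 hnear)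
        rw [this, sub_self, mul_zero, abs_zero]
        linarith
    · have hT1a : T1 a = 0 := by
        rw [hT1]
        simp only
        have : ¬ (1 ≤ j * a ∧ j * a ≤ A) := fun h => hja h.2
        rw [xv, if_neg this, zero_div, zero_mul]
      rw [hT1a, zero_sub, abs_neg, hT2a]
      have hyA : x ^ (ν / 100) ≤ (j : ℝ) * a / Y := by
        rw [le_div_iff₀ hY0, mul_comm]
        refine hP.A_ge.trans ?_
        exact_mod_cast (not_le.1 hja).le
      have hy1 : 1 ≤ (j : ℝ) * a / Y := by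
        refine le_trans ?_ hyA
        have := hmono (s := 0) (t := ν / 100) (by linarith)
        rwa [Real.rpow_zero] at this
      have hVe' : V i (j * a / Y) ≤ eb := by
        refine (hVe _ hy1).trans ?_
        rw [heb, Real.exp_le_exp]
        exact gc1_m4 hyA
      have hnn : 0 ≤ (if |1 - (g : ℝ) * x / (a * b)| < 2 * om then
          (1 : ℝ) / a * (Vb * (Gb * (Cτ * x ^ ν))) else 0) := by
        split_ifs
        · positivity
        · exact le_rfl
      have k1 : |(χ j).re * (χ a).re * (V i (j * a / Y) / a * (τ a * GG ρ (U a))) *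
          (up R (j * a / Y) * cl om (U a))| ≤ V i (j * a / Y) / a * (Gb * (Cτ * x ^ ν)) := by
        rw [abs_mul, abs_mul]
        have k2 : |up R (j * a / Y) * cl om (U a)| ≤ 1 := by
          rw [abs_mul, abs_of_nonneg hu0, abs_of_nonneg hc0]
          exact mul_le_one₀ hu1 hc0 hc1
        calc |(χ j).re * (χ a).re| * |V i (j * a / Y) / a * (τ a * GG ρ (U a))| *
              |up R (j * a / Y) * cl om (U a)|
            ≤ 1 * |V i (j * a / Y) / a * (τ a * GG ρ (U a))| * 1 := by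
              apply mul_le_mul _ k2 (abs_nonneg _) (by positivity)
              exact mul_le_mul_of_nonneg_right hχ1 (abs_nonneg _)
          _ ≤ _ := by rw [one_mul, mul_one]; exact hcore
      have k3 : V i (j * a / Y) / a * (Gb * (Cτ * x ^ ν)) ≤ eb * (Gb * (Cτ * x ^ ν)) := by
        apply mul_le_mul_of_nonneg_right _ hB0
        rw [div_le_iff₀ ha0]
        exact gc1_m5 heb0.le hVe' ha1
      linarith
  -- the sum over the integers close to `gN/b`
  have hsumnear : ∑ a ∈ Finset.Icc 1 M, (if |1 - (g : ℝ) * x / (a * b)| < 2 * om then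
      (1 : ℝ) / a * (Vb * (Gb * (Cτ * x ^ ν))) else 0) ≤
      (12 * om) * (Vb * (Gb * (Cτ * x ^ ν))) := by
    rw [← Finset.sum_filter, ← Finset.sum_mul]
    apply mul_le_mul_of_nonneg_right _ (by positivity)
    have k1 := gc1_near ((Finset.Icc 1 M).filter fun a : ℕ => |1 - (g : ℝ) * x / (a * b)| < 2 * om)
      (w := (g : ℝ) * x) (b := b) (om := om) (P := x ^ (1 / 2 - ν / 10)) (by positivity) hom0 hom1
      (hpos _) ?_ ?_
    · have k2 : 2 / x ^ (1 / 2 - ν / 10) ≤ 2 * om := by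
        rw [div_eq_mul_inv, ← Real.rpow_neg hx0.le, hom]
        apply mul_le_mul_of_nonneg_left _ (by norm_num)
        exact hmono (by linarith)
      linarith
    · calc x ^ (1 / 2 - ν / 10) * b ≤ x ^ (1 / 2 - ν / 10) * x ^ (1 / 2 + ν / 10) :=
            mul_le_mul_of_nonneg_left hbj (hpos _).le
        _ = x := by
            rw [hadd]
            have : 1 / 2 - ν / 10 + (1 / 2 + ν / 10) = 1 := by ring
            rw [this, hx_one]
        _ ≤ |(g : ℝ) * x| := by
            rw [abs_mul, abs_of_pos hx0]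
            exact le_mul_of_one_le_left hx0.le hg1
    · intro a ha
      rw [Finset.mem_filter, Finset.mem_Icc] at ha
      exact ⟨ha.1.1, ha.2⟩
  -- conclusion
  have hB : Vb * (Gb * (Cτ * x ^ ν)) ≤ x ^ (32 * ν) := by
    calc Vb * (Gb * (Cτ * x ^ ν))
        = (CV * |CG| * Cτ * (1 + Real.log x) ^ i * (1 + 5 * Real.log x)) *
          (x ^ (30 * ν) * x ^ ν) := by rw [hVb, hGb]; ring
      _ ≤ x ^ ν * (x ^ (30 * ν) * x ^ ν) :=
          mul_le_mul_of_nonneg_right hlog (by positivity)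
      _ = x ^ (32 * ν) := by rw [hadd, hadd]; congr 1; ring
  have hB2 : Gb * (Cτ * x ^ ν) ≤ x ^ (32 * ν) := by
    refine le_trans ?_ hB
    apply le_mul_of_one_le_left (by positivity)
    rw [hVb]
    have : 1 ≤ (1 + Real.log x) ^ i := one_le_pow₀ (by linarith)
    exact gc1_m1 hCV1 this
  calc |∑ a ∈ Finset.Icc 1 M, (T1 a - T2 a)| ≤ ∑ a ∈ Finset.Icc 1 M, |T1 a - T2 a| :=
        Finset.abs_sum_le_sum_abs _ _
    _ ≤ ∑ a ∈ Finset.Icc 1 M, ((if |1 - (g : ℝ) * x / (a * b)| < 2 * om then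
        (1 : ℝ) / a * (Vb * (Gb * (Cτ * x ^ ν))) else 0) + eb * (Gb * (Cτ * x ^ ν))) :=
        Finset.sum_le_sum hterm
    _ ≤ (12 * om) * (Vb * (Gb * (Cτ * x ^ ν))) + M * (eb * (Gb * (Cτ * x ^ ν))) := by
        rw [Finset.sum_add_distrib, Finset.sum_const, Nat.card_Icc, nsmul_eq_mul]
        simp only [Nat.add_sub_cancel]
        linarith
    _ ≤ (12 * om) * x ^ (32 * ν) + x * (eb * x ^ (32 * ν)) := by
        apply add_le_add
        · exact mul_le_mul_of_nonneg_left hB (by positivity)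
        · apply mul_le_mul hMx _ (by positivity) hx0.le
          exact mul_le_mul_of_nonneg_left hB2 heb0.le
    _ ≤ 1 / 2 * x ^ (-(25 * ν)) + 1 / 2 * x ^ (-(25 * ν)) := by
        apply add_le_add
        · have k1 : om * x ^ (32 * ν) = x ^ (-(28 * ν)) := by
            rw [hom, hadd]; congr 1; ring
          have k2 : x ^ (-(25 * ν)) = x ^ (3 * ν) * x ^ (-(28 * ν)) := by
            rw [hadd]; congr 1; ring
          rw [mul_assoc, k1, k2]
          exact gc1_m6 hx3ν (hpos _).le rfl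
        · have k1 : x * x ^ (32 * ν) ≤ x ^ (3 : ℝ) * x ^ (-(25 * ν)) := by
            conv_lhs => rw [← hx_one]
            rw [← Real.rpow_mul hx0.le, hadd, hadd]
            exact hmono (by linarith)
          have k2 : x * (eb * x ^ (32 * ν)) = eb * (x * x ^ (32 * ν)) := by ring
          rw [k2]
          calc eb * (x * x ^ (32 * ν)) ≤ eb * (x ^ (3 : ℝ) * x ^ (-(25 * ν))) :=
                mul_le_mul_of_nonneg_left k1 heb0.le
            _ = (x ^ (3 : ℝ) * eb) * x ^ (-(25 * ν)) := by ring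
            _ ≤ 1 / 2 * x ^ (-(25 * ν)) := mul_le_mul_of_nonneg_right hexp (hpos _).le
    _ = x ^ (-(25 * ν)) := by ring


end Pool.Agent.LG
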