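import Pool.Agent.Lib_helper31.LG.Defs
import Pool.Agent.Lib_helper31.LKF.KG1
import Pool.Agent.Lib_helper31.LGF.GA

/-! LSP3, block GC2: cuts in the integral -/

set_option autoImplicit false

namespace Pool.Agent.LG

open Complex MeasureTheory Set ProbabilityTheory
open Pool.Agent.LSP (tau GG CC CB Gs sg1 QN sh OD)
open Pool.Agent.LSPO (KK cl GOK)
open Pool.Agent.LK (KerC PQ V MT OM SH HH Qe hm)
open Pool.Agent.LE (xv HP SuppIn H2)
open Pool.Agent.LVB (IsST)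

section gc2

/-- one half of the singular function -/
noncomputable def gc2_g (r : ℝ) : ℝ → ℝ := indicator (Ioc 0 r) (fun x => x ^ (-(1 / 20) : ℝ))

/-- the singular function -/
noncomputable def gc2_Φ (r v : ℝ) : ℝ := gc2_g r v + gc2_g r (-v)

theorem gc2_g_nonneg (r v : ℝ) : 0 ≤ gc2_g r v := by
  unfold gc2_g
  refine indicator_nonneg (fun x hx => ?_) v
  exact Real.rpow_nonneg hx.1.le _

theorem gc2_Φ_nonneg (r v : ℝ) : 0 ≤ gc2_Φ r v := add_nonneg (gc2_g_nonneg _ _) (gc2_g_nonneg _ _)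

theorem gc2_Φ_eq {r v : ℝ} (hv : v ≠ 0) (h : |v| ≤ r) : gc2_Φ r v = |v| ^ (-(1 / 20) : ℝ) := by
  unfold gc2_Φ gc2_g
  rcases lt_or_gt_of_ne hv with h0 | h0
  · rw [indicator_of_notMem (by simp [h0.le]), indicator_of_mem, zero_add, abs_of_neg h0]
    rw [abs_of_neg h0] at h
    exact ⟨by linarith, h⟩
  · rw [indicator_of_mem, indicator_of_notMem (by simp [h0.le]), add_zero, abs_of_pos h0]
    rw [abs_of_pos h0] at h
    exact ⟨h0, h⟩

theorem gc2_g_int {r : ℝ} (hr : 0 ≤ r) : Integrable (gc2_g r) ∧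
    ∫ x, gc2_g r x = r ^ (19 / 20 : ℝ) / (19 / 20) := by
  have h1 : IntervalIntegrable (fun x : ℝ => x ^ (-(1 / 20) : ℝ)) volume 0 r :=
    intervalIntegral.intervalIntegrable_rpow' (by norm_num)
  rw [intervalIntegrable_iff_integrableOn_Ioc_of_le hr] at h1
  refine ⟨h1.integrable_indicator measurableSet_Ioc, ?_⟩
  unfold gc2_g
  rw [integral_indicator measurableSet_Ioc, ← intervalIntegral.integral_of_le hr,
    integral_rpow (Or.inl (by norm_num))]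
  rw [show (-(1 / 20) : ℝ) + 1 = 19 / 20 by norm_num, Real.zero_rpow (by norm_num), sub_zero]

theorem gc2_Φ_int {r : ℝ} (hr : 0 ≤ r) : Integrable (gc2_Φ r) ∧
    ∫ x, gc2_Φ r x = 40 / 19 * r ^ (19 / 20 : ℝ) := by
  obtain ⟨h1, h2⟩ := gc2_g_int hr
  refine ⟨h1.add h1.comp_neg, ?_⟩
  unfold gc2_Φ
  rw [integral_add h1 h1.comp_neg, integral_neg_eq_self (gc2_g r) volume, h2]
  ring

/-- shifted and scaled -/
theorem gc2_Φ_shift {r x0 : ℝ} (hr : 0 ≤ r) (hx : 0 < x0) :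
    Integrable (fun a : ℝ => gc2_Φ r ((a - x0) / x0)) ∧
    ∫ a : ℝ, gc2_Φ r ((a - x0) / x0) = x0 * (40 / 19 * r ^ (19 / 20 : ℝ)) := by
  obtain ⟨h1, h2⟩ := gc2_Φ_int hr
  have h3 : Integrable (fun a : ℝ => gc2_Φ r (a / x0)) := h1.comp_div hx.ne'
  refine ⟨h3.comp_sub_right x0, ?_⟩
  have h4 := integral_sub_right_eq_self (μ := volume) (fun a : ℝ => gc2_Φ r (a / x0)) x0
  rw [h4, Measure.integral_comp_div, h2, abs_of_pos hx, smul_eq_mul]

theorem gc2_log {t : ℝ} (ht : 0 < t) (h1 : t ≤ 1) : |Real.log t| ≤ 40 * t ^ (-(1 / 40) : ℝ) := by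
  have h2 := Real.log_le_rpow_div (x := t⁻¹) (ε := 1 / 40) (by positivity) (by norm_num)
  rw [Real.log_inv, Real.inv_rpow ht.le, ← Real.rpow_neg ht.le] at h2
  rw [abs_of_nonpos (Real.log_nonpos ht.le h1)]
  have e : t ^ (-(1 / 40) : ℝ) / (1 / 40) = 40 * t ^ (-(1 / 40) : ℝ) := by ring
  linarith

/-- the geometry near the singularity -/
theorem gc2_near {a x0 x1 : ℝ} (ha : 0 < a) (hx0 : 0 < x0) (hx : |x1| = x0)
    (h : |1 - x1 / a| < 1 / 2) (hne : a ≠ x1) :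
    x1 = x0 ∧ a ≤ 2 * x0 ∧ x0 / 2 ≤ a ∧ |a - x0| ≤ 2 * x0 * |1 - x1 / a| ∧ a - x0 ≠ 0 ∧
      |1 - x1 / a| ^ (-(1 / 20) : ℝ) ≤ 2 * |(a - x0) / x0| ^ (-(1 / 20) : ℝ) := by
  have h1 := abs_lt.1 h
  have hpos : 0 < x1 := by
    by_contra hn
    have : x1 / a ≤ 0 := div_nonpos_of_nonpos_of_nonneg (not_lt.1 hn) ha.le
    linarith [h1.2]
  have e1 : x1 = x0 := by rw [← hx, abs_of_pos hpos]
  subst e1
  have h2 : x1 / a < 3 / 2 := by linarith [h1.1]
  have h3 : 1 / 2 < x1 / a := by linarith [h1.2]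
  rw [div_lt_iff₀ ha] at h2
  rw [lt_div_iff₀ ha] at h3
  have e2 : 1 - x1 / a = (a - x1) / a := by field_simp
  have h4 : a ≤ 2 * x1 := by linarith
  have hne' : a - x1 ≠ 0 := sub_ne_zero.2 hne
  have h5 : |a - x1| ≤ 2 * x1 * |1 - x1 / a| := by
    rw [e2, abs_div, abs_of_pos ha, mul_div_assoc', le_div_iff₀ ha]
    nlinarith [abs_nonneg (a - x1)]
  refine ⟨rfl, h4, by linarith, h5, hne', ?_⟩
  have p1 : 0 < |(a - x1) / x1| := abs_pos.2 (div_ne_zero hne' hpos.ne')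
  have h6 : |(a - x1) / x1| / 2 ≤ |1 - x1 / a| := by
    rw [abs_div, abs_of_pos hpos, div_div, div_le_iff₀ (by positivity)]
    linarith
  have h7 : |1 - x1 / a| ^ (-(1 / 20) : ℝ) ≤ (|(a - x1) / x1| / 2) ^ (-(1 / 20) : ℝ) :=
    Real.rpow_le_rpow_of_nonpos (by positivity) h6 (by norm_num)
  refine h7.trans ?_
  rw [Real.div_rpow p1.le (by norm_num)]
  have h8 : (2:ℝ)⁻¹ ≤ (2:ℝ) ^ (-(1 / 20) : ℝ) := by
    rw [← Real.rpow_neg_one]
    exact Real.rpow_le_rpow_of_exponent_le (by norm_num) (by norm_num)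
  rw [div_le_iff₀ (by positivity)]
  have h9 : 0 ≤ |(a - x1) / x1| ^ (-(1 / 20) : ℝ) := by positivity
  nlinarith

/-- away from the singularity or near it -/
theorem gc2_far {a x0 x1 : ℝ} (ha : 0 < a) (hx0 : 0 < x0) (hx : |x1| = x0) (hne : a ≠ x1) :
    |1 - x1 / a| ^ (-(1 / 20) : ℝ) ≤ 2 + 2 * gc2_Φ 1 ((a - x0) / x0) := by
  have hn := gc2_Φ_nonneg 1 ((a - x0) / x0)
  by_cases h : |1 - x1 / a| < 1 / 2
  · obtain ⟨e1, h2, h3, h4, h5, h6⟩ := gc2_near ha hx0 hx h hne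
    rw [gc2_Φ_eq (div_ne_zero h5 hx0.ne')]
    · linarith
    · rw [abs_div, abs_of_pos hx0, div_le_one hx0]
      nlinarith
  · have h1 : 1 / 2 ≤ |1 - x1 / a| := not_lt.1 h
    have h7 : |1 - x1 / a| ^ (-(1 / 20) : ℝ) ≤ (1 / 2 : ℝ) ^ (-(1 / 20) : ℝ) :=
      Real.rpow_le_rpow_of_nonpos (by norm_num) h1 (by norm_num)
    have h8 : (1 / 2 : ℝ) ^ (-(1 / 20) : ℝ) ≤ 2 := by
      rw [one_div, Real.inv_rpow (by norm_num), ← Real.rpow_neg (by norm_num)]
      calc (2:ℝ) ^ (-(-(1 / 20)) : ℝ) ≤ (2:ℝ) ^ (1:ℝ) :=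
            Real.rpow_le_rpow_of_exponent_le (by norm_num) (by norm_num)
        _ = 2 := Real.rpow_one 2
    linarith

/-- the bound for the kernel times the logarithm -/
theorem gc2_point {G : ℝ → ℝ} {U cG : ℝ} (hG : GOK G U cG) {ℓ X b γ a y c : ℝ} (hℓ : 1 ≤ ℓ)
    (hX : 0 < X) (hb : 0 < b) (hγ : γ ≠ 0) (ha : 0 < a) (h1 : 0 ≤ Real.log (a * b))
    (h2 : Real.log (a * b) ≤ y + 2 * ℓ) (h3 : 0 ≤ Real.log (|γ| * X))
    (h4 : Real.log (|γ| * X) ≤ 2 * ℓ) (h5 : Real.log (1 + U) ≤ ℓ) (hc : |c| ≤ 10 * ℓ)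
    (hu : |γ * X / (a * b)| ≤ U) (hu1 : γ * X / (a * b) ≠ 1) :
    |G (γ * X / (a * b))| * |Real.log |a * b - γ * X| + c| ≤
      3 * cG * (169 * ℓ ^ 2 + y ^ 2 + 1600 * |1 - γ * X / (a * b)| ^ (-(1 / 20) : ℝ)) := by
  set u := γ * X / (a * b) with hud
  have hab : 0 < a * b := mul_pos ha hb
  have hu0 : u ≠ 0 := div_ne_zero (mul_ne_zero hγ hX.ne') hab.ne'
  have hU : 1 ≤ U := hG.one_le
  have hcG : 1 ≤ cG := hG.one_le'
  have h1u : 0 < |1 - u| := abs_pos.2 (sub_ne_zero.2 (Ne.symm hu1))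
  set s := |1 - u| ^ (-(1 / 40) : ℝ) with hs
  have hs0 : 0 < s := by positivity
  have hss : |1 - u| ^ (-(1 / 20) : ℝ) = s * s := by
    rw [hs, ← Real.rpow_add h1u]
    congr 1
    norm_num
  have hy : 0 ≤ y + 2 * ℓ := h1.trans h2
  have b1 : |Real.log (|u|)| ≤ 4 * ℓ + y := by
    have e : |u| = |γ| * X / (a * b) := by
      rw [hud, abs_div, abs_mul, abs_of_pos hX, abs_of_pos hab]
    rw [e, Real.log_div (by positivity) hab.ne']
    rw [abs_le]
    constructor <;> linarith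
  have b2 : |Real.log (|1 - u|)| ≤ ℓ + 40 * s := by
    by_cases h : |1 - u| ≤ 1
    · have := gc2_log h1u h
      linarith
    · have h' : 1 < |1 - u| := not_le.1 h
      rw [abs_of_nonneg (Real.log_nonneg h'.le)]
      have h6 : |1 - u| ≤ 1 + U := by
        have := abs_sub (1:ℝ) u
        rw [abs_one] at this
        linarith
      have := Real.log_le_log (by linarith) h6
      linarith
  have b3 : |G u| ≤ cG * (1 + (4 * ℓ + y) + (ℓ + 40 * s)) := by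
    refine (hG.bd u hu0 hu1).trans (mul_le_mul_of_nonneg_left ?_ (by linarith))
    linarith
  have b4 : |Real.log |a * b - γ * X| + c| ≤ (y + 2 * ℓ) + (ℓ + 40 * s) + 10 * ℓ := by
    have e : a * b - γ * X = (a * b) * (1 - u) := by
      rw [hud]; field_simp
    rw [e, abs_mul, abs_of_pos hab, Real.log_mul hab.ne' h1u.ne']
    have t1 := abs_add_le (Real.log (a * b) + Real.log |1 - u|) c
    have t2 := abs_add_le (Real.log (a * b)) (Real.log |1 - u|)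
    rw [abs_of_nonneg h1] at t2
    linarith
  have b5 : 0 ≤ (y + 2 * ℓ) + (ℓ + 40 * s) + 10 * ℓ := by linarith
  have hsum : |G u| * |Real.log |a * b - γ * X| + c| ≤
      (cG * (13 * ℓ + y + 40 * s)) * (13 * ℓ + y + 40 * s) := by
    refine mul_le_mul (b3.trans (mul_le_mul_of_nonneg_left ?_ (by linarith))) (b4.trans ?_)
      (abs_nonneg _) (mul_nonneg (by linarith) (by linarith))
    · linarith
    · linarith
  refine hsum.trans ?_
  rw [hss]
  have key : (13 * ℓ + y + 40 * s) * (13 * ℓ + y + 40 * s) ≤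
      3 * (169 * ℓ ^ 2 + y ^ 2 + 1600 * (s * s)) := by
    nlinarith [sq_nonneg (13 * ℓ - y), sq_nonneg (13 * ℓ - 40 * s), sq_nonneg (y - 40 * s)]
  calc (cG * (13 * ℓ + y + 40 * s)) * (13 * ℓ + y + 40 * s)
      = cG * ((13 * ℓ + y + 40 * s) * (13 * ℓ + y + 40 * s)) := by ring
    _ ≤ cG * (3 * (169 * ℓ ^ 2 + y ^ 2 + 1600 * (s * s))) :=
        mul_le_mul_of_nonneg_left key (by linarith)
    _ = _ := by ring

/-- the weights -/
theorem gc2_weight (i : ℕ) {ℓ y : ℝ} (hℓ : 0 ≤ ℓ) (hy : 0 < y) (h : -Real.log y ≤ ℓ) :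
    (1 + |Real.log y|) ^ i * Real.exp (-y) ≤
      (2 ^ i * (1 + 2 ^ i * (i.factorial : ℝ))) * (1 + ℓ) ^ i * Real.exp (-(y / 2)) := by
  have h1 : |Real.log y| ≤ ℓ + y := by
    rw [abs_le]
    constructor
    · linarith
    · have := Real.log_le_sub_one_of_pos hy
      linarith
  have h2 : (1 + |Real.log y|) ^ i ≤ (1 + ℓ) ^ i * (1 + y) ^ i := by
    rw [← mul_pow]
    refine pow_le_pow_left₀ (by positivity) ?_ i
    nlinarith [mul_nonneg hℓ hy.le]
  have h3 : (1 + y) ^ i ≤ 2 ^ i * (1 + y ^ i) := by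
    have := add_pow_le (zero_le_one) hy.le i
    rw [one_pow] at this
    refine this.trans (mul_le_mul_of_nonneg_right ?_ (by positivity))
    exact pow_le_pow_right₀ (by norm_num) (Nat.sub_le _ _)
  have h4 : y ^ i * Real.exp (-(y / 2)) ≤ 2 ^ i * (i.factorial : ℝ) := by
    have h5 := Real.pow_div_factorial_le_exp (y / 2) (by positivity) i
    rw [div_le_iff₀ (by positivity)] at h5
    have h6 : y ^ i = 2 ^ i * (y / 2) ^ i := by
      rw [← mul_pow]; congr 1; ring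
    rw [h6, mul_assoc]
    refine mul_le_mul_of_nonneg_left ?_ (by positivity)
    calc (y / 2) ^ i * Real.exp (-(y / 2)) ≤
        (Real.exp (y / 2) * (i.factorial : ℝ)) * Real.exp (-(y / 2)) :=
          mul_le_mul_of_nonneg_right h5 (Real.exp_pos _).le
      _ = (i.factorial : ℝ) := by
          rw [mul_right_comm, ← Real.exp_add]; simp
  have h5 : Real.exp (-(y / 2)) ≤ 1 := Real.exp_le_one_iff.2 (by linarith)
  have h6 : (1 + y) ^ i * Real.exp (-(y / 2)) ≤ 2 ^ i * (1 + 2 ^ i * (i.factorial : ℝ)) := by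
    calc (1 + y) ^ i * Real.exp (-(y / 2)) ≤ (2 ^ i * (1 + y ^ i)) * Real.exp (-(y / 2)) :=
          mul_le_mul_of_nonneg_right h3 (Real.exp_pos _).le
      _ = 2 ^ i * (Real.exp (-(y / 2)) + y ^ i * Real.exp (-(y / 2))) := by ring
      _ ≤ _ := mul_le_mul_of_nonneg_left (by linarith) (by positivity)
  have e : Real.exp (-y) = Real.exp (-(y / 2)) * Real.exp (-(y / 2)) := by
    rw [← Real.exp_add]; congr 1; ring
  rw [e]
  calc (1 + |Real.log y|) ^ i * (Real.exp (-(y / 2)) * Real.exp (-(y / 2)))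
      ≤ ((1 + ℓ) ^ i * (1 + y) ^ i) * (Real.exp (-(y / 2)) * Real.exp (-(y / 2))) :=
        mul_le_mul_of_nonneg_right h2 (by positivity)
    _ = (1 + ℓ) ^ i * ((1 + y) ^ i * Real.exp (-(y / 2))) * Real.exp (-(y / 2)) := by ring
    _ ≤ (1 + ℓ) ^ i * (2 ^ i * (1 + 2 ^ i * (i.factorial : ℝ))) * Real.exp (-(y / 2)) := by
        gcongr
    _ = _ := by ring

theorem gc2_exp {ℓ y S : ℝ} (hy : 0 ≤ y) (hS : 0 ≤ S) :
    Real.exp (-(y / 2)) * (169 * ℓ ^ 2 + y ^ 2 + 1600 * S) ≤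
      Real.exp (-(y / 4)) * (169 * ℓ ^ 2 + 64 + 1600 * S) := by
  have h1 : Real.exp (-(y / 2)) = Real.exp (-(y / 4)) * Real.exp (-(y / 4)) := by
    rw [← Real.exp_add]; congr 1; ring
  have h2 : Real.exp (-(y / 4)) ≤ 1 := Real.exp_le_one_iff.2 (by linarith)
  have h3 : y ^ 2 * Real.exp (-(y / 4)) ≤ 64 := by
    have h5 := Real.pow_div_factorial_le_exp (y / 4) (by positivity) 2
    have h6 : y ^ 2 ≤ 32 * Real.exp (y / 4) := by
      norm_num [Nat.factorial] at h5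
      nlinarith
    calc y ^ 2 * Real.exp (-(y / 4)) ≤ (32 * Real.exp (y / 4)) * Real.exp (-(y / 4)) :=
          mul_le_mul_of_nonneg_right h6 (Real.exp_pos _).le
      _ = 32 := by rw [mul_assoc, ← Real.exp_add]; simp
      _ ≤ 64 := by norm_num
  rw [h1, mul_assoc]
  refine mul_le_mul_of_nonneg_left ?_ (Real.exp_pos _).le
  have h4 : Real.exp (-(y / 4)) * (169 * ℓ ^ 2 + 1600 * S) ≤ 169 * ℓ ^ 2 + 1600 * S := by
    have : 0 ≤ 169 * ℓ ^ 2 + 1600 * S := by positivity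
    nlinarith
  nlinarith

/-- the sizes of the parameters -/
structure gc2_P (U ℓ X Y j b γ : ℝ) : Prop where
  hℓ : 1 ≤ ℓ
  hX : Real.log X = ℓ
  hX0 : 1 ≤ X
  hU : 1 ≤ U
  hU' : 1 + U ≤ X
  hj : 1 ≤ j
  hb : 1 ≤ b
  hY : 1 ≤ Y
  hγ : 1 ≤ |γ|
  hγ' : |γ| ≤ X
  h1 : b * U ≤ |γ| * X
  h3 : b * Y * U ≤ X * (|γ| * X * j)
  h4 : Y * b ≤ X ^ 2

/-- facts on the support of the kernel -/
theorem gc2_dom {U ℓ X Y j b γ : ℝ} (H : gc2_P U ℓ X Y j b γ) {a : ℝ} (ha : 0 < a)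
    (hu : |γ * X / (a * b)| ≤ U) :
    1 ≤ a ∧ 0 ≤ Real.log (a * b) ∧ Real.log (a * b) ≤ j * a / Y + 2 * ℓ ∧
      -Real.log (j * a / Y) ≤ ℓ ∧ 0 < j * a / Y := by
  obtain ⟨hℓ, hX, hX0, hU, hU', hj, hb, hY, hγ, hγ', h1, h3, h4⟩ := H
  have hX1 : 0 < X := by linarith
  have hab : 0 < a * b := by positivity
  have hu' : |γ| * X ≤ U * (a * b) := by
    rw [abs_div, abs_mul, abs_of_pos hX1, abs_of_pos hab, div_le_iff₀ hab] at hu
    exact hu
  have hU0 : 0 < U := by linarith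
  have hj0 : 0 < j := by linarith
  have hY0 : 0 < Y := by linarith
  have hb0 : 0 < b := by linarith
  have a1 : 1 ≤ a := by
    have : b * U * 1 ≤ b * U * a := by nlinarith
    exact le_of_mul_le_mul_left this (by positivity)
  have y0 : 0 < j * a / Y := by positivity
  have e2 : Real.log (X ^ 2) = 2 * ℓ := by
    rw [Real.log_pow, hX]; norm_num
  refine ⟨a1, Real.log_nonneg (by nlinarith), ?_, ?_, y0⟩
  · have h5 : a * b ≤ (j * a / Y) * X ^ 2 := by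
      have h6 : a * b * Y ≤ j * a * X ^ 2 := by
        have : a * (Y * b) ≤ a * X ^ 2 := mul_le_mul_of_nonneg_left h4 ha.le
        have h7 : 1 * (a * X ^ 2) ≤ j * (a * X ^ 2) := mul_le_mul_of_nonneg_right hj (by positivity)
        nlinarith
      rw [div_mul_eq_mul_div, le_div_iff₀ hY0]
      exact h6
    have h6 := Real.log_le_log hab h5
    rw [Real.log_mul y0.ne' (by positivity), e2] at h6
    have h7 := Real.log_le_sub_one_of_pos y0
    linarith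
  · have h5 : X⁻¹ ≤ j * a / Y := by
      rw [inv_eq_one_div, div_le_div_iff₀ hX1 hY0, one_mul]
      have h6 : b * U * Y ≤ b * U * (j * a * X) := by
        calc b * U * Y = b * Y * U := by ring
          _ ≤ X * (|γ| * X * j) := h3
          _ = X * j * (|γ| * X) := by ring
          _ ≤ X * j * (U * (a * b)) := mul_le_mul_of_nonneg_left hu' (by positivity)
          _ = b * U * (j * a * X) := by ring
      exact le_of_mul_le_mul_left h6 (by positivity)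
    have h6 := Real.log_le_log (by positivity) h5
    rw [Real.log_inv, hX] at h6
    linarith

theorem gc2_x {U ℓ X Y j b γ : ℝ} (H : gc2_P U ℓ X Y j b γ) {a : ℝ} (_ : 0 < a) :
    γ * X / (a * b) = (γ * X / b) / a ∧ |γ * X / b| = |γ| * X / b ∧ 0 < |γ| * X / b := by
  have hX0 : 0 < X := by linarith [H.hX0]
  have hb : 0 < b := by linarith [H.hb]
  have hγ : 0 < |γ| := by linarith [H.hγ]
  refine ⟨?_, ?_, by positivity⟩
  · rw [div_div, mul_comm b a]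
  · rw [abs_div, abs_mul, abs_of_pos hX0, abs_of_pos hb]

/-- the general pointwise bound -/
theorem gc2_bd1 {G : ℝ → ℝ} {U cG ℓ X Y j b γ : ℝ} (hG : GOK G U cG) (H : gc2_P U ℓ X Y j b γ)
    {c : ℝ} (hc : |c| ≤ 10 * ℓ) {a v K : ℝ} (ha : 0 < a) (hne : a ≠ γ * X / b) (hv : 0 ≤ v)
    (hK : 0 ≤ K) (hvK : |γ * X / (a * b)| ≤ U → v ≤ K * Real.exp (-(j * a / Y / 2))) :
    v / a * (|G (γ * X / (a * b))| * |Real.log |a * b - γ * X| + c|) ≤
      K * cG * 10400 * ℓ ^ 2 * (Real.exp (-(j * a / Y / 4)) +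
        gc2_Φ 1 ((a - |γ| * X / b) / (|γ| * X / b))) := by
  have hcG : 1 ≤ cG := hG.one_le'
  have hΦ := gc2_Φ_nonneg 1 ((a - |γ| * X / b) / (|γ| * X / b))
  obtain ⟨e1, e2, e3⟩ := gc2_x H ha
  by_cases hu : |γ * X / (a * b)| ≤ U
  · obtain ⟨d1, d2, d3, d4, d5⟩ := gc2_dom H ha hu
    have hvK' := hvK hu
    set y := j * a / Y with hy
    have hX0 : 0 < X := by linarith [H.hX0]
    have hb : 0 < b := by linarith [H.hb]
    have hu1 : γ * X / (a * b) ≠ 1 := by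
      intro h
      rw [div_eq_one_iff_eq (by positivity)] at h
      exact hne (by rw [h]; field_simp)
    have hℓ := H.hℓ
    have l1 : 0 ≤ Real.log (|γ| * X) := Real.log_nonneg (by nlinarith [H.hX0, H.hγ])
    have l2 : Real.log (|γ| * X) ≤ 2 * ℓ := by
      rw [Real.log_mul (by linarith [H.hγ]) hX0.ne', H.hX]
      have := Real.log_le_log (by linarith [H.hγ]) H.hγ'
      rw [H.hX] at this
      linarith
    have l3 : Real.log (1 + U) ≤ ℓ := by
      rw [← H.hX]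
      exact Real.log_le_log (by linarith [H.hU]) H.hU'
    have p := gc2_point hG hℓ hX0 hb (by
      intro h
      have := H.hγ
      rw [h, abs_zero] at this
      linarith) ha d2 d3 l1 l2 l3 hc hu hu1
    set S := |1 - γ * X / (a * b)| ^ (-(1 / 20) : ℝ) with hS
    have hS0 : 0 ≤ S := by positivity
    have hS1 : S ≤ 2 + 2 * gc2_Φ 1 ((a - |γ| * X / b) / (|γ| * X / b)) := by
      rw [hS, e1]
      exact gc2_far ha e3 e2 hne
    set Φ := gc2_Φ 1 ((a - |γ| * X / b) / (|γ| * X / b)) with hΦd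
    have hva : v / a ≤ v := div_le_self hv d1
    have hℓ2 : 1 ≤ ℓ ^ 2 := one_le_pow₀ hℓ
    have hex : Real.exp (-(y / 4)) ≤ 1 := Real.exp_le_one_iff.2 (by linarith)
    calc v / a * (|G (γ * X / (a * b))| * |Real.log |a * b - γ * X| + c|)
        ≤ v * (3 * cG * (169 * ℓ ^ 2 + y ^ 2 + 1600 * S)) := by
          refine mul_le_mul hva p (by positivity) hv
      _ ≤ (K * Real.exp (-(y / 2))) * (3 * cG * (169 * ℓ ^ 2 + y ^ 2 + 1600 * S)) :=
          mul_le_mul_of_nonneg_right hvK' (by positivity)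
      _ = 3 * K * cG * (Real.exp (-(y / 2)) * (169 * ℓ ^ 2 + y ^ 2 + 1600 * S)) := by ring
      _ ≤ 3 * K * cG * (Real.exp (-(y / 4)) * (169 * ℓ ^ 2 + 64 + 1600 * S)) :=
          mul_le_mul_of_nonneg_left (gc2_exp d5.le hS0) (by positivity)
      _ ≤ 3 * K * cG * (Real.exp (-(y / 4)) * (169 * ℓ ^ 2 + 64 + 1600 * (2 + 2 * Φ))) := by
          gcongr
      _ = 3 * K * cG * (Real.exp (-(y / 4)) * (169 * ℓ ^ 2 + 3264)) +
            9600 * K * cG * (Real.exp (-(y / 4)) * Φ) := by ring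
      _ ≤ 3 * K * cG * (Real.exp (-(y / 4)) * (3433 * ℓ ^ 2)) +
            9600 * K * cG * (ℓ ^ 2 * Φ) := by
          have t1 : 169 * ℓ ^ 2 + 3264 ≤ 3433 * ℓ ^ 2 := by linarith
          have t2 : Real.exp (-(y / 4)) * Φ ≤ ℓ ^ 2 * Φ :=
            mul_le_mul_of_nonneg_right (hex.trans hℓ2) hΦ
          have t3 : Real.exp (-(y / 4)) * (169 * ℓ ^ 2 + 3264) ≤
              Real.exp (-(y / 4)) * (3433 * ℓ ^ 2) :=
            mul_le_mul_of_nonneg_left t1 (Real.exp_pos _).le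
          have k1 : 0 ≤ 3 * K * cG := by positivity
          have k2 : 0 ≤ 9600 * K * cG := by positivity
          exact add_le_add (mul_le_mul_of_nonneg_left t3 k1) (mul_le_mul_of_nonneg_left t2 k2)
      _ ≤ K * cG * 10400 * ℓ ^ 2 * (Real.exp (-(y / 4)) + Φ) := by
          have k1 : 0 ≤ K * cG * ℓ ^ 2 * Real.exp (-(y / 4)) := by positivity
          have k2 : 0 ≤ K * cG * ℓ ^ 2 * Φ := by positivity
          linarith
  · have hg0 : G (γ * X / (a * b)) = 0 := hG.supp _ (not_le.1 hu)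
    rw [hg0]
    simp only [abs_zero, zero_mul, mul_zero]
    positivity

theorem gc2_S {l S : ℝ} (hl : 1 ≤ l) (hS : 1 ≤ S) :
    169 * l + 64 + 1600 * S ≤ 1833 * l * S := by
  nlinarith [mul_nonneg (sub_nonneg.2 hl) (sub_nonneg.2 hS)]

/-- the bound near the singularity -/
theorem gc2_bd2 {G : ℝ → ℝ} {U cG ℓ X Y j b γ om : ℝ} (hG : GOK G U cG)
    (H : gc2_P U ℓ X Y j b γ) (hom : 0 < om) (hom2 : 4 * om ≤ 1)
    {c : ℝ} (hc : |c| ≤ 10 * ℓ) {a v K : ℝ} (ha : 0 < a) (hne : a ≠ γ * X / b) (hv : 0 ≤ v)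
    (hK : 0 ≤ K) (hvK : |γ * X / (a * b)| ≤ U → v ≤ K * Real.exp (-(j * a / Y / 2)))
    (h : |1 - γ * X / (a * b)| < 2 * om) :
    v / a * (|G (γ * X / (a * b))| * |Real.log |a * b - γ * X| + c|) ≤
      K * cG * 22000 * ℓ ^ 2 / (|γ| * X / b) *
        gc2_Φ (4 * om) ((a - |γ| * X / b) / (|γ| * X / b)) := by
  have hcG : 1 ≤ cG := hG.one_le'
  have hΦ := gc2_Φ_nonneg (4 * om) ((a - |γ| * X / b) / (|γ| * X / b))
  obtain ⟨e1, e2, e3⟩ := gc2_x H ha
  by_cases hu : |γ * X / (a * b)| ≤ U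
  · obtain ⟨d1, d2, d3, d4, d5⟩ := gc2_dom H ha hu
    have hvK' := hvK hu
    set y := j * a / Y with hy
    have hX0 : 0 < X := by linarith [H.hX0]
    have hb : 0 < b := by linarith [H.hb]
    have hu1 : γ * X / (a * b) ≠ 1 := by
      intro h
      rw [div_eq_one_iff_eq (by positivity)] at h
      exact hne (by rw [h]; field_simp)
    have hℓ := H.hℓ
    have l1 : 0 ≤ Real.log (|γ| * X) := Real.log_nonneg (by nlinarith [H.hX0, H.hγ])
    have l2 : Real.log (|γ| * X) ≤ 2 * ℓ := by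
      rw [Real.log_mul (by linarith [H.hγ]) hX0.ne', H.hX]
      have := Real.log_le_log (by linarith [H.hγ]) H.hγ'
      rw [H.hX] at this
      linarith
    have l3 : Real.log (1 + U) ≤ ℓ := by
      rw [← H.hX]
      exact Real.log_le_log (by linarith [H.hU]) H.hU'
    have p := gc2_point hG hℓ hX0 hb (by
      intro h
      have := H.hγ
      rw [h, abs_zero] at this
      linarith) ha d2 d3 l1 l2 l3 hc hu hu1
    set x0 := |γ| * X / b with hx0
    set S := |1 - γ * X / (a * b)| ^ (-(1 / 20) : ℝ) with hS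
    have hS0 : 0 ≤ S := by positivity
    have hpos : 0 < |1 - γ * X / (a * b)| := abs_pos.2 (sub_ne_zero.2 (Ne.symm hu1))
    have hS1 : 1 ≤ S := by
      rw [hS]
      exact Real.one_le_rpow_of_pos_of_le_one_of_nonpos hpos (by linarith) (by norm_num)
    have hh : |1 - (γ * X / b) / a| < 1 / 2 := by
      rw [← e1]; linarith
    obtain ⟨n1, n2, n3, n4, n5, n6⟩ := gc2_near ha e3 e2 hh hne
    have hS2 : S ≤ 2 * gc2_Φ (4 * om) ((a - x0) / x0) := by
      rw [gc2_Φ_eq (div_ne_zero n5 e3.ne')]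
      · rw [hS, e1]
        exact n6
      · rw [abs_div, abs_of_pos e3, div_le_iff₀ e3]
        refine n4.trans ?_
        rw [← e1]
        nlinarith
    set Φ := gc2_Φ (4 * om) ((a - x0) / x0) with hΦd
    have hℓ2 : 1 ≤ ℓ ^ 2 := one_le_pow₀ hℓ
    have hex : Real.exp (-(y / 4)) ≤ 1 := Real.exp_le_one_iff.2 (by linarith)
    have ha' : 1 / a ≤ 2 / x0 := by
      rw [div_le_div_iff₀ ha e3]
      linarith
    have hfin : v * (3 * cG * (169 * ℓ ^ 2 + y ^ 2 + 1600 * S)) ≤ K * cG * 11000 * ℓ ^ 2 * Φ := by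
      calc v * (3 * cG * (169 * ℓ ^ 2 + y ^ 2 + 1600 * S))
        ≤ (K * Real.exp (-(y / 2))) * (3 * cG * (169 * ℓ ^ 2 + y ^ 2 + 1600 * S)) :=
            mul_le_mul_of_nonneg_right hvK' (by positivity)
        _ = 3 * K * cG * (Real.exp (-(y / 2)) * (169 * ℓ ^ 2 + y ^ 2 + 1600 * S)) := by ring
        _ ≤ 3 * K * cG * (Real.exp (-(y / 4)) * (169 * ℓ ^ 2 + 64 + 1600 * S)) :=
            mul_le_mul_of_nonneg_left (gc2_exp d5.le hS0) (by positivity)
        _ ≤ 3 * K * cG * (1 * (1833 * ℓ ^ 2 * S)) := by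
            refine mul_le_mul_of_nonneg_left ?_ (by positivity)
            exact mul_le_mul hex (gc2_S hℓ2 hS1) (by positivity) zero_le_one
        _ ≤ 3 * K * cG * (1 * (1833 * ℓ ^ 2 * (2 * Φ))) := by gcongr
        _ ≤ K * cG * 11000 * ℓ ^ 2 * Φ := by
            have k2 : 0 ≤ K * cG * ℓ ^ 2 * Φ := by positivity
            linarith
    calc v / a * (|G (γ * X / (a * b))| * |Real.log |a * b - γ * X| + c|)
        ≤ v / a * (3 * cG * (169 * ℓ ^ 2 + y ^ 2 + 1600 * S)) :=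
          mul_le_mul_of_nonneg_left p (by positivity)
      _ = 1 / a * (v * (3 * cG * (169 * ℓ ^ 2 + y ^ 2 + 1600 * S))) := by ring
      _ ≤ 2 / x0 * (K * cG * 11000 * ℓ ^ 2 * Φ) := by
          refine mul_le_mul ha' hfin (by positivity) (by positivity)
      _ = _ := by ring
  · have hg0 : G (γ * X / (a * b)) = 0 := hG.supp _ (not_le.1 hu)
    rw [hg0]
    simp only [abs_zero, zero_mul, mul_zero]
    positivity

theorem gc2_V_cont {i : ℕ} {CV : ℝ}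
    (hV : ∀ m y y' : ℝ, 0 < m → m ≤ 1 → m ≤ y → m ≤ y' → |V i y - V i y'| ≤ CV / m ^ 2 * |y - y'|)
    (hCV : 1 ≤ CV) : ContinuousOn (V i) (Ioi 0) := by
  intro y hy
  have hy0 : 0 < y := hy
  set m := min 1 (y / 2) with hm
  have hm0 : 0 < m := lt_min one_pos (by linarith)
  have hL : LipschitzOnWith (Real.toNNReal (CV / m ^ 2)) (V i) (Ici m) := by
    refine LipschitzOnWith.of_dist_le_mul (fun a ha b hb => ?_)
    rw [Real.dist_eq, Real.dist_eq, Real.coe_toNNReal _ (by positivity)]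
    exact hV m a b hm0 (min_le_left _ _) ha hb
  have h1 := hL.continuousOn
  have h2 : Ici m ∈ nhds y := Ici_mem_nhds (by
    have := min_le_right 1 (y / 2)
    linarith)
  exact (h1.continuousAt h2).continuousWithinAt

theorem gc2_up {R y : ℝ} : 0 ≤ up R y ∧ up R y ≤ 1 := by
  unfold up
  exact ⟨le_max_left _ _, max_le zero_le_one (min_le_left _ _)⟩

theorem gc2_cl {om u : ℝ} : 0 ≤ cl om u ∧ cl om u ≤ 1 := by
  unfold cl
  exact ⟨le_max_left _ _, max_le zero_le_one (min_le_left _ _)⟩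

theorem gc2_up_one {R y : ℝ} (hR : 0 < R) (h : y ≤ R) : up R y = 1 := by
  unfold up
  have : y / R ≤ 1 := by rw [div_le_one hR]; exact h
  rw [min_eq_left (by linarith), max_eq_right zero_le_one]

theorem gc2_cl_one {om u : ℝ} (hom : 0 < om) (h : 2 * om ≤ |1 - u|) : cl om u = 1 := by
  unfold cl
  have : 2 ≤ |1 - u| / om := by rw [le_div_iff₀ hom]; exact h
  rw [min_eq_left (by linarith), max_eq_right zero_le_one]

/-- the function -/
noncomputable def gc2_F (i : ℕ) (G : ℝ → ℝ) (X Y j b γ c a : ℝ) : ℝ :=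
  V i (j * a / Y) / a * G (γ * X / (a * b)) * (Real.log |a * b - γ * X| + c)

/-- the cut -/
noncomputable def gc2_Q (R om X Y j b γ a : ℝ) : ℝ :=
  up R (j * a / Y) * cl om (γ * X / (a * b))

theorem gc2_Q01 {R om X Y j b γ a : ℝ} : 0 ≤ gc2_Q R om X Y j b γ a ∧ gc2_Q R om X Y j b γ a ≤ 1 := by
  unfold gc2_Q
  exact ⟨mul_nonneg gc2_up.1 gc2_cl.1, mul_le_one₀ gc2_up.2 gc2_cl.1 gc2_cl.2⟩

theorem gc2_Q_meas (R om X Y j b γ : ℝ) : Measurable (gc2_Q R om X Y j b γ) := by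
  unfold gc2_Q up cl
  fun_prop

theorem gc2_F_meas {i : ℕ} {G : ℝ → ℝ} (hG : Measurable G) {X Y j b γ c : ℝ}
    (hV : ContinuousOn (V i) (Ioi 0)) (hj : 0 < j) (hY : 0 < Y) :
    AEStronglyMeasurable (gc2_F i G X Y j b γ c) (volume.restrict (Ioi 0)) := by
  unfold gc2_F
  have h1 : ContinuousOn (fun a : ℝ => V i (j * a / Y)) (Ioi 0) := by
    refine hV.comp (by fun_prop) (fun a ha => ?_)
    have : (0:ℝ) < a := ha
    exact mem_Ioi.2 (by positivity)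
  have h2 : ContinuousOn (fun a : ℝ => V i (j * a / Y) / a) (Ioi 0) :=
    h1.div continuousOn_id (fun a ha => (mem_Ioi.1 ha).ne')
  have h3 : Measurable (fun a : ℝ => G (γ * X / (a * b))) := hG.comp (by fun_prop)
  have h4 : Measurable (fun a : ℝ => Real.log |a * b - γ * X| + c) := by
    refine (Real.measurable_log.comp ?_).add_const c
    exact (measurable_norm.comp (by fun_prop : Measurable (fun a : ℝ => a * b - γ * X)))
  exact ((h2.aestronglyMeasurable measurableSet_Ioi).mul h3.aestronglyMeasurable).mul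
    h4.aestronglyMeasurable

/-- the dominating function -/
noncomputable def gc2_B (c1 X Y j b γ a : ℝ) : ℝ :=
  c1 * (Real.exp (-(j * a / Y / 4)) + gc2_Φ 1 ((a - |γ| * X / b) / (|γ| * X / b)))

theorem gc2_B_int {U ℓ X Y j b γ : ℝ} (H : gc2_P U ℓ X Y j b γ) {c1 : ℝ} (hc1 : 0 ≤ c1) :
    IntegrableOn (gc2_B c1 X Y j b γ) (Ioi 0) ∧
    ∫ a in Ioi (0:ℝ), gc2_B c1 X Y j b γ a ≤ c1 * (4 * Y + 3 * (|γ| * X / b)) := by
  have hj : 0 < j := by linarith [H.hj]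
  have hY : 0 < Y := by linarith [H.hY]
  obtain ⟨-, -, hx0⟩ := gc2_x H one_pos
  have hneg : -(j / (4 * Y)) < 0 := by
    have : 0 < j / (4 * Y) := by positivity
    linarith
  have e : (fun a : ℝ => Real.exp (-(j * a / Y / 4))) = fun a : ℝ =>
      Real.exp (-(j / (4 * Y)) * a) := by
    funext a
    congr 1
    field_simp
    try ring
  have h1 : IntegrableOn (fun a : ℝ => Real.exp (-(j * a / Y / 4))) (Ioi 0) := by
    rw [e]; exact integrableOn_exp_mul_Ioi hneg 0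
  have h2 : ∫ a in Ioi (0:ℝ), Real.exp (-(j * a / Y / 4)) ≤ 4 * Y := by
    rw [e, integral_exp_mul_Ioi hneg 0]
    simp only [mul_zero, Real.exp_zero]
    rw [neg_div_neg_eq, one_div, inv_div, div_le_iff₀ hj]
    nlinarith [H.hj]
  obtain ⟨h3, h4⟩ := gc2_Φ_shift (r := 1) zero_le_one hx0
  have h5 : ∫ a in Ioi (0:ℝ), gc2_Φ 1 ((a - |γ| * X / b) / (|γ| * X / b)) ≤
      3 * (|γ| * X / b) := by
    refine (setIntegral_le_integral h3 (Filter.Eventually.of_forall fun a =>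
      gc2_Φ_nonneg _ _)).trans ?_
    rw [h4, Real.one_rpow]
    linarith
  refine ⟨(h1.add h3.integrableOn).const_mul c1, ?_⟩
  unfold gc2_B
  rw [integral_const_mul, integral_add h1 h3.integrableOn]
  exact mul_le_mul_of_nonneg_left (add_le_add h2 h5) hc1

theorem gc2_main {i : ℕ} {G : ℝ → ℝ} {U cG CV ℓ X Y j b γ c R om : ℝ} (hG : GOK G U cG)
    (hGm : Measurable G) (H : gc2_P U ℓ X Y j b γ) (hc : |c| ≤ 10 * ℓ) (hCV : 1 ≤ CV)
    (hV1 : ∀ y : ℝ, 0 < y → 0 ≤ V i y ∧ V i y ≤ CV * (1 + |Real.log y|) ^ i * Real.exp (-y))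
    (hV2 : ∀ y : ℝ, 1 ≤ y → V i y ≤ Real.exp (-(2 * Real.pi * y)))
    (hV3 : ∀ m y y' : ℝ, 0 < m → m ≤ 1 → m ≤ y → m ≤ y' →
      |V i y - V i y'| ≤ CV / m ^ 2 * |y - y'|)
    (hR : 1 ≤ R) (hom : 0 < om) (hom2 : 4 * om ≤ 1) :
    IntegrableOn (fun a => gc2_F i G X Y j b γ c a * gc2_Q R om X Y j b γ a) (Ioi 0) ∧
    |(∫ a in Ioi (0:ℝ), gc2_F i G X Y j b γ c a) -
      ∫ a in Ioi (0:ℝ), gc2_F i G X Y j b γ c a * gc2_Q R om X Y j b γ a| ≤
      Real.exp (-R) * cG * 10400 * ℓ ^ 2 * (4 * Y + 3 * (|γ| * X / b)) +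
      CV * ((2 ^ i * (1 + 2 ^ i * (i.factorial : ℝ))) * (1 + ℓ) ^ i) * cG * 22000 * ℓ ^ 2 *
        (40 / 19 * (4 * om) ^ (19 / 20 : ℝ)) := by
  have hj : 0 < j := by linarith [H.hj]
  have hY : 0 < Y := by linarith [H.hY]
  have hX : 0 < X := by linarith [H.hX0]
  have hb : 0 < b := by linarith [H.hb]
  have hℓ : 1 ≤ ℓ := H.hℓ
  have hcG : 1 ≤ cG := hG.one_le'
  obtain ⟨-, -, hx0⟩ := gc2_x H one_pos
  set x0 := |γ| * X / b with hx0d
  set K := CV * ((2 ^ i * (1 + 2 ^ i * (i.factorial : ℝ))) * (1 + ℓ) ^ i) with hK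
  have hK0 : 0 ≤ K := by positivity
  have hVc := gc2_V_cont hV3 hCV
  have hFm := gc2_F_meas (c := c) (X := X) (b := b) (γ := γ) hGm hVc hj hY
  have hQm := gc2_Q_meas R om X Y j b γ
  have hy0 : ∀ a : ℝ, 0 < a → 0 < j * a / Y := fun a ha => by positivity
  have hv0 : ∀ a : ℝ, 0 < a → 0 ≤ V i (j * a / Y) := fun a ha => (hV1 _ (hy0 a ha)).1
  have hvK : ∀ a : ℝ, 0 < a → |γ * X / (a * b)| ≤ U →
      V i (j * a / Y) ≤ K * Real.exp (-(j * a / Y / 2)) := by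
    intro a ha hu
    obtain ⟨-, -, -, d4, d5⟩ := gc2_dom H ha hu
    have h1 := gc2_weight i (by linarith : (0:ℝ) ≤ ℓ) d5 d4
    have h2 := (hV1 _ d5).2
    calc V i (j * a / Y) ≤ CV * (1 + |Real.log (j * a / Y)|) ^ i * Real.exp (-(j * a / Y)) := h2
      _ = CV * ((1 + |Real.log (j * a / Y)|) ^ i * Real.exp (-(j * a / Y))) := by ring
      _ ≤ CV * ((2 ^ i * (1 + 2 ^ i * (i.factorial : ℝ))) * (1 + ℓ) ^ i *
            Real.exp (-(j * a / Y / 2))) := mul_le_mul_of_nonneg_left h1 (by linarith)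
      _ = _ := by rw [hK]; ring
  have habs : ∀ a : ℝ, 0 < a → |gc2_F i G X Y j b γ c a| = V i (j * a / Y) / a *
      (|G (γ * X / (a * b))| * |Real.log |a * b - γ * X| + c|) := by
    intro a ha
    unfold gc2_F
    rw [abs_mul, abs_mul, abs_div, abs_of_nonneg (hv0 a ha), abs_of_pos ha]
    ring
  -- bound for F
  have bF : ∀ a : ℝ, 0 < a → a ≠ γ * X / b →
      |gc2_F i G X Y j b γ c a| ≤ gc2_B (K * cG * 10400 * ℓ ^ 2) X Y j b γ a := by
    intro a ha hne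
    rw [habs a ha]
    exact gc2_bd1 hG H hc ha hne (hv0 a ha) hK0 (hvK a ha)
  have bT : ∀ a : ℝ, 0 < a → a ≠ γ * X / b → R < j * a / Y →
      |gc2_F i G X Y j b γ c a| ≤ gc2_B (Real.exp (-R) * cG * 10400 * ℓ ^ 2) X Y j b γ a := by
    intro a ha hne hRy
    rw [habs a ha]
    refine gc2_bd1 hG H hc ha hne (hv0 a ha) (Real.exp_pos _).le (fun _ => ?_)
    refine (hV2 _ (by linarith)).trans ?_
    rw [← Real.exp_add]
    apply Real.exp_le_exp.2
    have := Real.pi_gt_three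
    nlinarith
  have bS : ∀ a : ℝ, 0 < a → a ≠ γ * X / b → |1 - γ * X / (a * b)| < 2 * om →
      |gc2_F i G X Y j b γ c a| ≤ K * cG * 22000 * ℓ ^ 2 / x0 *
        gc2_Φ (4 * om) ((a - x0) / x0) := by
    intro a ha hne h
    rw [habs a ha]
    exact gc2_bd2 hG H hom hom2 hc ha hne (hv0 a ha) hK0 (hvK a ha) h
  have hae : ∀ᵐ a ∂(volume.restrict (Ioi (0:ℝ))), 0 < a ∧ a ≠ γ * X / b := by
    rw [ae_restrict_iff' measurableSet_Ioi]
    have h1 : ∀ᵐ a : ℝ, a ≠ γ * X / b := by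
      rw [ae_iff]
      simp
    filter_upwards [h1] with a ha hpos
    exact ⟨hpos, ha⟩
  have hB1 := gc2_B_int H (c1 := K * cG * 10400 * ℓ ^ 2) (by positivity)
  have hB2 := gc2_B_int H (c1 := Real.exp (-R) * cG * 10400 * ℓ ^ 2) (by positivity)
  have hFi : IntegrableOn (gc2_F i G X Y j b γ c) (Ioi 0) := by
    refine Integrable.mono' hB1.1 hFm ?_
    filter_upwards [hae] with a ha
    rw [Real.norm_eq_abs]
    exact bF a ha.1 ha.2
  have hFQm : AEStronglyMeasurable (fun a => gc2_F i G X Y j b γ c a * gc2_Q R om X Y j b γ a)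
      (volume.restrict (Ioi 0)) := hFm.mul hQm.aestronglyMeasurable
  have hFQi : IntegrableOn (fun a => gc2_F i G X Y j b γ c a * gc2_Q R om X Y j b γ a)
      (Ioi 0) := by
    refine Integrable.mono' hFi.norm hFQm ?_
    filter_upwards with a
    rw [norm_mul, Real.norm_eq_abs (gc2_Q R om X Y j b γ a), abs_of_nonneg gc2_Q01.1]
    exact mul_le_of_le_one_right (norm_nonneg _) gc2_Q01.2
  refine ⟨hFQi, ?_⟩
  rw [← integral_sub hFi hFQi]
  obtain ⟨hP1, hP2⟩ := gc2_Φ_shift (r := 4 * om) (by positivity) hx0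
  have hg : IntegrableOn (fun a => gc2_B (Real.exp (-R) * cG * 10400 * ℓ ^ 2) X Y j b γ a +
      K * cG * 22000 * ℓ ^ 2 / x0 * gc2_Φ (4 * om) ((a - x0) / x0)) (Ioi 0) :=
    hB2.1.add (hP1.integrableOn.const_mul _)
  have hle : ‖∫ a in Ioi (0:ℝ), (gc2_F i G X Y j b γ c a -
      gc2_F i G X Y j b γ c a * gc2_Q R om X Y j b γ a)‖ ≤
      ∫ a in Ioi (0:ℝ), (gc2_B (Real.exp (-R) * cG * 10400 * ℓ ^ 2) X Y j b γ a +
      K * cG * 22000 * ℓ ^ 2 / x0 * gc2_Φ (4 * om) ((a - x0) / x0)) := by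
    refine norm_integral_le_of_norm_le hg ?_
    filter_upwards [hae] with a ha
    have hBn : 0 ≤ gc2_B (Real.exp (-R) * cG * 10400 * ℓ ^ 2) X Y j b γ a := by
      unfold gc2_B
      have := gc2_Φ_nonneg 1 ((a - |γ| * X / b) / (|γ| * X / b))
      positivity
    have hPn : 0 ≤ K * cG * 22000 * ℓ ^ 2 / x0 * gc2_Φ (4 * om) ((a - x0) / x0) := by
      have := gc2_Φ_nonneg (4 * om) ((a - x0) / x0)
      positivity
    have hfac : ‖gc2_F i G X Y j b γ c a - gc2_F i G X Y j b γ c a * gc2_Q R om X Y j b γ a‖ ≤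
        |gc2_F i G X Y j b γ c a| := by
      have e : gc2_F i G X Y j b γ c a - gc2_F i G X Y j b γ c a * gc2_Q R om X Y j b γ a =
          gc2_F i G X Y j b γ c a * (1 - gc2_Q R om X Y j b γ a) := by ring
      have h01 := gc2_Q01 (R := R) (om := om) (X := X) (Y := Y) (j := j) (b := b) (γ := γ) (a := a)
      rw [e, norm_mul, Real.norm_eq_abs, Real.norm_eq_abs,
        abs_of_nonneg (by linarith [h01.2] : 0 ≤ 1 - gc2_Q R om X Y j b γ a)]
      exact mul_le_of_le_one_right (abs_nonneg _) (by linarith [h01.1])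
    by_cases h1 : R < j * a / Y
    · have := bT a ha.1 ha.2 h1
      linarith
    · by_cases h2 : |1 - γ * X / (a * b)| < 2 * om
      · have := bS a ha.1 ha.2 h2
        linarith
      · have hQ1 : gc2_Q R om X Y j b γ a = 1 := by
          unfold gc2_Q
          rw [gc2_up_one (by linarith) (not_lt.1 h1), gc2_cl_one hom (not_lt.1 h2), one_mul]
        rw [hQ1, mul_one, sub_self, norm_zero]
        linarith
  rw [← Real.norm_eq_abs]
  refine hle.trans ?_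
  rw [integral_add hB2.1 (hP1.integrableOn.const_mul _), integral_const_mul]
  have hP3 : ∫ a in Ioi (0:ℝ), gc2_Φ (4 * om) ((a - x0) / x0) ≤
      x0 * (40 / 19 * (4 * om) ^ (19 / 20 : ℝ)) := by
    rw [← hP2]
    exact setIntegral_le_integral hP1 (Filter.Eventually.of_forall fun a => gc2_Φ_nonneg _ _)
  have hP4 : K * cG * 22000 * ℓ ^ 2 / x0 * ∫ a in Ioi (0:ℝ), gc2_Φ (4 * om) ((a - x0) / x0) ≤
      K * cG * 22000 * ℓ ^ 2 * (40 / 19 * (4 * om) ^ (19 / 20 : ℝ)) := by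
    calc K * cG * 22000 * ℓ ^ 2 / x0 * ∫ a in Ioi (0:ℝ), gc2_Φ (4 * om) ((a - x0) / x0)
        ≤ K * cG * 22000 * ℓ ^ 2 / x0 * (x0 * (40 / 19 * (4 * om) ^ (19 / 20 : ℝ))) :=
          mul_le_mul_of_nonneg_left hP3 (by positivity)
      _ = _ := by field_simp
  exact add_le_add hB2.2 hP4

theorem gc2_ev1 {ν : ℝ} (h0 : 0 < ν) (k : ℕ) (c : ℝ) (hc : 0 < c) :
    ∀ᶠ x : ℝ in Filter.atTop, c * Real.log x ^ k ≤ x ^ (2 * ν) := by
  have h := (isLittleO_log_rpow_rpow_atTop (k : ℝ) (show 0 < 2 * ν by positivity)).bound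
    (show 0 < 1 / c by positivity)
  filter_upwards [h, Filter.eventually_ge_atTop (1:ℝ)] with x hx hx1
  have h1 : 0 ≤ Real.log x := Real.log_nonneg hx1
  rw [Real.rpow_natCast, Real.norm_eq_abs, Real.norm_eq_abs, abs_of_nonneg (by positivity),
    abs_of_nonneg (by positivity)] at hx
  calc c * Real.log x ^ k ≤ c * (1 / c * x ^ (2 * ν)) := mul_le_mul_of_nonneg_left hx hc.le
    _ = x ^ (2 * ν) := by field_simp

theorem gc2_ev2 {ν : ℝ} (h0 : 0 < ν) (c : ℝ) (hc : 0 < c) :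
    ∀ᶠ x : ℝ in Filter.atTop, c * (x ^ (5:ℝ) * Real.exp (-(x ^ (ν / 50)))) ≤ 1 := by
  have h := tendsto_rpow_mul_exp_neg_mul_atTop_nhds_zero (5 * (50 / ν)) 1 one_pos
  have h2 : Filter.Tendsto (fun x : ℝ => x ^ (ν / 50)) Filter.atTop Filter.atTop :=
    tendsto_rpow_atTop (by positivity)
  have h3 := h.comp h2
  have h4 : ∀ᶠ x : ℝ in Filter.atTop, ((fun x : ℝ => x ^ (5 * (50 / ν)) * Real.exp (-1 * x)) ∘
      fun x : ℝ => x ^ (ν / 50)) x < 1 / c := h3.eventually_lt_const (by positivity)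
  filter_upwards [h4, Filter.eventually_gt_atTop (0:ℝ)] with x hx hx1
  simp only [Function.comp] at hx
  rw [← Real.rpow_mul hx1.le, show ν / 50 * (5 * (50 / ν)) = 5 by field_simp, neg_one_mul] at hx
  have := mul_le_mul_of_nonneg_left hx.le hc.le
  rw [mul_one_div_cancel hc.ne'] at this
  exact this

/-- the sizes, for large `N` -/
theorem gc2_sizes {ν : ℝ} (h0 : 0 < ν) (h1 : ν ≤ 1 / 10 ^ 6) {N : ℕ} (hN : 16 ≤ N)
    (hT : 4 ≤ (N : ℝ) ^ ν) {q : ℕ} (hq : 1 ≤ q) {Y : ℝ} {A : ℕ} (hP : Par ν N q Y A) {j b : ℕ}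
    (hj : 1 ≤ j) (hb : 1 ≤ b) (hjb : (j : ℝ) * b ≤ (N : ℝ) ^ (1 / 2 + ν / 10)) {g : ℤ}
    (hg : g ≠ 0) (hS : Sm ν N Y j b g) :
    gc2_P (1 + ((N : ℝ) ^ ν) ^ 2) (Real.log N) N Y j b g ∧ 4 * Y + 3 * (|(g : ℝ)| * N / b) ≤
      7 * (N : ℝ) ^ (2:ℝ) := by
  set X : ℝ := (N : ℝ) with hX
  have hX16 : (16 : ℝ) ≤ X := by rw [hX]; exact_mod_cast hN
  have hX1 : (1 : ℝ) ≤ X := by linarith
  have hX0 : (0 : ℝ) < X := by linarith
  have hpow : ∀ {a b : ℝ}, a ≤ b → X ^ a ≤ X ^ b := fun h =>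
    Real.rpow_le_rpow_of_exponent_le hX1 h
  set T := X ^ ν with hTd
  have hU3 : 1 + T ^ 2 ≤ X ^ (3 * ν) := by
    have e : X ^ (3 * ν) = T ^ 3 := by
      rw [hTd, ← Real.rpow_natCast, ← Real.rpow_mul hX0.le]; congr 1; push_cast; ring
    rw [e]; nlinarith
  have h1j : (1 : ℝ) ≤ j := by exact_mod_cast hj
  have h1b : (1 : ℝ) ≤ b := by exact_mod_cast hb
  have h1q : (1 : ℝ) ≤ q := by exact_mod_cast hq
  have hbb : (b : ℝ) ≤ X ^ (1 / 2 + ν / 10) := by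
    refine le_trans ?_ hjb
    nlinarith
  have hsq : Real.sqrt X = X ^ (1 / 2 : ℝ) := Real.sqrt_eq_rpow X
  have hYle : Y ≤ X ^ (1 / 2 + ν / 100) := by
    rw [hP.Y_eq, add_comm, Real.rpow_add hX0, hsq]
    exact mul_le_mul_of_nonneg_right hP.q_le (by positivity)
  have hY1 : 1 ≤ Y := by
    rw [hP.Y_eq]
    have : 1 ≤ Real.sqrt X := Real.one_le_sqrt.2 hX1
    nlinarith
  have hgR : (1 : ℝ) ≤ |(g : ℝ)| := by
    have : 1 ≤ |g| := Int.one_le_abs hg
    exact_mod_cast this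
  have hX2 : X ^ (2 : ℝ) = X * X := by
    rw [Real.rpow_two]; ring
  have hbY : (b : ℝ) * Y ≤ X ^ (1 + ν) := by
    calc (b : ℝ) * Y ≤ X ^ (1 / 2 + ν / 10) * X ^ (1 / 2 + ν / 100) :=
          mul_le_mul hbb hYle (by linarith) (by positivity)
      _ = X ^ (1 / 2 + ν / 10 + (1 / 2 + ν / 100)) := (Real.rpow_add hX0 _ _).symm
      _ ≤ X ^ (1 + ν) := hpow (by linarith)
  have hU0 : 0 ≤ 1 + T ^ 2 := by positivity
  have hbYU : (b : ℝ) * Y * (1 + T ^ 2) ≤ X ^ (1 + 4 * ν) := by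
    calc (b : ℝ) * Y * (1 + T ^ 2) ≤ X ^ (1 + ν) * X ^ (3 * ν) :=
          mul_le_mul hbY hU3 hU0 (by positivity)
      _ = X ^ (1 + ν + 3 * ν) := (Real.rpow_add hX0 _ _).symm
      _ ≤ X ^ (1 + 4 * ν) := hpow (by linarith)
  have hgX : |(g : ℝ)| * X ≤ X ^ (2 : ℝ) := by
    have hS' : (j : ℝ) * |(g : ℝ)| * X < 2 * X ^ (ν / 50) * (b * Y * (1 + T ^ 2)) := hS
    have a1 : |(g : ℝ)| * X ≤ (j : ℝ) * |(g : ℝ)| * X := by
      have : 0 ≤ |(g : ℝ)| * X := by positivity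
      nlinarith
    have a2 : 2 * X ^ (ν / 50) ≤ X ^ (2 * ν) := by
      have : X ^ (ν / 50) ≤ X ^ ν := hpow (by linarith)
      calc 2 * X ^ (ν / 50) ≤ X ^ ν * X ^ ν := by
            refine mul_le_mul (by linarith) this (by positivity) (by positivity)
        _ = X ^ (2 * ν) := by rw [← Real.rpow_add hX0]; congr 1; ring
    calc |(g : ℝ)| * X ≤ 2 * X ^ (ν / 50) * (b * Y * (1 + T ^ 2)) := by linarith
      _ ≤ X ^ (2 * ν) * X ^ (1 + 4 * ν) := by
          refine mul_le_mul a2 hbYU (by positivity) (by positivity)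
      _ = X ^ (2 * ν + (1 + 4 * ν)) := (Real.rpow_add hX0 _ _).symm
      _ ≤ X ^ (2 : ℝ) := hpow (by linarith)
  have hYX : Y ≤ X ^ (2 : ℝ) := hYle.trans (hpow (by linarith))
  refine ⟨⟨?_, rfl, hX1, ?_, ?_, h1j, h1b, hY1, hgR, ?_, ?_, ?_, ?_⟩, ?_⟩
  · rw [Real.le_log_iff_exp_le hX0]
    have := Real.exp_one_lt_d9
    linarith
  · nlinarith [sq_nonneg T]
  · have a1 : X ^ (3 * ν) ≤ X ^ (1 / 2 : ℝ) := hpow (by linarith)
    rw [← hsq] at a1
    have a2 : 4 ≤ Real.sqrt X := by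
      apply Real.le_sqrt_of_sq_le; linarith
    have a3 : Real.sqrt X * Real.sqrt X = X := Real.mul_self_sqrt hX0.le
    nlinarith
  · rw [hX2] at hgX
    exact le_of_mul_le_mul_right hgX hX0
  · calc (b : ℝ) * (1 + T ^ 2) ≤ X ^ (1 / 2 + ν / 10) * X ^ (3 * ν) :=
          mul_le_mul hbb hU3 hU0 (by positivity)
      _ = X ^ (1 / 2 + ν / 10 + 3 * ν) := (Real.rpow_add hX0 _ _).symm
      _ ≤ X ^ (1 : ℝ) := hpow (by linarith)
      _ = X := Real.rpow_one X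
      _ ≤ |(g : ℝ)| * X := by nlinarith
  · calc (b : ℝ) * Y * (1 + T ^ 2) ≤ X ^ (1 + 4 * ν) := hbYU
      _ ≤ X ^ (2 : ℝ) := hpow (by linarith)
      _ = X * X := hX2
      _ ≤ X * (|(g : ℝ)| * X * j) := by
          refine mul_le_mul_of_nonneg_left ?_ hX0.le
          have : X ≤ |(g : ℝ)| * X := by nlinarith
          nlinarith
  · calc Y * (b : ℝ) = (b : ℝ) * Y := by ring
      _ ≤ X ^ (1 + ν) := hbY
      _ ≤ X ^ (2 : ℝ) := hpow (by linarith)
      _ = X ^ 2 := Real.rpow_two X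
  · have : |(g : ℝ)| * X / b ≤ |(g : ℝ)| * X := div_le_self (by positivity) h1b
    linarith

theorem g_cut_int_pr (i : ℕ) {ν : ℝ} (h0 : 0 < ν) (h1 : ν ≤ 1 / 10 ^ 6) : ∃ N₀ : ℕ, ∀ N : ℕ,
    N₀ ≤ N → ∀ (q : ℕ) [NeZero q] (Y : ℝ) (A : ℕ), Par ν N q Y A → ∀ ρ : ℝ → ℝ,
    KerC ((N : ℝ) ^ ν) ρ → ∀ j b : ℕ, 1 ≤ j → 1 ≤ b → (j : ℝ) * b ≤ (N : ℝ) ^ (1 / 2 + ν / 10) →
    ∀ g : ℤ, g ≠ 0 → Sm ν N Y j b g → ∀ c : ℝ, |c| ≤ 10 * Real.log N →
    Integrable (fun a : ℝ => fa i ρ ν N Y j b g a * (Real.log |a * b - g * N| + c)) ∧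
    |(∫ a in Ioi (0 : ℝ), V i (j * a / Y) / a * GG ρ (g * N / (a * b)) *
        (Real.log |a * b - g * N| + c)) -
      ∫ a : ℝ, fa i ρ ν N Y j b g a * (Real.log |a * b - g * N| + c)| ≤
      (N : ℝ) ^ (-(25 * ν)) := by
  obtain ⟨CV, hCV, hV1, hV2, hV3⟩ := v_facts_pr i
  obtain ⟨Cg, hCg⟩ := Pool.Agent.LK.gok_unif_pr
  set C := max Cg 1 with hC
  have hC0 : 0 < C := lt_of_lt_of_le one_pos (le_max_right _ _)
  set c2 : ℝ := 2 * (CV * (2 ^ i * (1 + 2 ^ i * (i.factorial : ℝ))) * C * 22000 * (40 / 19 * 4)) *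
    2 ^ (i + 2) with hc2
  have hc20 : 0 < c2 := by positivity
  have e1 := (tendsto_rpow_atTop h0).comp tendsto_natCast_atTop_atTop
  have e2 := e1.eventually (Filter.eventually_ge_atTop (4:ℝ))
  have e3 := tendsto_natCast_atTop_atTop.eventually (gc2_ev1 h0 (i + 2) c2 hc20)
  have e4 := tendsto_natCast_atTop_atTop.eventually (gc2_ev2 h0 (2 * (C * 72800)) (by positivity))
  obtain ⟨N₀, hN₀⟩ := Filter.eventually_atTop.1 (e2.and (e3.and (e4.and
    (Filter.eventually_ge_atTop 16))))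
  refine ⟨N₀, fun N hN q _ Y A hP ρ hρ j b hj hb hjb g hg hS c hc => ?_⟩
  obtain ⟨hT, h3, h4, h16⟩ := hN₀ N hN
  simp only [Function.comp] at hT
  have hq : 1 ≤ q := Nat.one_le_iff_ne_zero.2 (NeZero.ne q)
  obtain ⟨H, hsz⟩ := gc2_sizes h0 h1 h16 hT hq hP hj hb hjb hg hS
  obtain ⟨hGm, hG⟩ := hCg _ hT ρ hρ
  set X : ℝ := (N : ℝ) with hX
  have hX16 : (16 : ℝ) ≤ X := by rw [hX]; exact_mod_cast h16
  have hX1 : (1 : ℝ) ≤ X := by linarith
  have hX0 : (0 : ℝ) < X := by linarith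
  have hℓ := H.hℓ
  have hcG := hG.one_le'
  set T := X ^ ν with hTd
  set ℓ := Real.log X with hℓd
  have hR : 1 ≤ X ^ (ν / 50) := Real.one_le_rpow hX1 (by positivity)
  have hom : 0 < X ^ (-(60 * ν)) := by positivity
  have hom2 : 4 * X ^ (-(60 * ν)) ≤ 1 := by
    have e : X ^ (60 * ν) = T ^ 60 := by
      rw [hTd, ← Real.rpow_natCast, ← Real.rpow_mul hX0.le]; congr 1; push_cast; ring
    rw [Real.rpow_neg hX0.le, e, ← div_eq_mul_inv, div_le_one (by positivity)]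
    exact hT.trans (le_self_pow₀ (by linarith) (by norm_num))
  obtain ⟨hI, hD⟩ := gc2_main (c := c) (R := X ^ (ν / 50)) (om := X ^ (-(60 * ν))) hG hGm H hc hCV
    hV1 hV2 hV3 hR hom hom2
  have hfa : (fun a : ℝ => fa i ρ ν N Y j b g a * (Real.log |a * b - g * N| + c)) =
      indicator (Ioi 0) (fun a => gc2_F i (GG ρ) X Y j b g c a *
        gc2_Q (X ^ (ν / 50)) (X ^ (-(60 * ν))) X Y j b g a) := by
    funext a
    by_cases ha : 0 < a
    · rw [indicator_of_mem (mem_Ioi.2 ha)]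
      unfold fa gc2_F gc2_Q KK
      rw [if_pos ha]
      ring
    · rw [indicator_of_notMem (by simpa using ha)]
      unfold fa
      rw [if_neg ha, zero_mul]
  refine ⟨?_, ?_⟩
  · rw [hfa]
    exact hI.integrable_indicator measurableSet_Ioi
  · rw [hfa, integral_indicator measurableSet_Ioi]
    refine le_trans hD ?_
    have hcC : C * T ^ 30 = C * X ^ (30 * ν) := by
      congr 1
      rw [hTd, ← Real.rpow_natCast, ← Real.rpow_mul hX0.le]; congr 1; push_cast; ring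
    have hcGC : Cg * T ^ 30 ≤ C * X ^ (30 * ν) := by
      rw [← hcC]
      exact mul_le_mul_of_nonneg_right (le_max_left _ _) (by positivity)
    set cG := Cg * T ^ 30 with hcGd
    have hℓX : ℓ ≤ X := by
      have := Real.log_le_sub_one_of_pos hX0
      linarith
    -- first term
    have t1 : Real.exp (-(X ^ (ν / 50))) * cG * 10400 * ℓ ^ 2 *
        (4 * Y + 3 * (|(g : ℝ)| * X / b)) ≤ 1 / 2 * X ^ (-(25 * ν)) := by
      have p1 : X ^ (30 * ν) * ℓ ^ 2 * X ^ (2:ℝ) ≤ X ^ (-(25 * ν)) * X ^ (5:ℝ) := by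
        have p2 : ℓ ^ 2 ≤ X ^ (2:ℝ) := by
          rw [Real.rpow_two]
          exact pow_le_pow_left₀ (by linarith) hℓX 2
        calc X ^ (30 * ν) * ℓ ^ 2 * X ^ (2:ℝ) ≤ X ^ (30 * ν) * X ^ (2:ℝ) * X ^ (2:ℝ) := by gcongr
          _ = X ^ (30 * ν + 2 + 2) := by rw [Real.rpow_add hX0, Real.rpow_add hX0]
          _ ≤ X ^ (-(25 * ν) + 5) := Real.rpow_le_rpow_of_exponent_le hX1 (by linarith)
          _ = _ := Real.rpow_add hX0 _ _
      calc Real.exp (-(X ^ (ν / 50))) * cG * 10400 * ℓ ^ 2 * (4 * Y + 3 * (|(g : ℝ)| * X / b))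
          ≤ Real.exp (-(X ^ (ν / 50))) * (C * X ^ (30 * ν)) * 10400 * ℓ ^ 2 *
            (7 * X ^ (2:ℝ)) := by
            have : 0 ≤ cG := by linarith
            have hY0 : 0 ≤ Y := by linarith [H.hY]
            have hs0 : 0 ≤ 4 * Y + 3 * (|(g : ℝ)| * X / b) := by positivity
            gcongr
        _ = (C * 72800) * Real.exp (-(X ^ (ν / 50))) * (X ^ (30 * ν) * ℓ ^ 2 * X ^ (2:ℝ)) := by
            ring
        _ ≤ (C * 72800) * Real.exp (-(X ^ (ν / 50))) * (X ^ (-(25 * ν)) * X ^ (5:ℝ)) :=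
            mul_le_mul_of_nonneg_left p1 (by positivity)
        _ = 1 / 2 * X ^ (-(25 * ν)) * (2 * (C * 72800) *
              (X ^ (5:ℝ) * Real.exp (-(X ^ (ν / 50))))) := by ring
        _ ≤ 1 / 2 * X ^ (-(25 * ν)) * 1 := mul_le_mul_of_nonneg_left h4 (by positivity)
        _ = _ := mul_one _
    -- second term
    have t2 : CV * ((2 ^ i * (1 + 2 ^ i * (i.factorial : ℝ))) * (1 + ℓ) ^ i) * cG * 22000 * ℓ ^ 2 *
        (40 / 19 * (4 * X ^ (-(60 * ν))) ^ (19 / 20 : ℝ)) ≤ 1 / 2 * X ^ (-(25 * ν)) := by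
      have p1 : (4 * X ^ (-(60 * ν))) ^ (19 / 20 : ℝ) ≤ 4 * X ^ (-(57 * ν)) := by
        rw [Real.mul_rpow (by norm_num) hom.le, ← Real.rpow_mul hX0.le]
        have e : -(60 * ν) * (19 / 20) = -(57 * ν) := by ring
        rw [e]
        refine mul_le_mul_of_nonneg_right ?_ (by positivity)
        calc (4:ℝ) ^ (19 / 20 : ℝ) ≤ (4:ℝ) ^ (1:ℝ) :=
              Real.rpow_le_rpow_of_exponent_le (by norm_num) (by norm_num)
          _ = 4 := Real.rpow_one 4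
      have p2 : (1 + ℓ) ^ i * ℓ ^ 2 ≤ 2 ^ (i + 2) * ℓ ^ (i + 2) := by
        calc (1 + ℓ) ^ i * ℓ ^ 2 ≤ (2 * ℓ) ^ i * (2 * ℓ) ^ 2 := by
              have : 1 + ℓ ≤ 2 * ℓ := by linarith
              have : ℓ ≤ 2 * ℓ := by linarith
              gcongr
          _ = (2 * ℓ) ^ (i + 2) := (pow_add _ _ _).symm
          _ = _ := mul_pow _ _ _
      have p3 : X ^ (30 * ν) * X ^ (-(57 * ν)) * X ^ (2 * ν) = X ^ (-(25 * ν)) := by
        rw [← Real.rpow_add hX0, ← Real.rpow_add hX0]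
        congr 1
        ring
      have hcG0 : 0 ≤ cG := by linarith
      calc CV * ((2 ^ i * (1 + 2 ^ i * (i.factorial : ℝ))) * (1 + ℓ) ^ i) * cG * 22000 * ℓ ^ 2 *
            (40 / 19 * (4 * X ^ (-(60 * ν))) ^ (19 / 20 : ℝ))
          ≤ CV * ((2 ^ i * (1 + 2 ^ i * (i.factorial : ℝ))) * (1 + ℓ) ^ i) *
            (C * X ^ (30 * ν)) * 22000 * ℓ ^ 2 * (40 / 19 * (4 * X ^ (-(57 * ν)))) := by gcongr
        _ = (CV * (2 ^ i * (1 + 2 ^ i * (i.factorial : ℝ))) * C * 22000 * (40 / 19 * 4)) *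
              ((1 + ℓ) ^ i * ℓ ^ 2) * (X ^ (30 * ν) * X ^ (-(57 * ν))) := by ring
        _ ≤ (CV * (2 ^ i * (1 + 2 ^ i * (i.factorial : ℝ))) * C * 22000 * (40 / 19 * 4)) *
              (2 ^ (i + 2) * ℓ ^ (i + 2)) * (X ^ (30 * ν) * X ^ (-(57 * ν))) := by gcongr
        _ = 1 / 2 * (c2 * ℓ ^ (i + 2)) * (X ^ (30 * ν) * X ^ (-(57 * ν))) := by rw [hc2]; ring
        _ ≤ 1 / 2 * X ^ (2 * ν) * (X ^ (30 * ν) * X ^ (-(57 * ν))) := by
            refine mul_le_mul_of_nonneg_right (mul_le_mul_of_nonneg_left h3 (by norm_num))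
              (by positivity)
        _ = 1 / 2 * (X ^ (30 * ν) * X ^ (-(57 * ν)) * X ^ (2 * ν)) := by ring
        _ = _ := by rw [p3]
    linarith

end gc2

end Pool.Agent.LG
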