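import Pool.Agent.Lib_helper31.LG.Defs
import Pool.Agent.Lib_helper31.LSP.Ker
import Pool.Agent.Lib_helper31.LKF.KG1
import Pool.Agent.Lib_helper31.LGF.GA

set_option autoImplicit false

namespace Pool.Agent.LG

open Complex MeasureTheory Set ProbabilityTheory
open Pool.Agent.LSP (tau GG CC CB Gs sg1 QN sh OD)
open Pool.Agent.LSPO (KK cl GOK)
open Pool.Agent.LK (KerC PQ V MT OM SH HH Qe hm)
open Pool.Agent.LE (xv HP SuppIn H2)
open Pool.Agent.LVB (IsST)

/-! ### products -/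

theorem gc3_mul {x x' y y' Lx Ly Bx By d : ℝ} (hx : |x - x'| ≤ Lx * d) (hy : |y - y'| ≤ Ly * d)
    (hby : |y| ≤ By) (hbx : |x'| ≤ Bx) (hd : 0 ≤ Lx * d) (hB : 0 ≤ Bx) :
    |x * y - x' * y'| ≤ (Lx * By + Bx * Ly) * d := by
  have h1 : x * y - x' * y' = (x - x') * y + x' * (y - y') := by ring
  rw [h1]
  refine (abs_add_le _ _).trans ?_
  rw [abs_mul, abs_mul]
  have h2 : |x - x'| * |y| ≤ (Lx * d) * By := mul_le_mul hx hby (abs_nonneg _) hd
  have h3 : |x'| * |y - y'| ≤ Bx * (Ly * d) := mul_le_mul hbx hy (abs_nonneg _) hB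
  linarith

/-! ### the kernel -/

theorem gc3_kk_bd {G : ℝ → ℝ} {al om M : ℝ} (hom : 0 < om) (hM0 : 0 ≤ M)
    (hM : ∀ v : ℝ, al ≤ |v| → om / 2 ≤ |1 - v| → |G v| ≤ M) {u : ℝ} (hu : al ≤ |u|) :
    |KK G om u| ≤ M := by
  unfold KK
  by_cases h : |1 - u| ≤ om
  · rw [LSPO.cl_eq_zero hom h, mul_zero, abs_zero]
    exact hM0
  · push Not at h
    have h1 := hM u hu (by linarith)
    rw [abs_mul, abs_of_nonneg (LSPO.cl_nonneg om u)]
    calc |G u| * cl om u ≤ |G u| * 1 :=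
          mul_le_mul_of_nonneg_left (LSPO.cl_le_one _ _) (abs_nonneg _)
      _ ≤ M := by rw [mul_one]; exact h1

theorem gc3_hyp {y : ℝ} (h : y ≤ -(1 / 2)) : LSPO.hyp y = 1 := by
  unfold LSPO.hyp
  rw [min_eq_left (by linarith), max_eq_right (by norm_num)]

theorem gc3_kk {G : ℝ → ℝ} {U c : ℝ} (hG : GOK G U c) {al om M : ℝ} (hal : 0 < al)
    (hom : 0 < om) (hM0 : 0 ≤ M)
    (hM : ∀ v : ℝ, al ≤ |v| → om / 2 ≤ |1 - v| → |G v| ≤ M) {u v : ℝ} (hu : al ≤ |u|)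
    (hv : al ≤ |v|) :
    |KK G om u - KK G om v| ≤ (c * (2 / al + 4 / om) ^ 3 + 4 * M / om) * |u - v| := by
  have hc := hG.one_le'
  have hc0 : 0 ≤ c * (2 / al + 4 / om) ^ 3 := by positivity
  rcases le_or_gt |u - v| (om / 2) with h | h
  · set l := -(1 / 2) + min (Real.log |1 - u| / 2) (Real.log |1 - v| / 2) with hl
    have h1 := LSPO.Psi_lip hG hal hom hM0 hM (l := l) (l' := l) hu hv h
    have e1 : l - Real.log |1 - u| / 2 ≤ -(1 / 2) := by
      have := min_le_left (Real.log |1 - u| / 2) (Real.log |1 - v| / 2)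
      linarith
    have e2 : l - Real.log |1 - v| / 2 ≤ -(1 / 2) := by
      have := min_le_right (Real.log |1 - u| / 2) (Real.log |1 - v| / 2)
      linarith
    rw [gc3_hyp e1, gc3_hyp e2, mul_one, mul_one, sub_self, abs_zero, mul_zero, add_zero] at h1
    refine h1.trans (mul_le_mul_of_nonneg_right ?_ (abs_nonneg _))
    have : 2 * M / om ≤ 4 * M / om := by
      apply div_le_div_of_nonneg_right _ hom.le
      linarith
    linarith
  · have h1 := gc3_kk_bd hom hM0 hM hu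
    have h2 := gc3_kk_bd hom hM0 hM hv
    have h3 : |KK G om u - KK G om v| ≤ 2 * M := by
      refine (abs_sub _ _).trans ?_
      linarith
    have h4 : 2 * M ≤ 4 * M / om * |u - v| := by
      calc 2 * M = 4 * M / om * (om / 2) := by field_simp; ring
        _ ≤ 4 * M / om * |u - v| := mul_le_mul_of_nonneg_left h.le (by positivity)
    have h5 : 0 ≤ c * (2 / al + 4 / om) ^ 3 * |u - v| := mul_nonneg hc0 (abs_nonneg _)
    calc |KK G om u - KK G om v| ≤ 4 * M / om * |u - v| := h3.trans h4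
      _ ≤ _ := by rw [add_mul]; linarith

/-- size of the kernel -/
theorem gc3_gb {G : ℝ → ℝ} {P C2 : ℝ} (hP : 100 ≤ P) (hG : GOK G (1 + P ^ 2) (C2 * P ^ 30))
    (hM : C2 * P ^ 30 * (1 + Real.log (4 * P ^ 3) + Real.log (2 * P ^ 60) +
      2 * Real.log (2 + P ^ 2)) ≤ P ^ 31) :
    ∀ v : ℝ, 1 / (4 * P ^ 3) ≤ |v| → (P ^ 60)⁻¹ / 2 ≤ |1 - v| → |G v| ≤ P ^ 31 := by
  intro v h1 h2
  have hP0 : 0 < P := by linarith
  have hP1 : 1 ≤ P := by linarith
  have hp3 : 1 ≤ P ^ 3 := one_le_pow₀ hP1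
  have hp60 : 1 ≤ P ^ 60 := one_le_pow₀ hP1
  have e0 : (P ^ 60)⁻¹ / 2 = 1 / (2 * P ^ 60) := by field_simp
  rw [e0] at h2
  have h3 := LSPO.G_bound hG (a := 1 / (4 * P ^ 3)) (om := 1 / (2 * P ^ 60)) (by positivity)
    (by rw [div_le_one (by positivity)]; linarith) (by positivity)
    (by rw [div_le_one (by positivity)]; linarith) h1 h2
  refine h3.trans (le_trans (le_of_eq ?_) hM)
  rw [one_div, one_div, Real.log_inv, Real.log_inv]
  ring_nf

/-! ### the cut -/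

theorem gc3_up_nonneg (R y : ℝ) : 0 ≤ up R y := le_max_left _ _

theorem gc3_up_le (R y : ℝ) : up R y ≤ 1 := max_le zero_le_one (min_le_left _ _)

theorem gc3_up_lip {R : ℝ} (hR : 1 ≤ R) (y z : ℝ) : |up R y - up R z| ≤ |y - z| := by
  have hR0 : 0 < R := by linarith
  unfold up
  refine (LSPO.clamp_lip _ _).trans ?_
  rw [show (2 - y / R - (2 - z / R) : ℝ) = -((y - z) / R) by ring, abs_neg, abs_div,
    abs_of_pos hR0]
  exact div_le_self (abs_nonneg _) hR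

theorem gc3_up_zero {R y : ℝ} (hR : 0 < R) (h : 2 * R ≤ y) : up R y = 0 := by
  unfold up
  have h1 : 2 ≤ y / R := by rw [le_div_iff₀ hR]; exact h
  rw [min_eq_right (by linarith), max_eq_left (by linarith)]

/-- the parameters of the core estimate -/
structure GC3 (W G : ℝ → ℝ) (i : ℕ) (C1 C2 P S Y R j b g : ℝ) : Prop where
  hP : 100 ≤ P
  hS : 0 < S
  hR1 : 1 ≤ R
  hR2 : R ≤ P
  hY1 : S ≤ Y
  hY2 : Y ≤ S * P
  hj : 1 ≤ j
  hb : 1 ≤ b
  hjb : j * b ≤ S * P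
  hg : 1 ≤ |g|
  hSm : j * |g| * S ^ 2 < 2 * R * (b * Y * (1 + P ^ 2))
  hG : GOK G (1 + P ^ 2) (C2 * P ^ 30)
  hV : ∀ y : ℝ, 0 < y → 0 ≤ W y ∧ W y ≤ C1 * (1 + |Real.log y|) ^ i * Real.exp (-y)
  hVl : ∀ m y y' : ℝ, 0 < m → m ≤ 1 → m ≤ y → m ≤ y' → |W y - W y'| ≤ C1 / m ^ 2 * |y - y'|
  hC0 : 1 ≤ C1
  hC1 : C1 * (1 + Real.log (4 * P ^ 4)) ^ i ≤ P
  hC1' : 64 * C1 ≤ P
  hM : C2 * P ^ 30 * (1 + Real.log (4 * P ^ 3) + Real.log (2 * P ^ 60) +
      2 * Real.log (2 + P ^ 2)) ≤ P ^ 31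
  hC2 : 1728 * C2 + 4 ≤ P

/-- the function -/
noncomputable def gc3f (W G : ℝ → ℝ) (P S Y R j b g a : ℝ) : ℝ :=
  if 0 < a then W (j * a / Y) * up R (j * a / Y) / a * KK G (P ^ 60)⁻¹ (g * S ^ 2 / (a * b)) else 0

namespace GC3

variable {W G : ℝ → ℝ} {i : ℕ} {C1 C2 P S Y R j b g : ℝ}

theorem P0 (h : GC3 W G i C1 C2 P S Y R j b g) : 0 < P := by linarith [h.hP]
theorem P1 (h : GC3 W G i C1 C2 P S Y R j b g) : 1 ≤ P := by linarith [h.hP]
theorem R0 (h : GC3 W G i C1 C2 P S Y R j b g) : 0 < R := by linarith [h.hR1]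
theorem Y0 (h : GC3 W G i C1 C2 P S Y R j b g) : 0 < Y := h.hS.trans_le h.hY1
theorem j0 (h : GC3 W G i C1 C2 P S Y R j b g) : 0 < j := by linarith [h.hj]
theorem b0 (h : GC3 W G i C1 C2 P S Y R j b g) : 0 < b := by linarith [h.hb]
theorem g0 (h : GC3 W G i C1 C2 P S Y R j b g) : 0 < |g| := by linarith [h.hg]

theorem b_le (h : GC3 W G i C1 C2 P S Y R j b g) : b ≤ S * P := by
  have h1 := h.hjb
  have h2 := h.hj
  have h3 := h.b0
  nlinarith

theorem P2 (h : GC3 W G i C1 C2 P S Y R j b g) : 1 + P ^ 2 ≤ 2 * P ^ 2 := by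
  have := h.P1
  nlinarith

/-- lower bound for `b` -/
theorem b_ge (h : GC3 W G i C1 C2 P S Y R j b g) : S / (4 * P ^ 4) ≤ b := by
  have hP := h.P0
  have hS := h.hS
  have hb := h.b0
  have h1 : S ^ 2 < 2 * R * (b * Y * (1 + P ^ 2)) := by
    refine lt_of_le_of_lt ?_ h.hSm
    have h2 : 1 ≤ j * |g| := one_le_mul_of_one_le_of_one_le h.hj h.hg
    nlinarith [sq_nonneg S]
  have h2 : 2 * R * (b * Y * (1 + P ^ 2)) ≤ 2 * P * (b * (S * P) * (2 * P ^ 2)) := by
    have := h.hR2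
    have := h.hY2
    have := h.P2
    have := h.Y0
    have := h.R0
    gcongr
  have h3 : S * S < S * (b * (4 * P ^ 4)) := by
    have : S ^ 2 < 2 * P * (b * (S * P) * (2 * P ^ 2)) := h1.trans_le h2
    calc S * S = S ^ 2 := by ring
      _ < _ := this
      _ = _ := by ring
  have h4 := lt_of_mul_lt_mul_left h3 hS.le
  rw [div_le_iff₀ (by positivity)]
  exact h4.le

/-- upper bound for `j` -/
theorem j_le (h : GC3 W G i C1 C2 P S Y R j b g) : j ≤ 4 * P ^ 5 := by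
  have hP := h.P0
  have hS := h.hS
  have hb := h.b0
  have hj := h.j0
  have h1 : j * (j * |g| * S ^ 2) < j * (2 * R * (b * Y * (1 + P ^ 2))) :=
    mul_lt_mul_of_pos_left h.hSm hj
  have h2 : j * (2 * R * (b * Y * (1 + P ^ 2))) ≤ 2 * P * ((S * P) * (S * P) * (2 * P ^ 2)) := by
    have e1 := h.hR2
    have e2 := h.hY2
    have e3 := h.P2
    have e4 := h.Y0
    have e5 := h.R0
    have e6 := h.hjb
    calc j * (2 * R * (b * Y * (1 + P ^ 2))) = 2 * R * ((j * b) * Y * (1 + P ^ 2)) := by ring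
      _ ≤ 2 * P * ((S * P) * (S * P) * (2 * P ^ 2)) := by gcongr
  have h3 : S ^ 2 * (j * j * |g|) < S ^ 2 * (4 * P ^ 5) := by
    calc S ^ 2 * (j * j * |g|) = j * (j * |g| * S ^ 2) := by ring
      _ < _ := h1
      _ ≤ _ := h2
      _ = _ := by ring
  have h4 := lt_of_mul_lt_mul_left h3 (sq_nonneg S)
  have h5 : j ≤ j * j * |g| := by
    have : 1 ≤ j * |g| := one_le_mul_of_one_le_of_one_le h.hj h.hg
    nlinarith
  linarith

/-- `|g| S^2 / b ≤ 4 S P^4` -/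
theorem gb_le (h : GC3 W G i C1 C2 P S Y R j b g) : |g| * S ^ 2 / b ≤ 4 * S * P ^ 4 := by
  have hP := h.P0
  have hS := h.hS
  have hb := h.b0
  have h1 : |g| * S ^ 2 < 2 * R * (b * Y * (1 + P ^ 2)) := by
    refine lt_of_le_of_lt ?_ h.hSm
    have h2 : 1 ≤ j := h.hj
    have h3 : 0 ≤ |g| * S ^ 2 := by positivity
    nlinarith
  have h2 : 2 * R * (b * Y * (1 + P ^ 2)) ≤ 2 * P * (b * (S * P) * (2 * P ^ 2)) := by
    have := h.hR2
    have := h.hY2
    have := h.P2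
    have := h.Y0
    have := h.R0
    gcongr
  rw [div_le_iff₀ hb]
  calc |g| * S ^ 2 ≤ _ := h1.le
    _ ≤ _ := h2
    _ = _ := by ring

/-- the support -/
theorem supp (h : GC3 W G i C1 C2 P S Y R j b g) {a : ℝ} (ha : gc3f W G P S Y R j b g a ≠ 0) :
    0 < a ∧ S / (2 * P ^ 3) ≤ a ∧ j * a / Y < 2 * R := by
  have hP := h.P0
  have hS := h.hS
  have hb := h.b0
  unfold gc3f at ha
  by_cases ha0 : 0 < a
  swap
  · rw [if_neg ha0] at ha
    exact absurd rfl ha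
  rw [if_pos ha0] at ha
  refine ⟨ha0, ?_, ?_⟩
  · have h1 : G (g * S ^ 2 / (a * b)) ≠ 0 := by
      intro h0
      apply ha
      unfold KK
      rw [h0, zero_mul, mul_zero]
    have h2 : |g * S ^ 2 / (a * b)| ≤ 1 + P ^ 2 := by
      by_contra hh
      push Not at hh
      exact h1 (h.hG.supp _ hh)
    rw [abs_div, abs_mul, abs_of_pos (by positivity : (0:ℝ) < S ^ 2),
      abs_of_pos (by positivity : (0:ℝ) < a * b), div_le_iff₀ (by positivity)] at h2
    have h3 : S ^ 2 ≤ |g| * S ^ 2 := by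
      have := h.hg
      nlinarith [sq_nonneg S]
    have h4 : (1 + P ^ 2) * (a * b) ≤ 2 * P ^ 2 * (a * (S * P)) := by
      have := h.P2
      have := h.b_le
      gcongr
    have h5 : S * S ≤ S * (a * (2 * P ^ 3)) := by
      calc S * S = S ^ 2 := by ring
        _ ≤ _ := h3
        _ ≤ _ := h2
        _ ≤ _ := h4
        _ = _ := by ring
    have h6 := le_of_mul_le_mul_left h5 hS
    rw [div_le_iff₀ (by positivity)]
    exact h6
  · by_contra hh
    push Not at hh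
    apply ha
    rw [gc3_up_zero h.R0 hh]
    simp

/-- the region -/
def Rg (P S Y R j a : ℝ) : Prop := S / (4 * P ^ 3) ≤ a ∧ j * a / Y ≤ 4 * R

theorem rg_of_supp (h : GC3 W G i C1 C2 P S Y R j b g) {a : ℝ}
    (ha : gc3f W G P S Y R j b g a ≠ 0) : Rg P S Y R j a := by
  obtain ⟨h0, h1, h2⟩ := h.supp ha
  have hP := h.P0
  have hS := h.hS
  have hR := h.R0
  refine ⟨le_trans ?_ h1, by linarith⟩
  apply div_le_div_of_nonneg_left hS.le (by positivity)
  have : 0 < P ^ 3 := by positivity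
  linarith

theorem rg_pos (h : GC3 W G i C1 C2 P S Y R j b g) {a : ℝ} (ha : Rg P S Y R j a) : 0 < a := by
  have hP := h.P0
  have hS := h.hS
  exact lt_of_lt_of_le (by positivity) ha.1

theorem rg_y (h : GC3 W G i C1 C2 P S Y R j b g) {a : ℝ} (ha : Rg P S Y R j a) :
    1 / (4 * P ^ 4) ≤ j * a / Y ∧ j * a / Y ≤ 4 * P := by
  have hP := h.P0
  have hS := h.hS
  have hY := h.Y0
  constructor
  · rw [le_div_iff₀ hY]
    calc 1 / (4 * P ^ 4) * Y ≤ 1 / (4 * P ^ 4) * (S * P) :=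
          mul_le_mul_of_nonneg_left h.hY2 (by positivity)
      _ = S / (4 * P ^ 3) := by field_simp
      _ ≤ a := ha.1
      _ ≤ j * a := by
          have := h.rg_pos ha
          have := h.hj
          nlinarith
  · have := ha.2
    have := h.hR2
    linarith

/-- size of the weight -/
theorem w_le (h : GC3 W G i C1 C2 P S Y R j b g) {a : ℝ} (ha : Rg P S Y R j a) :
    |W (j * a / Y)| ≤ P := by
  have hP := h.P0
  have hP1 := h.P1
  obtain ⟨h1, h2⟩ := h.rg_y ha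
  set y := j * a / Y with hy
  have hy0 : 0 < y := lt_of_lt_of_le (by positivity) h1
  obtain ⟨h3, h4⟩ := h.hV y hy0
  rw [abs_of_nonneg h3]
  refine h4.trans (le_trans ?_ h.hC1)
  have h5 : |Real.log y| ≤ Real.log (4 * P ^ 4) := by
    rw [abs_le]
    constructor
    · have := Real.log_le_log (by positivity) h1
      rw [one_div, Real.log_inv] at this
      exact this
    · refine Real.log_le_log hy0 (h2.trans ?_)
      have : P ^ 1 ≤ P ^ 4 := pow_le_pow_right₀ hP1 (by norm_num)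
      linarith
  have h6 : Real.exp (-y) ≤ 1 := by
    rw [Real.exp_le_one_iff]
    linarith
  have h7 := h.hC0
  calc C1 * (1 + |Real.log y|) ^ i * Real.exp (-y) ≤ C1 * (1 + |Real.log y|) ^ i * 1 := by
        gcongr
    _ = C1 * (1 + |Real.log y|) ^ i := mul_one _
    _ ≤ _ := by gcongr

theorem rg_u (h : GC3 W G i C1 C2 P S Y R j b g) {a : ℝ} (ha : Rg P S Y R j a) :
    1 / (4 * P ^ 3) ≤ |g * S ^ 2 / (a * b)| := by
  have hP := h.P0
  have hS := h.hS
  have hY := h.Y0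
  have hb := h.b0
  have ha0 := h.rg_pos ha
  rw [abs_div, abs_mul, abs_of_pos (by positivity : (0:ℝ) < S ^ 2),
      abs_of_pos (by positivity : (0:ℝ) < a * b), le_div_iff₀ (by positivity)]
  have h1 : j * a ≤ 4 * R * Y := by
    have := ha.2
    rwa [div_le_iff₀ hY] at this
  have h2 : a ≤ j * a := by
    have := h.hj
    nlinarith
  have h3 : a * b ≤ 4 * P ^ 3 * S ^ 2 := by
    have e1 := h.hR2
    have e2 := h.hY2
    have e3 := h.b_le
    have e4 := h.R0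
    calc a * b ≤ (4 * R * Y) * b := by
          apply mul_le_mul_of_nonneg_right _ hb.le
          linarith
      _ ≤ (4 * P * (S * P)) * (S * P) := by gcongr
      _ = _ := by ring
  calc 1 / (4 * P ^ 3) * (a * b) ≤ 1 / (4 * P ^ 3) * (4 * P ^ 3 * S ^ 2) :=
        mul_le_mul_of_nonneg_left h3 (by positivity)
    _ = S ^ 2 := by field_simp
    _ ≤ |g| * S ^ 2 := by
        have := h.hg
        nlinarith [sq_nonneg S]

theorem inv_le (h : GC3 W G i C1 C2 P S Y R j b g) {a : ℝ} (ha : Rg P S Y R j a) :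
    |1 / a| ≤ 4 * P ^ 3 / S := by
  have hP := h.P0
  have hS := h.hS
  have ha0 := h.rg_pos ha
  rw [abs_of_pos (by positivity)]
  calc 1 / a ≤ 1 / (S / (4 * P ^ 3)) := one_div_le_one_div_of_le (by positivity) ha.1
    _ = _ := by field_simp

theorem kk_le (h : GC3 W G i C1 C2 P S Y R j b g) {a : ℝ} (ha : Rg P S Y R j a) :
    |KK G (P ^ 60)⁻¹ (g * S ^ 2 / (a * b))| ≤ P ^ 31 := by
  have hP := h.P0
  exact gc3_kk_bd (by positivity) (by positivity) (gc3_gb h.hP h.hG h.hM) (h.rg_u ha)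

theorem f_le_rg (h : GC3 W G i C1 C2 P S Y R j b g) {a : ℝ} (ha : Rg P S Y R j a) :
    |gc3f W G P S Y R j b g a| ≤ 4 * P ^ 35 / S := by
  have hP := h.P0
  have hS := h.hS
  have ha0 := h.rg_pos ha
  unfold gc3f
  rw [if_pos ha0]
  have e1 : W (j * a / Y) * up R (j * a / Y) / a * KK G (P ^ 60)⁻¹ (g * S ^ 2 / (a * b)) =
      W (j * a / Y) * (up R (j * a / Y) * ((1 / a) * KK G (P ^ 60)⁻¹ (g * S ^ 2 / (a * b)))) := by
    ring
  rw [e1, abs_mul, abs_mul, abs_mul, abs_of_nonneg (gc3_up_nonneg _ _)]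
  calc |W (j * a / Y)| * (up R (j * a / Y) * (|1 / a| * |KK G (P ^ 60)⁻¹ (g * S ^ 2 / (a * b))|))
      ≤ P * (1 * (4 * P ^ 3 / S * P ^ 31)) := by
        have e2 := h.w_le ha
        have e3 := gc3_up_le R (j * a / Y)
        have e4 := gc3_up_nonneg R (j * a / Y)
        have e5 := h.inv_le ha
        have e6 := h.kk_le ha
        gcongr
    _ = _ := by ring

theorem f_le (h : GC3 W G i C1 C2 P S Y R j b g) (a : ℝ) :
    |gc3f W G P S Y R j b g a| ≤ 4 * P ^ 35 / S := by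
  have hP := h.P0
  have hS := h.hS
  by_cases hf : gc3f W G P S Y R j b g a = 0
  · rw [hf, abs_zero]
    positivity
  · exact h.f_le_rg (h.rg_of_supp hf)

/-- the Lipschitz estimate in the region -/
theorem lip_rg (h : GC3 W G i C1 C2 P S Y R j b g) {a a' : ℝ} (ha : Rg P S Y R j a)
    (ha' : Rg P S Y R j a') :
    |gc3f W G P S Y R j b g a - gc3f W G P S Y R j b g a'| ≤
      P ^ 228 / S ^ 2 * |a - a'| := by
  have hP := h.P0
  have hP1 := h.P1
  have hP100 := h.hP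
  have hS := h.hS
  have hY := h.Y0
  have hb := h.b0
  have hj := h.j0
  have ha0 := h.rg_pos ha
  have ha0' := h.rg_pos ha'
  have hd : 0 ≤ |a - a'| := abs_nonneg _
  -- the four factors
  have hy : |j * a / Y - j * a' / Y| ≤ 4 * P ^ 5 / S * |a - a'| := by
    have e1 : j * a / Y - j * a' / Y = j / Y * (a - a') := by ring
    rw [e1, abs_mul, abs_of_pos (by positivity)]
    apply mul_le_mul_of_nonneg_right _ hd
    have e2 := h.j_le
    have e3 := h.hY1
    gcongr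
  have hW : |W (j * a / Y) - W (j * a' / Y)| ≤ P ^ 14 / S * |a - a'| := by
    have e1 := h.hVl (1 / (4 * P ^ 4)) _ _ (by positivity) (by
      rw [div_le_one (by positivity)]
      have : 1 ≤ P ^ 4 := one_le_pow₀ hP1
      linarith) (h.rg_y ha).1 (h.rg_y ha').1
    refine e1.trans ?_
    have e2 := h.hC0
    calc C1 / (1 / (4 * P ^ 4)) ^ 2 * |j * a / Y - j * a' / Y|
        ≤ C1 / (1 / (4 * P ^ 4)) ^ 2 * (4 * P ^ 5 / S * |a - a'|) := by gcongr
      _ = (64 * C1) * P ^ 13 / S * |a - a'| := by field_simp; ring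
      _ ≤ P * P ^ 13 / S * |a - a'| := by
          have := h.hC1'
          gcongr
      _ = _ := by ring
  have hU : |up R (j * a / Y) - up R (j * a' / Y)| ≤ 4 * P ^ 5 / S * |a - a'| :=
    (gc3_up_lip h.hR1 _ _).trans hy
  have hI0 : |1 / a - 1 / a'| ≤ 16 * P ^ 6 / S ^ 2 * |a - a'| := by
    have e1 : 1 / a - 1 / a' = (1 / a) * (1 / a') * (a' - a) := by field_simp
    rw [e1, abs_mul, abs_mul, abs_sub_comm a' a]
    apply mul_le_mul_of_nonneg_right _ hd
    calc |1 / a| * |1 / a'| ≤ (4 * P ^ 3 / S) * (4 * P ^ 3 / S) :=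
          mul_le_mul (h.inv_le ha) (h.inv_le ha') (abs_nonneg _) (by positivity)
      _ = _ := by field_simp; ring
  have hu : |g * S ^ 2 / (a * b) - g * S ^ 2 / (a' * b)| ≤ 64 * P ^ 10 / S * |a - a'| := by
    have e1 : g * S ^ 2 / (a * b) - g * S ^ 2 / (a' * b) = (g * S ^ 2 / b) * (1 / a - 1 / a') := by
      field_simp
    rw [e1, abs_mul, abs_div, abs_mul, abs_of_pos hb, abs_of_pos (by positivity : (0:ℝ) < S ^ 2)]
    calc |g| * S ^ 2 / b * |1 / a - 1 / a'| ≤ (4 * S * P ^ 4) * (16 * P ^ 6 / S ^ 2 * |a - a'|) :=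
          mul_le_mul h.gb_le hI0 (abs_nonneg _) (by positivity)
      _ = _ := by field_simp; ring
  have hK : |KK G (P ^ 60)⁻¹ (g * S ^ 2 / (a * b)) - KK G (P ^ 60)⁻¹ (g * S ^ 2 / (a' * b))| ≤
      64 * P ^ 221 / S * |a - a'| := by
    have e1 := gc3_kk h.hG (al := 1 / (4 * P ^ 3)) (om := (P ^ 60)⁻¹) (M := P ^ 31) (by positivity)
      (by positivity) (by positivity) (gc3_gb h.hP h.hG h.hM) (h.rg_u ha) (h.rg_u ha')
    refine e1.trans ?_
    have hc0 : 0 < C2 := by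
      have := h.hG.one_le'
      by_contra hh
      push Not at hh
      have : C2 * P ^ 30 ≤ 0 := mul_nonpos_of_nonpos_of_nonneg hh (by positivity)
      linarith
    have e2 : C2 * P ^ 30 * (2 / (1 / (4 * P ^ 3)) + 4 / (P ^ 60)⁻¹) ^ 3 +
        4 * P ^ 31 / (P ^ 60)⁻¹ ≤ P ^ 211 := by
      have f1 : 2 / (1 / (4 * P ^ 3)) + 4 / (P ^ 60)⁻¹ ≤ 12 * P ^ 60 := by
        have g1 : 2 / (1 / (4 * P ^ 3)) = 8 * P ^ 3 := by field_simp; ring
        have g2 : 4 / (P ^ 60)⁻¹ = 4 * P ^ 60 := by field_simp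
        have g3 : P ^ 3 ≤ P ^ 60 := pow_le_pow_right₀ hP1 (by norm_num)
        rw [g1, g2]
        linarith
      have f2 : 4 * P ^ 31 / (P ^ 60)⁻¹ = 4 * P ^ 91 := by field_simp
      have f3 : 4 * P ^ 91 ≤ 4 * P ^ 210 := by
        have : P ^ 91 ≤ P ^ 210 := pow_le_pow_right₀ hP1 (by norm_num)
        linarith
      rw [f2]
      calc C2 * P ^ 30 * (2 / (1 / (4 * P ^ 3)) + 4 / (P ^ 60)⁻¹) ^ 3 + 4 * P ^ 91
          ≤ C2 * P ^ 30 * (12 * P ^ 60) ^ 3 + 4 * P ^ 210 := by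
            apply add_le_add _ f3
            gcongr
        _ = (1728 * C2 + 4) * P ^ 210 := by ring
        _ ≤ P * P ^ 210 := by
            apply mul_le_mul_of_nonneg_right h.hC2 (by positivity)
        _ = _ := by ring
    calc (C2 * P ^ 30 * (2 / (1 / (4 * P ^ 3)) + 4 / (P ^ 60)⁻¹) ^ 3 +
        4 * P ^ 31 / (P ^ 60)⁻¹) * |g * S ^ 2 / (a * b) - g * S ^ 2 / (a' * b)|
        ≤ P ^ 211 * (64 * P ^ 10 / S * |a - a'|) :=
          mul_le_mul e2 hu (abs_nonneg _) (by positivity)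
      _ = _ := by ring
  have hIK := gc3_mul hI0 hK (h.kk_le ha) (h.inv_le ha') (by positivity) (by positivity)
  have hIKb : |1 / a * KK G (P ^ 60)⁻¹ (g * S ^ 2 / (a * b))| ≤ 4 * P ^ 3 / S * P ^ 31 := by
    rw [abs_mul]
    exact mul_le_mul (h.inv_le ha) (h.kk_le ha) (abs_nonneg _) (by positivity)
  have hup' : |up R (j * a' / Y)| ≤ 1 := by
    rw [abs_of_nonneg (gc3_up_nonneg _ _)]
    exact gc3_up_le _ _
  have hup : |up R (j * a / Y)| ≤ 1 := by
    rw [abs_of_nonneg (gc3_up_nonneg _ _)]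
    exact gc3_up_le _ _
  have hUIK := gc3_mul hU hIK hIKb hup' (by positivity) zero_le_one
  have hUIKb : |up R (j * a / Y) * (1 / a * KK G (P ^ 60)⁻¹ (g * S ^ 2 / (a * b)))| ≤
      4 * P ^ 3 / S * P ^ 31 := by
    rw [abs_mul]
    calc |up R (j * a / Y)| * |1 / a * KK G (P ^ 60)⁻¹ (g * S ^ 2 / (a * b))| ≤
        1 * (4 * P ^ 3 / S * P ^ 31) := mul_le_mul hup hIKb (abs_nonneg _) zero_le_one
      _ = _ := one_mul _
  have hall := gc3_mul hW hUIK hUIKb (h.w_le ha') (by positivity) hP.le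
  unfold gc3f
  rw [if_pos ha0, if_pos ha0']
  have e1 : ∀ a : ℝ, W (j * a / Y) * up R (j * a / Y) / a *
      KK G (P ^ 60)⁻¹ (g * S ^ 2 / (a * b)) =
      W (j * a / Y) * (up R (j * a / Y) * ((1 / a) * KK G (P ^ 60)⁻¹ (g * S ^ 2 / (a * b)))) :=
    fun a => by ring
  rw [e1 a, e1 a']
  refine hall.trans (mul_le_mul_of_nonneg_right ?_ hd)
  have e2 : P ^ 14 / S * (4 * P ^ 3 / S * P ^ 31) +
      P * (4 * P ^ 5 / S * (4 * P ^ 3 / S * P ^ 31) +
        1 * (16 * P ^ 6 / S ^ 2 * P ^ 31 + 4 * P ^ 3 / S * (64 * P ^ 221 / S))) =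
      (4 * P ^ 48 + 16 * P ^ 40 + 16 * P ^ 38 + 256 * P ^ 225) / S ^ 2 := by
    field_simp
    ring
  rw [e2]
  apply div_le_div_of_nonneg_right _ (by positivity)
  have f1 : P ^ 48 ≤ P ^ 225 := pow_le_pow_right₀ hP1 (by norm_num)
  have f2 : P ^ 40 ≤ P ^ 225 := pow_le_pow_right₀ hP1 (by norm_num)
  have f3 : P ^ 38 ≤ P ^ 225 := pow_le_pow_right₀ hP1 (by norm_num)
  have f4 : 0 ≤ P ^ 225 := by positivity
  have f5 : 100 * 100 * 100 ≤ P ^ 3 := by
    calc (100 : ℝ) * 100 * 100 = 100 ^ 3 := by norm_num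
      _ ≤ P ^ 3 := pow_le_pow_left₀ (by norm_num) hP100 3
  calc 4 * P ^ 48 + 16 * P ^ 40 + 16 * P ^ 38 + 256 * P ^ 225 ≤ 1000000 * P ^ 225 := by linarith
    _ ≤ P ^ 3 * P ^ 225 := by
        apply mul_le_mul_of_nonneg_right _ f4
        linarith
    _ = _ := by ring

/-- a point of the support and a point outside the region -/
theorem lip_out (h : GC3 W G i C1 C2 P S Y R j b g) {a a' : ℝ}
    (ha : gc3f W G P S Y R j b g a ≠ 0) (ha' : ¬ Rg P S Y R j a') :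
    |gc3f W G P S Y R j b g a - gc3f W G P S Y R j b g a'| ≤
      P ^ 228 / S ^ 2 * |a - a'| := by
  have hP := h.P0
  have hP1 := h.P1
  have hP100 := h.hP
  have hS := h.hS
  have hY := h.Y0
  have hj := h.j0
  have hz : gc3f W G P S Y R j b g a' = 0 := by
    by_contra hh
    exact ha' (h.rg_of_supp hh)
  rw [hz, sub_zero]
  obtain ⟨h0, h1, h2⟩ := h.supp ha
  have hsep : S / (4 * P ^ 5) ≤ |a - a'| := by
    unfold Rg at ha'
    rw [not_and_or, not_le, not_le] at ha'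
    rcases ha' with h3 | h3
    · have e1 : S / (2 * P ^ 3) = 2 * (S / (4 * P ^ 3)) := by field_simp; ring
      have e2 : S / (4 * P ^ 3) ≤ a - a' := by linarith
      refine le_trans ?_ (e2.trans (le_abs_self _))
      apply div_le_div_of_nonneg_left hS.le (by positivity)
      have : P ^ 3 ≤ P ^ 5 := pow_le_pow_right₀ hP1 (by norm_num)
      linarith
    · have e1 : 2 * R < j * (a' - a) / Y := by
        have : j * (a' - a) / Y = j * a' / Y - j * a / Y := by ring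
        linarith
      rw [lt_div_iff₀ hY] at e1
      have e2 : S ≤ j * (a' - a) := by
        have e3 := h.hR1
        have e4 := h.hY1
        nlinarith
      have e3 : 0 < a' - a := by
        by_contra hh
        push Not at hh
        have : j * (a' - a) ≤ 0 := mul_nonpos_of_nonneg_of_nonpos hj.le hh
        linarith
      have e4 : S ≤ 4 * P ^ 5 * (a' - a) := e2.trans (mul_le_mul_of_nonneg_right h.j_le e3.le)
      rw [abs_sub_comm, abs_of_pos e3, div_le_iff₀ (by positivity)]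
      linarith
  calc |gc3f W G P S Y R j b g a| ≤ 4 * P ^ 35 / S := h.f_le a
    _ = 16 * P ^ 40 / S ^ 2 * (S / (4 * P ^ 5)) := by field_simp; ring
    _ ≤ 16 * P ^ 40 / S ^ 2 * |a - a'| := mul_le_mul_of_nonneg_left hsep (by positivity)
    _ ≤ P ^ 228 / S ^ 2 * |a - a'| := by
        apply mul_le_mul_of_nonneg_right _ (abs_nonneg _)
        apply div_le_div_of_nonneg_right _ (by positivity)
        calc 16 * P ^ 40 ≤ P * P ^ 40 := mul_le_mul_of_nonneg_right (by linarith) (by positivity)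
          _ = P ^ 41 := by ring
          _ ≤ P ^ 228 := pow_le_pow_right₀ hP1 (by norm_num)

theorem lip (h : GC3 W G i C1 C2 P S Y R j b g) (a a' : ℝ) :
    |gc3f W G P S Y R j b g a - gc3f W G P S Y R j b g a'| ≤
      P ^ 228 / S ^ 2 * |a - a'| := by
  have hP := h.P0
  have hS := h.hS
  by_cases h1 : gc3f W G P S Y R j b g a = 0
  · by_cases h2 : gc3f W G P S Y R j b g a' = 0
    · rw [h1, h2, sub_self, abs_zero]
      positivity
    · rw [abs_sub_comm, abs_sub_comm a a']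
      by_cases h3 : Rg P S Y R j a
      · exact h.lip_rg (h.rg_of_supp h2) h3
      · exact h.lip_out h2 h3
  · by_cases h3 : Rg P S Y R j a'
    · exact h.lip_rg (h.rg_of_supp h1) h3
    · exact h.lip_out h1 h3

end GC3

/-! ### large `P` -/

theorem gc3_log_ev (C : ℝ) (k n i : ℕ) (c : ℝ) (hc : 0 < c) :
    ∀ᶠ P : ℝ in Filter.atTop, C * (1 + Real.log (c * P ^ n) * k) ^ i ≤ P := by
  have h1 : (fun P : ℝ => Real.log P ^ i) =o[Filter.atTop] (id : ℝ → ℝ) :=
    Real.isLittleO_pow_log_id_atTop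
  set D : ℝ := 1 + |Real.log c| * k + n * k with hD
  have hD0 : 0 < D := by positivity
  have h2 : ∀ᶠ P : ℝ in Filter.atTop, ‖Real.log P ^ i‖ ≤ (|C| * D ^ i + 1)⁻¹ * ‖id P‖ :=
    h1.bound (by positivity)
  filter_upwards [h2, Filter.eventually_ge_atTop (Real.exp 1)] with P h3 h4
  have hP0 : 0 < P := (Real.exp_pos 1).trans_le h4
  have hl : 1 ≤ Real.log P := by
    have := Real.log_le_log (Real.exp_pos 1) h4
    rwa [Real.log_exp] at this
  rw [Real.norm_of_nonneg (by positivity), id, Real.norm_of_nonneg hP0.le] at h3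
  have h5 : |1 + Real.log (c * P ^ n) * k| ≤ D * Real.log P := by
    rw [Real.log_mul hc.ne' (by positivity), Real.log_pow]
    have e1 : |1 + (Real.log c + n * Real.log P) * k| ≤ 1 + (|Real.log c| + n * Real.log P) * k := by
      refine (abs_add_le _ _).trans ?_
      rw [abs_one, abs_mul, abs_of_nonneg (by positivity : (0:ℝ) ≤ k)]
      have e2 : |Real.log c + n * Real.log P| ≤ |Real.log c| + n * Real.log P := by
        refine (abs_add_le _ _).trans ?_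
        rw [abs_of_nonneg (by positivity : (0:ℝ) ≤ n * Real.log P)]
      have := mul_le_mul_of_nonneg_right e2 (by positivity : (0:ℝ) ≤ k)
      linarith
    refine e1.trans ?_
    have e3 : 0 ≤ |Real.log c| * k := by positivity
    rw [hD]
    nlinarith
  have h6 : (1 + Real.log (c * P ^ n) * k) ^ i ≤ (D * Real.log P) ^ i := by
    refine (le_abs_self _).trans ?_
    rw [abs_pow]
    exact pow_le_pow_left₀ (abs_nonneg _) h5 i
  have h6' : |(1 + Real.log (c * P ^ n) * k) ^ i| ≤ (D * Real.log P) ^ i := by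
    rw [abs_pow]
    exact pow_le_pow_left₀ (abs_nonneg _) h5 i
  calc C * (1 + Real.log (c * P ^ n) * k) ^ i ≤ |C * (1 + Real.log (c * P ^ n) * k) ^ i| :=
        le_abs_self _
    _ = |C| * |(1 + Real.log (c * P ^ n) * k) ^ i| := abs_mul _ _
    _ ≤ |C| * (D * Real.log P) ^ i := mul_le_mul_of_nonneg_left h6' (abs_nonneg _)
    _ = (|C| * D ^ i) * Real.log P ^ i := by rw [mul_pow]; ring
    _ ≤ (|C| * D ^ i + 1) * ((|C| * D ^ i + 1)⁻¹ * P) := by
        apply mul_le_mul _ h3 (by positivity) (by positivity)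
        linarith
    _ = P := by field_simp

theorem gc3_ev (C1 C2 : ℝ) (i : ℕ) : ∀ᶠ P : ℝ in Filter.atTop, 100 ≤ P ∧
    C1 * (1 + Real.log (4 * P ^ 4)) ^ i ≤ P ∧ 64 * C1 ≤ P ∧
    C2 * P ^ 30 * (1 + Real.log (4 * P ^ 3) + Real.log (2 * P ^ 60) +
      2 * Real.log (2 + P ^ 2)) ≤ P ^ 31 ∧ 1728 * C2 + 4 ≤ P := by
  filter_upwards [Filter.eventually_ge_atTop 100, gc3_log_ev C1 1 4 i 4 (by norm_num),
    Filter.eventually_ge_atTop (64 * C1), gc3_log_ev |C2| 4 60 1 4 (by norm_num),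
    Filter.eventually_ge_atTop (1728 * C2 + 4)] with P h1 h2 h3 h4 h5
  refine ⟨h1, ?_, h3, ?_, h5⟩
  · simpa using h2
  · have hP : 0 < P := by linarith
    have hP1 : 1 ≤ P := by linarith
    have e1 : Real.log (4 * P ^ 3) ≤ Real.log (4 * P ^ 60) := by
      apply Real.log_le_log (by positivity)
      have : P ^ 3 ≤ P ^ 60 := pow_le_pow_right₀ hP1 (by norm_num)
      linarith
    have e2 : Real.log (2 * P ^ 60) ≤ Real.log (4 * P ^ 60) := by
      apply Real.log_le_log (by positivity)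
      have : 0 ≤ P ^ 60 := by positivity
      linarith
    have e3 : Real.log (2 + P ^ 2) ≤ Real.log (4 * P ^ 60) := by
      apply Real.log_le_log (by positivity)
      have : P ^ 2 ≤ P ^ 60 := pow_le_pow_right₀ hP1 (by norm_num)
      have : 1 ≤ P ^ 60 := one_le_pow₀ hP1
      linarith
    have e0 : 0 ≤ 1 + Real.log (4 * P ^ 3) + Real.log (2 * P ^ 60) + 2 * Real.log (2 + P ^ 2) := by
      have f1 : 0 ≤ Real.log (4 * P ^ 3) := Real.log_nonneg (by
        have : 1 ≤ P ^ 3 := one_le_pow₀ hP1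
        linarith)
      have f2 : 0 ≤ Real.log (2 * P ^ 60) := Real.log_nonneg (by
        have : 1 ≤ P ^ 60 := one_le_pow₀ hP1
        linarith)
      have f3 : 0 ≤ Real.log (2 + P ^ 2) := Real.log_nonneg (by
        have : 0 ≤ P ^ 2 := by positivity
        linarith)
      linarith
    rw [pow_one] at h4
    push_cast at h4
    calc C2 * P ^ 30 * (1 + Real.log (4 * P ^ 3) + Real.log (2 * P ^ 60) +
          2 * Real.log (2 + P ^ 2))
        ≤ |C2| * P ^ 30 * (1 + Real.log (4 * P ^ 60) * 4) := by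
          apply mul_le_mul _ _ e0 (by positivity)
          · exact mul_le_mul_of_nonneg_right (le_abs_self _) (by positivity)
          · linarith
      _ = P ^ 30 * (|C2| * (1 + Real.log (4 * P ^ 60) * 4)) := by ring
      _ ≤ P ^ 30 * P := mul_le_mul_of_nonneg_left h4 (by positivity)
      _ = P ^ 31 := by ring

/-- the bound for `g` -/
theorem gc3_g {N ν P S Y j b g : ℝ} (hN : 1 ≤ N) (hP : P = N ^ ν) (hS : 0 < S) (hP64 : 64 ≤ P)
    (hj : 1 ≤ j) (hb : 0 < b) (hY0 : 0 < Y) (hY : Y ≤ S * N ^ (ν / 100))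
    (hjb : j * b ≤ S * N ^ (ν / 10))
    (hSm : j * |g| * S ^ 2 < 2 * N ^ (ν / 50) * (b * Y * (1 + P ^ 2))) :
    |g| ≤ N ^ (5 / 2 * ν) := by
  have hNp : 0 < N := by linarith
  have hP1 : 1 ≤ P := by linarith
  have hj0 : 0 < j := by linarith
  have e1 : j * (j * |g| * S ^ 2) < j * (2 * N ^ (ν / 50) * (b * Y * (1 + P ^ 2))) :=
    mul_lt_mul_of_pos_left hSm hj0
  have e2 : j * (2 * N ^ (ν / 50) * (b * Y * (1 + P ^ 2))) ≤
      2 * N ^ (ν / 50) * ((S * N ^ (ν / 10)) * (S * N ^ (ν / 100)) * (2 * P ^ 2)) := by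
    have f1 : 1 + P ^ 2 ≤ 2 * P ^ 2 := by nlinarith
    calc j * (2 * N ^ (ν / 50) * (b * Y * (1 + P ^ 2))) =
        2 * N ^ (ν / 50) * ((j * b) * Y * (1 + P ^ 2)) := by ring
      _ ≤ _ := by gcongr
  have f1 : N ^ (213 / 100 * ν) =
      N ^ (ν / 50) * N ^ (ν / 10) * N ^ (ν / 100) * P ^ 2 := by
    have f2 : P ^ 2 = N ^ (ν * 2) := by
      rw [Real.rpow_mul hNp.le, ← hP]
      exact_mod_cast (Real.rpow_natCast P 2).symm
    rw [f2, ← Real.rpow_add hNp, ← Real.rpow_add hNp, ← Real.rpow_add hNp]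
    congr 1
    ring
  have f3 : S ^ 2 * |g| ≤ j * (j * |g| * S ^ 2) := by
    have f4 : 0 ≤ |g| * S ^ 2 := by positivity
    have f5 : 1 ≤ j * j := one_le_mul_of_one_le_of_one_le hj hj
    calc S ^ 2 * |g| = 1 * (|g| * S ^ 2) := by ring
      _ ≤ (j * j) * (|g| * S ^ 2) := mul_le_mul_of_nonneg_right f5 f4
      _ = _ := by ring
  have e3 : S ^ 2 * |g| ≤ S ^ 2 * (4 * N ^ (213 / 100 * ν)) := by
    rw [f1]
    refine f3.trans (e1.le.trans (e2.trans (le_of_eq ?_)))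
    ring
  have e4 := le_of_mul_le_mul_left e3 (by positivity : (0:ℝ) < S ^ 2)
  refine e4.trans ?_
  have e5 : N ^ (5 / 2 * ν) = N ^ (37 / 100 * ν) * N ^ (213 / 100 * ν) := by
    rw [← Real.rpow_add hNp]
    congr 1
    ring
  rw [e5]
  apply mul_le_mul_of_nonneg_right _ (by positivity)
  have e6 : N ^ (37 / 100 * ν) = P ^ (37 / 100 : ℝ) := by
    rw [mul_comm, Real.rpow_mul hNp.le, ← hP]
  rw [e6]
  calc (4 : ℝ) = (64 : ℝ) ^ (1 / 3 : ℝ) := by
        rw [show (64 : ℝ) = 4 ^ (3 : ℝ) by norm_num, ← Real.rpow_mul (by norm_num)]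
        norm_num
    _ ≤ P ^ (1 / 3 : ℝ) := Real.rpow_le_rpow (by norm_num) hP64 (by norm_num)
    _ ≤ P ^ (37 / 100 : ℝ) := Real.rpow_le_rpow_of_exponent_le hP1 (by norm_num)

/-- block GC3 (uses v_facts_pr, LK.gok_unif_pr): the conditions of the theorem on divisor sums -/
theorem g_fa_pr (i : ℕ) {ν : ℝ} (h0 : 0 < ν) (h1 : ν ≤ 1 / 10 ^ 6) : ∃ N₀ : ℕ, ∀ N : ℕ,
    N₀ ≤ N → ∀ (q : ℕ) [NeZero q] (Y : ℝ) (A : ℕ), Par ν N q Y A → ∀ ρ : ℝ → ℝ,
    KerC ((N : ℝ) ^ ν) ρ → ∀ j b : ℕ, 1 ≤ j → 1 ≤ b → (j : ℝ) * b ≤ (N : ℝ) ^ (1 / 2 + ν / 10) →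
    ∀ g : ℤ, g ≠ 0 → Sm ν N Y j b g →
    (N : ℝ) ^ (1 / 2 - 250 * ν) ≤ b ∧ (b : ℝ) ≤ (N : ℝ) ^ (1 / 2 + 250 * ν) ∧
    |(g : ℝ)| ≤ (N : ℝ) ^ (5 / 2 * ν) ∧
    (∀ a, fa i ρ ν N Y j b g a ≠ 0 →
      (N : ℝ) ^ (1 / 2 - 250 * ν) ≤ a ∧ a ≤ (N : ℝ) ^ (1 / 2 + 250 * ν)) ∧
    (∀ a, |fa i ρ ν N Y j b g a| ≤ (N : ℝ) ^ (-(1 / 2) + 250 * ν)) ∧
    (∀ a a', |fa i ρ ν N Y j b g a - fa i ρ ν N Y j b g a'| ≤
      (N : ℝ) ^ (-1 + 250 * ν) * |a - a'|) := by
  obtain ⟨C1, hC1, hV, -, hVl⟩ := v_facts_pr i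
  obtain ⟨C2, hC2⟩ := Pool.Agent.LK.gok_unif_pr
  have hT : Filter.Tendsto (fun N : ℕ => (N : ℝ) ^ ν) Filter.atTop Filter.atTop :=
    (tendsto_rpow_atTop h0).comp tendsto_natCast_atTop_atTop
  obtain ⟨N₀, hN₀⟩ := Filter.eventually_atTop.mp (hT.eventually (gc3_ev C1 C2 i))
  refine ⟨max N₀ 1, fun N hN q hq Y A hPar ρ hρ j b hj hb hjb g hg hSm => ?_⟩
  obtain ⟨p1, p2, p3, p4, p5⟩ := hN₀ N ((le_max_left _ _).trans hN)
  have hN1 : 1 ≤ N := (le_max_right _ _).trans hN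
  have hNr : (1 : ℝ) ≤ N := by exact_mod_cast hN1
  have hNp : (0 : ℝ) < N := by linarith
  set P : ℝ := (N : ℝ) ^ ν with hP
  have hP0 : 0 < P := by linarith
  set S : ℝ := Real.sqrt N with hS
  have hSp : 0 < S := Real.sqrt_pos.mpr hNp
  have hSS : S ^ 2 = N := Real.sq_sqrt hNp.le
  have hShalf : S = (N : ℝ) ^ (1 / 2 : ℝ) := Real.sqrt_eq_rpow _
  have hqr : (1 : ℝ) ≤ q := by
    exact_mod_cast Nat.one_le_iff_ne_zero.mpr (NeZero.ne q)
  have hjr : (1 : ℝ) ≤ j := by exact_mod_cast hj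
  have hbr : (1 : ℝ) ≤ b := by exact_mod_cast hb
  have hgr : (1 : ℝ) ≤ |(g : ℝ)| := by
    have := Int.one_le_abs hg
    exact_mod_cast this
  have hR1 : 1 ≤ (N : ℝ) ^ (ν / 50) := Real.one_le_rpow hNr (by positivity)
  have hR2 : (N : ℝ) ^ (ν / 50) ≤ P := Real.rpow_le_rpow_of_exponent_le hNr (by linarith)
  have hY1 : S ≤ Y := by
    rw [hPar.Y_eq]
    nlinarith
  have hY3 : Y ≤ S * (N : ℝ) ^ (ν / 100) := by
    rw [hPar.Y_eq, mul_comm]
    exact mul_le_mul_of_nonneg_left hPar.q_le hSp.le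
  have hY2 : Y ≤ S * P := by
    refine hY3.trans (mul_le_mul_of_nonneg_left ?_ hSp.le)
    exact Real.rpow_le_rpow_of_exponent_le hNr (by linarith)
  have hjb3 : (j : ℝ) * b ≤ S * (N : ℝ) ^ (ν / 10) := by
    rw [hShalf, ← Real.rpow_add hNp]
    exact hjb
  have hjb2 : (j : ℝ) * b ≤ S * P := by
    refine hjb3.trans (mul_le_mul_of_nonneg_left ?_ hSp.le)
    exact Real.rpow_le_rpow_of_exponent_le hNr (by linarith)
  have hSm' : (j : ℝ) * |(g : ℝ)| * S ^ 2 < 2 * (N : ℝ) ^ (ν / 50) * (b * Y * (1 + P ^ 2)) := by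
    rw [hSS]
    exact hSm
  have hGC : GC3 (V i) (GG ρ) i C1 C2 P S Y ((N : ℝ) ^ (ν / 50)) j b g :=
    { hP := p1, hS := hSp, hR1 := hR1, hR2 := hR2, hY1 := hY1, hY2 := hY2, hj := hjr, hb := hbr,
      hjb := hjb2, hg := hgr, hSm := hSm', hG := (hC2 P (by linarith) ρ hρ).2, hV := hV,
      hVl := hVl, hC0 := hC1, hC1 := p2, hC1' := p3, hM := p4, hC2 := p5 }
  have h60 : (N : ℝ) ^ (-(60 * ν)) = (P ^ 60)⁻¹ := by
    rw [Real.rpow_neg hNp.le, mul_comm, Real.rpow_mul hNp.le]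
    congr 1
    exact_mod_cast Real.rpow_natCast P 60
  have hfa : ∀ a, fa i ρ ν N Y j b g a = gc3f (V i) (GG ρ) P S Y ((N : ℝ) ^ (ν / 50)) j b g a := by
    intro a
    unfold fa gc3f
    rw [h60, hSS]
  have h250 : (N : ℝ) ^ (250 * ν) = P ^ 250 := by
    rw [mul_comm, Real.rpow_mul hNp.le]
    exact_mod_cast Real.rpow_natCast P 250
  have hlow : (N : ℝ) ^ (1 / 2 - 250 * ν) = S / P ^ 250 := by
    rw [Real.rpow_sub hNp, h250, hShalf]
  have hupp : (N : ℝ) ^ (1 / 2 + 250 * ν) = S * P ^ 250 := by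
    rw [Real.rpow_add hNp, h250, hShalf]
  have hmin : (N : ℝ) ^ (-(1 / 2) + 250 * ν) = P ^ 250 / S := by
    rw [Real.rpow_add hNp, h250, Real.rpow_neg hNp.le, ← hShalf]
    field_simp
  have hone : (N : ℝ) ^ (-1 + 250 * ν) = P ^ 250 / S ^ 2 := by
    rw [Real.rpow_add hNp, h250, Real.rpow_neg hNp.le, Real.rpow_one, hSS]
    field_simp
  have hP1 : 1 ≤ P := by linarith
  have hpw : ∀ k : ℕ, k ≤ 249 → ∀ c : ℝ, c ≤ 100 → c * P ^ k ≤ P ^ 250 := by
    intro k hk c hc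
    calc c * P ^ k ≤ P * P ^ k := mul_le_mul_of_nonneg_right (hc.trans p1) (by positivity)
      _ = P ^ (k + 1) := by ring
      _ ≤ P ^ 250 := pow_le_pow_right₀ hP1 (by omega)
  refine ⟨?_, ?_, ?_, ?_, ?_, ?_⟩
  · rw [hlow]
    refine le_trans ?_ hGC.b_ge
    exact div_le_div_of_nonneg_left hSp.le (by positivity) (hpw 4 (by norm_num) 4 (by norm_num))
  · rw [hupp]
    refine hGC.b_le.trans (mul_le_mul_of_nonneg_left ?_ hSp.le)
    have := hpw 1 (by norm_num) 1 (by norm_num)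
    linarith
  · exact gc3_g hNr rfl hSp (by linarith) hjr (by linarith) hGC.Y0 hY3 hjb3 hSm'
  · intro a ha
    rw [hfa] at ha
    obtain ⟨a0, a1, a2⟩ := hGC.supp ha
    constructor
    · rw [hlow]
      refine le_trans ?_ a1
      exact div_le_div_of_nonneg_left hSp.le (by positivity) (hpw 3 (by norm_num) 2 (by norm_num))
    · rw [hupp]
      rw [div_lt_iff₀ hGC.Y0] at a2
      have f1 : a ≤ j * a := by nlinarith
      have f2 : 2 * (N : ℝ) ^ (ν / 50) * Y ≤ 2 * P * (S * P) := by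
        have := hGC.Y0
        gcongr
      calc a ≤ j * a := f1
        _ ≤ _ := a2.le
        _ ≤ _ := f2
        _ = S * (2 * P ^ 2) := by ring
        _ ≤ S * P ^ 250 := mul_le_mul_of_nonneg_left (hpw 2 (by norm_num) 2 (by norm_num)) hSp.le
  · intro a
    rw [hfa, hmin]
    refine (hGC.f_le a).trans ?_
    exact div_le_div_of_nonneg_right (hpw 35 (by norm_num) 4 (by norm_num)) hSp.le
  · intro a a'
    rw [hfa, hfa, hone]
    refine (hGC.lip a a').trans (mul_le_mul_of_nonneg_right ?_ (abs_nonneg _))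
    apply div_le_div_of_nonneg_right _ (by positivity)
    have := hpw 228 (by norm_num) 1 (by norm_num)
    linarith


end Pool.Agent.LG
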