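import Pool.Agent.Lib_helper31.LG.Defs
import Pool.Agent.Lib_helper31.LKF.KD3
import Pool.Agent.Lib_helper31.LGF.GA
import Pool.Agent.Lib_helper31.LKF.KG1

/-! LSP3, part G, block GC4: the pairs without terms. -/

set_option autoImplicit false

namespace Pool.Agent.LG

open Complex MeasureTheory Set ProbabilityTheory
open Pool.Agent.LSP (tau GG CC CB Gs sg1 QN sh OD)
open Pool.Agent.LSPO (KK cl GOK)
open Pool.Agent.LK (KerC PQ V MT OM SH HH Qe hm)
open Pool.Agent.LE (xv HP SuppIn H2)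
open Pool.Agent.LVB (IsST)

/-! ### the majorant -/

/-- the majorant -/
noncomputable def gc4W (ς : ℤ) (s : ℝ) : ℝ :=
  Real.exp (-s) * (1 + 2 * |Real.log s| + |Real.log (|s - ς|)|) ^ 2

theorem gc4W_nonneg (ς : ℤ) (s : ℝ) : 0 ≤ gc4W ς s := by
  unfold gc4W
  positivity

theorem gc4_log {x : ℝ} (hx : 0 < x) (hx3 : x ≤ 3) :
    |Real.log x| ^ 2 ≤ 1100 * (1 + x ^ (-(1 / 2) : ℝ)) := by
  have h := Pool.Agent.LK.kd3_log_sq hx
  have h0 := abs_nonneg (Real.log x)
  have e1 : x ^ (1 / 4 : ℝ) ≤ 3 := by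
    calc x ^ (1 / 4 : ℝ) ≤ 3 ^ (1 / 4 : ℝ) := Real.rpow_le_rpow hx.le hx3 (by norm_num)
      _ ≤ 3 ^ (1 : ℝ) := Real.rpow_le_rpow_of_exponent_le (by norm_num) (by norm_num)
      _ = 3 := Real.rpow_one _
  have hp : 0 ≤ x ^ (-(1 / 2) : ℝ) := Real.rpow_nonneg hx.le _
  have e2 : x ^ (-(1 / 4) : ℝ) ≤ 1 + x ^ (-(1 / 2) : ℝ) := by
    rcases le_total x 1 with h1 | h1
    · have : x ^ (-(1 / 4) : ℝ) ≤ x ^ (-(1 / 2) : ℝ) :=
        Real.rpow_le_rpow_of_exponent_ge hx h1 (by norm_num)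
      linarith
    · have : x ^ (-(1 / 4) : ℝ) ≤ 1 := Real.rpow_le_one_of_one_le_of_nonpos h1 (by norm_num)
      linarith
  nlinarith

theorem gc4W_meas (ς : ℤ) : Measurable (gc4W ς) := by
  unfold gc4W
  fun_prop

theorem gc4W_int {ς : ℤ} (hς : ς = 1 ∨ ς = -1) : IntegrableOn (gc4W ς) (Ioi 0) := by
  have hς1 : |(ς : ℝ)| = 1 := by rcases hς with rfl | rfl <;> simp
  have hle := (abs_le.1 hς1.le)
  have h1 : IntegrableOn (gc4W ς) (Ioc 0 2) := by
    have hb : IntegrableOn (fun s : ℝ => 20000 + 20000 * s ^ (-(1 / 2) : ℝ) +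
        20000 * |s - ς| ^ (-(1 / 2) : ℝ)) (Ioc 0 2) := by
      have i1 : IntegrableOn (fun _ : ℝ => (20000 : ℝ)) (Ioc 0 2) := by simp
      have i2 : Integrable (fun s : ℝ => 20000 * s ^ (-(1 / 2) : ℝ))
          (volume.restrict (Ioc 0 2)) :=
        (Pool.Agent.LK.kd3_int_rpow (r := -(1 / 2)) (by norm_num)).const_mul 20000
      have i3 : Integrable (fun s : ℝ => 20000 * |s - ς| ^ (-(1 / 2) : ℝ))
          (volume.restrict (Ioc 0 2)) := (Pool.Agent.LK.kd3_int_shift hς).const_mul 20000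
      exact (Integrable.add i1 i2).add i3
    refine Integrable.mono' hb (gc4W_meas ς).aestronglyMeasurable ?_
    have hne : ∀ᵐ s : ℝ ∂(volume.restrict (Ioc (0:ℝ) 2)), s ≠ (ς : ℝ) :=
      ae_restrict_of_ae (compl_mem_ae_iff.2 (measure_singleton (ς : ℝ)))
    filter_upwards [hne, ae_restrict_mem measurableSet_Ioc] with s hs1 hs2
    have hs0 : 0 < s := hs2.1
    have hd : 0 < |s - ς| := abs_pos.2 (sub_ne_zero.2 hs1)
    have hd3 : |s - ς| ≤ 3 := by
      rw [abs_le]
      constructor <;> linarith [hs2.1, hs2.2, hle.1, hle.2]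
    have l1 := gc4_log hs0 (by linarith [hs2.2])
    have l2 := gc4_log hd hd3
    rw [Real.norm_of_nonneg (gc4W_nonneg ς s)]
    unfold gc4W
    have e1 : Real.exp (-s) ≤ 1 := Real.exp_le_one_iff.2 (by linarith)
    have p1 : 0 ≤ s ^ (-(1 / 2) : ℝ) := Real.rpow_nonneg hs0.le _
    have p2 : 0 ≤ |s - ς| ^ (-(1 / 2) : ℝ) := Real.rpow_nonneg hd.le _
    have e2 : (1 + 2 * |Real.log s| + |Real.log (|s - ς|)|) ^ 2 ≤
        3 * (1 + 4 * |Real.log s| ^ 2 + |Real.log (|s - ς|)| ^ 2) := by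
      nlinarith [sq_nonneg (1 - 2 * |Real.log s|), sq_nonneg (1 - |Real.log (|s - ς|)|),
        sq_nonneg (2 * |Real.log s| - |Real.log (|s - ς|)|)]
    calc Real.exp (-s) * (1 + 2 * |Real.log s| + |Real.log (|s - ς|)|) ^ 2 ≤
        1 * (3 * (1 + 4 * |Real.log s| ^ 2 + |Real.log (|s - ς|)| ^ 2)) :=
          mul_le_mul e1 e2 (by positivity) zero_le_one
      _ ≤ _ := by nlinarith
  have h2 : IntegrableOn (gc4W ς) (Ioi 2) := by
    have hg := (Real.GammaIntegral_convergent (s := 3) (by norm_num)).mono_set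
      (Ioi_subset_Ioi (by norm_num : (0:ℝ) ≤ 2))
    refine Integrable.mono' (hg.const_mul 16) (gc4W_meas ς).aestronglyMeasurable ?_
    filter_upwards [ae_restrict_mem measurableSet_Ioi] with s hs
    have hs2 : (2 : ℝ) < s := hs
    rw [Real.norm_of_nonneg (gc4W_nonneg ς s)]
    unfold gc4W
    have e1 : |Real.log s| ≤ s := by
      rw [abs_of_nonneg (Real.log_nonneg (by linarith))]
      linarith [Real.log_le_sub_one_of_pos (by linarith : (0:ℝ) < s)]
    have e2 : |Real.log (|s - ς|)| ≤ s := by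
      have hd : |s - ς| = s - ς := abs_of_pos (by linarith [hle.1, hle.2])
      rw [hd, abs_of_nonneg (Real.log_nonneg (by linarith [hle.1, hle.2]))]
      linarith [Real.log_le_sub_one_of_pos (by linarith [hle.2] : (0:ℝ) < s - ς), hle.1]
    have e3 : (1 + 2 * |Real.log s| + |Real.log (|s - ς|)|) ^ 2 ≤ (4 * s) ^ 2 :=
      pow_le_pow_left₀ (by positivity) (by linarith) 2
    have e4 : s ^ ((3 : ℝ) - 1) = s ^ 2 := by
      rw [← Real.rpow_natCast]
      norm_num
    rw [e4]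
    calc Real.exp (-s) * (1 + 2 * |Real.log s| + |Real.log (|s - ς|)|) ^ 2 ≤
        Real.exp (-s) * (4 * s) ^ 2 := mul_le_mul_of_nonneg_left e3 (Real.exp_pos _).le
      _ = 16 * (Real.exp (-s) * s ^ 2) := by ring
  have := h1.union h2
  rwa [Ioc_union_Ioi_eq_Ioi (by norm_num)] at this

theorem gc4W_bd : ∃ K : ℝ, 1 ≤ K ∧ ∀ ς : ℤ, (ς = 1 ∨ ς = -1) →
    ∫ s in Ioi (0 : ℝ), gc4W ς s ≤ K := by
  refine ⟨max 1 (max (∫ s in Ioi (0 : ℝ), gc4W 1 s) (∫ s in Ioi (0 : ℝ), gc4W (-1) s)),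
    le_max_left _ _, ?_⟩
  rintro ς (rfl | rfl)
  · exact (le_max_left _ _).trans (le_max_right _ _)
  · exact (le_max_right _ _).trans (le_max_right _ _)

/-! ### one integral -/

theorem gc4_one {G v : ℝ → ℝ} {U c : ℝ} (hG : GOK G U c)
    (hv : ∀ y : ℝ, 1 ≤ y → 0 ≤ v y ∧ v y ≤ Real.exp (-(2 * Real.pi * y)))
    {K : ℝ} (hK : ∀ ς : ℤ, (ς = 1 ∨ ς = -1) → ∫ s in Ioi (0 : ℝ), gc4W ς s ≤ K)
    {j b Y gn : ℝ} (hj : 0 < j) (hb : 0 < b) (hY : 0 < Y) {ς : ℤ} (hς : ς = 1 ∨ ς = -1)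
    (hgn : 1 ≤ gn) (m : ℝ) {y0 : ℝ} (hy0 : 1 ≤ y0) (hy : y0 * U * (b * Y) = j * gn) :
    |∫ a in Ioi (0 : ℝ), v (j * a / Y) / a * G (ς * gn / (a * b)) *
        (Real.log |a * b - ς * gn| + m)| ≤
      U * c * Real.exp (-(3 * y0)) * (1 + Real.log gn + |m|) * K := by
  have hU := hG.one_le
  have hc := hG.one_le'
  have hς1 : |(ς : ℝ)| = 1 := by rcases hς with rfl | rfl <;> simp
  have hς0 : (ς : ℝ) ≠ 0 := by
    intro h
    rw [h, abs_zero] at hς1
    norm_num at hς1
  have hgn0 : 0 < gn := by linarith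
  set lam : ℝ := gn / b with hlam
  have hlam0 : 0 < lam := by positivity
  have hL : 0 ≤ Real.log gn := Real.log_nonneg hgn
  set F : ℝ → ℝ := fun a => v (j * a / Y) / a * G (ς * gn / (a * b)) *
        (Real.log |a * b - ς * gn| + m) with hF
  have hsub : ∫ a in Ioi (0 : ℝ), F a = ∫ s in Ioi (0 : ℝ), lam * F (lam * s) := by
    have h1 := integral_comp_mul_left_Ioi F 0 hlam0
    rw [mul_zero, smul_eq_mul] at h1
    rw [integral_const_mul, h1, ← mul_assoc, mul_inv_cancel₀ hlam0.ne', one_mul]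
  set Bd : ℝ := U * c * Real.exp (-(3 * y0)) * (1 + Real.log gn + |m|) with hBd
  have hBd0 : 0 ≤ Bd := by positivity
  have hpt : ∀ᵐ s : ℝ ∂(volume.restrict (Ioi (0:ℝ))), ‖lam * F (lam * s)‖ ≤ Bd * gc4W ς s := by
    have hne : ∀ᵐ s : ℝ ∂(volume.restrict (Ioi (0:ℝ))), s ≠ (ς : ℝ) :=
      ae_restrict_of_ae (compl_mem_ae_iff.2 (measure_singleton (ς : ℝ)))
    filter_upwards [hne, ae_restrict_mem measurableSet_Ioi] with s hs1 hs2
    have hs0 : 0 < s := hs2
    have ea : (ς : ℝ) * gn / (lam * s * b) = ς / s := by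
      rw [hlam]
      field_simp
    have eb : lam * s * b - ς * gn = gn * (s - ς) := by
      rw [hlam]
      field_simp
    have ec : j * (lam * s) / Y = y0 * U * s := by
      have : y0 * U = j * gn / (b * Y) := by
        rw [eq_div_iff (by positivity)]
        exact hy
      rw [this, hlam]
      field_simp
    have hFs : lam * F (lam * s) = v (y0 * U * s) / s * G (ς / s) *
        (Real.log (|gn * (s - ς)|) + m) := by
      rw [hF]
      simp only
      rw [ea, eb, ec]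
      field_simp
    rw [hFs]
    have habs : |(ς : ℝ) / s| = 1 / s := by rw [abs_div, hς1, abs_of_pos hs0]
    by_cases hcase : U < |(ς : ℝ) / s|
    · rw [hG.supp _ hcase]
      simp only [mul_zero, zero_mul, norm_zero]
      exact mul_nonneg hBd0 (gc4W_nonneg ς s)
    · push Not at hcase
      rw [habs, div_le_iff₀ hs0] at hcase
      have hsd : s - ς ≠ 0 := sub_ne_zero.2 hs1
      have hd : 0 < |s - ς| := abs_pos.2 hsd
      have hu1 : (ς : ℝ) / s ≠ 1 := by
        intro h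
        rw [div_eq_one_iff_eq hs0.ne'] at h
        exact hs1 h.symm
      have hbd := hG.bd _ (div_ne_zero hς0 hs0.ne') hu1
      have e1 : |Real.log (|(ς : ℝ) / s|)| = |Real.log s| := by
        rw [habs, one_div, Real.log_inv, abs_neg]
      have e2 : |Real.log (|1 - (ς : ℝ) / s|)| ≤ |Real.log (|s - ς|)| + |Real.log s| := by
        have : |1 - (ς : ℝ) / s| = |s - ς| / s := by
          have h3 : 1 - (ς : ℝ) / s = (s - ς) / s := by field_simp
          rw [h3, abs_div, abs_of_pos hs0]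
        rw [this, Real.log_div hd.ne' hs0.ne']
        exact abs_sub _ _
      have hGb : |G (ς / s)| ≤ c * (1 + 2 * |Real.log s| + |Real.log (|s - ς|)|) := by
        refine hbd.trans (mul_le_mul_of_nonneg_left ?_ (by linarith))
        rw [e1]
        linarith
      have hlog : |Real.log (|gn * (s - ς)|) + m| ≤
          (1 + Real.log gn + |m|) * (1 + 2 * |Real.log s| + |Real.log (|s - ς|)|) := by
        rw [abs_mul, abs_of_pos hgn0, Real.log_mul hgn0.ne' hd.ne']
        have h3 : |Real.log gn + Real.log (|s - ς|) + m| ≤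
            Real.log gn + |Real.log (|s - ς|)| + |m| := by
          refine (abs_add_le _ _).trans ?_
          have := abs_add_le (Real.log gn) (Real.log (|s - ς|))
          rw [abs_of_nonneg hL] at this
          linarith
        have a1 := abs_nonneg (Real.log s)
        have a2 := abs_nonneg (Real.log (|s - ς|))
        have a3 := abs_nonneg m
        have a4 := mul_nonneg hL a1
        have a5 := mul_nonneg hL a2
        have a6 := mul_nonneg a3 a1
        have a7 := mul_nonneg a3 a2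
        refine h3.trans ?_
        have a8 : (1 + Real.log gn + |m|) * (1 + 2 * |Real.log s| + |Real.log (|s - ς|)|) =
            1 + 2 * |Real.log s| + |Real.log (|s - ς|)| + Real.log gn +
            2 * (Real.log gn * |Real.log s|) + Real.log gn * |Real.log (|s - ς|)| + |m| +
            2 * (|m| * |Real.log s|) + |m| * |Real.log (|s - ς|)| := by ring
        rw [a8]
        linarith
      have hUs : 1 ≤ y0 * U * s := by
        calc (1 : ℝ) ≤ y0 * (U * s) := one_le_mul_of_one_le_of_one_le hy0 hcase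
          _ = y0 * U * s := by ring
      obtain ⟨v0, v1⟩ := hv _ hUs
      have hvb : v (y0 * U * s) ≤ Real.exp (-(3 * y0)) * Real.exp (-s) := by
        refine v1.trans ?_
        rw [← Real.exp_add]
        refine Real.exp_le_exp.2 ?_
        have hpi := Real.pi_gt_three
        have h4 : y0 ≤ y0 * U * s := by
          calc y0 = y0 * 1 := (mul_one _).symm
            _ ≤ y0 * (U * s) := mul_le_mul_of_nonneg_left hcase (by linarith)
            _ = y0 * U * s := by ring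
        have h5 : s ≤ y0 * U * s :=
          le_mul_of_one_le_left hs0.le (one_le_mul_of_one_le_of_one_le hy0 hU)
        have h6 : 0 < y0 * U * s := by linarith
        have h7 : 3 * (y0 * U * s) ≤ Real.pi * (y0 * U * s) :=
          mul_le_mul_of_nonneg_right hpi.le h6.le
        linarith
      have hinv : 1 / s ≤ U := by
        rw [div_le_iff₀ hs0]
        exact hcase
      rw [Real.norm_eq_abs, abs_mul, abs_mul, abs_div, abs_of_pos hs0, abs_of_nonneg v0]
      have t1 : v (y0 * U * s) / s ≤ Real.exp (-(3 * y0)) * Real.exp (-s) * U := by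
        rw [div_eq_mul_one_div]
        exact mul_le_mul hvb hinv (by positivity) (by positivity)
      have t2 : v (y0 * U * s) / s * |G (ς / s)| ≤
          Real.exp (-(3 * y0)) * Real.exp (-s) * U *
            (c * (1 + 2 * |Real.log s| + |Real.log (|s - ς|)|)) :=
        mul_le_mul t1 hGb (abs_nonneg _) (by positivity)
      refine (mul_le_mul t2 hlog (abs_nonneg _) (by positivity)).trans (le_of_eq ?_)
      rw [hBd]
      unfold gc4W
      ring
  rw [hsub, ← Real.norm_eq_abs]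
  refine (norm_integral_le_of_norm_le ((gc4W_int hς).const_mul Bd) hpt).trans ?_
  rw [integral_const_mul]
  exact mul_le_mul_of_nonneg_left (hK ς hς) hBd0

/-! ### the divisor sums -/

/-- the double sum over the divisors -/
noncomputable def gc4D {q : ℕ} (χ : DirichletCharacter ℂ q) (N b : ℕ) (g : ℤ)
    (F : ℕ → ℕ → ℂ) : ℂ :=
  χ N / q * ∑ k ∈ b.divisors.filter (fun k : ℕ => (k : ℤ) ∣ g),
    χ ((g / (k : ℤ) : ℤ)) * χ ((b / k : ℕ)) *
    ∑ l ∈ (b / k).divisors, (ArithmeticFunction.moebius l : ℂ) / l * F k l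

theorem gc4D_le {q : ℕ} [NeZero q] (χ : DirichletCharacter ℂ q) (N : ℕ) {b : ℕ} (hb : 1 ≤ b)
    (g : ℤ) {F : ℕ → ℕ → ℂ} {δ : ℝ} (hδ : 0 ≤ δ)
    (hF : ∀ k l : ℕ, 1 ≤ k → 1 ≤ l → k * l ∣ b → ‖F k l‖ ≤ δ) :
    ‖gc4D χ N b g F‖ ≤ (b : ℝ) ^ 2 * δ := by
  have hq : (1 : ℝ) ≤ q := by exact_mod_cast NeZero.one_le (n := q)
  have hcard : ∀ k : ℕ, k ∣ b → ((b / k).divisors.card : ℝ) ≤ b := by
    intro k _
    exact_mod_cast (Nat.card_divisors_le_self _).trans (Nat.div_le_self _ _)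
  unfold gc4D
  rw [norm_mul]
  have h1 : ‖χ N / q‖ ≤ 1 := by
    rw [norm_div, Complex.norm_natCast]
    exact (div_le_one (by linarith)).2 ((DirichletCharacter.norm_le_one χ _).trans hq)
  have h2 : ∀ k ∈ b.divisors.filter (fun k : ℕ => (k : ℤ) ∣ g),
      ‖χ ((g / (k : ℤ) : ℤ)) * χ ((b / k : ℕ)) *
      ∑ l ∈ (b / k).divisors, (ArithmeticFunction.moebius l : ℂ) / l * F k l‖ ≤ b * δ := by
    intro k hk
    have hkb : k ∣ b := Nat.dvd_of_mem_divisors (Finset.mem_filter.1 hk).1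
    have hk1 : 1 ≤ k := Nat.pos_of_dvd_of_pos hkb hb
    have h3 : ‖∑ l ∈ (b / k).divisors, (ArithmeticFunction.moebius l : ℂ) / l * F k l‖ ≤
        b * δ := by
      refine (norm_sum_le_of_le (n := fun _ => δ) _ fun l hl => ?_).trans ?_
      · have hl1 : 1 ≤ l := Nat.pos_of_mem_divisors hl
        have hkl : k * l ∣ b := by
          obtain ⟨c, hc⟩ := Nat.dvd_of_mem_divisors hl
          refine ⟨c, ?_⟩
          calc b = k * (b / k) := (Nat.mul_div_cancel' hkb).symm
            _ = k * l * c := by rw [hc]; ring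
        rw [norm_mul]
        refine (mul_le_of_le_one_left (norm_nonneg _) ?_).trans (hF k l hk1 hl1 hkl)
        rw [norm_div, Complex.norm_intCast, Complex.norm_natCast]
        have m1 : |((ArithmeticFunction.moebius l : ℤ) : ℝ)| ≤ 1 := by
          exact_mod_cast ArithmeticFunction.abs_moebius_le_one
        have hl' : (1 : ℝ) ≤ l := by exact_mod_cast hl1
        exact (div_le_one (by linarith)).2 (m1.trans hl')
      · rw [Finset.sum_const, nsmul_eq_mul]
        exact mul_le_mul_of_nonneg_right (hcard k hkb) hδ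
    rw [norm_mul, norm_mul]
    refine (mul_le_of_le_one_left (norm_nonneg _) ?_).trans h3
    exact mul_le_one₀ (DirichletCharacter.norm_le_one χ _) (norm_nonneg _)
      (DirichletCharacter.norm_le_one χ _)
  have h4 := norm_sum_le_of_le _ h2
  have h5 : ∑ _k ∈ b.divisors.filter (fun k : ℕ => (k : ℤ) ∣ g), b * δ ≤ b * (b * δ) := by
    rw [Finset.sum_const, nsmul_eq_mul]
    refine mul_le_mul_of_nonneg_right ?_ (by positivity)
    exact_mod_cast (Finset.card_le_card (Finset.filter_subset _ _)).trans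
      (Nat.card_divisors_le_self _)
  calc ‖χ N / q‖ * _ ≤ 1 * (b * (b * δ)) :=
        mul_le_mul h1 (h4.trans h5) (norm_nonneg _) zero_le_one
    _ = (b : ℝ) ^ 2 * δ := by ring

theorem gc4_MT {q : ℕ} [NeZero q] (ρ : ℝ → ℝ) (χ : DirichletCharacter ℂ q) (N : ℕ) (w : ℝ → ℝ)
    (j b : ℕ) (g : ℤ) : MT ρ χ N w j b g = gc4D χ N b g (fun k l =>
      ((∫ a in Ioi (0 : ℝ), w (j * a) / a * GG ρ (g * N / (a * b)) *
        (Real.log |a * b - g * N| + 2 * Real.eulerMascheroniConstant -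
          2 * Real.log (q * k * l)) : ℝ) : ℂ)) := rfl

/-! ### large parameters -/

theorem gc4_large (K : ℝ) {ε : ℝ} (hε : 0 < ε) : ∃ N₀ : ℕ, ∀ N : ℕ, N₀ ≤ N → K ≤ (N : ℝ) ^ ε := by
  have h1 : Filter.Tendsto (fun N : ℕ => (N : ℝ) ^ ε) Filter.atTop Filter.atTop :=
    (tendsto_rpow_atTop hε).comp tendsto_natCast_atTop_atTop
  exact Filter.eventually_atTop.1 (h1.eventually_ge_atTop K)

theorem gc4_exp (K : ℝ) {ε : ℝ} (hε : 0 < ε) : ∃ N₀ : ℕ, ∀ N : ℕ, N₀ ≤ N →
    K * (N : ℝ) ^ 5 ≤ Real.exp ((N : ℝ) ^ ε) := by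
  set m : ℕ := ⌈6 / ε⌉₊ with hm
  have hmε : 6 ≤ ε * m := by
    have := Nat.le_ceil (6 / ε)
    rw [div_le_iff₀ hε] at this
    rw [mul_comm]
    exact this
  refine ⟨max 1 ⌈K * m.factorial⌉₊, fun N hN => ?_⟩
  have hN1 : (1 : ℝ) ≤ N := by exact_mod_cast (le_max_left _ _).trans hN
  have hNK : K * m.factorial ≤ N :=
    (Nat.le_ceil _).trans (by exact_mod_cast (le_max_right _ _).trans hN)
  have h1 := Real.pow_div_factorial_le_exp ((N : ℝ) ^ ε) (by positivity) m
  refine le_trans ?_ h1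
  have hf : (0 : ℝ) < m.factorial := by exact_mod_cast Nat.factorial_pos m
  rw [le_div_iff₀ hf, ← Real.rpow_natCast ((N : ℝ) ^ ε), ← Real.rpow_mul (by linarith)]
  calc K * (N : ℝ) ^ 5 * m.factorial = (K * m.factorial) * (N : ℝ) ^ 5 := by ring
    _ ≤ N * (N : ℝ) ^ 5 := mul_le_mul_of_nonneg_right hNK (by positivity)
    _ = (N : ℝ) ^ (6 : ℝ) := by
        rw [← Real.rpow_natCast, ← Real.rpow_one_add' (by linarith) (by norm_num)]
        norm_num
    _ ≤ (N : ℝ) ^ (ε * m) := Real.rpow_le_rpow_of_exponent_le hN1 hmε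

/-- block GC4 (uses v_facts_pr, LK.gok_unif_pr): the pairs without terms -/
theorem g_large_pr (i : ℕ) {ν : ℝ} (h0 : 0 < ν) (h1 : ν ≤ 1 / 10 ^ 6) : ∃ N₀ : ℕ, ∀ N : ℕ,
    N₀ ≤ N → ∀ (q : ℕ) [NeZero q] (χ : DirichletCharacter ℂ q), ∀ (Y : ℝ) (A : ℕ),
    Par ν N q Y A → ∀ ρ : ℝ → ℝ, KerC ((N : ℝ) ^ ν) ρ → ∀ E : ℕ, ∀ j b : ℕ, 1 ≤ j →
    1 ≤ b → (j : ℝ) * b ≤ (N : ℝ) ^ (1 / 2 + ν / 10) → ∀ g : ℤ, g ≠ 0 → ¬ Sm ν N Y j b g →
    Sa χ i ρ N Y A E j b g = 0 ∧
    ‖MT ρ χ N (fun y => V i (y / Y)) j b g‖ ≤ (N : ℝ) ^ (-(15 * ν)) / |(g : ℝ)| ^ 3 := by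
  obtain ⟨C, hC⟩ := Pool.Agent.LK.gok_unif_pr
  obtain ⟨K0, hK0, hK0'⟩ := gc4W_bd
  obtain ⟨Cv, -, hv1, hv2, -⟩ := v_facts_pr i
  obtain ⟨N1, H1⟩ := gc4_large 4 h0
  obtain ⟨N2, H2⟩ := gc4_exp (384 * |C| * K0) (ε := ν / 50) (by positivity)
  refine ⟨max (max N1 N2) 3, ?_⟩
  intro N hN q _ χ Y A hP ρ hρ E j b hj hb hjb g hg hS
  simp only [max_le_iff] at hN
  obtain ⟨⟨n1, n2⟩, n3⟩ := hN
  have hN1 : (1 : ℝ) ≤ N := by exact_mod_cast (by omega : 1 ≤ N)
  have hN0 : (0 : ℝ) < N := by linarith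
  have hb1 : (1 : ℝ) ≤ b := by exact_mod_cast hb
  have hj1 : (1 : ℝ) ≤ j := by exact_mod_cast hj
  have hq1 : (1 : ℝ) ≤ q := by exact_mod_cast NeZero.one_le (n := q)
  have hν : ν ≤ 1 / 1000000 := by
    norm_num at h1
    linarith
  set T : ℝ := (N : ℝ) ^ ν with hT
  have hT4 : 4 ≤ T := H1 N n1
  obtain ⟨-, hGK⟩ := hC T hT4 ρ hρ
  set U : ℝ := 1 + T ^ 2 with hU
  have hU1 : 1 ≤ U := by rw [hU]; nlinarith
  have hY0 : 0 < Y := by
    rw [hP.Y_eq]
    have := Real.sqrt_pos.2 hN0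
    positivity
  have hpow0 : 0 < (N : ℝ) ^ (ν / 50) := Real.rpow_pos_of_pos hN0 _
  have hpow1 : 1 ≤ (N : ℝ) ^ (ν / 50) := Real.one_le_rpow hN1 (by positivity)
  have hg1 : (1 : ℝ) ≤ |(g : ℝ)| := by
    have := Int.one_le_abs hg
    exact_mod_cast this
  unfold Sm at hS
  push Not at hS
  rw [← hT, ← hU] at hS
  constructor
  · -- no terms
    unfold Sa
    refine Finset.sum_eq_zero fun a ha => ?_
    unfold xv
    by_cases hA : 1 ≤ j * a ∧ j * a ≤ A
    swap
    · rw [if_neg hA]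
      simp
    have ha1 : (1 : ℝ) ≤ a := by exact_mod_cast (Finset.mem_Icc.1 ha).1
    have hjaA : (j : ℝ) * a ≤ A := by exact_mod_cast hA.2
    have hjaY : (j : ℝ) * a ≤ Y * (N : ℝ) ^ (ν / 50) := hjaA.trans hP.A_le
    have hlarge : U < |(g : ℝ) * N / ((a * b : ℕ) : ℝ)| := by
      push_cast
      rw [abs_div, abs_mul, abs_of_pos hN0, abs_of_pos (by positivity : (0:ℝ) < a * b),
        lt_div_iff₀ (by positivity)]
      have e1 : 2 * ((j : ℝ) * a) * (b * U) ≤ j * |(g : ℝ)| * N := by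
        calc 2 * ((j : ℝ) * a) * (b * U) ≤ 2 * (Y * (N : ℝ) ^ (ν / 50)) * (b * U) :=
              mul_le_mul_of_nonneg_right (by linarith) (by positivity)
          _ = 2 * (N : ℝ) ^ (ν / 50) * (b * Y * U) := by ring
          _ ≤ _ := hS
      have e2 : (j : ℝ) * (2 * (U * (a * b))) ≤ j * (|(g : ℝ)| * N) := by linarith
      have e3 := le_of_mul_le_mul_left e2 (by linarith)
      have e4 : 0 < U * (a * b) := by positivity
      linarith
    rw [hGK.supp _ hlarge, mul_zero, mul_zero]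
  · -- the main term
    obtain ⟨ς, hς', hgς⟩ : ∃ ς : ℤ, (ς = 1 ∨ ς = -1) ∧ (g : ℝ) = ς * |(g : ℝ)| := by
      rcases lt_or_gt_of_ne hg with h | h
      · refine ⟨-1, Or.inr rfl, ?_⟩
        rw [abs_of_neg (by exact_mod_cast h)]
        push_cast
        ring
      · refine ⟨1, Or.inl rfl, ?_⟩
        rw [abs_of_pos (by exact_mod_cast h)]
        push_cast
        ring
    set gn : ℝ := |(g : ℝ)| * N with hgn
    have hgn1 : 1 ≤ gn := one_le_mul_of_one_le_of_one_le hg1 hN1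
    set y0 : ℝ := j * gn / (U * (b * Y)) with hy0
    have hden : 0 < U * (b * Y) := by positivity
    have hy0U : y0 * U * (b * Y) = j * gn := by
      rw [hy0]
      field_simp
    have hy0a : 2 * (N : ℝ) ^ (ν / 50) ≤ y0 := by
      rw [hy0, le_div_iff₀ hden]
      calc 2 * (N : ℝ) ^ (ν / 50) * (U * (b * Y)) = 2 * (N : ℝ) ^ (ν / 50) * (b * Y * U) := by ring
        _ ≤ j * |(g : ℝ)| * N := hS
        _ = j * gn := by rw [hgn]; ring
    have hy01 : 1 ≤ y0 := by linarith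
    have hbN : (b : ℝ) ≤ N := by
      have h2 : (b : ℝ) ≤ j * b := le_mul_of_one_le_left (by linarith) hj1
      refine (h2.trans hjb).trans ?_
      calc (N : ℝ) ^ (1 / 2 + ν / 10) ≤ (N : ℝ) ^ (1 : ℝ) :=
            Real.rpow_le_rpow_of_exponent_le hN1 (by linarith)
        _ = N := Real.rpow_one _
    have hqN : (q : ℝ) ≤ N := by
      refine hP.q_le.trans ?_
      calc (N : ℝ) ^ (ν / 100) ≤ (N : ℝ) ^ (1 : ℝ) :=
            Real.rpow_le_rpow_of_exponent_le hN1 (by linarith)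
        _ = N := Real.rpow_one _
    have hm : ∀ k l : ℕ, 1 ≤ k → 1 ≤ l → k * l ∣ b →
        |2 * Real.eulerMascheroniConstant - 2 * Real.log (q * k * l)| ≤ 6 * N := by
      intro k l hk hl hkl
      have hk1 : (1 : ℝ) ≤ k := by exact_mod_cast hk
      have hl1 : (1 : ℝ) ≤ l := by exact_mod_cast hl
      have hklb : (k : ℝ) * l ≤ b := by exact_mod_cast Nat.le_of_dvd (by omega) hkl
      have e1 : 0 ≤ Real.log (q * k * l) := Real.log_nonneg
        (one_le_mul_of_one_le_of_one_le (one_le_mul_of_one_le_of_one_le hq1 hk1) hl1)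
      have e2 : Real.log (q * k * l) ≤ 2 * Real.log N := by
        calc Real.log (q * k * l) ≤ Real.log (N * N) := by
              refine Real.log_le_log (by positivity) ?_
              calc (q : ℝ) * k * l = q * (k * l) := by ring
                _ ≤ N * N := mul_le_mul hqN (hklb.trans hbN) (by positivity) (by linarith)
          _ = 2 * Real.log N := by rw [Real.log_mul hN0.ne' hN0.ne']; ring
      have e3 := Real.eulerMascheroniConstant_lt_two_thirds
      have e4 := Real.one_half_lt_eulerMascheroniConstant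
      have e5 := Real.log_le_sub_one_of_pos hN0
      rw [abs_le]
      constructor <;> linarith
    -- bound of the integrals
    set δ : ℝ := U * (C * T ^ 30) * Real.exp (-(3 * y0)) * (1 + gn + 6 * N) * K0 with hδ
    have hc1 : 1 ≤ C * T ^ 30 := hGK.one_le'
    have hδ0 : 0 ≤ δ := by
      have : 0 ≤ 1 + gn + 6 * N := by linarith
      rw [hδ]
      have := (Real.exp_pos (-(3 * y0))).le
      positivity
    have hMT : ‖MT ρ χ N (fun y => V i (y / Y)) j b g‖ ≤ (b : ℝ) ^ 2 * δ := by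
      rw [gc4_MT]
      refine gc4D_le χ N hb g hδ0 fun k l hk hl hkl => ?_
      rw [Complex.norm_real, Real.norm_eq_abs]
      have h2 := gc4_one (v := V i) hGK (fun y hy => ⟨(hv1 y (by linarith)).1, hv2 y hy⟩) hK0'
        (j := j) (b := b) (Y := Y) (gn := gn) (by linarith) (by linarith) hY0 hς' hgn1
        (2 * Real.eulerMascheroniConstant - 2 * Real.log (q * k * l)) hy01 hy0U
      have e : (∫ a in Ioi (0 : ℝ), V i (j * a / Y) / a * GG ρ (g * N / (a * b)) *
        (Real.log |a * b - g * N| + 2 * Real.eulerMascheroniConstant -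
          2 * Real.log (q * k * l))) = ∫ a in Ioi (0 : ℝ), V i (j * a / Y) / a *
          GG ρ (ς * gn / (a * b)) * (Real.log |a * b - ς * gn| +
            (2 * Real.eulerMascheroniConstant - 2 * Real.log (q * k * l))) := by
        refine integral_congr_ae (Filter.Eventually.of_forall fun a => ?_)
        simp only
        have e1 : (g : ℝ) * N = ς * gn := by
          rw [hgn, ← mul_assoc, ← hgς]
        rw [add_sub_assoc, e1]
      rw [e]
      refine h2.trans ?_
      rw [hδ]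
      refine mul_le_mul_of_nonneg_right (mul_le_mul_of_nonneg_left ?_ ?_) (by linarith)
      · have e5 := Real.log_le_sub_one_of_pos (by linarith : (0:ℝ) < gn)
        have := hm k l hk hl hkl
        linarith
      · have := (Real.exp_pos (-(3 * y0))).le
        positivity
    refine hMT.trans ?_
    -- numerics
    have hCpos : 0 < C := by
      have : 0 < C * T ^ 30 := by linarith
      exact pos_of_mul_pos_left this (by positivity)
    have hCabs : |C| = C := abs_of_pos hCpos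
    have hT2 : T ^ 2 = (N : ℝ) ^ (2 * ν) := by
      rw [hT, ← Real.rpow_natCast, ← Real.rpow_mul hN0.le]
      congr 1
      push_cast
      ring
    have hT30 : T ^ 30 = (N : ℝ) ^ (30 * ν) := by
      rw [hT, ← Real.rpow_natCast, ← Real.rpow_mul hN0.le]
      congr 1
      push_cast
      ring
    have hU2 : U ≤ 2 * (N : ℝ) ^ (2 * ν) := by
      rw [← hT2, hU]
      nlinarith
    have hy0b : |(g : ℝ)| * (N : ℝ) ^ (-(211 / 100 * ν)) ≤ 2 * y0 := by
      have e1 : U * (b * Y) ≤ 2 * (N : ℝ) ^ (1 + 211 / 100 * ν) := by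
        have e2 : (b : ℝ) ≤ (N : ℝ) ^ (1 / 2 + ν / 10) :=
          (le_mul_of_one_le_left (by linarith) hj1).trans hjb
        have e3 : Y ≤ (N : ℝ) ^ (1 / 2 + ν / 100) := by
          rw [hP.Y_eq, Real.sqrt_eq_rpow, add_comm (1 / 2 : ℝ) (ν / 100), Real.rpow_add hN0]
          exact mul_le_mul_of_nonneg_right hP.q_le (Real.rpow_nonneg hN0.le _)
        calc U * (b * Y) ≤ (2 * (N : ℝ) ^ (2 * ν)) *
              ((N : ℝ) ^ (1 / 2 + ν / 10) * (N : ℝ) ^ (1 / 2 + ν / 100)) := by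
              refine mul_le_mul hU2 (mul_le_mul e2 e3 hY0.le (Real.rpow_nonneg hN0.le _))
                (by positivity) (by positivity)
          _ = 2 * (N : ℝ) ^ (1 + 211 / 100 * ν) := by
              rw [mul_assoc, ← Real.rpow_add hN0, ← Real.rpow_add hN0]
              congr 2
              ring
      have e4 : gn ≤ y0 * (U * (b * Y)) := by
        calc gn ≤ j * gn := le_mul_of_one_le_left (by linarith) hj1
          _ = y0 * (U * (b * Y)) := by rw [← hy0U]; ring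
      have e5 : gn ≤ y0 * (2 * (N : ℝ) ^ (1 + 211 / 100 * ν)) :=
        e4.trans (mul_le_mul_of_nonneg_left e1 (by linarith))
      have e6 : |(g : ℝ)| * (N : ℝ) ^ (-(211 / 100 * ν)) = gn * (N : ℝ) ^ (-(1 + 211 / 100 * ν)) := by
        rw [hgn, mul_assoc, show -(1 + 211 / 100 * ν) = -1 + -(211 / 100 * ν) by ring,
          Real.rpow_add hN0, Real.rpow_neg_one, ← mul_assoc (N : ℝ), mul_inv_cancel₀ hN0.ne',
          one_mul]
      rw [e6]
      calc gn * (N : ℝ) ^ (-(1 + 211 / 100 * ν)) ≤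
          y0 * (2 * (N : ℝ) ^ (1 + 211 / 100 * ν)) * (N : ℝ) ^ (-(1 + 211 / 100 * ν)) :=
            mul_le_mul_of_nonneg_right e5 (Real.rpow_nonneg hN0.le _)
        _ = 2 * y0 * ((N : ℝ) ^ (1 + 211 / 100 * ν) * (N : ℝ) ^ (-(1 + 211 / 100 * ν))) := by ring
        _ = 2 * y0 := by rw [← Real.rpow_add hN0, add_neg_cancel, Real.rpow_zero, mul_one]
    -- lower bound of the exponential
    have hexp : 16 * C * K0 * (N : ℝ) ^ 5 * (|(g : ℝ)| ^ 4 * (N : ℝ) ^ (-(844 / 100 * ν))) ≤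
        Real.exp (3 * y0) := by
      have e1 : 384 * C * K0 * (N : ℝ) ^ 5 ≤ Real.exp y0 := by
        have := H2 N n2
        rw [hCabs] at this
        exact this.trans (Real.exp_le_exp.2 (by linarith))
      have e2 : (|(g : ℝ)| ^ 4 * (N : ℝ) ^ (-(844 / 100 * ν))) / 24 ≤ Real.exp (2 * y0) := by
        have h3 := Real.pow_div_factorial_le_exp (2 * y0) (by linarith) 4
        have h4 : (4 : ℕ).factorial = 24 := rfl
        rw [h4] at h3
        refine le_trans ?_ h3
        push_cast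
        refine div_le_div_of_nonneg_right ?_ (by norm_num)
        calc |(g : ℝ)| ^ 4 * (N : ℝ) ^ (-(844 / 100 * ν)) =
            (|(g : ℝ)| * (N : ℝ) ^ (-(211 / 100 * ν))) ^ 4 := by
              rw [mul_pow, ← Real.rpow_natCast ((N : ℝ) ^ (-(211 / 100 * ν))),
                ← Real.rpow_mul hN0.le]
              congr 2
              push_cast
              ring
          _ ≤ (2 * y0) ^ 4 := pow_le_pow_left₀ (by positivity) hy0b 4
      have e3 : Real.exp (3 * y0) = Real.exp y0 * Real.exp (2 * y0) := by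
        rw [← Real.exp_add]
        congr 1
        ring
      rw [e3]
      calc 16 * C * K0 * (N : ℝ) ^ 5 * (|(g : ℝ)| ^ 4 * (N : ℝ) ^ (-(844 / 100 * ν))) =
          384 * C * K0 * (N : ℝ) ^ 5 * ((|(g : ℝ)| ^ 4 * (N : ℝ) ^ (-(844 / 100 * ν))) / 24) := by
            ring
        _ ≤ _ := mul_le_mul e1 e2 (by positivity) (Real.exp_pos _).le
    -- upper bound of `b² δ`
    have hub : (b : ℝ) ^ 2 * δ ≤ 16 * C * K0 * (N : ℝ) ^ 4 * |(g : ℝ)| * Real.exp (-(3 * y0)) := by
      have e1 : (b : ℝ) ^ 2 ≤ (N : ℝ) ^ 2 := pow_le_pow_left₀ (by linarith) hbN 2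
      have e2 : 1 + gn + 6 * N ≤ 8 * (|(g : ℝ)| * N) := by
        have : (N : ℝ) ≤ |(g : ℝ)| * N := le_mul_of_one_le_left hN0.le hg1
        rw [hgn] at hgn1 ⊢
        linarith
      have e3 : U * (C * T ^ 30) ≤ 2 * C * N := by
        calc U * (C * T ^ 30) ≤ (2 * (N : ℝ) ^ (2 * ν)) * (C * (N : ℝ) ^ (30 * ν)) := by
              rw [hT30]
              exact mul_le_mul_of_nonneg_right hU2 (by positivity)
          _ = 2 * C * ((N : ℝ) ^ (2 * ν) * (N : ℝ) ^ (30 * ν)) := by ring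
          _ = 2 * C * (N : ℝ) ^ (32 * ν) := by
              rw [← Real.rpow_add hN0]
              congr 2
              ring
          _ ≤ 2 * C * (N : ℝ) ^ (1 : ℝ) := by
              refine mul_le_mul_of_nonneg_left ?_ (by positivity)
              exact Real.rpow_le_rpow_of_exponent_le hN1 (by linarith)
          _ = 2 * C * N := by rw [Real.rpow_one]
      have e4 : δ ≤ 2 * C * N * Real.exp (-(3 * y0)) * (8 * (|(g : ℝ)| * N)) * K0 := by
        rw [hδ]
        have hex := (Real.exp_pos (-(3 * y0))).le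
        refine mul_le_mul_of_nonneg_right (mul_le_mul (mul_le_mul_of_nonneg_right e3 hex) e2
          (by linarith) (by positivity)) (by linarith)
      calc (b : ℝ) ^ 2 * δ ≤ (N : ℝ) ^ 2 *
            (2 * C * N * Real.exp (-(3 * y0)) * (8 * (|(g : ℝ)| * N)) * K0) :=
            mul_le_mul e1 e4 hδ0 (by positivity)
        _ = _ := by ring
    refine hub.trans ?_
    have hg4 : 0 < |(g : ℝ)| ^ 3 := by positivity
    rw [le_div_iff₀ hg4, Real.exp_neg]
    have hE := Real.exp_pos (3 * y0)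
    have key : 16 * C * K0 * (N : ℝ) ^ 4 * |(g : ℝ)| ^ 4 ≤
        (N : ℝ) ^ (-(15 * ν)) * Real.exp (3 * y0) := by
      have e1 : (N : ℝ) ^ 4 ≤ (N : ℝ) ^ (-(15 * ν)) * ((N : ℝ) ^ 5 *
          (N : ℝ) ^ (-(844 / 100 * ν))) := by
        rw [← Real.rpow_natCast (N : ℝ) 5, ← Real.rpow_natCast (N : ℝ) 4, ← Real.rpow_add hN0,
          ← Real.rpow_add hN0]
        refine Real.rpow_le_rpow_of_exponent_le hN1 ?_
        push_cast
        linarith
      calc 16 * C * K0 * (N : ℝ) ^ 4 * |(g : ℝ)| ^ 4 =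
          (16 * C * K0 * |(g : ℝ)| ^ 4) * (N : ℝ) ^ 4 := by ring
        _ ≤ (16 * C * K0 * |(g : ℝ)| ^ 4) * ((N : ℝ) ^ (-(15 * ν)) * ((N : ℝ) ^ 5 *
          (N : ℝ) ^ (-(844 / 100 * ν)))) := mul_le_mul_of_nonneg_left e1 (by positivity)
        _ = (N : ℝ) ^ (-(15 * ν)) * (16 * C * K0 * (N : ℝ) ^ 5 *
            (|(g : ℝ)| ^ 4 * (N : ℝ) ^ (-(844 / 100 * ν)))) := by ring
        _ ≤ _ := mul_le_mul_of_nonneg_left hexp (Real.rpow_nonneg hN0.le _)
    calc 16 * C * K0 * (N : ℝ) ^ 4 * |(g : ℝ)| * (Real.exp (3 * y0))⁻¹ * |(g : ℝ)| ^ 3 =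
        (16 * C * K0 * (N : ℝ) ^ 4 * |(g : ℝ)| ^ 4) * (Real.exp (3 * y0))⁻¹ := by ring
      _ ≤ (N : ℝ) ^ (-(15 * ν)) * Real.exp (3 * y0) * (Real.exp (3 * y0))⁻¹ :=
          mul_le_mul_of_nonneg_right key (inv_nonneg.2 hE.le)
      _ = (N : ℝ) ^ (-(15 * ν)) := by
          rw [mul_assoc, mul_inv_cancel₀ hE.ne', mul_one]

end Pool.Agent.LG

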