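import Pool.Agent.Lib_helper31.LG.Defs
import Pool.Agent.Lib_helper68.SEL.KA
import Pool.Agent.Lib_helper31.LGF.GC1
import Pool.Agent.Lib_helper31.LGF.GC2
import Pool.Agent.Lib_helper31.LGF.GC3
import Pool.Agent.Lib_helper31.LGF.GC4
import Pool.Agent.Lib_helper31.LGF.Ext

/-! LSP3, part G, block GC5: the off-diagonal sum. -/

set_option autoImplicit false

namespace Pool.Agent.LG

open Complex MeasureTheory Set ProbabilityTheory
open Pool.Agent.LSP (tau GG CC CB Gs sg1 QN sh OD)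
open Pool.Agent.LSPO (KK cl GOK)
open Pool.Agent.LK (KerC PQ V MT OM SH HH Qe hm)
open Pool.Agent.LE (xv HP SuppIn H2)
open Pool.Agent.LVB (IsST)

theorem gc5_large (K : ℝ) {ε : ℝ} (hε : 0 < ε) : ∃ N₀ : ℕ, ∀ N : ℕ, N₀ ≤ N → K ≤ (N : ℝ) ^ ε := by
  have h1 : Filter.Tendsto (fun N : ℕ => (N : ℝ) ^ ε) Filter.atTop Filter.atTop :=
    (tendsto_rpow_atTop hε).comp tendsto_natCast_atTop_atTop
  exact Filter.eventually_atTop.1 (h1.eventually_ge_atTop K)

theorem gc5_real {q : ℕ} {χ : DirichletCharacter ℂ q} (h : PQ χ) (a : ZMod q) :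
    χ a = ((χ a).re : ℂ) := by
  by_cases ha : IsUnit a
  · have h1 : (χ ^ 2) a = 1 := by
      rw [h.sq]
      exact MulChar.one_apply ha
    rw [MulChar.pow_apply' _ (by norm_num)] at h1
    rw [sq] at h1
    rcases mul_self_eq_one_iff.1 h1 with h2 | h2
    · rw [h2]; simp
    · rw [h2]; simp
  · rw [χ.map_nonunit ha]
    simp

theorem gc5_conj {q : ℕ} {χ : DirichletCharacter ℂ q} (h : PQ χ) (a : ZMod q) :
    (starRingEnd ℂ) (χ a) = χ a := by
  rw [gc5_real h a, Complex.conj_ofReal]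

theorem gc5_two_le {q : ℕ} [NeZero q] {χ : DirichletCharacter ℂ q} (h : χ ≠ 1) : 2 ≤ q := by
  by_contra hq
  have h1 : q = 1 := by
    have : 1 ≤ q := NeZero.one_le
    omega
  subst h1
  exact h (DirichletCharacter.level_one χ)

theorem gc5_tau_nonneg (k : ℕ) : 0 ≤ tau k := by
  unfold Pool.Agent.LSP.tau
  positivity

theorem gc5_tau_le {k e : ℕ} (he : 1 ≤ e) (h : k ∣ e) : tau k ≤ tau e := by
  unfold Pool.Agent.LSP.tau
  exact_mod_cast Finset.card_le_card (Nat.divisors_subset_of_dvd (by omega) h)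

/-- the double sum over the divisors -/
noncomputable def gc5D {q : ℕ} (χ : DirichletCharacter ℂ q) (N b : ℕ) (g : ℤ)
    (F : ℕ → ℕ → ℂ) : ℂ :=
  χ N / q * ∑ k ∈ b.divisors.filter (fun k : ℕ => (k : ℤ) ∣ g),
    χ ((g / (k : ℤ) : ℤ)) * χ ((b / k : ℕ)) *
    ∑ l ∈ (b / k).divisors, (ArithmeticFunction.moebius l : ℂ) / l * F k l

theorem gc5D_sub {q : ℕ} (χ : DirichletCharacter ℂ q) (N b : ℕ) (g : ℤ) (F F' : ℕ → ℕ → ℂ) :
    gc5D χ N b g F - gc5D χ N b g F' = gc5D χ N b g (fun k l => F k l - F' k l) := by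
  unfold gc5D
  rw [← mul_sub, ← Finset.sum_sub_distrib]
  congr 1
  refine Finset.sum_congr rfl fun k _ => ?_
  rw [← mul_sub, ← Finset.sum_sub_distrib]
  congr 1
  refine Finset.sum_congr rfl fun l _ => ?_
  ring

theorem gc5D_le {q : ℕ} [NeZero q] (χ : DirichletCharacter ℂ q) (N : ℕ) {b : ℕ} (hb : 1 ≤ b)
    (g : ℤ) {F : ℕ → ℕ → ℂ} {δ : ℝ} (hδ : 0 ≤ δ)
    (hF : ∀ k l : ℕ, 1 ≤ k → 1 ≤ l → k * l ∣ b → ‖F k l‖ ≤ δ) :
    ‖gc5D χ N b g F‖ ≤ tau b ^ 2 * δ := by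
  have hτ := gc5_tau_nonneg b
  have hq : (1 : ℝ) ≤ q := by exact_mod_cast NeZero.one_le (n := q)
  unfold gc5D
  rw [norm_mul]
  have h1 : ‖χ N / q‖ ≤ 1 := by
    rw [norm_div, Complex.norm_natCast]
    exact (div_le_one (by linarith)).2 ((DirichletCharacter.norm_le_one χ _).trans hq)
  have h2 : ∀ k ∈ b.divisors.filter (fun k : ℕ => (k : ℤ) ∣ g),
      ‖χ ((g / (k : ℤ) : ℤ)) * χ ((b / k : ℕ)) *
      ∑ l ∈ (b / k).divisors, (ArithmeticFunction.moebius l : ℂ) / l * F k l‖ ≤ tau b * δ := by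
    intro k hk
    have hkb : k ∣ b := Nat.dvd_of_mem_divisors (Finset.mem_filter.1 hk).1
    have hk1 : 1 ≤ k := Nat.pos_of_dvd_of_pos hkb hb
    have h3 : ‖∑ l ∈ (b / k).divisors, (ArithmeticFunction.moebius l : ℂ) / l * F k l‖ ≤
        tau b * δ := by
      refine (norm_sum_le_of_le (n := fun _ => δ) _ fun l hl => ?_).trans ?_
      · have hl1 : 1 ≤ l := Nat.pos_of_mem_divisors hl
        have hkl : k * l ∣ b := by
          obtain ⟨c, hc⟩ := Nat.dvd_of_mem_divisors hl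
          refine ⟨c, ?_⟩
          calc b = k * (b / k) := (Nat.mul_div_cancel' hkb).symm
            _ = k * l * c := by rw [hc]; ring
        rw [norm_mul]
        refine (mul_le_of_le_one_left (norm_nonneg _) ?_).trans (hF k l hk1 hl1 hkl)
        rw [norm_div, Complex.norm_intCast, Complex.norm_natCast]
        have m1 : |((ArithmeticFunction.moebius l : ℤ) : ℝ)| ≤ 1 := by
          exact_mod_cast ArithmeticFunction.abs_moebius_le_one
        have hl' : (1 : ℝ) ≤ l := by exact_mod_cast hl1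
        exact (div_le_one (by linarith)).2 (m1.trans hl')
      · rw [Finset.sum_const, nsmul_eq_mul]
        exact mul_le_mul_of_nonneg_right (gc5_tau_le hb (Nat.div_dvd_of_dvd hkb)) hδ
    rw [norm_mul, norm_mul]
    refine (mul_le_of_le_one_left (norm_nonneg _) ?_).trans h3
    exact mul_le_one₀ (DirichletCharacter.norm_le_one χ _) (norm_nonneg _)
      (DirichletCharacter.norm_le_one χ _)
  have h4 := norm_sum_le_of_le _ h2
  have h5 : ∑ _k ∈ b.divisors.filter (fun k : ℕ => (k : ℤ) ∣ g), tau b * δ ≤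
      tau b * (tau b * δ) := by
    rw [Finset.sum_const, nsmul_eq_mul]
    refine mul_le_mul_of_nonneg_right ?_ (by positivity)
    unfold Pool.Agent.LSP.tau
    exact_mod_cast Finset.card_le_card (Finset.filter_subset _ _)
  calc ‖χ N / q‖ * _ ≤ 1 * (tau b * (tau b * δ)) :=
        mul_le_mul h1 (h4.trans h5) (norm_nonneg _) zero_le_one
    _ = tau b ^ 2 * δ := by ring

theorem gc5_MT {q : ℕ} [NeZero q] (ρ : ℝ → ℝ) (χ : DirichletCharacter ℂ q) (N : ℕ) (w : ℝ → ℝ)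
    (j b : ℕ) (g : ℤ) : MT ρ χ N w j b g = gc5D χ N b g (fun k l =>
      ((∫ a in Ioi (0 : ℝ), w (j * a) / a * GG ρ (g * N / (a * b)) *
        (Real.log |a * b - g * N| + 2 * Real.eulerMascheroniConstant -
          2 * Real.log (q * k * l)) : ℝ) : ℂ)) := rfl

theorem gc5_MD {q : ℕ} [NeZero q] {χ : DirichletCharacter ℂ q} (h : PQ χ) (N b : ℕ) (g : ℤ)
    {f y : ℝ → ℝ}
    (hi : ∀ k l : ℕ, 1 ≤ k → 1 ≤ l → k * l ∣ b → Integrable (fun a : ℝ => f a * (y a +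
      (2 * Real.eulerMascheroniConstant - 2 * Real.log (q * k * l)))))
    (hb : 1 ≤ b) : ∫ a : ℝ, (f a : ℂ) * MD χ N b g (y a) =
      gc5D χ N b g (fun k l => ((∫ a : ℝ, f a * (y a +
      (2 * Real.eulerMascheroniConstant - 2 * Real.log (q * k * l))) : ℝ) : ℂ)) := by
  have e1 : ∀ a : ℝ, (f a : ℂ) * MD χ N b g (y a) = gc5D χ N b g (fun k l =>
      ((f a * (y a + (2 * Real.eulerMascheroniConstant - 2 * Real.log (q * k * l))) : ℝ) : ℂ)) := by
    intro a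
    unfold MD gc5D
    rw [mul_left_comm, Finset.mul_sum]
    congr 1
    refine Finset.sum_congr rfl fun k _ => ?_
    rw [gc5_conj h, mul_left_comm, Finset.mul_sum]
    congr 1
    refine Finset.sum_congr rfl fun l _ => ?_
    push_cast
    ring
  simp only [e1]
  unfold gc5D
  rw [integral_const_mul]
  congr 1
  have hmem : ∀ k ∈ b.divisors.filter (fun k : ℕ => (k : ℤ) ∣ g), ∀ l ∈ (b / k).divisors,
      1 ≤ k ∧ 1 ≤ l ∧ k * l ∣ b := by
    intro k hk l hl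
    have hkb : k ∣ b := Nat.dvd_of_mem_divisors (Finset.mem_filter.1 hk).1
    refine ⟨Nat.pos_of_dvd_of_pos hkb hb, Nat.pos_of_mem_divisors hl, ?_⟩
    obtain ⟨c, hc⟩ := Nat.dvd_of_mem_divisors hl
    refine ⟨c, ?_⟩
    calc b = k * (b / k) := (Nat.mul_div_cancel' hkb).symm
      _ = k * l * c := by rw [hc]; ring
  have hint : ∀ k ∈ b.divisors.filter (fun k : ℕ => (k : ℤ) ∣ g), ∀ l ∈ (b / k).divisors,
      Integrable (fun a : ℝ => (ArithmeticFunction.moebius l : ℂ) / l * ((f a * (y a +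
        (2 * Real.eulerMascheroniConstant - 2 * Real.log (q * k * l))) : ℝ) : ℂ)) := by
    intro k hk l hl
    obtain ⟨h1, h2, h3⟩ := hmem k hk l hl
    exact ((hi k l h1 h2 h3).ofReal).const_mul _
  rw [integral_finsetSum _ fun k hk => (integrable_finsetSum _ fun l hl =>
    hint k hk l hl).const_mul _]
  refine Finset.sum_congr rfl fun k hk => ?_
  rw [integral_const_mul, integral_finsetSum _ fun l hl => hint k hk l hl]
  congr 1
  refine Finset.sum_congr rfl fun l _ => ?_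
  rw [integral_const_mul, integral_complex_ofReal]

/-- block GC5 (uses od_one, g_cut_sum_pr, g_cut_int_pr, g_fa_pr, g_large_pr): the off-diagonal sum -/
theorem g_off_pr (i : ℕ) {ν : ℝ} (h0 : 0 < ν) (h1 : ν ≤ 1 / 10 ^ 6) : ∃ N₀ : ℕ, ∀ N : ℕ,
    N₀ ≤ N → N.Prime → ∀ (q : ℕ) [NeZero q] (χ : DirichletCharacter ℂ q), PQ χ →
    ∀ (Y : ℝ) (A : ℕ), Par ν N q Y A → ∀ ρ : ℝ → ℝ, KerC ((N : ℝ) ^ ν) ρ → ∀ E : ℕ, A ≤ E →
    ∀ j b : ℕ, 1 ≤ j → 1 ≤ b → (j : ℝ) * b ≤ (N : ℝ) ^ (1 / 2 + ν / 10) → ∀ g : ℤ, g ≠ 0 →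
    |Sa χ i ρ N Y A E j b g - (χ j * MT ρ χ N (fun y => V i (y / Y)) j b g).re| ≤
      (N : ℝ) ^ (-(15 * ν)) / |(g : ℝ)| ^ 3 := by
  obtain ⟨N1, H1⟩ := od_one
  obtain ⟨N2, H2⟩ := g_cut_sum_pr i h0 h1
  obtain ⟨N3, H3⟩ := g_cut_int_pr i h0 h1
  obtain ⟨N4, H4⟩ := g_fa_pr i h0 h1
  obtain ⟨N5, H5⟩ := g_large_pr i h0 h1
  obtain ⟨C, hC0, hC⟩ := Pool.Agent.SEL.divisor_bound_pr (ε := ν / 2) (by positivity)
  obtain ⟨N6, H6⟩ := gc5_large (2 + C ^ 2) (ε := 3 / 2 * ν) (by positivity)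
  refine ⟨max (max (max N1 N2) (max N3 N4)) (max (max N5 N6) 3), ?_⟩
  intro N hN hNp q _ χ hχ Y A hP ρ hρ E hE j b hj hb hjb g hg
  simp only [max_le_iff] at hN
  obtain ⟨⟨⟨n1, n2⟩, n3, n4⟩, ⟨n5, n6⟩, n7⟩ := hN
  by_cases hS : Sm ν N Y j b g
  swap
  · obtain ⟨e1, e2⟩ := H5 N n5 q χ Y A hP ρ hρ E j b hj hb hjb g hg hS
    rw [e1, zero_sub, abs_neg]
    refine (Complex.abs_re_le_norm _).trans ?_
    rw [norm_mul]
    exact (mul_le_of_le_one_left (norm_nonneg _) (DirichletCharacter.norm_le_one χ _)).trans e2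
  have hN1 : (1 : ℝ) ≤ N := by exact_mod_cast (by omega : 1 ≤ N)
  have hN0 : (0 : ℝ) < N := by linarith
  have hN3 : (3 : ℝ) ≤ N := by exact_mod_cast n7
  have hb1 : (1 : ℝ) ≤ b := by exact_mod_cast hb
  have hj1 : (1 : ℝ) ≤ j := by exact_mod_cast hj
  have hq1 : (1 : ℝ) ≤ q := by exact_mod_cast NeZero.one_le (n := q)
  have hlogN : 1 ≤ Real.log N := by
    rw [Real.le_log_iff_exp_le hN0]
    have := Real.exp_one_lt_d9
    linarith
  have hbN : (b : ℝ) ≤ N := by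
    have h2 : (b : ℝ) ≤ j * b := le_mul_of_one_le_left (by linarith) hj1
    refine (h2.trans hjb).trans ?_
    calc (N : ℝ) ^ (1 / 2 + ν / 10) ≤ (N : ℝ) ^ (1 : ℝ) :=
          Real.rpow_le_rpow_of_exponent_le hN1 (by linarith)
      _ = N := Real.rpow_one _
  have hqN : (q : ℝ) ≤ N := by
    refine hP.q_le.trans ?_
    calc (N : ℝ) ^ (ν / 100) ≤ (N : ℝ) ^ (1 : ℝ) :=
          Real.rpow_le_rpow_of_exponent_le hN1 (by linarith)
      _ = N := Real.rpow_one _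
  obtain ⟨f1, f2, f3, f4, f5, f6⟩ := H4 N n4 q Y A hP ρ hρ j b hj hb hjb g hg hS
  -- the constants
  have hc : ∀ k l : ℕ, 1 ≤ k → 1 ≤ l → k * l ∣ b →
      |2 * Real.eulerMascheroniConstant - 2 * Real.log (q * k * l)| ≤ 10 * Real.log N := by
    intro k l hk hl hkl
    have hk1 : (1 : ℝ) ≤ k := by exact_mod_cast hk
    have hl1 : (1 : ℝ) ≤ l := by exact_mod_cast hl
    have hklb : (k : ℝ) * l ≤ b := by exact_mod_cast Nat.le_of_dvd (by omega) hkl
    have e1 : 0 ≤ Real.log (q * k * l) := Real.log_nonneg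
      (one_le_mul_of_one_le_of_one_le (one_le_mul_of_one_le_of_one_le hq1 hk1) hl1)
    have e2 : Real.log (q * k * l) ≤ 2 * Real.log N := by
      calc Real.log (q * k * l) ≤ Real.log (N * N) := by
            refine Real.log_le_log (by positivity) ?_
            calc (q : ℝ) * k * l = q * (k * l) := by ring
              _ ≤ N * N := mul_le_mul hqN (hklb.trans hbN) (by positivity) (by linarith)
        _ = 2 * Real.log N := by rw [Real.log_mul hN0.ne' hN0.ne']; ring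
    have e3 := Real.eulerMascheroniConstant_lt_two_thirds
    have e4 := Real.one_half_lt_eulerMascheroniConstant
    rw [abs_le]
    constructor <;> linarith
  have hcut : ∀ k l : ℕ, 1 ≤ k → 1 ≤ l → k * l ∣ b → _ := fun k l hk hl hkl =>
    H3 N n3 q Y A hP ρ hρ j b hj hb hjb g hg hS _ (hc k l hk hl hkl)
  -- the main term
  have hMJ : ‖MT ρ χ N (fun y => V i (y / Y)) j b g -
      ∫ a : ℝ, (fa i ρ ν N Y j b g a : ℂ) * MD χ N b g (Real.log |a * b - g * N|)‖ ≤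
      tau b ^ 2 * (N : ℝ) ^ (-(25 * ν)) := by
    rw [gc5_MT, gc5_MD hχ N b g (y := fun a => Real.log |a * b - g * N|)
      (fun k l hk hl hkl => (hcut k l hk hl hkl).1) hb, gc5D_sub]
    refine gc5D_le χ N hb g (Real.rpow_nonneg hN0.le _) fun k l hk hl hkl => ?_
    rw [← Complex.ofReal_sub, Complex.norm_real, Real.norm_eq_abs]
    have h2 := (hcut k l hk hl hkl).2
    have e : (∫ a in Ioi (0 : ℝ), V i (j * a / Y) / a * GG ρ (g * N / (a * b)) *
        (Real.log |a * b - g * N| + 2 * Real.eulerMascheroniConstant -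
          2 * Real.log (q * k * l))) = ∫ a in Ioi (0 : ℝ), V i (j * a / Y) / a *
          GG ρ (g * N / (a * b)) * (Real.log |a * b - g * N| +
            (2 * Real.eulerMascheroniConstant - 2 * Real.log (q * k * l))) := by
      refine integral_congr_ae (Filter.Eventually.of_forall fun a => ?_)
      simp only
      rw [add_sub_assoc]
    rw [e]
    exact h2
  -- the sum
  set S : ℝ := ∑ a ∈ Finset.Icc 1 ⌊(N : ℝ) ^ (1 / 2 + 250 * ν)⌋₊,
      (χ a).re * fa i ρ ν N Y j b g a * tau (((a * b : ℕ) : ℤ) - g * N).natAbs with hSdef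
  have hSJ : ‖(S : ℂ) - ∫ a : ℝ, (fa i ρ ν N Y j b g a : ℂ) *
      MD χ N b g (Real.log |a * b - g * N|)‖ ≤ (N : ℝ) ^ (-(1 / 80) : ℝ) := by
    have hκ : 250 * ν ≤ 1 / 2000 := by
      norm_num at h1
      linarith
    have hqκ : (q : ℝ) ≤ (N : ℝ) ^ (250 * ν) :=
      hP.q_le.trans (Real.rpow_le_rpow_of_exponent_le hN1 (by linarith))
    have hgκ : |(g : ℝ)| ≤ (N : ℝ) ^ (250 * ν) :=
      f3.trans (Real.rpow_le_rpow_of_exponent_le hN1 (by linarith))
    have h2 := H1 N n1 hNp (250 * ν) (by positivity) hκ q χ hχ.prim (gc5_two_le hχ.ne) hqκ b f1 f2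
      g hg hgκ (fa i ρ ν N Y j b g) f4 f5 f6
    have e : (S : ℂ) = ∑ a ∈ Finset.Icc 1 ⌊(N : ℝ) ^ (1 / 2 + 250 * ν)⌋₊, χ a *
        (fa i ρ ν N Y j b g a : ℂ) * (tau (((a * b : ℕ) : ℤ) - g * N).natAbs : ℂ) := by
      rw [hSdef]
      push_cast
      refine Finset.sum_congr rfl fun a _ => ?_
      rw [← gc5_real hχ]
    rw [e]
    exact h2
  have hSa := H2 N n2 q χ hχ Y A hP ρ hρ E hE j b hj hb hjb g hg hS
  rw [← hSdef] at hSa
  -- conclusion
  have hre : (χ j * MT ρ χ N (fun y => V i (y / Y)) j b g).re =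
      (χ j).re * (MT ρ χ N (fun y => V i (y / Y)) j b g).re := by
    rw [gc5_real hχ j, Complex.re_ofReal_mul, Complex.ofReal_re]
  have habs : |(χ j).re| ≤ 1 := (Complex.abs_re_le_norm _).trans (DirichletCharacter.norm_le_one χ _)
  have hSM : |S - (MT ρ χ N (fun y => V i (y / Y)) j b g).re| ≤
      (N : ℝ) ^ (-(1 / 80) : ℝ) + tau b ^ 2 * (N : ℝ) ^ (-(25 * ν)) := by
    have e1 : S - (MT ρ χ N (fun y => V i (y / Y)) j b g).re =
        ((S : ℂ) - MT ρ χ N (fun y => V i (y / Y)) j b g).re := by simp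
    rw [e1]
    refine (Complex.abs_re_le_norm _).trans ?_
    rw [norm_sub_rev] at hMJ
    exact (norm_sub_le_norm_sub_add_norm_sub _ _ _).trans (add_le_add hSJ hMJ)
  have hfin : |Sa χ i ρ N Y A E j b g - (χ j * MT ρ χ N (fun y => V i (y / Y)) j b g).re| ≤
      (N : ℝ) ^ (-(25 * ν)) + ((N : ℝ) ^ (-(1 / 80) : ℝ) + tau b ^ 2 * (N : ℝ) ^ (-(25 * ν))) := by
    rw [hre]
    have e2 : Sa χ i ρ N Y A E j b g - (χ j).re * (MT ρ χ N (fun y => V i (y / Y)) j b g).re =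
        (Sa χ i ρ N Y A E j b g - (χ j).re * S) +
        (χ j).re * (S - (MT ρ χ N (fun y => V i (y / Y)) j b g).re) := by ring
    rw [e2]
    refine (abs_add_le _ _).trans (add_le_add hSa ?_)
    rw [abs_mul]
    exact (mul_le_of_le_one_left (abs_nonneg _) habs).trans hSM
  refine hfin.trans ?_
  -- numerics
  have hg1 : (1 : ℝ) ≤ |(g : ℝ)| := by
    have := Int.one_le_abs hg
    exact_mod_cast this
  have hg3 : |(g : ℝ)| ^ 3 ≤ (N : ℝ) ^ (15 / 2 * ν) := by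
    calc |(g : ℝ)| ^ 3 ≤ ((N : ℝ) ^ (5 / 2 * ν)) ^ 3 := pow_le_pow_left₀ (by positivity) f3 3
      _ = (N : ℝ) ^ (15 / 2 * ν) := by
          rw [← Real.rpow_natCast, ← Real.rpow_mul hN0.le]
          congr 1
          push_cast
          ring
  have hτ : tau b ^ 2 ≤ C ^ 2 * (N : ℝ) ^ ν := by
    have h2 : tau b ≤ C * (N : ℝ) ^ (ν / 2) := by
      refine (hC b (by omega)).trans ?_
      exact mul_le_mul_of_nonneg_left (Real.rpow_le_rpow (by linarith) hbN (by positivity)) hC0.le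
    calc tau b ^ 2 ≤ (C * (N : ℝ) ^ (ν / 2)) ^ 2 := pow_le_pow_left₀ (gc5_tau_nonneg b) h2 2
      _ = C ^ 2 * (N : ℝ) ^ ν := by
          rw [mul_pow, ← Real.rpow_natCast ((N : ℝ) ^ (ν / 2)), ← Real.rpow_mul hN0.le]
          congr 2
          push_cast
          ring
  have hR : (N : ℝ) ^ (-(45 / 2 * ν)) ≤ (N : ℝ) ^ (-(15 * ν)) / |(g : ℝ)| ^ 3 := by
    rw [le_div_iff₀ (by positivity)]
    calc (N : ℝ) ^ (-(45 / 2 * ν)) * |(g : ℝ)| ^ 3 ≤
        (N : ℝ) ^ (-(45 / 2 * ν)) * (N : ℝ) ^ (15 / 2 * ν) :=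
          mul_le_mul_of_nonneg_left hg3 (Real.rpow_nonneg hN0.le _)
      _ = (N : ℝ) ^ (-(15 * ν)) := by
          rw [← Real.rpow_add hN0]
          congr 1
          ring
  refine le_trans ?_ hR
  have p1 : (N : ℝ) ^ (-(25 * ν)) ≤ (N : ℝ) ^ (-(24 * ν)) :=
    Real.rpow_le_rpow_of_exponent_le hN1 (by linarith)
  have p2 : (N : ℝ) ^ (-(1 / 80) : ℝ) ≤ (N : ℝ) ^ (-(24 * ν)) := by
    refine Real.rpow_le_rpow_of_exponent_le hN1 ?_
    norm_num at h1
    linarith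
  have p3 : tau b ^ 2 * (N : ℝ) ^ (-(25 * ν)) ≤ C ^ 2 * (N : ℝ) ^ (-(24 * ν)) := by
    calc tau b ^ 2 * (N : ℝ) ^ (-(25 * ν)) ≤ C ^ 2 * (N : ℝ) ^ ν * (N : ℝ) ^ (-(25 * ν)) :=
          mul_le_mul_of_nonneg_right hτ (Real.rpow_nonneg hN0.le _)
      _ = C ^ 2 * (N : ℝ) ^ (-(24 * ν)) := by
          rw [mul_assoc, ← Real.rpow_add hN0]
          congr 2
          ring
  have p4 : (2 + C ^ 2) * (N : ℝ) ^ (-(24 * ν)) ≤ (N : ℝ) ^ (-(45 / 2 * ν)) := by
    calc (2 + C ^ 2) * (N : ℝ) ^ (-(24 * ν)) ≤ (N : ℝ) ^ (3 / 2 * ν) * (N : ℝ) ^ (-(24 * ν)) :=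
          mul_le_mul_of_nonneg_right (H6 N n6) (Real.rpow_nonneg hN0.le _)
      _ = (N : ℝ) ^ (-(45 / 2 * ν)) := by
          rw [← Real.rpow_add hN0]
          congr 1
          ring
  linarith

end Pool.Agent.LG

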