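import Pool.Agent.Lib_helper31.LG.Defs
import Pool.Agent.Lib_helper31.LGF.GC4
import Pool.Agent.Lib_helper31.LGF.GC5
import Pool.Agent.Lib_helper31.LKF.KG1

/-! LSP3, part G, block GD: the off-diagonal terms of the unit vector `e`. -/

set_option autoImplicit false

namespace Pool.Agent.LG

open Complex MeasureTheory Set ProbabilityTheory
open Pool.Agent.LSP (tau GG CC CB Gs sg1 QN sh OD)
open Pool.Agent.LSPO (KK cl GOK)
open Pool.Agent.LK (KerC PQ V MT OM SH HH Qe hm)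
open Pool.Agent.LE (xv HP SuppIn H2)
open Pool.Agent.LVB (IsST)

theorem gd_tau_zero : tau 0 = 0 := by
  simp [tau]

theorem gd_tau_nonneg (n : ℕ) : 0 ≤ tau n := by
  unfold tau
  positivity

theorem gd_tau_le (n : ℕ) : tau n ≤ n := by
  unfold tau
  exact_mod_cast Nat.card_divisors_le_self n

theorem gd_term (c : ℝ) (hc : 0 ≤ c) (g : ℤ) :
    tau g.natAbs * (c / |(g : ℝ)| ^ 3) ≤ c * (1 / (g : ℝ) ^ 2) := by
  by_cases hg : g = 0
  · subst hg
    simp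
  · have h1 : 0 < |(g : ℝ)| := abs_pos.mpr (by exact_mod_cast hg)
    have h2 : tau g.natAbs ≤ |(g : ℝ)| := by
      refine (gd_tau_le _).trans ?_
      rw [Nat.cast_natAbs]
      push_cast
      exact le_rfl
    calc tau g.natAbs * (c / |(g : ℝ)| ^ 3) ≤ |(g : ℝ)| * (c / |(g : ℝ)| ^ 3) :=
          mul_le_mul_of_nonneg_right h2 (by positivity)
      _ = c * (1 / |(g : ℝ)| ^ 2) := by
          field_simp
      _ = c * (1 / (g : ℝ) ^ 2) := by rw [sq_abs]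

/-- the pairs in the range are finitely many -/
theorem gd_fin {ν : ℝ} {N : ℕ} {Y : ℝ} {j b : ℕ} (hN : 1 ≤ N) (hj : 1 ≤ j) :
    {g : ℤ | Sm ν N Y j b g}.Finite := by
  set R : ℝ := 2 * (N : ℝ) ^ (ν / 50) * (b * Y * (1 + ((N : ℝ) ^ ν) ^ 2)) with hR
  refine (Set.finite_Icc (-⌈R⌉) ⌈R⌉).subset ?_
  intro g hg
  have h1 : (j : ℝ) * |(g : ℝ)| * N < R := hg
  have hjN : (1 : ℝ) ≤ (j : ℝ) * N := by
    have h2 : (1 : ℝ) ≤ j := by exact_mod_cast hj
    have h3 : (1 : ℝ) ≤ N := by exact_mod_cast hN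
    nlinarith
  have h2 : |(g : ℝ)| ≤ (j : ℝ) * |(g : ℝ)| * N := by
    calc |(g : ℝ)| = 1 * |(g : ℝ)| := (one_mul _).symm
      _ ≤ ((j : ℝ) * N) * |(g : ℝ)| := mul_le_mul_of_nonneg_right hjN (abs_nonneg _)
      _ = (j : ℝ) * |(g : ℝ)| * N := by ring
  have h3 : |(g : ℝ)| ≤ ⌈R⌉ := (h2.trans h1.le).trans (Int.le_ceil R)
  rw [abs_le] at h3
  constructor
  · exact_mod_cast h3.1
  · exact_mod_cast h3.2

/-- the left side -/
theorem gd_left {q : ℕ} [NeZero q] (χ : DirichletCharacter ℂ q) (i : ℕ) (ρ : ℝ → ℝ) (N : ℕ)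
    (Y : ℝ) (A B E e : ℕ) (he : 1 ≤ e) {p : ℕ × ℕ} (hp : p ∈ e.divisorsAntidiagonal) :
    ∑ a ∈ Finset.Icc 1 E, xv χ i Y A (p.1 * a) / (p.1 * a * p.2) *
        (2 * Real.pi * ∑ g ∈ Gs B E, tau g.natAbs * tau (((a * p.2 : ℕ) : ℤ) - g * N).natAbs *
          GG ρ ((g : ℝ) * N / ((a * p.2 : ℕ) : ℝ))) =
      2 * Real.pi / e * ∑ g ∈ Gs B E, tau g.natAbs * Sa χ i ρ N Y A E p.1 p.2 g := by
  have hpe : (p.1 : ℝ) * p.2 = e := by
    rw [Nat.mem_divisorsAntidiagonal] at hp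
    exact_mod_cast hp.1
  have he0 : (e : ℝ) ≠ 0 := by
    have : (1 : ℝ) ≤ e := by exact_mod_cast he
    linarith
  unfold Sa
  simp_rw [Finset.mul_sum]
  rw [Finset.sum_comm]
  refine Finset.sum_congr rfl fun g _ => Finset.sum_congr rfl fun a ha => ?_
  have ha0 : (a : ℝ) ≠ 0 := by
    have h1 := (Finset.mem_Icc.mp ha).1
    have : (1 : ℝ) ≤ a := by exact_mod_cast h1
    linarith
  rw [show (p.1 : ℝ) * a * p.2 = e * a by rw [← hpe]; ring]
  field_simp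

/-- the real part of the off-diagonal main terms -/
theorem gd_om {q : ℕ} [NeZero q] (χ : DirichletCharacter ℂ q) (ρ : ℝ → ℝ) (N e : ℕ)
    (w : ℝ → ℝ) : (OM ρ χ N w e).re = ∑ p ∈ e.divisorsAntidiagonal, 2 * Real.pi / e *
      (χ p.1 * ∑' g : ℤ, (tau g.natAbs : ℂ) * MT ρ χ N w p.1 p.2 g).re := by
  unfold OM
  rw [show (2 * Real.pi / e : ℂ) = ((2 * Real.pi / e : ℝ) : ℂ) by push_cast; ring,
    Complex.re_ofReal_mul, Complex.re_sum, Finset.mul_sum]

/-- block GD (uses g_off_pr, LK.gok_unif_pr): the off-diagonal terms of the unit vector `e` -/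
theorem g_om_pr (i : ℕ) {ν : ℝ} (h0 : 0 < ν) (h1 : ν ≤ 1 / 10 ^ 6) : ∃ N₀ : ℕ, ∀ N : ℕ,
    N₀ ≤ N → N.Prime → ∀ (q : ℕ) [NeZero q] (χ : DirichletCharacter ℂ q), PQ χ →
    ∀ (Y : ℝ) (A : ℕ), Par ν N q Y A → ∀ ρ : ℝ → ℝ, KerC ((N : ℝ) ^ ν) ρ → ∀ B E : ℕ, A ≤ E →
    1 + ((N : ℝ) ^ ν) ^ 2 ≤ B → ∀ e : ℕ, 1 ≤ e → e ≤ E → (e : ℝ) ≤ (N : ℝ) ^ (1 / 2 + ν / 10) →
    |∑ p ∈ e.divisorsAntidiagonal, ∑ a ∈ Finset.Icc 1 E, xv χ i Y A (p.1 * a) / (p.1 * a * p.2) *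
        (2 * Real.pi * ∑ g ∈ Gs B E, tau g.natAbs * tau (((a * p.2 : ℕ) : ℤ) - g * N).natAbs *
          GG ρ ((g : ℝ) * N / ((a * p.2 : ℕ) : ℝ))) -
      (OM ρ χ N (fun y => V i (y / Y)) e).re| ≤ (N : ℝ) ^ (-(14 * ν)) * tau e / e := by
  obtain ⟨N₁, hN₁⟩ := g_off_pr i h0 h1
  obtain ⟨N₂, hN₂⟩ := g_large_pr i h0 h1
  obtain ⟨C, hC⟩ := Pool.Agent.LK.gok_unif_pr
  have hsum2 : Summable (fun g : ℤ => 1 / (g : ℝ) ^ 2) :=
    Real.summable_one_div_int_pow.mpr (by norm_num)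
  set C₁ : ℝ := ∑' g : ℤ, 1 / (g : ℝ) ^ 2 with hC₁
  have hC₁0 : 0 ≤ C₁ := tsum_nonneg fun g => by positivity
  obtain ⟨N₃, hN₃⟩ : ∃ N₃ : ℕ, ∀ N : ℕ, N₃ ≤ N → 4 + 2 * Real.pi * C₁ ≤ (N : ℝ) ^ ν := by
    have h2 := (tendsto_rpow_atTop h0).comp tendsto_natCast_atTop_atTop
    have h3 := h2.eventually_ge_atTop (4 + 2 * Real.pi * C₁)
    obtain ⟨N₃, h4⟩ := Filter.eventually_atTop.mp h3
    exact ⟨N₃, fun N hN => h4 N hN⟩
  refine ⟨max N₁ (max N₂ N₃), ?_⟩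
  intro N hN hNp q _ χ hχ Y A hPar ρ hρ B E hAE hB e he heE heN
  have hNN₁ : N₁ ≤ N := (le_max_left _ _).trans hN
  have hNN₂ : N₂ ≤ N := ((le_max_left _ _).trans (le_max_right _ _)).trans hN
  have hNN₃ : N₃ ≤ N := ((le_max_right _ _).trans (le_max_right _ _)).trans hN
  have hbig := hN₃ N hNN₃
  have hπC : 0 ≤ 2 * Real.pi * C₁ := by positivity
  have hT4 : 4 ≤ (N : ℝ) ^ ν := by linarith
  have hN1 : 1 ≤ N := hNp.one_lt.le
  have hN0 : (0 : ℝ) < N := by exact_mod_cast hN1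
  have hgok := (hC _ hT4 ρ hρ).2
  have he0 : (0 : ℝ) < e := by exact_mod_cast he
  set w : ℝ → ℝ := fun y => V i (y / Y) with hw
  set c : ℝ := (N : ℝ) ^ (-(15 * ν)) with hc
  have hc0 : 0 ≤ c := Real.rpow_nonneg hN0.le _
  -- one pair
  have hone : ∀ p ∈ e.divisorsAntidiagonal,
      |∑ g ∈ Gs B E, tau g.natAbs * Sa χ i ρ N Y A E p.1 p.2 g -
        (χ p.1 * ∑' g : ℤ, (tau g.natAbs : ℂ) * MT ρ χ N w p.1 p.2 g).re| ≤ c * C₁ := by
    intro p hp
    rw [Nat.mem_divisorsAntidiagonal] at hp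
    obtain ⟨hpe, -⟩ := hp
    have hj : 1 ≤ p.1 := by
      rcases Nat.eq_zero_or_pos p.1 with h | h
      · rw [h, zero_mul] at hpe
        omega
      · exact h
    have hb : 1 ≤ p.2 := by
      rcases Nat.eq_zero_or_pos p.2 with h | h
      · rw [h, mul_zero] at hpe
        omega
      · exact h
    have hjb : (p.1 : ℝ) * p.2 ≤ (N : ℝ) ^ (1 / 2 + ν / 10) := by
      have : (p.1 : ℝ) * p.2 = e := by exact_mod_cast hpe
      rw [this]
      exact heN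
    -- summability
    have hsM : Summable (fun g : ℤ => (tau g.natAbs : ℂ) * MT ρ χ N w p.1 p.2 g) := by
      refine Summable.of_norm_bounded_eventually (hsum2.mul_left c) ?_
      rw [Filter.eventually_cofinite]
      refine (gd_fin (ν := ν) (Y := Y) (b := p.2) hN1 hj).subset ?_
      intro g hg
      by_contra hng
      apply hg
      by_cases hg0 : g = 0
      · subst hg0
        simp [gd_tau_zero]
      · have h2 := (hN₂ N hNN₂ q χ Y A hPar ρ hρ E p.1 p.2 hj hb hjb g hg0 hng).2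
        rw [norm_mul, Complex.norm_real, Real.norm_eq_abs, abs_of_nonneg (gd_tau_nonneg _)]
        exact (mul_le_mul_of_nonneg_left h2 (gd_tau_nonneg _)).trans (gd_term c hc0 g)
    have hH1 : HasSum (fun g : ℤ => (χ p.1 * ((tau g.natAbs : ℂ) * MT ρ χ N w p.1 p.2 g)).re)
        (χ p.1 * ∑' g : ℤ, (tau g.natAbs : ℂ) * MT ρ χ N w p.1 p.2 g).re :=
      Complex.reCLM.hasSum (hsM.hasSum.mul_left (χ p.1))
    have hH2 : HasSum (fun g : ℤ => tau g.natAbs * Sa χ i ρ N Y A E p.1 p.2 g)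
        (∑ g ∈ Gs B E, tau g.natAbs * Sa χ i ρ N Y A E p.1 p.2 g) := by
      refine hasSum_sum_of_ne_finset_zero fun g hg => ?_
      by_cases hg0 : g = 0
      · subst hg0
        rw [Int.natAbs_zero, gd_tau_zero, zero_mul]
      · have hgl : ((B * E ^ 2 : ℕ) : ℝ) < |(g : ℝ)| := by
          by_contra hle
          rw [not_lt, abs_le] at hle
          apply hg
          rw [Gs, Finset.mem_erase, Finset.mem_Icc]
          refine ⟨hg0, ?_, ?_⟩
          · exact_mod_cast hle.1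
          · exact_mod_cast hle.2
        have hSa : Sa χ i ρ N Y A E p.1 p.2 g = 0 := by
          unfold Sa
          refine Finset.sum_eq_zero fun a ha => ?_
          rw [Finset.mem_Icc] at ha
          have hab : 0 < a * p.2 := Nat.mul_pos ha.1 hb
          have habE : ((a * p.2 : ℕ) : ℝ) ≤ (E : ℝ) ^ 2 := by
            have h3 : p.2 ≤ E := by
              refine le_trans ?_ heE
              rw [← hpe]
              exact Nat.le_mul_of_pos_left _ hj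
            have h4 : a * p.2 ≤ E * E := Nat.mul_le_mul ha.2 h3
            rw [sq]
            exact_mod_cast h4
          have hab0 : (0 : ℝ) < ((a * p.2 : ℕ) : ℝ) := by exact_mod_cast hab
          have hG0 : GG ρ ((g : ℝ) * N / ((a * p.2 : ℕ) : ℝ)) = 0 := by
            apply hgok.supp
            rw [abs_div, abs_mul, abs_of_pos hab0, abs_of_pos hN0, lt_div_iff₀ hab0]
            have hN1' : (1 : ℝ) ≤ N := by exact_mod_cast hN1
            have hB0 : (0 : ℝ) ≤ 1 + ((N : ℝ) ^ ν) ^ 2 := by positivity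
            have h5 : (1 + ((N : ℝ) ^ ν) ^ 2) * ((a * p.2 : ℕ) : ℝ) ≤ ((B * E ^ 2 : ℕ) : ℝ) := by
              push_cast
              push_cast at habE
              exact mul_le_mul hB habE (by positivity) (by positivity)
            calc (1 + ((N : ℝ) ^ ν) ^ 2) * ((a * p.2 : ℕ) : ℝ) ≤ ((B * E ^ 2 : ℕ) : ℝ) := h5
              _ < |(g : ℝ)| := hgl
              _ = |(g : ℝ)| * 1 := (mul_one _).symm
              _ ≤ |(g : ℝ)| * N := mul_le_mul_of_nonneg_left hN1' (abs_nonneg _)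
          rw [hG0, mul_zero, mul_zero]
        rw [hSa, mul_zero]
    have hH3 := hH2.sub hH1
    have hH4 : HasSum (fun g : ℤ => c * (1 / (g : ℝ) ^ 2)) (c * C₁) := hsum2.hasSum.mul_left c
    rw [← Real.norm_eq_abs]
    refine hH3.norm_le_of_bounded hH4 fun g => ?_
    have h6 : tau g.natAbs * Sa χ i ρ N Y A E p.1 p.2 g -
        (χ p.1 * ((tau g.natAbs : ℂ) * MT ρ χ N w p.1 p.2 g)).re =
        tau g.natAbs * (Sa χ i ρ N Y A E p.1 p.2 g - (χ p.1 * MT ρ χ N w p.1 p.2 g).re) := by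
      rw [show χ p.1 * ((tau g.natAbs : ℂ) * MT ρ χ N w p.1 p.2 g) =
        (tau g.natAbs : ℂ) * (χ p.1 * MT ρ χ N w p.1 p.2 g) by ring, Complex.re_ofReal_mul]
      ring
    rw [h6, norm_mul, Real.norm_eq_abs, Real.norm_eq_abs, abs_of_nonneg (gd_tau_nonneg _)]
    by_cases hg0 : g = 0
    · subst hg0
      rw [Int.natAbs_zero, gd_tau_zero, zero_mul]
      positivity
    · have h7 := hN₁ N hNN₁ hNp q χ hχ Y A hPar ρ hρ E hAE p.1 p.2 hj hb hjb g hg0
      exact (mul_le_mul_of_nonneg_left h7 (gd_tau_nonneg _)).trans (gd_term c hc0 g)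
  -- assembly
  rw [gd_om, Finset.sum_congr rfl fun p hp => gd_left χ i ρ N Y A B E e he hp,
    ← Finset.sum_sub_distrib]
  refine (Finset.abs_sum_le_sum_abs _ _).trans ?_
  have hterm : ∀ p ∈ e.divisorsAntidiagonal,
      |2 * Real.pi / e * ∑ g ∈ Gs B E, tau g.natAbs * Sa χ i ρ N Y A E p.1 p.2 g -
        2 * Real.pi / e *
          (χ p.1 * ∑' g : ℤ, (tau g.natAbs : ℂ) * MT ρ χ N w p.1 p.2 g).re| ≤
      2 * Real.pi / e * (c * C₁) := by
    intro p hp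
    rw [← mul_sub, abs_mul, abs_of_nonneg (by positivity : (0 : ℝ) ≤ 2 * Real.pi / e)]
    exact mul_le_mul_of_nonneg_left (hone p hp) (by positivity)
  refine (Finset.sum_le_sum hterm).trans ?_
  rw [Finset.sum_const, nsmul_eq_mul]
  have hcard : (e.divisorsAntidiagonal.card : ℝ) = tau e := by
    unfold tau
    rw [← Nat.map_div_right_divisors, Finset.card_map]
  rw [hcard]
  have hcN : c * (N : ℝ) ^ ν = (N : ℝ) ^ (-(14 * ν)) := by
    rw [hc, ← Real.rpow_add hN0]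
    congr 1
    ring
  have hle : c * (2 * Real.pi * C₁) ≤ (N : ℝ) ^ (-(14 * ν)) := by
    rw [← hcN]
    exact mul_le_mul_of_nonneg_left (by linarith) hc0
  calc tau e * (2 * Real.pi / e * (c * C₁)) = (c * (2 * Real.pi * C₁)) * (tau e / e) := by ring
    _ ≤ (N : ℝ) ^ (-(14 * ν)) * (tau e / e) :=
        mul_le_mul_of_nonneg_right hle (div_nonneg (gd_tau_nonneg _) he0.le)
    _ = (N : ℝ) ^ (-(14 * ν)) * tau e / e := by ring

end Pool.Agent.LG
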