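import Pool.Agent.Lib_helper31.LG.Defs
import Pool.Agent.Lib_helper31.LKF.KQ
import Pool.Agent.Lib_helper61.FG.DivB
import Pool.Agent.Lib_helper31.LGF.GB
import Pool.Agent.Lib_helper31.LGF.GD

/-! LSP3, part G: the linear functional of the coefficients of a product. -/

set_option autoImplicit false

namespace Pool.Agent.LG

open Complex MeasureTheory Set ProbabilityTheory
open Pool.Agent.LSP (tau GG CC CB Gs sg1 QN sh OD)
open Pool.Agent.LSPO (KK cl GOK)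
open Pool.Agent.LK (KerC PQ V MT OM SH HH Qe hm)
open Pool.Agent.LE (xv HP SuppIn H2)
open Pool.Agent.LVB (IsST)

theorem ge_big (C : ℝ) {a : ℝ} (ha : 0 < a) : ∃ N₀ : ℕ, 1 ≤ N₀ ∧ ∀ N : ℕ, N₀ ≤ N →
    C ≤ (N : ℝ) ^ a := by
  have h : Filter.Tendsto (fun N : ℕ => (N : ℝ) ^ a) Filter.atTop Filter.atTop :=
    (tendsto_rpow_atTop ha).comp tendsto_natCast_atTop_atTop
  obtain ⟨N₀, hN₀⟩ := (h.eventually_ge_atTop C).exists_forall_of_atTop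
  exact ⟨max N₀ 1, le_max_right _ _, fun N hN => hN₀ N ((le_max_left _ _).trans hN)⟩

theorem ge_log {a : ℝ} (ha : 0 < a) {N : ℕ} (hN : 1 ≤ N) :
    1 + Real.log N ≤ (1 + 1 / a) * (N : ℝ) ^ a := by
  have h1 : (1 : ℝ) ≤ N := by exact_mod_cast hN
  have h2 := Real.log_le_rpow_div (by linarith : (0 : ℝ) ≤ N) ha
  have h3 : (1 : ℝ) ≤ (N : ℝ) ^ a := Real.one_le_rpow h1 ha.le
  rw [add_mul, one_mul, one_div_mul_eq_div]
  linarith

theorem ge_sqrt (M : ℕ) : ∑ e ∈ Finset.Icc 1 M, (e : ℝ) ^ (-(1 / 2) : ℝ) ≤ 2 * (M : ℝ) ^ (1 / 2 : ℝ) := by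
  induction M with
  | zero => simp
  | succ M ih =>
    rw [Finset.sum_Icc_succ_top (by omega)]
    have h0 : (0 : ℝ) ≤ M := Nat.cast_nonneg _
    have h1 : (0 : ℝ) < ((M + 1 : ℕ) : ℝ) := by positivity
    rw [← Real.sqrt_eq_rpow] at ih
    rw [Real.rpow_neg h1.le, ← Real.sqrt_eq_rpow]
    have h2 : 0 < Real.sqrt ((M + 1 : ℕ) : ℝ) := Real.sqrt_pos.2 h1
    have h3 : Real.sqrt (M : ℝ) ≤ Real.sqrt ((M + 1 : ℕ) : ℝ) :=
      Real.sqrt_le_sqrt (by push_cast; linarith)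
    have h4 : Real.sqrt (M : ℝ) ^ 2 = M := Real.sq_sqrt h0
    have h5 : Real.sqrt ((M + 1 : ℕ) : ℝ) ^ 2 = M + 1 := by
      rw [Real.sq_sqrt h1.le]; push_cast; ring
    have h6 : 0 ≤ Real.sqrt (M : ℝ) := Real.sqrt_nonneg _
    set s := Real.sqrt (M : ℝ)
    set t := Real.sqrt ((M + 1 : ℕ) : ℝ)
    have h7 : t⁻¹ ≤ 2 * (t - s) := by
      rw [inv_le_iff_one_le_mul₀ h2]
      nlinarith
    linarith

theorem ge_harm (M : ℕ) : ∑ e ∈ Finset.Icc 1 M, (1 : ℝ) / e ≤ 1 + Real.log M := by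
  have h := harmonic_le_one_add_log M
  have h2 : ((harmonic M : ℚ) : ℝ) = ∑ e ∈ Finset.Icc 1 M, (1 : ℝ) / e := by
    rw [harmonic_eq_sum_Icc]
    push_cast
    exact Finset.sum_congr rfl fun e _ => by rw [one_div]
  rw [← h2]
  exact h

/-- the three errors add up -/
theorem ge_sum {ν : ℝ} (h0 : 0 < ν) (h1 : ν ≤ 1 / 10 ^ 6) (C C1 : ℝ) (hC : 0 ≤ C) (hC1 : 0 < C1)
    (hτ : ∀ n : ℕ, 0 < n → (n.divisors.card : ℝ) ≤ C1 * (n : ℝ) ^ (ν / 300)) :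
    ∃ N₀ : ℕ, ∀ N : ℕ, N₀ ≤ N → ∀ q : ℕ, 1 ≤ q → (q : ℝ) ≤ (N : ℝ) ^ (ν / 100) → ∀ M : ℕ,
    (M : ℝ) ≤ (N : ℝ) ^ (1 / 2 + ν / 10) →
    (N : ℝ) ^ (ν / 100) * ∑ e ∈ Finset.Icc 1 M, ((N : ℝ) ^ (-(1 : ℝ)) +
      (N : ℝ) ^ (-(14 * ν)) * tau e / e + C * q ^ 2 * (N : ℝ) ^ (-(1 / 4) : ℝ) *
        (e : ℝ) ^ (-(1 / 2) : ℝ) * tau e ^ 5 * (1 + Real.log (q * N * e)) *
          ((N : ℝ) ^ ν) ^ (-(1 / 4) : ℝ)) ≤ (N : ℝ) ^ (-(ν / 9)) := by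
  obtain ⟨Na, hNa1, hNa⟩ := ge_big 3 (show (0 : ℝ) < 1 / 4 by norm_num)
  obtain ⟨Nb, hNb1, hNb⟩ := ge_big (3 * (C1 * (1 + 1 / (ν / 1000)))) (show (0 : ℝ) < 13 * ν by linarith)
  obtain ⟨Nc, hNc1, hNc⟩ := ge_big (3 * (C * C1 ^ 5 * (3 * (1 + 1 / (ν / 1000))) * 2))
    (show (0 : ℝ) < ν / 25 by linarith)
  refine ⟨max Na (max Nb Nc), fun N hN q hq1 hq M hM => ?_⟩
  have ha := hNa N ((le_max_left _ _).trans hN)
  have hb := hNb N (((le_max_left _ _).trans (le_max_right _ _)).trans hN)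
  have hc := hNc N (((le_max_right _ _).trans (le_max_right _ _)).trans hN)
  have hN1 : 1 ≤ N := hNa1.trans ((le_max_left _ _).trans hN)
  have hNr : (1 : ℝ) ≤ N := by exact_mod_cast hN1
  have hNp : (0 : ℝ) < N := by linarith
  have hq1' : (1 : ℝ) ≤ q := by exact_mod_cast hq1
  have mono : ∀ {a b : ℝ}, a ≤ b → (N : ℝ) ^ a ≤ (N : ℝ) ^ b := fun h =>
    Real.rpow_le_rpow_of_exponent_le hNr h
  have hMN : (M : ℝ) ≤ N := by
    refine hM.trans ((mono (by linarith : 1 / 2 + ν / 10 ≤ (1 : ℝ))).trans ?_)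
    rw [Real.rpow_one]
  have hlog := ge_log (show (0 : ℝ) < ν / 1000 by linarith) hN1
  have hL0 : 0 ≤ Real.log (N : ℝ) := Real.log_nonneg hNr
  set L := (1 + 1 / (ν / 1000)) with hL
  have hLp : 0 < L := by rw [hL]; positivity
  have hqN : (q : ℝ) ≤ N := by
    refine hq.trans ((mono (by linarith : ν / 100 ≤ (1 : ℝ))).trans ?_)
    rw [Real.rpow_one]
  -- pointwise bounds
  have hpt : ∀ e ∈ Finset.Icc 1 M, ((N : ℝ) ^ (-(1 : ℝ)) +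
      (N : ℝ) ^ (-(14 * ν)) * tau e / e + C * q ^ 2 * (N : ℝ) ^ (-(1 / 4) : ℝ) *
        (e : ℝ) ^ (-(1 / 2) : ℝ) * tau e ^ 5 * (1 + Real.log (q * N * e)) *
          ((N : ℝ) ^ ν) ^ (-(1 / 4) : ℝ)) ≤ (N : ℝ) ^ (-(1 : ℝ)) +
      (N : ℝ) ^ (-(14 * ν)) * (C1 * (N : ℝ) ^ (ν / 300)) * (1 / e) +
      (C * ((N : ℝ) ^ (ν / 100)) ^ 2 * (N : ℝ) ^ (-(1 / 4) : ℝ) * (C1 * (N : ℝ) ^ (ν / 300)) ^ 5 *
        (3 * (L * (N : ℝ) ^ (ν / 1000))) * ((N : ℝ) ^ ν) ^ (-(1 / 4) : ℝ)) *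
        (e : ℝ) ^ (-(1 / 2) : ℝ) := by
    intro e he
    rw [Finset.mem_Icc] at he
    have he1 : (1 : ℝ) ≤ e := by exact_mod_cast he.1
    have heN : (e : ℝ) ≤ N := (by exact_mod_cast he.2 : (e : ℝ) ≤ M).trans hMN
    have ht0 : 0 ≤ tau e := by unfold tau; positivity
    have ht : tau e ≤ C1 * (N : ℝ) ^ (ν / 300) := by
      refine (hτ e he.1).trans ?_
      gcongr
    have hlg : 1 + Real.log (q * N * e) ≤ 3 * (L * (N : ℝ) ^ (ν / 1000)) := by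
      have h2 : Real.log (q * N * e) ≤ 3 * Real.log N := by
        rw [Real.log_mul (by positivity) (by positivity), Real.log_mul (by positivity) hNp.ne']
        have h3 : Real.log q ≤ Real.log N := Real.log_le_log (by linarith) hqN
        have h4 : Real.log e ≤ Real.log N := Real.log_le_log (by linarith) heN
        linarith
      linarith
    have hlg0 : 0 ≤ 1 + Real.log (q * N * e) := by
      have : 0 ≤ Real.log (q * N * e) := Real.log_nonneg (by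
        have : (1 : ℝ) ≤ q * N := by nlinarith
        nlinarith)
      linarith
    have hb1 : (N : ℝ) ^ (-(14 * ν)) * tau e / e ≤
        (N : ℝ) ^ (-(14 * ν)) * (C1 * (N : ℝ) ^ (ν / 300)) * (1 / e) := by
      rw [mul_one_div]
      gcongr
    have hb2 : C * q ^ 2 * (N : ℝ) ^ (-(1 / 4) : ℝ) *
        (e : ℝ) ^ (-(1 / 2) : ℝ) * tau e ^ 5 * (1 + Real.log (q * N * e)) *
          ((N : ℝ) ^ ν) ^ (-(1 / 4) : ℝ) ≤
        (C * ((N : ℝ) ^ (ν / 100)) ^ 2 * (N : ℝ) ^ (-(1 / 4) : ℝ) *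
          (C1 * (N : ℝ) ^ (ν / 300)) ^ 5 *
        (3 * (L * (N : ℝ) ^ (ν / 1000))) * ((N : ℝ) ^ ν) ^ (-(1 / 4) : ℝ)) *
        (e : ℝ) ^ (-(1 / 2) : ℝ) := by
      have h5 : C * q ^ 2 * (N : ℝ) ^ (-(1 / 4) : ℝ) *
        (e : ℝ) ^ (-(1 / 2) : ℝ) * tau e ^ 5 * (1 + Real.log (q * N * e)) *
          ((N : ℝ) ^ ν) ^ (-(1 / 4) : ℝ) = (C * q ^ 2 * (N : ℝ) ^ (-(1 / 4) : ℝ) *
        tau e ^ 5 * (1 + Real.log (q * N * e)) *
          ((N : ℝ) ^ ν) ^ (-(1 / 4) : ℝ)) * (e : ℝ) ^ (-(1 / 2) : ℝ) := by ring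
      rw [h5]
      gcongr
    linarith
  refine (mul_le_mul_of_nonneg_left (Finset.sum_le_sum hpt) (by positivity)).trans ?_
  rw [Finset.sum_add_distrib, Finset.sum_add_distrib, ← Finset.mul_sum, ← Finset.mul_sum,
    Finset.sum_const, Nat.card_Icc, nsmul_eq_mul, Nat.add_sub_cancel, mul_add, mul_add]
  have third : ∀ {x y D : ℝ}, 0 ≤ D → 3 * D ≤ (N : ℝ) ^ (y - x) → D * (N : ℝ) ^ x ≤
      (1 / 3) * (N : ℝ) ^ y := by
    intro x y D hD h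
    have h6 : (N : ℝ) ^ y = (N : ℝ) ^ (y - x) * (N : ℝ) ^ x := by
      rw [← Real.rpow_add hNp]; congr 1; ring
    rw [h6]
    have h7 : 0 < (N : ℝ) ^ x := by positivity
    nlinarith
  have e1 : (N : ℝ) ^ (ν / 100) * (M * (N : ℝ) ^ (-(1 : ℝ))) ≤ 1 / 3 * (N : ℝ) ^ (-(ν / 9)) := by
    have h8 : (N : ℝ) ^ (ν / 100) * (M * (N : ℝ) ^ (-(1 : ℝ))) ≤
        1 * (N : ℝ) ^ (ν / 100 + (1 / 2 + ν / 10) + -(1 : ℝ)) := by
      rw [Real.rpow_add hNp, Real.rpow_add hNp, one_mul, mul_assoc]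
      gcongr
    refine h8.trans (third zero_le_one ?_)
    rw [mul_one]
    refine ha.trans (mono ?_)
    linarith
  have e2 : (N : ℝ) ^ (ν / 100) * ((N : ℝ) ^ (-(14 * ν)) * (C1 * (N : ℝ) ^ (ν / 300)) *
      ∑ e ∈ Finset.Icc 1 M, (1 : ℝ) / e) ≤ 1 / 3 * (N : ℝ) ^ (-(ν / 9)) := by
    have h9 : ∑ e ∈ Finset.Icc 1 M, (1 : ℝ) / e ≤ L * (N : ℝ) ^ (ν / 1000) := by
      rcases Nat.eq_zero_or_pos M with hM0 | hM0
      · rw [hM0]
        simp only [Finset.Icc_eq_empty_of_lt (by norm_num : (0 : ℕ) < 1), Finset.sum_empty]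
        positivity
      refine (ge_harm M).trans ((add_le_add le_rfl (Real.log_le_log ?_ hMN)).trans hlog)
      exact_mod_cast hM0
    have h10 : (N : ℝ) ^ (ν / 100) * ((N : ℝ) ^ (-(14 * ν)) * (C1 * (N : ℝ) ^ (ν / 300)) *
        ∑ e ∈ Finset.Icc 1 M, (1 : ℝ) / e) ≤
        (C1 * L) * (N : ℝ) ^ (ν / 100 + (-(14 * ν) + ν / 300 + ν / 1000)) := by
      rw [Real.rpow_add hNp, Real.rpow_add hNp, Real.rpow_add hNp]
      calc _ ≤ (N : ℝ) ^ (ν / 100) * ((N : ℝ) ^ (-(14 * ν)) * (C1 * (N : ℝ) ^ (ν / 300)) *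
          (L * (N : ℝ) ^ (ν / 1000))) := by gcongr
        _ = _ := by ring
    refine h10.trans (third (by positivity) (hb.trans (mono ?_)))
    linarith
  have e3 : (N : ℝ) ^ (ν / 100) * ((C * ((N : ℝ) ^ (ν / 100)) ^ 2 * (N : ℝ) ^ (-(1 / 4) : ℝ) *
      (C1 * (N : ℝ) ^ (ν / 300)) ^ 5 * (3 * (L * (N : ℝ) ^ (ν / 1000))) *
        ((N : ℝ) ^ ν) ^ (-(1 / 4) : ℝ)) *
      ∑ e ∈ Finset.Icc 1 M, (e : ℝ) ^ (-(1 / 2) : ℝ)) ≤ 1 / 3 * (N : ℝ) ^ (-(ν / 9)) := by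
    have h11 : ∑ e ∈ Finset.Icc 1 M, (e : ℝ) ^ (-(1 / 2) : ℝ) ≤
        2 * (N : ℝ) ^ ((1 / 2 + ν / 10) * (1 / 2 : ℝ)) := by
      refine (ge_sqrt M).trans ?_
      rw [Real.rpow_mul hNp.le]
      gcongr
    have h12 : ((N : ℝ) ^ (ν / 100)) ^ 2 = (N : ℝ) ^ (ν / 100 * 2) := by
      rw [Real.rpow_mul hNp.le]; norm_cast
    have h13 : ((N : ℝ) ^ (ν / 300)) ^ 5 = (N : ℝ) ^ (ν / 300 * 5) := by
      rw [Real.rpow_mul hNp.le]; norm_cast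
    rw [mul_pow, h12, h13, ← Real.rpow_mul hNp.le]
    have h14 : (N : ℝ) ^ (ν / 100) * ((C * (N : ℝ) ^ (ν / 100 * 2) * (N : ℝ) ^ (-(1 / 4) : ℝ) *
      (C1 ^ 5 * (N : ℝ) ^ (ν / 300 * 5)) * (3 * (L * (N : ℝ) ^ (ν / 1000))) *
        (N : ℝ) ^ (ν * -(1 / 4) : ℝ)) *
      ∑ e ∈ Finset.Icc 1 M, (e : ℝ) ^ (-(1 / 2) : ℝ)) ≤
        (C * C1 ^ 5 * (3 * L) * 2) * (N : ℝ) ^ (ν / 100 + (ν / 100 * 2 + -(1 / 4) + ν / 300 * 5 +
          ν / 1000 + ν * -(1 / 4) + (1 / 2 + ν / 10) * (1 / 2 : ℝ))) := by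
      rw [Real.rpow_add hNp, Real.rpow_add hNp, Real.rpow_add hNp, Real.rpow_add hNp,
        Real.rpow_add hNp, Real.rpow_add hNp]
      calc _ ≤ (N : ℝ) ^ (ν / 100) * ((C * (N : ℝ) ^ (ν / 100 * 2) * (N : ℝ) ^ (-(1 / 4) : ℝ) *
          (C1 ^ 5 * (N : ℝ) ^ (ν / 300 * 5)) * (3 * (L * (N : ℝ) ^ (ν / 1000))) *
            (N : ℝ) ^ (ν * -(1 / 4) : ℝ)) *
          (2 * (N : ℝ) ^ ((1 / 2 + ν / 10) * (1 / 2 : ℝ)))) := by gcongr
        _ = _ := by ring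
    refine h14.trans (third (by positivity) (le_trans (le_of_eq (by ring)) (hc.trans (mono ?_))))
    linarith
  linarith

theorem g_lin_pr (i : ℕ) {ν : ℝ} (h0 : 0 < ν) (h1 : ν ≤ 1 / 10 ^ 6) : ∃ N₀ : ℕ, ∀ N : ℕ,
    N₀ ≤ N → N.Prime → ∀ (q : ℕ) [NeZero q] (χ : DirichletCharacter ℂ q), PQ χ →
    χ (-(N : ZMod q)) = (-1) ^ i →
    ∀ (Y : ℝ) (A : ℕ), Par ν N q Y A → ∀ ρ : ℝ → ℝ, KerC ((N : ℝ) ^ ν) ρ → ∀ B E : ℕ, A ≤ E →
    1 + ((N : ℝ) ^ ν) ^ 2 ≤ B → ∀ z : ℕ → ℝ,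
    (∀ e, z e ≠ 0 → 1 ≤ e ∧ e ≤ E ∧ (e : ℝ) ≤ (N : ℝ) ^ (1 / 2 + ν / 10)) →
    (∀ e, |z e| ≤ (N : ℝ) ^ (ν / 100)) →
    |∑ n ∈ Finset.Icc 1 (E ^ 2), CB E (xv χ i Y A) z n *
        (tau n * Real.log (N / (4 * Real.pi ^ 2 * n)) +
          2 * Real.pi * ∑ g ∈ Gs B E, tau g.natAbs * tau ((n : ℤ) - g * N).natAbs *
            GG ρ ((g : ℝ) * N / n)) -
      ∑ e ∈ Finset.Icc 1 E, z e * (Ai χ i N e Y).re| ≤ (N : ℝ) ^ (-(ν / 9)) := by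
  obtain ⟨C, hC⟩ := Pool.Agent.LK.k_main_pr i
  obtain ⟨C1, hC1, hτ⟩ := Pool.Agent.FG61.divisor_bound (show (0 : ℝ) < ν / 300 by linarith)
  obtain ⟨Na, hNa⟩ := ge_sum h0 h1 |C| C1 (abs_nonneg C) hC1 hτ
  obtain ⟨Nb, hNb⟩ := g_diag_pr i h0 h1
  obtain ⟨Nc, hNc⟩ := g_om_pr i h0 h1
  obtain ⟨Nd, hNd1, hNd⟩ := ge_big 4 h0
  refine ⟨max (max Na Nb) (max Nc Nd), fun N hN hNp q _ χ hχ hs Y A hP ρ hρ B E hAE hB z hz hzb => ?_⟩
  have la : Na ≤ N := ((le_max_left _ _).trans (le_max_left _ _)).trans hN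
  have lb : Nb ≤ N := ((le_max_right _ _).trans (le_max_left _ _)).trans hN
  have lc : Nc ≤ N := ((le_max_left _ _).trans (le_max_right _ _)).trans hN
  have ld : Nd ≤ N := ((le_max_right _ _).trans (le_max_right _ _)).trans hN
  have hN1 : 1 ≤ N := hNp.one_lt.le
  have hNr : (1 : ℝ) ≤ N := by exact_mod_cast hN1
  have hN0 : (0 : ℝ) < N := by linarith
  have hq1 : 1 ≤ q := Nat.one_le_iff_ne_zero.2 (NeZero.ne q)
  set M : ℕ := ⌊(N : ℝ) ^ (1 / 2 + ν / 10)⌋₊ with hM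
  have hM' : (M : ℝ) ≤ (N : ℝ) ^ (1 / 2 + ν / 10) := Nat.floor_le (by positivity)
  have hxs : ∀ e, xv χ i Y A e ≠ 0 → 1 ≤ e ∧ e ≤ E := by
    intro e he
    unfold xv at he
    by_cases h : 1 ≤ e ∧ e ≤ A
    · exact ⟨h.1, h.2.trans hAE⟩
    · rw [if_neg h] at he
      exact absurd rfl he
  have hzs : ∀ e, z e ≠ 0 → 1 ≤ e ∧ e ≤ E := fun e he => ⟨(hz e he).1, (hz e he).2.1⟩
  rw [Pool.Agent.LK.hc_lin (by rw [sq]) hxs hzs, ← Finset.sum_sub_distrib]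
  -- the error of one index
  have hone : ∀ e : ℕ, z e ≠ 0 → |(∑ p ∈ e.divisorsAntidiagonal, ∑ a ∈ Finset.Icc 1 E,
      xv χ i Y A (p.1 * a) / (p.1 * a * p.2) *
        (tau (a * p.2) * Real.log (N / (4 * Real.pi ^ 2 * ((a * p.2 : ℕ) : ℝ))) +
          2 * Real.pi * ∑ g ∈ Gs B E, tau g.natAbs * tau (((a * p.2 : ℕ) : ℤ) - g * N).natAbs *
            GG ρ ((g : ℝ) * N / ((a * p.2 : ℕ) : ℝ)))) - (Ai χ i N e Y).re| ≤
      (N : ℝ) ^ (-(1 : ℝ)) +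
      (N : ℝ) ^ (-(14 * ν)) * tau e / e + |C| * q ^ 2 * (N : ℝ) ^ (-(1 / 4) : ℝ) *
        (e : ℝ) ^ (-(1 / 2) : ℝ) * tau e ^ 5 * (1 + Real.log (q * N * e)) *
          ((N : ℝ) ^ ν) ^ (-(1 / 4) : ℝ) := by
    intro e hze
    obtain ⟨he1, heE, heM⟩ := hz e hze
    have heN : e ≤ N := by
      have : (e : ℝ) ≤ N := by
        refine heM.trans ?_
        calc (N : ℝ) ^ (1 / 2 + ν / 10) ≤ (N : ℝ) ^ (1 : ℝ) :=
              Real.rpow_le_rpow_of_exponent_le hNr (by linarith)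
          _ = N := Real.rpow_one _
      exact_mod_cast this
    have hd := hNb N lb q χ hχ Y A hP E hAE e he1 heN
    have ho := hNc N lc hNp q χ hχ Y A hP ρ hρ B E hAE hB e he1 heE heM
    have hk := hC q χ hχ ((N : ℝ) ^ ν) (hNd N ld) ρ hρ N e hN1 he1 hs Y hP.Y_eq
    have her : (1 : ℝ) ≤ e := by exact_mod_cast he1
    have hqr : (1 : ℝ) ≤ q := by exact_mod_cast hq1
    have hlg0 : 0 ≤ 1 + Real.log (q * N * e) := by
      have : 0 ≤ Real.log (q * N * e) := Real.log_nonneg (by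
        have : (1 : ℝ) ≤ q * N := by nlinarith
        nlinarith)
      linarith
    have ht0 : 0 ≤ tau e := by unfold tau; positivity
    have hk2 : |(SH χ N (fun y => V i (y / Y)) e).re + (OM ρ χ N (fun y => V i (y / Y)) e).re -
        (Ai χ i N e Y).re| ≤ |C| * q ^ 2 * (N : ℝ) ^ (-(1 / 4) : ℝ) *
        (e : ℝ) ^ (-(1 / 2) : ℝ) * tau e ^ 5 * (1 + Real.log (q * N * e)) *
          ((N : ℝ) ^ ν) ^ (-(1 / 4) : ℝ) := by
      have h2 := (Complex.abs_re_le_norm _).trans hk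
      rw [Complex.sub_re, Complex.add_re] at h2
      refine h2.trans ?_
      gcongr
      exact le_abs_self C
    have hsplit : (∑ p ∈ e.divisorsAntidiagonal, ∑ a ∈ Finset.Icc 1 E,
      xv χ i Y A (p.1 * a) / (p.1 * a * p.2) *
        (tau (a * p.2) * Real.log (N / (4 * Real.pi ^ 2 * ((a * p.2 : ℕ) : ℝ))) +
          2 * Real.pi * ∑ g ∈ Gs B E, tau g.natAbs * tau (((a * p.2 : ℕ) : ℤ) - g * N).natAbs *
            GG ρ ((g : ℝ) * N / ((a * p.2 : ℕ) : ℝ)))) =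
      (∑ p ∈ e.divisorsAntidiagonal, ∑ a ∈ Finset.Icc 1 E,
      xv χ i Y A (p.1 * a) / (p.1 * a * p.2) *
        (tau (a * p.2) * Real.log (N / (4 * Real.pi ^ 2 * ((a * p.2 : ℕ) : ℝ))))) +
      ∑ p ∈ e.divisorsAntidiagonal, ∑ a ∈ Finset.Icc 1 E,
      xv χ i Y A (p.1 * a) / (p.1 * a * p.2) *
        (2 * Real.pi * ∑ g ∈ Gs B E, tau g.natAbs * tau (((a * p.2 : ℕ) : ℤ) - g * N).natAbs *
            GG ρ ((g : ℝ) * N / ((a * p.2 : ℕ) : ℝ))) := by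
      rw [← Finset.sum_add_distrib]
      refine Finset.sum_congr rfl fun p _ => ?_
      rw [← Finset.sum_add_distrib]
      exact Finset.sum_congr rfl fun a _ => by rw [mul_add]
    rw [hsplit]
    rw [abs_le] at hd ho hk2 ⊢
    constructor <;> linarith [hd.1, hd.2, ho.1, ho.2, hk2.1, hk2.2]
  refine (Finset.abs_sum_le_sum_abs _ _).trans ?_
  refine le_trans ?_ (hNa N la q hq1 hP.q_le M hM')
  rw [Finset.mul_sum]
  have hnn : ∀ e : ℕ, 1 ≤ e → 0 ≤ (N : ℝ) ^ (-(1 : ℝ)) +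
      (N : ℝ) ^ (-(14 * ν)) * tau e / e + |C| * q ^ 2 * (N : ℝ) ^ (-(1 / 4) : ℝ) *
        (e : ℝ) ^ (-(1 / 2) : ℝ) * tau e ^ 5 * (1 + Real.log (q * N * e)) *
          ((N : ℝ) ^ ν) ^ (-(1 / 4) : ℝ) := by
    intro e he1
    have her : (1 : ℝ) ≤ e := by exact_mod_cast he1
    have hqr : (1 : ℝ) ≤ q := by exact_mod_cast hq1
    have ht0 : 0 ≤ tau e := by unfold tau; positivity
    have hlg0 : 0 ≤ 1 + Real.log (q * N * e) := by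
      have : 0 ≤ Real.log (q * N * e) := Real.log_nonneg (by
        have : (1 : ℝ) ≤ q * N := by nlinarith
        nlinarith)
      linarith
    positivity
  have hterm : ∀ e : ℕ, e ∈ Finset.Icc 1 E → e ∉ Finset.Icc 1 M → z e = 0 := by
    intro e he hne
    by_contra hc
    obtain ⟨he1, heE, heM⟩ := hz e hc
    exact hne (Finset.mem_Icc.2 ⟨he1, Nat.le_floor heM⟩)
  calc ∑ e ∈ Finset.Icc 1 E, |_| ≤ ∑ e ∈ Finset.Icc 1 E, (if e ∈ Finset.Icc 1 M then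
        (N : ℝ) ^ (ν / 100) * ((N : ℝ) ^ (-(1 : ℝ)) +
      (N : ℝ) ^ (-(14 * ν)) * tau e / e + |C| * q ^ 2 * (N : ℝ) ^ (-(1 / 4) : ℝ) *
        (e : ℝ) ^ (-(1 / 2) : ℝ) * tau e ^ 5 * (1 + Real.log (q * N * e)) *
          ((N : ℝ) ^ ν) ^ (-(1 / 4) : ℝ)) else 0) := by
        refine Finset.sum_le_sum fun e he => ?_
        have he1 : 1 ≤ e := (Finset.mem_Icc.1 he).1
        by_cases hze : z e = 0
        · rw [hze, zero_mul, zero_mul, sub_zero, abs_zero]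
          split_ifs
          · exact mul_nonneg (by positivity) (hnn e he1)
          · exact le_rfl
        · have hm : e ∈ Finset.Icc 1 M := by
            by_contra hc
            exact hze (hterm e he hc)
          rw [if_pos hm, ← mul_sub, abs_mul]
          exact mul_le_mul (hzb e) (hone e hze) (abs_nonneg _) (by positivity)
    _ ≤ _ := by
        rw [← Finset.sum_filter]
        refine Finset.sum_le_sum_of_subset_of_nonneg ?_ ?_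
        · intro e he
          exact (Finset.mem_filter.1 he).2
        · intro e he _
          exact mul_nonneg (by positivity) (hnn e (Finset.mem_Icc.1 he).1)

end Pool.Agent.LG
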