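import Pool.Agent.Lib_helper31.LG.Defs
import Pool.Agent.Lib_helper31.LGF.GA
import Pool.Agent.Lib_helper31.LGF.GE
import Pool.Agent.Lib_helper41.LSP3.SE
import Pool.Agent.Lib_helper53.LEF.EB
import Pool.Agent.Lib_helper53.LEF.ED

/-! LSP3, part G: the quadratic form. -/

set_option autoImplicit false

namespace Pool.Agent.LG

open Complex MeasureTheory Set ProbabilityTheory
open Pool.Agent.LSP (tau GG CC CB Gs sg1 QN sh OD)
open Pool.Agent.LSPO (KK cl GOK)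
open Pool.Agent.LK (KerC PQ V MT OM SH HH Qe hm)
open Pool.Agent.LE (xv HP SuppIn H2)
open Pool.Agent.LVB (IsST)

theorem gf_hm (E : ℕ) (x y : ℕ → ℝ) : HP E x y = hm E x y := rfl

/-- linearity in the first vector -/
theorem gf_hp_sum (E : ℕ) (J : Finset ℕ) (θ : ℕ → ℝ) (x : ℕ → ℕ → ℝ) (y : ℕ → ℝ) (n : ℕ) :
    HP E (fun e => ∑ i ∈ J, θ i * x i e) y n = ∑ i ∈ J, θ i * HP E (x i) y n := by
  unfold HP
  have h1 : ∀ j : ℕ, ∑ p ∈ n.divisorsAntidiagonal, (∑ i ∈ J, θ i * x i (j * p.1)) * y (j * p.2) =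
      ∑ i ∈ J, θ i * ∑ p ∈ n.divisorsAntidiagonal, x i (j * p.1) * y (j * p.2) := by
    intro j
    simp only [Finset.mul_sum, Finset.sum_mul]
    rw [Finset.sum_comm]
    exact Finset.sum_congr rfl fun i _ => Finset.sum_congr rfl fun p _ => by ring
  simp only [h1, Finset.mul_sum]
  rw [Finset.sum_comm]
  refine Finset.sum_congr rfl fun i _ => Finset.sum_congr rfl fun j _ =>
    Finset.sum_congr rfl fun p _ => ?_
  ring

theorem gf_cb_sum (E : ℕ) (J : Finset ℕ) (θ : ℕ → ℝ) (x : ℕ → ℕ → ℝ) (y : ℕ → ℝ) (n : ℕ) :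
    CB E (fun e => ∑ i ∈ J, θ i * x i e) y n = ∑ i ∈ J, θ i * CB E (x i) y n := by
  simp only [Pool.Agent.LK.hb_cb]
  have := gf_hp_sum E J θ x y n
  rw [gf_hm] at this
  rw [this, Finset.sum_div]
  refine Finset.sum_congr rfl fun i _ => ?_
  rw [mul_div_assoc]
  rfl

/-- the size of the coefficients of a square -/
theorem gf_cc {E : ℕ} {x : ℕ → ℝ} {X C1 ε : ℝ} (hX : ∀ e, |x e| ≤ X) (hε : 0 < ε) (hC1 : 0 < C1)
    (hτ : ∀ n : ℕ, 0 < n → (n.divisors.card : ℝ) ≤ C1 * (n : ℝ) ^ ε) (hE : 1 ≤ E) :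
    ∑ n ∈ Finset.Icc 1 (E ^ 2), |CC E x n| * tau n ≤
      X ^ 2 * (1 + Real.log E) * (C1 ^ 2 * (E : ℝ) ^ (4 * ε) * (1 + 2 * Real.log E)) := by
  have hX0 : 0 ≤ X := (abs_nonneg _).trans (hX 0)
  have hEr : (1 : ℝ) ≤ E := by exact_mod_cast hE
  have hpt : ∀ n ∈ Finset.Icc 1 (E ^ 2), |CC E x n| * tau n ≤
      (X ^ 2 * (1 + Real.log E) * (C1 ^ 2 * (E : ℝ) ^ (4 * ε))) * (1 / n) := by
    intro n hn
    rw [Finset.mem_Icc] at hn
    have hnr : (1 : ℝ) ≤ n := by exact_mod_cast hn.1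
    have h1 : |CC E x n| ≤ X ^ 2 * (1 + Real.log E) * (tau n * (1 / n)) := by
      unfold CC
      refine (Finset.abs_sum_le_sum_abs _ _).trans ?_
      have h2 : ∀ j ∈ Finset.Icc 1 E, |(1 / (j : ℝ)) * ∑ p ∈ n.divisorsAntidiagonal,
          x (j * p.1) * x (j * p.2) / n| ≤ (1 / (j : ℝ)) * (X ^ 2 * (tau n * (1 / n))) := by
        intro j hj
        rw [abs_mul, abs_of_nonneg (by positivity : (0 : ℝ) ≤ 1 / j)]
        refine mul_le_mul_of_nonneg_left ?_ (by positivity)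
        refine (Finset.abs_sum_le_sum_abs _ _).trans ?_
        have h3 : ∀ p ∈ n.divisorsAntidiagonal, |x (j * p.1) * x (j * p.2) / n| ≤
            X ^ 2 * (1 / n) := by
          intro p _
          rw [abs_div, abs_mul, Nat.abs_cast, mul_one_div]
          have := mul_le_mul (hX (j * p.1)) (hX (j * p.2)) (abs_nonneg _) hX0
          rw [← sq] at this
          gcongr
        refine (Finset.sum_le_sum h3).trans ?_
        rw [Nat.sum_divisorsAntidiagonal (fun _ _ => X ^ 2 * (1 / (n : ℝ))), Finset.sum_const,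
          nsmul_eq_mul]
        unfold tau
        exact le_of_eq (by ring)
      refine (Finset.sum_le_sum h2).trans ?_
      rw [← Finset.sum_mul]
      have h4 := ge_harm E
      have h5 : 0 ≤ tau n * (1 / (n : ℝ)) := by unfold tau; positivity
      calc _ ≤ (1 + Real.log E) * (X ^ 2 * (tau n * (1 / n))) := by gcongr
        _ = _ := by ring
    have h6 : tau n ≤ C1 * (n : ℝ) ^ ε := hτ n hn.1
    have h7 : (n : ℝ) ^ ε ≤ (E : ℝ) ^ (2 * ε) := by
      rw [Real.rpow_mul (by linarith)]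
      have : (n : ℝ) ≤ (E : ℝ) ^ (2 : ℝ) := by
        rw [Real.rpow_two]
        exact_mod_cast hn.2
      gcongr
    have h8 : tau n ≤ C1 * (E : ℝ) ^ (2 * ε) := h6.trans (by gcongr)
    have h9 : 0 ≤ tau n := by unfold tau; positivity
    have h10 : 0 ≤ Real.log E := Real.log_nonneg hEr
    have h11 : ((E : ℝ) ^ (2 * ε)) ^ 2 = (E : ℝ) ^ (4 * ε) := by
      rw [← Real.rpow_natCast, ← Real.rpow_mul (by linarith)]
      congr 1
      push_cast
      ring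
    calc |CC E x n| * tau n ≤ (X ^ 2 * (1 + Real.log E) * (tau n * (1 / n))) * tau n := by gcongr
      _ = X ^ 2 * (1 + Real.log E) * (tau n ^ 2 * (1 / n)) := by ring
      _ ≤ X ^ 2 * (1 + Real.log E) * ((C1 * (E : ℝ) ^ (2 * ε)) ^ 2 * (1 / n)) := by gcongr
      _ = _ := by rw [mul_pow, h11]; ring
  refine (Finset.sum_le_sum hpt).trans ?_
  rw [← Finset.mul_sum]
  have h12 := ge_harm (E ^ 2)
  have h13 : Real.log ((E ^ 2 : ℕ) : ℝ) = 2 * Real.log E := by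
    push_cast
    rw [Real.log_pow]
    norm_num
  rw [h13] at h12
  have h10 : 0 ≤ Real.log E := Real.log_nonneg hEr
  calc _ ≤ (X ^ 2 * (1 + Real.log E) * (C1 ^ 2 * (E : ℝ) ^ (4 * ε))) * (1 + 2 * Real.log E) := by
        gcongr
    _ = _ := by ring

/-- the size of the twists -/
theorem gf_xv (J : Finset ℕ) {ν : ℝ} (h0 : 0 < ν) (h1 : ν ≤ 1 / 10 ^ 6) : ∃ N₀ : ℕ, ∀ N : ℕ,
    N₀ ≤ N → ∀ (q : ℕ) [NeZero q] (χ : DirichletCharacter ℂ q) (Y : ℝ) (A : ℕ), Par ν N q Y A →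
    ∀ θ : ℕ → ℝ, (∀ i ∈ J, |θ i| ≤ (N : ℝ) ^ (ν / 2000)) → ∀ e : ℕ,
    |∑ i ∈ J, θ i * xv χ i Y A e| ≤ (N : ℝ) ^ (ν / 1000) := by
  choose C hC1 hC using v_facts_pr
  set m : ℕ := J.sup id with hm
  set a : ℝ := ν / (8000 * (m + 1)) with ha
  have ha0 : 0 < a := by rw [ha]; positivity
  set L : ℝ := 1 + 1 / a with hL
  have hL1 : 1 ≤ L := by
    have : 0 < 1 / a := by positivity
    linarith
  obtain ⟨N₀, hN₀1, hN₀⟩ := ge_big (∑ i ∈ J, C i * L ^ i) (show (0 : ℝ) < ν / 8000 by linarith)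
  refine ⟨N₀, fun N hN q _ χ Y A hP θ hθ e => ?_⟩
  have hN1 : 1 ≤ N := hN₀1.trans hN
  have hNr : (1 : ℝ) ≤ N := by exact_mod_cast hN1
  have hN0 : (0 : ℝ) < N := by linarith
  have hq1 : (1 : ℝ) ≤ q := by exact_mod_cast Nat.one_le_iff_ne_zero.2 (NeZero.ne q)
  have mono : ∀ {a b : ℝ}, a ≤ b → (N : ℝ) ^ a ≤ (N : ℝ) ^ b := fun h =>
    Real.rpow_le_rpow_of_exponent_le hNr h
  have hsq : Real.sqrt N = (N : ℝ) ^ (1 / 2 : ℝ) := Real.sqrt_eq_rpow _
  have hs1 : 1 ≤ Real.sqrt N := Real.one_le_sqrt.2 hNr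
  have hY1 : 1 ≤ Y := by rw [hP.Y_eq]; nlinarith
  have hYN : Y ≤ N := by
    rw [hP.Y_eq, hsq]
    calc (q : ℝ) * (N : ℝ) ^ (1 / 2 : ℝ) ≤ (N : ℝ) ^ (ν / 100) * (N : ℝ) ^ (1 / 2 : ℝ) := by
          gcongr
          exact hP.q_le
      _ = (N : ℝ) ^ (ν / 100 + 1 / 2) := by rw [Real.rpow_add hN0]
      _ ≤ (N : ℝ) ^ (1 : ℝ) := mono (by linarith)
      _ = N := Real.rpow_one _
  have hlN : 0 ≤ Real.log N := Real.log_nonneg hNr
  have hxv : ∀ i ∈ J, |xv χ i Y A e| ≤ C i * L ^ i * (N : ℝ) ^ (ν / 8000) := by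
    intro i hi
    have hCi := hC1 i
    have hpos : 0 ≤ C i * L ^ i * (N : ℝ) ^ (ν / 8000) := by positivity
    unfold xv
    split_ifs with h
    · have he1 : (1 : ℝ) ≤ e := by exact_mod_cast h.1
      have heA : (e : ℝ) ≤ A := by exact_mod_cast h.2
      have hy : 0 < (e : ℝ) / Y := by positivity
      obtain ⟨hv0, hv1⟩ := (hC i).1 _ hy
      have hlog : |Real.log (e / Y)| ≤ Real.log N := by
        rw [abs_le]
        constructor
        · rw [Real.log_div (by positivity) (by positivity)]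
          have h2 : Real.log Y ≤ Real.log N := Real.log_le_log (by linarith) hYN
          have h3 : 0 ≤ Real.log e := Real.log_nonneg he1
          linarith
        · refine Real.log_le_log hy ?_
          rw [div_le_iff₀ (by linarith)]
          refine heA.trans (hP.A_le.trans ?_)
          rw [mul_comm]
          have : (N : ℝ) ^ (ν / 50) ≤ N := (mono (by linarith : ν / 50 ≤ 1)).trans_eq
            (Real.rpow_one _)
          gcongr
      have hi' : (i : ℝ) ≤ m := by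
        have : id i ≤ J.sup id := Finset.le_sup (f := id) hi
        exact_mod_cast this
      have h4 : 1 + |Real.log (e / Y)| ≤ L * (N : ℝ) ^ a :=
        (add_le_add le_rfl hlog).trans (ge_log ha0 hN1)
      have h5 : (1 + |Real.log (e / Y)|) ^ i ≤ L ^ i * (N : ℝ) ^ (ν / 8000) := by
        calc (1 + |Real.log (e / Y)|) ^ i ≤ (L * (N : ℝ) ^ a) ^ i := by gcongr
          _ = L ^ i * (N : ℝ) ^ (a * i) := by
              rw [mul_pow, Real.rpow_mul hN0.le, Real.rpow_natCast]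
          _ ≤ L ^ i * (N : ℝ) ^ (ν / 8000) := by
              refine mul_le_mul_of_nonneg_left (mono ?_) (by positivity)
              rw [ha, div_mul_eq_mul_div, div_le_div_iff₀ (by positivity) (by positivity)]
              nlinarith
      have h6 : Real.exp (-(e / Y : ℝ)) ≤ 1 := Real.exp_le_one_iff.2 (by linarith)
      have h7 : |(χ e).re| ≤ 1 := (Complex.abs_re_le_norm _).trans (DirichletCharacter.norm_le_one _ _)
      rw [abs_mul, abs_of_nonneg hv0]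
      calc |(χ e).re| * V i (e / Y) ≤ 1 * (C i * (1 + |Real.log (e / Y)|) ^ i *
            Real.exp (-(e / Y : ℝ))) := by gcongr
        _ ≤ 1 * (C i * (1 + |Real.log (e / Y)|) ^ i * 1) := by gcongr
        _ = C i * (1 + |Real.log (e / Y)|) ^ i := by ring
        _ ≤ C i * (L ^ i * (N : ℝ) ^ (ν / 8000)) := by gcongr
        _ = _ := by ring
    · rw [abs_zero]; exact hpos
  refine (Finset.abs_sum_le_sum_abs _ _).trans ?_
  calc ∑ i ∈ J, |θ i * xv χ i Y A e| ≤ ∑ i ∈ J, (N : ℝ) ^ (ν / 2000) *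
        (C i * L ^ i * (N : ℝ) ^ (ν / 8000)) := by
        refine Finset.sum_le_sum fun i hi => ?_
        rw [abs_mul]
        exact mul_le_mul (hθ i hi) (hxv i hi) (abs_nonneg _) (by positivity)
    _ = (N : ℝ) ^ (ν / 2000) * (N : ℝ) ^ (ν / 8000) * ∑ i ∈ J, C i * L ^ i := by
        rw [Finset.mul_sum]
        exact Finset.sum_congr rfl fun i _ => by ring
    _ ≤ (N : ℝ) ^ (ν / 2000) * (N : ℝ) ^ (ν / 8000) * (N : ℝ) ^ (ν / 8000) := by
        have := hN₀ N hN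
        gcongr
    _ = (N : ℝ) ^ (ν / 2000 + ν / 8000 + ν / 8000) := by
        rw [Real.rpow_add hN0, Real.rpow_add hN0]
    _ ≤ _ := mono (by linarith)

theorem g_quad_pr (J : Finset ℕ) {ν : ℝ} (h0 : 0 < ν) (h1 : ν ≤ 1 / 10 ^ 6) : ∃ N₀ : ℕ, ∀ N : ℕ,
    N₀ ≤ N → N.Prime → ∀ (q : ℕ) [NeZero q] (χ : DirichletCharacter ℂ q), PQ χ →
    (∀ i ∈ J, χ (-(N : ZMod q)) = (-1) ^ i) →
    ∀ (Y : ℝ) (A : ℕ), Par ν N q Y A → ∀ ρ : ℝ → ℝ, KerC ((N : ℝ) ^ ν) ρ →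
    ∀ K : ℕ, 1 ≤ K → (K : ℝ) ≤ (N : ℝ) ^ (ν / 2000) → ∀ b : ℕ → ℝ, SuppIn K b →
    (∀ k, |b k| ≤ (N : ℝ) ^ (ν / 2000)) → ∀ θ : ℕ → ℝ, (∀ i ∈ J, |θ i| ≤ (N : ℝ) ^ (ν / 2000)) →
    ∀ B E : ℕ, A * K ^ 2 ≤ E → E ≤ N → 1 + ((N : ℝ) ^ ν) ^ 2 ≤ B → ∀ x : ℕ → ℝ,
    x = HP E (fun e => ∑ i ∈ J, θ i * xv χ i Y A e) b →
    ∑ e ∈ Finset.Icc 1 E, x e * sg1 e / e = 0 →
    |QN ρ ((N : ℝ) ^ ν) B E x N - ∑ i ∈ J, ∑ i' ∈ J, θ i * θ i' *
      ∑ e ∈ Finset.Icc 1 E, HP E (xv χ i' Y A) (HP E b b) e * (Ai χ i N e Y).re| ≤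
      (N : ℝ) ^ (-(ν / 10)) := by
  choose Ng hNg using fun i => g_lin_pr i h0 h1
  obtain ⟨Nx, hNx⟩ := gf_xv J h0 h1
  obtain ⟨C, hC⟩ := Pool.Agent.LSP.sh_close_fin
  obtain ⟨C1, hC1, hτ⟩ := Pool.Agent.FG61.divisor_bound (show (0 : ℝ) < ν / 2000 by linarith)
  obtain ⟨N4, hN41, hN4⟩ := ge_big 4 h0
  obtain ⟨Na, hNa1, hNa⟩ := ge_big (2 * J.card) (show (0 : ℝ) < ν / 100 by linarith)
  set L : ℝ := 1 + 1 / (ν / 1000) with hL
  have hLp : 0 < L := by rw [hL]; positivity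
  obtain ⟨Nb, hNb1, hNb⟩ := ge_big (2 * (|C| * (3 * L) * L * C1 ^ 2 * (2 * L)))
    (show (0 : ℝ) < ν / 10 by linarith)
  refine ⟨max (max (J.sup Ng) Nx) (max N4 (max Na Nb)), fun N hN hNp q _ χ hχ hs Y A hP ρ hρ K hK1 hK
    b hb hbb θ hθ B E hE hEN hB x hx hz0 => ?_⟩
  have lg : ∀ i ∈ J, Ng i ≤ N := fun i hi =>
    (Finset.le_sup (f := Ng) hi).trans (((le_max_left _ _).trans (le_max_left _ _)).trans hN)
  have lx : Nx ≤ N := ((le_max_right _ _).trans (le_max_left _ _)).trans hN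
  have l4 : N4 ≤ N := ((le_max_left _ _).trans (le_max_right _ _)).trans hN
  have la : Na ≤ N := (((le_max_left _ _).trans (le_max_right _ _)).trans (le_max_right _ _)).trans hN
  have lb : Nb ≤ N := (((le_max_right _ _).trans (le_max_right _ _)).trans (le_max_right _ _)).trans hN
  have hN1 : 1 ≤ N := hNp.one_lt.le
  have hNr : (1 : ℝ) ≤ N := by exact_mod_cast hN1
  have hN0 : (0 : ℝ) < N := by linarith
  have mono : ∀ {a b : ℝ}, a ≤ b → (N : ℝ) ^ a ≤ (N : ℝ) ^ b := fun h =>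
    Real.rpow_le_rpow_of_exponent_le hNr h
  have hq1 : (1 : ℝ) ≤ q := by exact_mod_cast Nat.one_le_iff_ne_zero.2 (NeZero.ne q)
  set u : ℕ → ℝ := fun e => ∑ i ∈ J, θ i * xv χ i Y A e with hu
  have hxvs : ∀ i, SuppIn A (xv χ i Y A) := by
    intro i e he
    unfold xv at he
    by_cases h : 1 ≤ e ∧ e ≤ A
    · exact h
    · rw [if_neg h] at he
      exact absurd rfl he
  have hus : SuppIn A u := by
    intro e he
    by_contra h
    apply he
    rw [hu]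
    refine Finset.sum_eq_zero fun i _ => ?_
    have : xv χ i Y A e = 0 := by
      by_contra h2
      exact h (hxvs i e h2)
    rw [this, mul_zero]
  have hub : ∀ e, |u e| ≤ (N : ℝ) ^ (ν / 1000) := fun e => hNx N lx q χ Y A hP θ hθ e
  have hK2 : (K : ℝ) ^ 2 ≤ (N : ℝ) ^ (ν / 1000) := by
    calc (K : ℝ) ^ 2 ≤ ((N : ℝ) ^ (ν / 2000)) ^ 2 := by gcongr
      _ = (N : ℝ) ^ (ν / 1000) := by
        rw [← Real.rpow_natCast, ← Real.rpow_mul hN0.le]
        congr 1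
        push_cast
        ring
  have hxs : SuppIn (A * K) x := hx ▸ Pool.Agent.LE.hp_supp_pr hus hb
  have hxb : ∀ e, |x e| ≤ (N : ℝ) ^ (ν / 400) := by
    intro e
    rw [hx]
    refine (Pool.Agent.LE.hp_abs_pr hus hb hub hbb e).trans ?_
    calc (N : ℝ) ^ (ν / 1000) * (N : ℝ) ^ (ν / 2000) * (K : ℝ) ^ 2 ≤
        (N : ℝ) ^ (ν / 1000) * (N : ℝ) ^ (ν / 2000) * (N : ℝ) ^ (ν / 1000) := by gcongr
      _ = (N : ℝ) ^ (ν / 1000 + ν / 2000 + ν / 1000) := by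
        rw [Real.rpow_add hN0, Real.rpow_add hN0]
      _ ≤ _ := mono (by linarith)
  set z : ℕ → ℝ := HP E x b with hz
  have hzs : SuppIn (A * K * K) z := Pool.Agent.LE.hp_supp_pr hxs hb
  have hzb : ∀ e, |z e| ≤ (N : ℝ) ^ (ν / 100) := by
    intro e
    refine (Pool.Agent.LE.hp_abs_pr hxs hb hxb hbb e).trans ?_
    calc (N : ℝ) ^ (ν / 400) * (N : ℝ) ^ (ν / 2000) * (K : ℝ) ^ 2 ≤
        (N : ℝ) ^ (ν / 400) * (N : ℝ) ^ (ν / 2000) * (N : ℝ) ^ (ν / 1000) := by gcongr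
      _ = (N : ℝ) ^ (ν / 400 + ν / 2000 + ν / 1000) := by
        rw [Real.rpow_add hN0, Real.rpow_add hN0]
      _ ≤ _ := mono (by linarith)
  have hAKK : A * K * K ≤ E := by
    calc A * K * K = A * K ^ 2 := by ring
      _ ≤ E := hE
  have hAK : A * K ≤ E := (Nat.le_mul_of_pos_right _ hK1).trans hAKK
  have hAE : A ≤ E := (Nat.le_mul_of_pos_right _ hK1).trans hAK
  have hsq : Real.sqrt N = (N : ℝ) ^ (1 / 2 : ℝ) := Real.sqrt_eq_rpow _
  have hA : (A : ℝ) ≤ (N : ℝ) ^ (ν / 100 + 1 / 2 + ν / 50) := by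
    refine hP.A_le.trans ?_
    rw [hP.Y_eq, hsq, Real.rpow_add hN0, Real.rpow_add hN0]
    have := hP.q_le
    gcongr
  have hzs' : ∀ e, z e ≠ 0 → 1 ≤ e ∧ e ≤ E ∧ (e : ℝ) ≤ (N : ℝ) ^ (1 / 2 + ν / 10) := by
    intro e he
    obtain ⟨h2, h3⟩ := hzs e he
    refine ⟨h2, h3.trans hAKK, ?_⟩
    calc (e : ℝ) ≤ ((A * K * K : ℕ) : ℝ) := by exact_mod_cast h3
      _ = A * (K : ℝ) ^ 2 := by push_cast; ring
      _ ≤ (N : ℝ) ^ (ν / 100 + 1 / 2 + ν / 50) * (N : ℝ) ^ (ν / 1000) := by gcongr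
      _ = (N : ℝ) ^ (ν / 100 + 1 / 2 + ν / 50 + ν / 1000) := by rw [← Real.rpow_add hN0]
      _ ≤ _ := mono (by linarith)
  -- the exact form
  have hxsE : ∀ e, x e ≠ 0 → 1 ≤ e ∧ e ≤ E := fun e he => ⟨(hxs e he).1, (hxs e he).2.trans hAK⟩
  have hA1 : (0 : ℝ) < A := by
    have hY : 0 < Y := by
      rw [hP.Y_eq]
      have : 0 < Real.sqrt N := Real.sqrt_pos.2 hN0
      positivity
    have : 0 < Y * (N : ℝ) ^ (ν / 100) := by positivity
    exact this.trans_le hP.A_ge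
  have hE1 : 1 ≤ E := by
    have : 0 < A := by exact_mod_cast hA1
    omega
  have hEr : (1 : ℝ) ≤ E := by exact_mod_cast hE1
  have hT : 4 ≤ (N : ℝ) ^ ν := hN4 N l4
  have hsh := hC _ hT ρ hρ E N hE1 hN1 x hxsE hz0
  set F : ℕ → ℝ := fun n => tau n * Real.log (N / (4 * Real.pi ^ 2 * n)) +
          2 * Real.pi * ∑ g ∈ Gs B E, tau g.natAbs * tau ((n : ℤ) - g * N).natAbs *
            GG ρ ((g : ℝ) * N / n) with hF
  have hCC : ∀ n, CC E x n = ∑ i ∈ J, θ i * CB E (xv χ i Y A) z n := by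
    intro n
    rw [← gf_cb_sum, hz, hx]
    exact Pool.Agent.LK.hc_square hAK hAE hus hb n
  have hexact : ∑ n ∈ Finset.Icc 1 (E ^ 2), CC E x n * tau n *
      Real.log (N / (4 * Real.pi ^ 2 * n)) + OD ρ B E x N =
      ∑ i ∈ J, θ i * ∑ n ∈ Finset.Icc 1 (E ^ 2), CB E (xv χ i Y A) z n * F n := by
    unfold OD
    rw [Finset.mul_sum, ← Finset.sum_add_distrib]
    calc _ = ∑ n ∈ Finset.Icc 1 (E ^ 2), CC E x n * F n := by
          refine Finset.sum_congr rfl fun n _ => ?_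
          rw [hF]
          ring
      _ = ∑ n ∈ Finset.Icc 1 (E ^ 2), ∑ i ∈ J, θ i * (CB E (xv χ i Y A) z n * F n) := by
          refine Finset.sum_congr rfl fun n _ => ?_
          rw [hCC, Finset.sum_mul]
          exact Finset.sum_congr rfl fun i _ => by ring
      _ = _ := by
          rw [Finset.sum_comm]
          exact Finset.sum_congr rfl fun i _ => by rw [Finset.mul_sum]
  have hzz : ∀ e, z e = ∑ i' ∈ J, θ i' * HP E (xv χ i' Y A) (HP E b b) e := by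
    intro e
    rw [← gf_hp_sum, hz, hx, Pool.Agent.LE.hp_assoc_pr hus hb hb hAKK]
  have hmain : ∑ i ∈ J, ∑ i' ∈ J, θ i * θ i' *
      ∑ e ∈ Finset.Icc 1 E, HP E (xv χ i' Y A) (HP E b b) e * (Ai χ i N e Y).re =
      ∑ i ∈ J, θ i * ∑ e ∈ Finset.Icc 1 E, z e * (Ai χ i N e Y).re := by
    refine Finset.sum_congr rfl fun i _ => ?_
    simp only [hzz, Finset.sum_mul, Finset.mul_sum]
    rw [Finset.sum_comm]
    refine Finset.sum_congr rfl fun e _ => Finset.sum_congr rfl fun i' _ => ?_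
    ring
  -- the two errors
  have hlN : 0 ≤ Real.log N := Real.log_nonneg hNr
  have hlE : Real.log E ≤ Real.log N := Real.log_le_log (by linarith) (by exact_mod_cast hEN)
  have hlE0 : 0 ≤ Real.log E := Real.log_nonneg hEr
  have hlog := ge_log (show (0 : ℝ) < ν / 1000 by linarith) hN1
  rw [← hL] at hlog
  have er1 : |sh ρ ((N : ℝ) ^ ν) E x N - ∑ n ∈ Finset.Icc 1 (E ^ 2), CC E x n * tau n *
        Real.log (N / (4 * Real.pi ^ 2 * n))| ≤ 1 / 2 * (N : ℝ) ^ (-(ν / 10)) := by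
    refine hsh.trans ?_
    have hcc := gf_cc hxb (show (0 : ℝ) < ν / 2000 by linarith) hC1 hτ hE1
    have hS0 : 0 ≤ ∑ n ∈ Finset.Icc 1 (E ^ 2), |CC E x n| * tau n :=
      Finset.sum_nonneg fun n _ => mul_nonneg (abs_nonneg _) (by unfold tau; positivity)
    have hE4 : (E : ℝ) ^ (4 * (ν / 2000)) ≤ (N : ℝ) ^ (ν / 500) := by
      have : (E : ℝ) ≤ N := by exact_mod_cast hEN
      calc (E : ℝ) ^ (4 * (ν / 2000)) ≤ (N : ℝ) ^ (4 * (ν / 2000)) := by gcongr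
        _ = _ := by congr 1; ring
    have hX2 : ((N : ℝ) ^ (ν / 400)) ^ 2 = (N : ℝ) ^ (ν / 200) := by
      rw [← Real.rpow_natCast, ← Real.rpow_mul hN0.le]
      congr 1
      push_cast
      ring
    have hT4 : ((N : ℝ) ^ ν) ^ (-(1 / 4) : ℝ) = (N : ℝ) ^ (-(ν / 4)) := by
      rw [← Real.rpow_mul hN0.le]
      congr 1
      ring
    calc C * ((N : ℝ) ^ ν) ^ (-(1 / 4) : ℝ) * (1 + Real.log N + 2 * Real.log E) *
        ∑ n ∈ Finset.Icc 1 (E ^ 2), |CC E x n| * tau n ≤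
        |C| * (N : ℝ) ^ (-(ν / 4)) * (3 * (L * (N : ℝ) ^ (ν / 1000))) *
          ((N : ℝ) ^ (ν / 200) * (L * (N : ℝ) ^ (ν / 1000)) * (C1 ^ 2 * (N : ℝ) ^ (ν / 500) *
            (2 * (L * (N : ℝ) ^ (ν / 1000))))) := by
          rw [hT4]
          refine mul_le_mul (mul_le_mul (mul_le_mul_of_nonneg_right (le_abs_self C) (by positivity))
            ?_ (by linarith) (by positivity)) (hcc.trans ?_) hS0 (by positivity)
          · linarith
          · rw [hX2]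
            have h7 : 1 + Real.log E ≤ L * (N : ℝ) ^ (ν / 1000) := by linarith
            have h8 : 1 + 2 * Real.log E ≤ 2 * (L * (N : ℝ) ^ (ν / 1000)) := by linarith
            gcongr
      _ = (|C| * (3 * L) * L * C1 ^ 2 * (2 * L)) * (N : ℝ) ^ (-(ν / 4) + ν / 1000 +
          ν / 200 + ν / 1000 + ν / 500 + ν / 1000) := by
          rw [Real.rpow_add hN0, Real.rpow_add hN0, Real.rpow_add hN0, Real.rpow_add hN0,
            Real.rpow_add hN0]
          ring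
      _ ≤ (1 / 2 * (N : ℝ) ^ (ν / 10)) * (N : ℝ) ^ (-(ν / 4) + ν / 1000 +
          ν / 200 + ν / 1000 + ν / 500 + ν / 1000) := by
          have := hNb N lb
          refine mul_le_mul_of_nonneg_right ?_ (by positivity)
          linarith
      _ = 1 / 2 * (N : ℝ) ^ (ν / 10 + (-(ν / 4) + ν / 1000 +
          ν / 200 + ν / 1000 + ν / 500 + ν / 1000)) := by
          rw [Real.rpow_add hN0 (ν / 10)]; ring
      _ ≤ _ := mul_le_mul_of_nonneg_left (mono (by linarith)) (by norm_num)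
  have er2 : |∑ i ∈ J, θ i * ∑ n ∈ Finset.Icc 1 (E ^ 2), CB E (xv χ i Y A) z n * F n -
      ∑ i ∈ J, θ i * ∑ e ∈ Finset.Icc 1 E, z e * (Ai χ i N e Y).re| ≤
      1 / 2 * (N : ℝ) ^ (-(ν / 10)) := by
    rw [← Finset.sum_sub_distrib]
    refine (Finset.abs_sum_le_sum_abs _ _).trans ?_
    have h9 : ∀ i ∈ J, |θ i * ∑ n ∈ Finset.Icc 1 (E ^ 2), CB E (xv χ i Y A) z n * F n -
      θ i * ∑ e ∈ Finset.Icc 1 E, z e * (Ai χ i N e Y).re| ≤
        (N : ℝ) ^ (ν / 2000) * (N : ℝ) ^ (-(ν / 9)) := by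
      intro i hi
      rw [← mul_sub, abs_mul]
      exact mul_le_mul (hθ i hi) (hNg i N (lg i hi) hNp q χ hχ (hs i hi) Y A hP ρ hρ B E hAE hB z
        hzs' hzb) (abs_nonneg _) (by positivity)
    refine (Finset.sum_le_sum h9).trans ?_
    rw [Finset.sum_const, nsmul_eq_mul, ← Real.rpow_add hN0]
    have h10 := hNa N la
    calc (J.card : ℝ) * (N : ℝ) ^ (ν / 2000 + -(ν / 9)) ≤
        (1 / 2 * (N : ℝ) ^ (ν / 100)) * (N : ℝ) ^ (ν / 2000 + -(ν / 9)) := by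
          refine mul_le_mul_of_nonneg_right ?_ (by positivity)
          linarith
      _ = 1 / 2 * (N : ℝ) ^ (ν / 100 + (ν / 2000 + -(ν / 9))) := by
          rw [Real.rpow_add hN0 (ν / 100)]; ring
      _ ≤ _ := mul_le_mul_of_nonneg_left (mono (by linarith)) (by norm_num)
  rw [hmain]
  unfold QN
  rw [← hexact] at er2
  rw [abs_le] at er1 er2 ⊢
  constructor <;> linarith [er1.1, er1.2, er2.1, er2.2]

end Pool.Agent.LG
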