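import Pool.Agent.Lib_helper31.LG.Defs
import Pool.Agent.Lib_helper31.LKF.KO2

/-! LSP3, part G, block GR: the functional as an integral over two circles. -/

set_option autoImplicit false

namespace Pool.Agent.LG

open Complex MeasureTheory Set ProbabilityTheory
open Pool.Agent.LSP (tau GG CC CB Gs sg1 QN sh OD)
open Pool.Agent.LSPO (KK cl GOK)
open Pool.Agent.LK (KerC PQ V MT OM SH HH Qe hm)
open Pool.Agent.LE (xv HP SuppIn H2)
open Pool.Agent.LVB (IsST)

variable {q : ℕ} [NeZero q]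

theorem gr_cpow {n : ℕ} (hn : n ≠ 0) (a : ℂ) : Differentiable ℂ (fun w : ℂ => (n : ℂ) ^ (a - w)) := by
  intro w
  have h0 : (n : ℂ) ≠ 0 := by exact_mod_cast hn
  exact DifferentiableAt.const_cpow (by fun_prop) (Or.inl h0)

theorem gr_Qe (χ : DirichletCharacter ℂ q) {e : ℕ} (he : 1 ≤ e) (s : ℂ) :
    Differentiable ℂ (fun w : ℂ => Qe χ e s w) := by
  unfold Qe
  refine Differentiable.fun_sum fun p hp => ?_
  have hp' := Nat.mem_divisorsAntidiagonal.1 hp
  have hp2 : p.2 ≠ 0 := by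
    rintro h0
    rw [h0, mul_zero] at hp'
    exact hp'.2 hp'.1.symm
  refine Differentiable.mul (Differentiable.mul (differentiable_const _) (gr_cpow hp2 (-1))) ?_
  refine Differentiable.fun_sum fun h hh => ?_
  have hh0 : h ≠ 0 := (Nat.pos_of_mem_divisors hh).ne'
  exact ((gr_cpow hh0 (-1 - s)).const_mul _).mul_const _

theorem gr_f {χ : DirichletCharacter ℂ q} (hχ : χ ≠ 1) {N e : ℕ} (hN : 1 ≤ N) (he : 1 ≤ e)
    (s : ℂ) : Differentiable ℂ (fun w : ℂ => (((N : ℝ) / (4 * Real.pi ^ 2) : ℝ) : ℂ) ^ w *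
      DirichletCharacter.LFunction χ (1 + s + w) ^ 2 * Qe χ e s w) := by
  have hK : (0 : ℝ) < (N : ℝ) / (4 * Real.pi ^ 2) := by
    have := Real.pi_pos
    have hN' : (0 : ℝ) < N := by exact_mod_cast hN
    positivity
  have hK0 : ((((N : ℝ) / (4 * Real.pi ^ 2) : ℝ)) : ℂ) ≠ 0 := by exact_mod_cast hK.ne'
  have h1 : Differentiable ℂ (fun w : ℂ => (((N : ℝ) / (4 * Real.pi ^ 2) : ℝ) : ℂ) ^ w) :=
    fun w => DifferentiableAt.const_cpow differentiableAt_id (Or.inl hK0)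
  have h2 : Differentiable ℂ (fun w : ℂ => DirichletCharacter.LFunction χ (1 + s + w)) :=
    (DirichletCharacter.differentiable_LFunction hχ).comp (by fun_prop)
  exact (h1.mul (h2.pow 2)).mul (gr_Qe χ he s)

theorem gr_AA {χ : DirichletCharacter ℂ q} (hχ : χ ≠ 1) {N e : ℕ} (hN : 1 ≤ N) (he : 1 ≤ e)
    {r : ℝ} (hr : 0 < r) (s : ℂ) :
    (2 * Real.pi * Complex.I)⁻¹ * ∮ w in C(0, r), (w ^ 2)⁻¹ *
        ((((N : ℝ) / (4 * Real.pi ^ 2) : ℝ) : ℂ) ^ w *
          DirichletCharacter.LFunction χ (1 + s + w) ^ 2 * Qe χ e s w) = LK.AA χ N e s := by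
  have h1 := DifferentiableOn.deriv_eq_smul_circleIntegral hr
    ((gr_f hχ hN he s).differentiableOn (s := Metric.closedBall 0 r))
  have h2 : (2 * Real.pi * Complex.I : ℂ) ≠ 0 := Complex.two_pi_I_ne_zero
  unfold LK.AA
  rw [inv_mul_eq_iff_eq_mul₀ h2, ← smul_eq_mul (a := (2 * Real.pi * Complex.I : ℂ)), ← h1]
  simp only [sub_zero, one_div, smul_eq_mul]

/-- block GR: the functional as an integral over two circles -/
theorem kr_circ_pr {χ : DirichletCharacter ℂ q} (hχ : χ ≠ 1) {N e : ℕ} (hN : 1 ≤ N) (he : 1 ≤ e)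
    {Y : ℝ} (hY : 0 < Y) (i : ℕ) {r : ℝ} (hr : 0 < r) (hr' : r ≤ 1 / 8) :
    Ai χ i N e Y = (2 * Real.pi * Complex.I)⁻¹ * ∮ s in C(0, r), (s ^ (i + 1))⁻¹ *
      ((((Y / (2 * Real.pi) : ℝ) : ℂ) ^ s) * Complex.Gamma (1 + s) *
      ((2 * Real.pi * Complex.I)⁻¹ * ∮ w in C(0, r), (w ^ 2)⁻¹ *
        ((((N : ℝ) / (4 * Real.pi ^ 2) : ℝ) : ℂ) ^ w *
          DirichletCharacter.LFunction χ (1 + s + w) ^ 2 * Qe χ e s w))) := by
  simp_rw [gr_AA hχ hN he hr]
  have hd : DifferentiableOn ℂ (HH χ N e Y) (Metric.closedBall 0 r) := by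
    intro s hs
    rw [mem_closedBall_zero_iff] at hs
    have h1 := (Complex.abs_re_le_norm s).trans (hs.trans hr')
    have h2 := abs_le.1 h1
    exact ((LK.hh_bound_pr hχ hN he hY).1 s (by linarith [h2.1])
      (by linarith [h2.2])).differentiableWithinAt
  have h1 := DifferentiableOn.circleIntegral_one_div_sub_center_pow_smul hr i hd
  have h2 : (2 * Real.pi * Complex.I : ℂ) ≠ 0 := Complex.two_pi_I_ne_zero
  have h3 : (∮ s in C(0, r), (s ^ (i + 1))⁻¹ *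
      ((((Y / (2 * Real.pi) : ℝ) : ℂ) ^ s) * Complex.Gamma (1 + s) * LK.AA χ N e s)) =
      (2 * Real.pi * Complex.I / i.factorial) • iteratedDeriv i (HH χ N e Y) 0 := by
    rw [← h1]
    simp only [sub_zero, one_div, smul_eq_mul, LK.HH]
  rw [h3, smul_eq_mul]
  unfold Ai
  have h4 : (i.factorial : ℂ) ≠ 0 := by exact_mod_cast i.factorial_ne_zero
  field_simp

end Pool.Agent.LG
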