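import Pool.Agent.Lib_helper31.LG.Defs
import Pool.Agent.Lib_helper31.LGF.GR
import Pool.Agent.Lib_helper31.LKF.KG2
import Pool.Agent.Lib_helper53.LEF.ES
import Pool.Agent.Lib_helper53.LEF.EV
import Pool.Agent.Lib_helper53.LEF.EZ

/-! LSP3, part G: the main terms as an integral over three circles. -/

set_option autoImplicit false

namespace Pool.Agent.LG

open Complex MeasureTheory Set ProbabilityTheory
open Pool.Agent.LK (PQ Qe)
open Pool.Agent.LE (xv HP SuppIn H2 EW w2 zq zq1)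
open Pool.Agent.LVB (IsST)
open Pool.Agent.LSP (MX)

/-- circle integrals depend continuously on parameters -/
theorem gs_param {X : Type*} [TopologicalSpace X] {f : X → ℂ → ℂ} {R : ℝ}
    (hf : Continuous fun p : X × ℝ => f p.1 (circleMap 0 R p.2)) :
    Continuous fun x => ∮ z in C(0, R), f x z := by
  unfold circleIntegral
  refine intervalIntegral.continuous_parametric_intervalIntegral_of_continuous' ?_ _ _
  have h1 : Continuous fun p : X × ℝ => deriv (circleMap 0 R) p.2 := by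
    simp only [deriv_circleMap]
    fun_prop
  exact h1.smul hf

theorem gs_ci {g : ℂ → ℂ} {R : ℝ} (hg : Continuous fun t : ℝ => g (circleMap 0 R t)) :
    CircleIntegrable g 0 R := hg.intervalIntegrable _ _

theorem gs_ne {R : ℝ} (hR : 0 < R) (t : ℝ) : circleMap 0 R t ≠ 0 := by
  have := circleMap_ne_center (c := 0) (R := R) hR.ne' (θ := t)
  exact this

theorem gs_norm {R : ℝ} (hR : 0 < R) (t : ℝ) : ‖circleMap 0 R t‖ = R := by
  rw [norm_circleMap_zero, abs_of_pos hR]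

theorem gs_cpow {x X M r : ℝ} (hx : 0 < x) (hxX : x ≤ X) (hX : 1 ≤ X) (hM : 1 ≤ M) (hMx : M⁻¹ ≤ x)
    (hr1 : r ≤ 1) {s : ℂ} (hs : ‖s‖ = r) : ‖((x : ℝ) : ℂ) ^ s‖ ≤ M * X ^ r := by
  rw [Complex.norm_cpow_eq_rpow_re_of_pos hx]
  have h1 := Complex.abs_re_le_norm s
  rw [hs] at h1
  obtain ⟨h2, h3⟩ := abs_le.1 h1
  have hr0 : 0 ≤ r := hs ▸ norm_nonneg s
  have hXr : 1 ≤ X ^ r := Real.one_le_rpow hX hr0
  rcases le_or_gt 0 s.re with h | h
  · calc x ^ s.re ≤ X ^ s.re := Real.rpow_le_rpow hx.le hxX h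
      _ ≤ X ^ r := Real.rpow_le_rpow_of_exponent_le hX h3
      _ ≤ M * X ^ r := le_mul_of_one_le_left (by linarith) hM
  · have h4 : x ^ s.re = (x⁻¹) ^ (-s.re) := by
      rw [Real.inv_rpow hx.le, Real.rpow_neg hx.le, inv_inv]
    rw [h4]
    have h5 : x⁻¹ ≤ M := by
      rw [inv_le_comm₀ hx (by linarith)]
      exact hMx
    calc (x⁻¹) ^ (-s.re) ≤ M ^ (-s.re) := Real.rpow_le_rpow (by positivity) h5 (by linarith)
      _ ≤ M ^ (1 : ℝ) := Real.rpow_le_rpow_of_exponent_le hM (by linarith)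
      _ = M * 1 := by rw [Real.rpow_one, mul_one]
      _ ≤ M * X ^ r := by gcongr

/-- the outer two integrals as a functional -/
noncomputable def DD {q : ℕ} [NeZero q] (χ : DirichletCharacter ℂ q) (i N : ℕ) (Y r : ℝ)
    (F : ℂ → ℂ → ℂ) : ℂ :=
  (2 * Real.pi * Complex.I)⁻¹ * ∮ s in C(0, r), (s ^ (i + 1))⁻¹ *
    ((((Y / (2 * Real.pi) : ℝ) : ℂ) ^ s) * Complex.Gamma (1 + s) *
    ((2 * Real.pi * Complex.I)⁻¹ * ∮ w in C(0, r), (w ^ 2)⁻¹ *
      ((((N : ℝ) / (4 * Real.pi ^ 2) : ℝ) : ℂ) ^ w *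
        DirichletCharacter.LFunction χ (1 + s + w) ^ 2 * F s w)))

section

variable {q : ℕ} [NeZero q] {χ : DirichletCharacter ℂ q} (hχ : χ ≠ 1) {i N : ℕ} (hN : 1 ≤ N)
  {Y : ℝ} (hY : 0 < Y) {r : ℝ} (hr : 0 < r) (hr' : r ≤ 1 / 8)

include hχ hN hr

theorem gs_w {F : ℂ → ℂ → ℂ}
    (hF : Continuous fun p : ℝ × ℝ => F (circleMap 0 r p.1) (circleMap 0 r p.2)) :
    Continuous fun p : ℝ × ℝ => (circleMap 0 r p.2 ^ 2)⁻¹ *
      ((((N : ℝ) / (4 * Real.pi ^ 2) : ℝ) : ℂ) ^ (circleMap 0 r p.2) *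
        DirichletCharacter.LFunction χ (1 + circleMap 0 r p.1 + circleMap 0 r p.2) ^ 2 *
          F (circleMap 0 r p.1) (circleMap 0 r p.2)) := by
  have hL : Continuous (DirichletCharacter.LFunction χ) :=
    (DirichletCharacter.differentiable_LFunction hχ).continuous
  have c1 : Continuous fun p : ℝ × ℝ => circleMap 0 r p.1 := by fun_prop
  have c2 : Continuous fun p : ℝ × ℝ => circleMap 0 r p.2 := by fun_prop
  have hNr : (0 : ℝ) < N := by exact_mod_cast hN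
  have hN2 : ((((N : ℝ) / (4 * Real.pi ^ 2) : ℝ) : ℂ)) ≠ 0 := by
    have : 0 < (N : ℝ) / (4 * Real.pi ^ 2) := by positivity
    exact_mod_cast this.ne'
  refine Continuous.mul ?_ ((Continuous.mul ?_ ?_).mul hF)
  · exact (c2.pow 2).inv₀ fun p => pow_ne_zero 2 (gs_ne hr p.2)
  · exact c2.const_cpow (Or.inl hN2)
  · exact (hL.comp ((continuous_const.add c1).add c2)).pow 2

include hY hr' in
theorem gs_s {F : ℂ → ℂ → ℂ}
    (hF : Continuous fun p : ℝ × ℝ => F (circleMap 0 r p.1) (circleMap 0 r p.2)) :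
    Continuous fun t : ℝ => (circleMap 0 r t ^ (i + 1))⁻¹ *
    ((((Y / (2 * Real.pi) : ℝ) : ℂ) ^ (circleMap 0 r t)) * Complex.Gamma (1 + circleMap 0 r t) *
    ((2 * Real.pi * Complex.I)⁻¹ * ∮ w in C(0, r), (w ^ 2)⁻¹ *
      ((((N : ℝ) / (4 * Real.pi ^ 2) : ℝ) : ℂ) ^ w *
        DirichletCharacter.LFunction χ (1 + circleMap 0 r t + w) ^ 2 * F (circleMap 0 r t) w))) := by
  have c1 : Continuous fun t : ℝ => circleMap 0 r t := by fun_prop
  have hY2 : (((Y / (2 * Real.pi) : ℝ) : ℂ)) ≠ 0 := by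
    have : 0 < Y / (2 * Real.pi) := by positivity
    exact_mod_cast this.ne'
  refine Continuous.mul ?_ ((Continuous.mul ?_ ?_).mul (continuous_const.mul ?_))
  · exact (c1.pow _).inv₀ fun t => pow_ne_zero _ (gs_ne hr t)
  · exact c1.const_cpow (Or.inl hY2)
  · rw [continuous_iff_continuousAt]
    intro t
    have h1 : ContinuousAt Complex.Gamma (1 + circleMap 0 r t) := by
      refine (Complex.differentiableAt_Gamma _ fun m hm => ?_).continuousAt
      have h2 := congrArg Complex.re hm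
      rw [Complex.add_re, Complex.one_re, Complex.neg_re, Complex.natCast_re] at h2
      have h3 := Complex.abs_re_le_norm (circleMap 0 r t)
      rw [gs_norm hr] at h3
      have h4 := (abs_le.1 h3).1
      have h5 : (0 : ℝ) ≤ m := Nat.cast_nonneg m
      linarith
    exact ContinuousAt.comp (f := fun t : ℝ => 1 + circleMap 0 r t) h1
      (continuous_const.add c1).continuousAt
  · exact gs_param (gs_w hχ hN hr hF)

include hY hr' in
theorem gs_add {F G : ℂ → ℂ → ℂ}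
    (hF : Continuous fun p : ℝ × ℝ => F (circleMap 0 r p.1) (circleMap 0 r p.2))
    (hG : Continuous fun p : ℝ × ℝ => G (circleMap 0 r p.1) (circleMap 0 r p.2)) :
    DD χ i N Y r (fun s w => F s w + G s w) = DD χ i N Y r F + DD χ i N Y r G := by
  unfold DD
  rw [← mul_add, ← circleIntegral.integral_add (gs_ci (gs_s hχ hN hY hr hr' hF))
    (gs_ci (gs_s hχ hN hY hr hr' hG))]
  congr 1
  refine circleIntegral.integral_congr hr.le fun s hs => ?_
  obtain ⟨t, rfl⟩ : ∃ t : ℝ, circleMap 0 r t = s := by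
    have h1 : s ∈ range (circleMap 0 r) := by
      rw [range_circleMap, abs_of_pos hr]
      exact hs
    exact h1
  have c1 : Continuous fun u : ℝ => ((t, u) : ℝ × ℝ) := by fun_prop
  have hFw := (gs_w hχ hN hr hF).comp c1
  have hGw := (gs_w hχ hN hr hG).comp c1
  simp only [← mul_add]
  congr 3
  rw [← circleIntegral.integral_add (gs_ci hFw) (gs_ci hGw)]
  refine circleIntegral.integral_congr hr.le fun w _ => ?_
  ring

omit hχ hN hr in
theorem gs_smul (c : ℂ) (F : ℂ → ℂ → ℂ) :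
    DD χ i N Y r (fun s w => c * F s w) = c * DD χ i N Y r F := by
  unfold DD
  have h1 : ∀ s : ℂ, (∮ w in C(0, r), (w ^ 2)⁻¹ *
      ((((N : ℝ) / (4 * Real.pi ^ 2) : ℝ) : ℂ) ^ w *
        DirichletCharacter.LFunction χ (1 + s + w) ^ 2 * (c * F s w))) =
      c * ∮ w in C(0, r), (w ^ 2)⁻¹ *
      ((((N : ℝ) / (4 * Real.pi ^ 2) : ℝ) : ℂ) ^ w *
        DirichletCharacter.LFunction χ (1 + s + w) ^ 2 * F s w) := by
    intro s
    rw [← circleIntegral.integral_const_mul]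
    congr 1
    funext w
    ring
  have h2 : (∮ s in C(0, r), (s ^ (i + 1))⁻¹ *
    ((((Y / (2 * Real.pi) : ℝ) : ℂ) ^ s) * Complex.Gamma (1 + s) *
    ((2 * Real.pi * Complex.I)⁻¹ * (c * ∮ w in C(0, r), (w ^ 2)⁻¹ *
      ((((N : ℝ) / (4 * Real.pi ^ 2) : ℝ) : ℂ) ^ w *
        DirichletCharacter.LFunction χ (1 + s + w) ^ 2 * F s w))))) =
      c * ∮ s in C(0, r), (s ^ (i + 1))⁻¹ *
    ((((Y / (2 * Real.pi) : ℝ) : ℂ) ^ s) * Complex.Gamma (1 + s) *
    ((2 * Real.pi * Complex.I)⁻¹ * ∮ w in C(0, r), (w ^ 2)⁻¹ *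
      ((((N : ℝ) / (4 * Real.pi ^ 2) : ℝ) : ℂ) ^ w *
        DirichletCharacter.LFunction χ (1 + s + w) ^ 2 * F s w))) := by
    rw [← circleIntegral.integral_const_mul]
    congr 1
    funext s
    ring
  simp only [h1]
  rw [h2]
  ring

include hY hr' in
theorem gs_sub {F G : ℂ → ℂ → ℂ}
    (hF : Continuous fun p : ℝ × ℝ => F (circleMap 0 r p.1) (circleMap 0 r p.2))
    (hG : Continuous fun p : ℝ × ℝ => G (circleMap 0 r p.1) (circleMap 0 r p.2)) :
    DD χ i N Y r F - DD χ i N Y r G = DD χ i N Y r (fun s w => F s w - G s w) := by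
  have h1 := gs_add (i := i) hχ hN hY hr hr' hF
    (G := fun s w => (-1) * G s w) (continuous_const.mul hG)
  rw [gs_smul] at h1
  rw [sub_eq_add_neg, ← neg_one_mul (DD χ i N Y r G), ← h1]
  congr 1
  funext s w
  ring

include hY hr' in
theorem gs_sum {J : Finset ℕ} {c : ℕ → ℂ} {F : ℕ → ℂ → ℂ → ℂ}
    (hF : ∀ e ∈ J, Continuous fun p : ℝ × ℝ => F e (circleMap 0 r p.1) (circleMap 0 r p.2)) :
    ∑ e ∈ J, c e * DD χ i N Y r (F e) = DD χ i N Y r (fun s w => ∑ e ∈ J, c e * F e s w) := by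
  classical
  induction J using Finset.induction_on with
  | empty =>
    have h := gs_smul (χ := χ) (i := i) (N := N) (Y := Y) (r := r) 0 (fun _ _ => 0)
    simp only [zero_mul] at h
    simp only [Finset.sum_empty]
    exact h.symm
  | insert a J ha ih =>
    rw [Finset.sum_insert ha, ih fun e he => hF e (Finset.mem_insert_of_mem he), ← gs_smul]
    have hc1 : Continuous fun p : ℝ × ℝ => (fun s w => c a * F a s w)
        (circleMap 0 r p.1) (circleMap 0 r p.2) :=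
      continuous_const.mul (hF a (Finset.mem_insert_self _ _))
    have hc2 : Continuous fun p : ℝ × ℝ => (fun s w => ∑ e ∈ J, c e * F e s w)
        (circleMap 0 r p.1) (circleMap 0 r p.2) :=
      continuous_finsetSum _ fun e he => continuous_const.mul (hF e (Finset.mem_insert_of_mem he))
    rw [← gs_add hχ hN hY hr hr' hc1 hc2]
    congr 1
    funext s w
    rw [Finset.sum_insert ha]

/-- the norm of the functional -/
theorem gs_bound {C0 CG CL : ℝ} (hY1 : 1 ≤ Y) (hr50 : r ≤ 1 / 50) (hCG : 0 ≤ CG)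
    (hG : ∀ s : ℂ, ‖s‖ ≤ 1 / 50 → ‖Complex.Gamma (1 + s)‖ ≤ CG)
    (hL : ∀ s : ℂ, 1 / 2 ≤ s.re → s.re ≤ 3 → ‖DirichletCharacter.LFunction χ s‖ ≤
      CL * q * (|s.im| + 2)) (hC0 : 0 ≤ C0) {F : ℂ → ℂ → ℂ}
    (hF : ∀ s w : ℂ, ‖s‖ = r → ‖w‖ = r → ‖F s w‖ ≤ C0) :
    ‖DD χ i N Y r F‖ ≤ 2520 * CG * CL ^ 2 * q ^ 2 * (Y ^ r * (N : ℝ) ^ r) * r⁻¹ ^ (i + 1) * C0 := by
  have hNr : (1 : ℝ) ≤ N := by exact_mod_cast hN
  have hpi := Real.pi_gt_three
  have hpi2 := Real.pi_lt_d2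
  have hq0 : (0 : ℝ) ≤ q := Nat.cast_nonneg q
  have hcY : ∀ s : ℂ, ‖s‖ = r → ‖(((Y / (2 * Real.pi) : ℝ) : ℂ)) ^ s‖ ≤ 7 * Y ^ r := by
    intro s hs
    refine gs_cpow (by positivity) ?_ hY1 (by norm_num) ?_ (by linarith) hs
    · rw [div_le_iff₀ (by positivity)]
      nlinarith
    · rw [inv_eq_one_div, div_le_div_iff₀ (by norm_num) (by positivity)]
      nlinarith
  have hcN : ∀ s : ℂ, ‖s‖ = r → ‖((((N : ℝ) / (4 * Real.pi ^ 2) : ℝ) : ℂ)) ^ s‖ ≤
      40 * (N : ℝ) ^ r := by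
    intro s hs
    have hp2 : 9 < Real.pi ^ 2 := by nlinarith
    have hp3 : Real.pi ^ 2 < 10 := by nlinarith
    refine gs_cpow (by positivity) ?_ hNr (by norm_num) ?_ (by linarith) hs
    · rw [div_le_iff₀ (by positivity)]
      exact le_mul_of_one_le_right (by linarith) (by linarith)
    · rw [inv_eq_one_div, div_le_div_iff₀ (by norm_num) (by positivity)]
      linarith
  have hin : ∀ s : ℂ, ‖s‖ = r → ‖(2 * Real.pi * Complex.I : ℂ)⁻¹ * ∮ w in C(0, r), (w ^ 2)⁻¹ *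
      ((((N : ℝ) / (4 * Real.pi ^ 2) : ℝ) : ℂ) ^ w *
        DirichletCharacter.LFunction χ (1 + s + w) ^ 2 * F s w)‖ ≤
      r * ((r ^ 2)⁻¹ * (40 * (N : ℝ) ^ r * (3 * CL * q) ^ 2 * C0)) := by
    intro s hs
    have h := circleIntegral.norm_two_pi_i_inv_smul_integral_le_of_norm_le_const (c := 0)
      (R := r) (f := fun w => (w ^ 2)⁻¹ * ((((N : ℝ) / (4 * Real.pi ^ 2) : ℝ) : ℂ) ^ w *
        DirichletCharacter.LFunction χ (1 + s + w) ^ 2 * F s w))
      (C := (r ^ 2)⁻¹ * (40 * (N : ℝ) ^ r * (3 * CL * q) ^ 2 * C0)) hr.le ?_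
    · rw [smul_eq_mul] at h
      exact h
    · intro w hw
      have hw' : ‖w‖ = r := by simpa using hw
      have hsr := abs_le.1 ((Complex.abs_re_le_norm s).trans_eq hs)
      have hwr := abs_le.1 ((Complex.abs_re_le_norm w).trans_eq hw')
      have hsi := (Complex.abs_im_le_norm s).trans_eq hs
      have hwi := (Complex.abs_im_le_norm w).trans_eq hw'
      have hre : (1 + s + w).re = 1 + s.re + w.re := by simp
      have him : |(1 + s + w).im| ≤ 1 := by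
        have : (1 + s + w).im = s.im + w.im := by simp
        rw [this]
        exact (abs_add_le _ _).trans (by linarith)
      have hl := hL (1 + s + w) (by rw [hre]; linarith [hsr.1, hwr.1])
        (by rw [hre]; linarith [hsr.2, hwr.2])
      have hcq : 0 ≤ CL * q := by
        have h0 := (norm_nonneg _).trans hl
        have h1 : 0 < |(1 + s + w).im| + 2 := by positivity
        exact nonneg_of_mul_nonneg_left h0 h1
      have hl2 : ‖DirichletCharacter.LFunction χ (1 + s + w)‖ ≤ 3 * CL * q := by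
        refine hl.trans ?_
        nlinarith
      have hsq : ‖DirichletCharacter.LFunction χ (1 + s + w)‖ ^ 2 ≤ (3 * CL * q) ^ 2 := by
        gcongr
      rw [norm_mul, norm_inv, norm_pow, hw', norm_mul, norm_mul, norm_pow]
      have h9 := hF s w hs hw'
      have h10 := hcN w hw'
      gcongr
  have h := circleIntegral.norm_two_pi_i_inv_smul_integral_le_of_norm_le_const (c := 0)
      (R := r) (f := fun s => (s ^ (i + 1))⁻¹ *
    ((((Y / (2 * Real.pi) : ℝ) : ℂ) ^ s) * Complex.Gamma (1 + s) *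
    ((2 * Real.pi * Complex.I)⁻¹ * ∮ w in C(0, r), (w ^ 2)⁻¹ *
      ((((N : ℝ) / (4 * Real.pi ^ 2) : ℝ) : ℂ) ^ w *
        DirichletCharacter.LFunction χ (1 + s + w) ^ 2 * F s w))))
      (C := (r ^ (i + 1))⁻¹ * (7 * Y ^ r * CG *
        (r * ((r ^ 2)⁻¹ * (40 * (N : ℝ) ^ r * (3 * CL * q) ^ 2 * C0))))) hr.le ?_
  · rw [smul_eq_mul] at h
    unfold DD
    refine h.trans (le_of_eq ?_)
    rw [inv_pow]
    field_simp
    ring
  · intro s hs
    have hs' : ‖s‖ = r := by simpa using hs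
    rw [norm_mul, norm_inv, norm_pow, hs', norm_mul, norm_mul]
    have h1 := hcY s hs'
    have h2 := hG s (hs'.le.trans hr50)
    have h3 := hin s hs'
    gcongr

end

theorem gs_comp {X : Type*} [TopologicalSpace X] {φ : ℂ → ℂ} {u : X → ℂ} (hu : Continuous u)
    (hφ : ∀ x, DifferentiableAt ℂ φ (u x)) : Continuous fun x => φ (u x) :=
  continuous_iff_continuousAt.2 fun x =>
    ContinuousAt.comp (f := u) (hφ x).continuousAt hu.continuousAt

theorem gs_on {X : Type*} [TopologicalSpace X] {G : ℂ × ℂ × ℂ → ℂ} {U : Set (ℂ × ℂ × ℂ)}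
    (hG : ContinuousOn G U) {u : X → ℂ × ℂ × ℂ} (hu : Continuous u) (h : ∀ x, u x ∈ U) :
    Continuous fun x => G (u x) := hG.comp_continuous hu h

theorem gs_qe {q : ℕ} [NeZero q] (χ : DirichletCharacter ℂ q) (e : ℕ) (r : ℝ) :
    Continuous fun p : ℝ × ℝ => Qe χ e (circleMap 0 r p.1) (circleMap 0 r p.2) := by
  have c1 : Continuous fun p : ℝ × ℝ => circleMap 0 r p.1 := by fun_prop
  have c2 : Continuous fun p : ℝ × ℝ => circleMap 0 r p.2 := by fun_prop
  unfold Qe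
  refine continuous_finsetSum _ fun p hp => ?_
  obtain ⟨h1, h2⟩ := Nat.mem_divisorsAntidiagonal.1 hp
  have hp1 : (p.1 : ℂ) ≠ 0 := by
    intro h
    have : p.1 = 0 := by exact_mod_cast h
    rw [this, zero_mul] at h1
    exact h2 h1.symm
  have hp2 : (p.2 : ℂ) ≠ 0 := by
    intro h
    have : p.2 = 0 := by exact_mod_cast h
    rw [this, mul_zero] at h1
    exact h2 h1.symm
  refine ((continuous_const.mul ?_).mul ?_).mul (continuous_finsetSum _ fun k hk => ?_)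
  · exact (continuous_const.sub c1).const_cpow (Or.inl hp1)
  · exact (continuous_const.sub c2).const_cpow (Or.inl hp2)
  · have hk0 : (k : ℂ) ≠ 0 := by
      have := Nat.pos_of_mem_divisors hk
      exact_mod_cast this.ne'
    exact (continuous_const.mul (((continuous_const.sub c1).sub c2).const_cpow
      (Or.inl hk0))).mul continuous_const

theorem gs_h2x {q : ℕ} [NeZero q] {χ : DirichletCharacter ℂ q} (hχ : χ ≠ 1)
    {P : Measure (ℕ → ℝ)} {I : Finset ℕ} (hI : ∀ p ∈ I, p.Prime) (hP : IsST I P) {K : ℕ}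
    (hKI : ∀ p : ℕ, p.Prime → p ≤ K → p ∈ I) {B : ℕ → ℝ} (hB : SuppIn K B) {Y : ℝ} (hY : 0 < Y)
    {X : Type*} [TopologicalSpace X] {s w z : X → ℂ} (hs : Continuous s) (hw : Continuous w)
    (hz : Continuous z) (ns : ∀ x, ‖s x‖ ≤ 1 / 50) (nw : ∀ x, ‖w x‖ ≤ 1 / 50)
    (nz : ∀ x, ‖z x‖ < 1 / 4) :
    Continuous fun x => H2 χ P I K B Y (w x) (s x) (z x) := by
  obtain ⟨CZ, hZ⟩ := Pool.Agent.LE.zq_facts_pr
  have r1 : ∀ x, |(s x).re| ≤ 1 / 50 := fun x => (Complex.abs_re_le_norm _).trans (ns x)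
  have r2 : ∀ x, |(w x).re| ≤ 1 / 50 := fun x => (Complex.abs_re_le_norm _).trans (nw x)
  have r3 : ∀ x, |(z x).re| < 1 / 4 := fun x => (Complex.abs_re_le_norm _).trans_lt (nz x)
  have k1 : Continuous fun x => (((Y / (2 * Real.pi) : ℝ) : ℂ)) ^ (z x) := by
    have hY2 : (((Y / (2 * Real.pi) : ℝ) : ℂ)) ≠ 0 := by
      have : 0 < Y / (2 * Real.pi) := by positivity
      exact_mod_cast this.ne'
    exact hz.const_cpow (Or.inl hY2)
  have k2 : Continuous fun x => Complex.Gamma (1 + z x) := by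
    refine gs_comp (continuous_const.add hz) fun x => ?_
    refine Complex.differentiableAt_Gamma _ fun m hm => ?_
    have h2 := congrArg Complex.re hm
    rw [Complex.add_re, Complex.one_re, Complex.neg_re, Complex.natCast_re] at h2
    have h4 := (abs_lt.1 (r3 x)).1
    have h5 : (0 : ℝ) ≤ m := Nat.cast_nonneg m
    linarith
  have k3 : Continuous fun x => DirichletCharacter.LFunction χ (1 + w x + z x) := by
    have hL : Continuous (DirichletCharacter.LFunction χ) :=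
      (DirichletCharacter.differentiable_LFunction hχ).continuous
    exact hL.comp ((continuous_const.add hw).add hz)
  have k4 : Continuous fun x => zq1 q (1 + s x + z x) := by
    refine gs_comp ((continuous_const.add hs).add hz) fun x => ?_
    have hre : (1 + s x + z x).re = 1 + (s x).re + (z x).re := by
      rw [Complex.add_re, Complex.add_re, Complex.one_re]
    have h4 := abs_lt.1 (r3 x)
    have h5 := abs_le.1 (r1 x)
    exact ((hZ q _).1 (by rw [hre]; linarith [h4.1, h5.1]) (by rw [hre]; linarith [h4.2, h5.2])).1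
  have hre : ∀ x, 13 / 10 ≤ (2 + 2 * w x + s x + z x).re := by
    intro x
    have h7 : (2 + 2 * w x + s x + z x).re = 2 + 2 * (w x).re + (s x).re + (z x).re := by
      simp [Complex.add_re, Complex.mul_re]
    have h4 := abs_lt.1 (r3 x)
    have h5 := abs_le.1 (r1 x)
    have h6 := abs_le.1 (r2 x)
    rw [h7]
    linarith [h4.1, h5.1, h6.1]
  have k5 : Continuous fun x => zq q (2 + 2 * w x + s x + z x) :=
    gs_comp (((continuous_const.add (continuous_const.mul hw)).add hs).add hz) fun x =>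
      ((hZ q _).2 (hre x)).1
  have k6 : ∀ x, zq q (2 + 2 * w x + s x + z x) ≠ 0 := fun x => ((hZ q _).2 (hre x)).2.2
  have hcc : Continuous fun x => ((w x, s x, z x) : ℂ × ℂ × ℂ) := hw.prodMk (hs.prodMk hz)
  have hE : ContinuousOn (fun u : ℂ × ℂ × ℂ => EW P I (w2 χ u.1 u.2.1 u.2.2) (MX K B))
      {u | ‖u.1‖ < 1 / 7 ∧ ‖u.2.1‖ < 1 / 7 ∧ -(3 / 10) < u.2.2.re} :=
    (Pool.Agent.LE.ew_diff_pr χ hI hP hKI hB).1.continuousOn
  have hmem : ∀ x, ((w x, s x, z x) : ℂ × ℂ × ℂ) ∈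
      {u : ℂ × ℂ × ℂ | ‖u.1‖ < 1 / 7 ∧ ‖u.2.1‖ < 1 / 7 ∧ -(3 / 10) < u.2.2.re} := by
    intro x
    have h4 := abs_lt.1 (r3 x)
    have h5 := ns x
    have h6 := nw x
    simp only [Set.mem_setOf_eq]
    exact ⟨by linarith, by linarith, by linarith [h4.1]⟩
  have k7 := gs_on hE hcc hmem
  simp only at k7
  have k8 := (((((k1.mul k2).mul (k3.pow 2)).mul k4).div k5 k6).mul k7)
  unfold H2
  exact k8

theorem gs_h2 {q : ℕ} [NeZero q] {χ : DirichletCharacter ℂ q} (hχ : χ ≠ 1)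
    {P : Measure (ℕ → ℝ)} {I : Finset ℕ} (hI : ∀ p ∈ I, p.Prime) (hP : IsST I P) {K : ℕ}
    (hKI : ∀ p : ℕ, p.Prime → p ≤ K → p ∈ I) {B : ℕ → ℝ} (hB : SuppIn K B) {Y : ℝ} (hY : 0 < Y)
    {r r' : ℝ} (hr : 0 < r) (hr50 : r ≤ 1 / 50) (hrr : r < r') (hr' : r' < 1 / 4) (i' : ℕ) :
    Continuous fun p : ℝ × ℝ => (1 / (2 * Real.pi * Complex.I) * ∮ z in C(0, r'),
      H2 χ P I K B Y (circleMap 0 r p.2) (circleMap 0 r p.1) z /
        (z ^ (i' + 1) * (z + circleMap 0 r p.1))) := by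
  have hr'0 : 0 < r' := hr.trans hrr
  refine continuous_const.mul (gs_param ?_)
  have c1 : Continuous fun p : (ℝ × ℝ) × ℝ => circleMap 0 r p.1.1 := by fun_prop
  have c2 : Continuous fun p : (ℝ × ℝ) × ℝ => circleMap 0 r p.1.2 := by fun_prop
  have c3 : Continuous fun p : (ℝ × ℝ) × ℝ => circleMap 0 r' p.2 := by fun_prop
  have n1 : ∀ p : (ℝ × ℝ) × ℝ, ‖circleMap 0 r p.1.1‖ = r := fun p => gs_norm hr _
  have n2 : ∀ p : (ℝ × ℝ) × ℝ, ‖circleMap 0 r p.1.2‖ = r := fun p => gs_norm hr _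
  have n3 : ∀ p : (ℝ × ℝ) × ℝ, ‖circleMap 0 r' p.2‖ = r' := fun p => gs_norm hr'0 _
  refine Continuous.div (gs_h2x hχ hI hP hKI hB hY c1 c2 c3 (fun p => (n1 p).le.trans hr50)
    (fun p => (n2 p).le.trans hr50) (fun p => (n3 p).trans_lt hr')) ((c3.pow _).mul (c3.add c1)) ?_
  intro p
  refine mul_ne_zero (pow_ne_zero _ (gs_ne hr'0 _)) fun h => ?_
  have h2 : circleMap 0 r' p.2 = -circleMap 0 r p.1.1 := eq_neg_of_add_eq_zero_left h
  have h3 := congrArg norm h2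
  rw [norm_neg, n3 p, n1 p] at h3
  linarith

/-- block GS: the main terms -/
theorem g_triple_pr (i i' : ℕ) : ∃ C : ℝ, ∀ (q : ℕ) [NeZero q] (χ : DirichletCharacter ℂ q), PQ χ →
    ∀ (I : Finset ℕ) (P : Measure (ℕ → ℝ)), (∀ p ∈ I, p.Prime) → IsST I P →
    ∀ K : ℕ, 1 ≤ K → (∀ p : ℕ, p.Prime → p ≤ K → p ∈ I) → ∀ (B : ℕ → ℝ) (b₀ : ℝ), SuppIn K B →
    (∀ k, |B k| ≤ b₀) → ∀ N : ℕ, 1 ≤ N → ∀ Y : ℝ, Y = q * Real.sqrt N → ∀ A : ℕ,
    Y * (1 + Real.log Y) ≤ A → ∀ E : ℕ, A * K ≤ E → ∀ r r' : ℝ, 0 < r → r ≤ 1 / 50 → r < r' →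
    r' < 1 / 4 →
    ‖∑ e ∈ Finset.Icc 1 E, (HP E (xv χ i' Y A) B e : ℂ) * Ai χ i N e Y -
      J3 χ P I K B i i' N Y r r'‖ ≤
      C * b₀ * q ^ 6 * K ^ 30 * r⁻¹ ^ (i + 1) * (N : ℝ) ^ (-(1 / 13) : ℝ) := by
  obtain ⟨Ce, hCe⟩ := Pool.Agent.LE.e_quad_pr i'
  obtain ⟨CL, hCL⟩ := Pool.Agent.LK.zk_bound_pr
  obtain ⟨CG, hCG⟩ : ∃ CG : ℝ, ∀ s ∈ Metric.closedBall (0 : ℂ) (1 / 50),
      ‖Complex.Gamma (1 + s)‖ ≤ CG := by
    refine (isCompact_closedBall (0 : ℂ) (1 / 50)).exists_bound_of_continuousOn ?_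
    intro s hs
    rw [mem_closedBall_zero_iff] at hs
    have h1 : ContinuousAt Complex.Gamma (1 + s) := by
      refine (Complex.differentiableAt_Gamma _ fun m hm => ?_).continuousAt
      have h2 := congrArg Complex.re hm
      rw [Complex.add_re, Complex.one_re, Complex.neg_re, Complex.natCast_re] at h2
      have h4 := (abs_le.1 ((Complex.abs_re_le_norm s).trans hs)).1
      have h5 : (0 : ℝ) ≤ m := Nat.cast_nonneg m
      linarith
    exact (ContinuousAt.comp (f := fun s : ℂ => 1 + s) h1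
      (continuous_const.add continuous_id).continuousAt).continuousWithinAt
  have hCG0 : 0 ≤ CG := (norm_nonneg _).trans (hCG 0 (by simp))
  refine ⟨2520 * CG * CL ^ 2 * |Ce|, fun q _ χ hχ I P hI hP K hK hKI B b₀ hB hb N hN Y hY A hA E hE
    r r' hr hr50 hrr hr' => ?_⟩
  have hNr : (1 : ℝ) ≤ N := by exact_mod_cast hN
  have hN0 : (0 : ℝ) < N := by linarith
  have hq1 : (1 : ℝ) ≤ q := by exact_mod_cast Nat.one_le_iff_ne_zero.2 (NeZero.ne q)
  have hs1 : 1 ≤ Real.sqrt N := Real.one_le_sqrt.2 hNr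
  have hYs : Real.sqrt N ≤ Y := by rw [hY]; nlinarith
  have hY1 : 1 ≤ Y := hs1.trans hYs
  have hY0 : 0 < Y := by linarith
  have hb0 : 0 ≤ b₀ := (abs_nonneg _).trans (hb 0)
  have hr8 : r ≤ 1 / 8 := by linarith
  have hQ : ∀ e : ℕ, Continuous fun p : ℝ × ℝ => Qe χ e (circleMap 0 r p.1) (circleMap 0 r p.2) :=
    fun e => gs_qe χ e r
  -- the sum as a functional
  have e1 : ∑ e ∈ Finset.Icc 1 E, (HP E (xv χ i' Y A) B e : ℂ) * Ai χ i N e Y =
      DD χ i N Y r (fun s w => ∑ e ∈ Finset.Icc 1 E, (HP E (xv χ i' Y A) B e : ℂ) *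
        Qe χ e s w) := by
    rw [← gs_sum hχ.ne hN hY0 hr hr8 (c := fun e => (HP E (xv χ i' Y A) B e : ℂ))
      (F := fun e s w => Qe χ e s w) fun e _ => hQ e]
    refine Finset.sum_congr rfl fun e he => ?_
    rw [kr_circ_pr hχ.ne hN (Finset.mem_Icc.1 he).1 hY0 i hr hr8]
    rfl
  have e2 : J3 χ P I K B i i' N Y r r' = DD χ i N Y r (fun s w =>
      1 / (2 * Real.pi * Complex.I) * ∮ z in C(0, r'), H2 χ P I K B Y w s z /
          (z ^ (i' + 1) * (z + s))) := rfl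
  have hc1 : Continuous fun p : ℝ × ℝ => (fun s w => ∑ e ∈ Finset.Icc 1 E,
      (HP E (xv χ i' Y A) B e : ℂ) * Qe χ e s w) (circleMap 0 r p.1) (circleMap 0 r p.2) :=
    continuous_finsetSum _ fun e _ => continuous_const.mul (hQ e)
  have hc2 := gs_h2 hχ.ne hI hP hKI hB hY0 hr hr50 hrr hr' i'
  rw [e1, e2, gs_sub hχ.ne hN hY0 hr hr8 hc1 hc2]
  have hbd := gs_bound (i := i) (Y := Y) hχ.ne hN hr (CL := CL) hY1 hr50 hCG0
    (fun s hs => hCG s (by rwa [mem_closedBall_zero_iff]))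
    (fun s h1 h2 => ((hCL q χ hχ.ne s h1 h2).1).1)
    (C0 := |Ce| * b₀ * q ^ 4 * K ^ 30 * Y ^ (-(1 / 4) : ℝ)) (by positivity)
    (F := fun s w => (∑ e ∈ Finset.Icc 1 E, (HP E (xv χ i' Y A) B e : ℂ) * Qe χ e s w) -
      1 / (2 * Real.pi * Complex.I) * ∮ z in C(0, r'), H2 χ P I K B Y w s z /
          (z ^ (i' + 1) * (z + s))) ?_
  · refine hbd.trans ?_
    have h3 : Y ^ r * (N : ℝ) ^ r * Y ^ (-(1 / 4) : ℝ) ≤ (N : ℝ) ^ (-(1 / 13) : ℝ) := by
      have h4 : Y ^ r * Y ^ (-(1 / 4) : ℝ) ≤ (N : ℝ) ^ ((r + -(1 / 4)) * (1 / 2) : ℝ) := by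
        rw [← Real.rpow_add hY0, mul_comm (r + -(1 / 4)) (1 / 2 : ℝ), Real.rpow_mul hN0.le,
          ← Real.sqrt_eq_rpow]
        exact Real.rpow_le_rpow_of_nonpos (by linarith) hYs (by linarith)
      calc Y ^ r * (N : ℝ) ^ r * Y ^ (-(1 / 4) : ℝ) = (Y ^ r * Y ^ (-(1 / 4) : ℝ)) * (N : ℝ) ^ r := by
            ring
        _ ≤ (N : ℝ) ^ ((r + -(1 / 4)) * (1 / 2) : ℝ) * (N : ℝ) ^ r := by gcongr
        _ = (N : ℝ) ^ ((r + -(1 / 4)) * (1 / 2) + r : ℝ) := by rw [← Real.rpow_add hN0]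
        _ ≤ _ := Real.rpow_le_rpow_of_exponent_le hNr (by linarith)
    calc _ = (2520 * CG * CL ^ 2 * |Ce| * b₀ * q ^ 6 * K ^ 30 * r⁻¹ ^ (i + 1)) *
          (Y ^ r * (N : ℝ) ^ r * Y ^ (-(1 / 4) : ℝ)) := by ring
      _ ≤ (2520 * CG * CL ^ 2 * |Ce| * b₀ * q ^ 6 * K ^ 30 * r⁻¹ ^ (i + 1)) *
          (N : ℝ) ^ (-(1 / 13) : ℝ) := by gcongr
  · intro s w hs hw
    have h5 := hCe q χ hχ I P hI hP K hK hKI B b₀ hB hb Y hY1 A hA E hE w s (by linarith) (by linarith)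
      r' (by linarith) hr'
    refine h5.trans ?_
    gcongr
    exact le_abs_self Ce

end Pool.Agent.LG
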